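import Mathlib
import Pool.Agent.Lib.MP_87d05f_lc.CutFind
import Pool.Agent.Lib.MP_87d05f_lc.Ternary

set_option autoImplicit false

/-!
# MP_87d05f_lc, instances of large girth: definitions

Every statement is about finite lists (of clauses, constraints or edges) over an arbitrary type of
variables or vertices; the reductions keep structured names (pairs, sums), which are turned into
numbers at the very end.
-/

namespace Pool.Agent.Lib.MP_87d05f_lc.HG

open Pool.Agent.Lib.MP_87d05f_lc

/-! ### Girth -/

/-- The incidence graph of a list of constraints, `vs c` being the list of the variables of the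
constraint `c`: a position `q` of the list is joined to the variables of the constraint at this
position. -/
def incG {C V : Type} (vs : C → List V) (F : List C) : SimpleGraph (ℕ ⊕ V) :=
  SimpleGraph.fromRel (fun x y => ∃ q v c, x = Sum.inl q ∧ y = Sum.inr v ∧ F[q]? = some c ∧
    v ∈ vs c)

/-- no constraint contains a variable twice, and the incidence graph has girth more than `g` -/
def HGI {C V : Type} (vs : C → List V) (g : ℕ) (F : List C) : Prop :=
  (∀ c ∈ F, (vs c).Nodup) ∧ (g : ℕ∞) < (incG vs F).egirth

/-- the graph of a list of edges -/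
def gE {V : Type} (E : List (V × V)) : SimpleGraph V :=
  SimpleGraph.fromRel (fun u v => (u, v) ∈ E)

/-! ### Patterns -/

/-- The index graph of a family `H` of lists of `k`-tuples over `Fin N × Fin W`: the place
`(τ, n)` of the `n`-th tuple of the list `H τ` is joined to the first components of its entries. -/
def idxG {T : Type} {k W N : ℕ} (H : T → List (Fin k → Fin N × Fin W)) :
    SimpleGraph ((T × ℕ) ⊕ Fin N) :=
  SimpleGraph.fromRel (fun x y => ∃ τ n i c a, x = Sum.inl (τ, n) ∧ y = Sum.inr i ∧
    (H τ)[n]? = some c ∧ (c a).1 = i)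

/-- Patterns: a family of lists of at most `C * (N * W)` `k`-tuples over `Fin N × Fin W` such that
for arbitrary sets `S₁, …, S_k` the proportion of the tuples in `S₁ × ⋯ × S_k` is, up to `1 / h`,
at least the product of the densities of the sets, every element occurs at most `K` times at a
given place of the tuples, the entries of a tuple have different first components, and the index
graph has girth more than `g`. -/
structure Pat {T : Type} {k W N : ℕ} (h C K g : ℕ) (H : T → List (Fin k → Fin N × Fin W)) :
    Prop where
  len : ∀ τ, (H τ).length ≤ C * (N * W)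
  mix : ∀ τ (S : Fin k → Finset (Fin N × Fin W)),
    ((C * (N * W) : ℕ) : ℚ) * ((∏ a, (((S a).card : ℕ) : ℚ) / ((N * W : ℕ) : ℚ)) - 1 / (h : ℚ)) ≤
      (((H τ).countP (fun p => decide (∀ a, p a ∈ S a)) : ℕ) : ℚ)
  deg : ∀ τ a x, (H τ).countP (fun p => decide (p a = x)) ≤ K
  inj : ∀ τ, ∀ p ∈ H τ, ∀ a b, (p a).1 = (p b).1 → a = b
  girth : (g : ℕ∞) < (idxG H).egirth

/-- the graph on the indices of a family of lists of pairs -/
def eH {T : Type} {W N : ℕ} (H : T → List (Fin 2 → Fin N × Fin W)) : SimpleGraph (Fin N) :=
  SimpleGraph.fromRel (fun i j => ∃ τ, ∃ c ∈ H τ, (c 0).1 = i ∧ (c 1).1 = j)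

/-- Index cycles of a family of tables: different places `p 0, …, p r`, the tuple at `p t` having
the first component `i t` at `a t` and the first component `i (t + 1)` at `b t` (cyclically). -/
def CfgW {T : Type} {k W N R r : ℕ} (ω : T → Fin R → Fin k → Fin N × Fin W)
    (p : Fin (r + 1) → T × Fin R) (a b : Fin (r + 1) → Fin k) (i : Fin (r + 1) → Fin N) : Prop :=
  Function.Injective p ∧ (∀ t, a t ≠ b t) ∧
    ∀ t, (ω (p t).1 (p t).2 (a t)).1 = i t ∧ (ω (p t).1 (p t).2 (b t)).1 = i (t + 1)

/-- index cycles of a family of lists -/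
def CfgH {T : Type} {k W N r : ℕ} (H : T → List (Fin k → Fin N × Fin W))
    (p : Fin (r + 1) → T × ℕ) (a b : Fin (r + 1) → Fin k) (i : Fin (r + 1) → Fin N) : Prop :=
  Function.Injective p ∧ (∀ t, a t ≠ b t) ∧
    ∀ t, ∃ c, (H (p t).1)[(p t).2]? = some c ∧ (c (a t)).1 = i t ∧ (c (b t)).1 = i (t + 1)

/-! ### Lifts of constraint satisfaction problems -/

section csp

variable {s : ℕ} {ar : Fin s → ℕ} {V : Type} [DecidableEq V]

/-- constraints over an arbitrary type of variables -/
abbrev CV (ar : Fin s → ℕ) (V : Type) : Type := (i : Fin s) × (Fin (ar i) → V)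

/-- the variables of a constraint -/
def vsC (c : CV ar V) : List V := List.ofFn c.2

/-- renaming the variables -/
def mapC {V' : Type} (ν : V → V') (c : CV ar V) : CV ar V' := ⟨c.1, fun a => ν (c.2 a)⟩

/-- the assignment satisfies all constraints -/
def satV {d : ℕ} (R : (i : Fin s) → (Fin (ar i) → Fin d) → Bool) (a : V → Fin d)
    (F : List (CV ar V)) : Prop := ∀ c ∈ F, R c.1 (fun j => a (c.2 j)) = true

/-- the number of violated constraints -/
def falV {d : ℕ} (R : (i : Fin s) → (Fin (ar i) → Fin d) → Bool) (a : V → Fin d)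
    (F : List (CV ar V)) : ℕ := F.countP (fun c => !(R c.1 (fun j => a (c.2 j))))

/-- no variable occurs more than `K` times -/
def occK (K : ℕ) (F : List (CV ar V)) : Prop := ∀ v, (F.flatMap vsC).count v ≤ K

/-- the rank of an occurrence of `v` after the constraints `P` -/
def rkC (P : List (CV ar V)) (v : V) : ℕ := (P.flatMap vsC).count v

/-- the type of a constraint, preceded by the constraints `P`: the ranks of its variables -/
def tyC (k K : ℕ) (P : List (CV ar V)) (c : CV ar V) : Fin k → Fin (K + 1) := fun a =>
  if h : (a : ℕ) < ar c.1 then ⟨min (rkC P (c.2 ⟨a, h⟩)) K, by omega⟩ else 0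

/-- the places of the constraints of the lifted instance: the `n`-th copy of the `q`-th
constraint, with the constraint and the tuple used for this copy -/
def liftT {k K N : ℕ} (H : (Fin k → Fin (K + 1)) → List (Fin k → Fin N × Fin 1))
    (F : List (CV ar V)) : List ((CV ar V × ℕ) × ((Fin k → Fin N × Fin 1) × ℕ)) :=
  F.zipIdx.flatMap (fun cq => (H (tyC k K (F.take cq.2) cq.1)).zipIdx.map (fun pn => (cq, pn)))

/-- The lifted instance: every variable has `N` copies, and the copies of a constraint use the
copies of its variables given by the tuples of the pattern of its type. -/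
def liftF {k K N : ℕ} (hk : ∀ i, ar i ≤ k)
    (H : (Fin k → Fin (K + 1)) → List (Fin k → Fin N × Fin 1)) (F : List (CV ar V)) :
    List (CV ar (V × Fin N)) :=
  (liftT H F).map (fun t => ⟨t.1.1.1, fun a => (t.1.1.2 a, (t.2.1 (Fin.castLE (hk _) a)).1)⟩)

end csp

/-- the number of a copy of a variable -/
def nuL {N : ℕ} (x : ℕ × Fin N) : ℕ := unbits (nb (Nat.bits x.1) (x.2 : ℕ))

/-! ### From exact 3-clauses to clauses with three occurrences of every variable -/

/-- the number of symbols of the language of exact 3-clauses -/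
abbrev ar3 : Fin 8 → ℕ := fun _ => 3

/-- the language of exact 3-clauses: the bits of the symbol are the signs -/
def R3 : (i : Fin 8) → (Fin (ar3 i) → Fin 2) → Bool :=
  fun i x => decide (∃ a : Fin 3, decide (x a = 1) = Nat.testBit (i : ℕ) (a : ℕ))

section cnf

variable {V : Type} [DecidableEq V]

/-- the sign of a literal of a 3-clause -/
def sgn3 (c : CV ar3 V) (a : Fin 3) : Bool := Nat.testBit (c.1 : ℕ) (a : ℕ)

/-- the slot used by an occurrence: the positive occurrences use the first `3 * K` slots, the
negative ones the last `3 * K` -/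
def slot3 (K : ℕ) (P : List (CV ar3 V)) (c : CV ar3 V) (a : Fin 3) : ℕ :=
  (bif sgn3 c a then 0 else 3 * K) + (a : ℕ) * K + rkC P (c.2 a)

/-- the clauses with their variables replaced by slots -/
def main3 (K : ℕ) (F : List (CV ar3 V)) : List (List (Bool × (V × ℕ))) :=
  F.zipIdx.map (fun cq => List.ofFn (fun a : Fin 3 =>
    (sgn3 cq.1 a, (cq.1.2 a, slot3 K (F.take cq.2) cq.1 a))))

/-- the chains of implications `(v, 0) → (v, 1) → ⋯ → (v, 6 * K - 1)` -/
def chain3 (K : ℕ) (F : List (CV ar3 V)) : List (List (Bool × (V × ℕ))) :=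
  (ded (F.flatMap vsC)).flatMap (fun v => (List.range (6 * K - 1)).map (fun t =>
    [(false, (v, t)), (true, (v, t + 1))]))

/-- the formula with three occurrences of every variable -/
def cnf3 (K : ℕ) (F : List (CV ar3 V)) : List (List (Bool × (V × ℕ))) := main3 K F ++ chain3 K F

/-- the variables of a clause -/
def vsL (c : List (Bool × V)) : List V := c.map Prod.snd

end cnf

/-- the number of a slot -/
def nu3 (x : ℕ × ℕ) : ℕ := unbits (nb (Nat.bits x.1) x.2)

/-- renaming the variables of a clause -/
def mapL {V V' : Type} (ν : V → V') (c : List (Bool × V)) : List (Bool × V') :=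
  c.map (fun l => (l.1, ν l.2))

/-! ### Graphs of clouds -/

section graph

variable {V : Type} [DecidableEq V]

/-- the ends of the edges -/
def endsE {V : Type} (E : List (V × V)) : List V := E.flatMap (fun e => [e.1, e.2])

/-- the number of vertices that are not isolated -/
def nvE (E : List (V × V)) : ℕ := (endsE E).toFinset.card

/-- the list of the edges of a simple graph of maximum degree at most `D` -/
def SimpD (D : ℕ) (E : List (V × V)) : Prop :=
  (∀ e ∈ E, e.1 ≠ e.2) ∧ E.Pairwise (fun e f => e ≠ f ∧ e ≠ (f.2, f.1)) ∧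
    ∀ v, (endsE E).count v ≤ D

/-- no edge has both ends in the set -/
def IndE {V : Type} (a : V → Bool) (E : List (V × V)) : Prop :=
  ∀ e ∈ E, ¬ (a e.1 = true ∧ a e.2 = true)

/-- the number of vertices of the set that are not isolated -/
def szE (a : V → Bool) (E : List (V × V)) : ℕ :=
  ((endsE E).toFinset.filter (fun v => a v = true)).card

/-- the rank of an edge end at `v` after the edges `P` -/
def rkE (P : List (V × V)) (v : V) : ℕ := (endsE P).count v

/-- the edges inside the clouds: the cloud of a vertex `v` is the graph `CL[col v]` -/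
def intE {L : Type} (col : V → ℕ) (CL : List (List (L × L))) (E : List (V × V)) :
    List ((V × L) × (V × L)) :=
  (ded (endsE E)).flatMap (fun v => (CL.getD (col v) []).map (fun z => ((v, z.1), (v, z.2))))

/-- the edges between the clouds: an edge with ranks `r` and `r'` at its ends gives the edges
`XL[r][r']` between the two clouds -/
def extE {L : Type} (XL : List (List (List (L × L)))) (E : List (V × V)) :
    List ((V × L) × (V × L)) :=
  E.zipIdx.flatMap (fun eq => ((XL.getD (rkE (E.take eq.2) eq.1.1) []).getD
    (rkE (E.take eq.2) eq.1.2) []).map (fun z => ((eq.1.1, z.1), (eq.1.2, z.2))))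

/-- the graph of clouds -/
def cloudE {L : Type} (col : V → ℕ) (CL : List (List (L × L)))
    (XL : List (List (List (L × L)))) (E : List (V × V)) : List ((V × L) × (V × L)) :=
  intE col CL E ++ extE XL E

/-- the threshold of the graph of clouds -/
def thrE (col : V → ℕ) (wt : List ℕ) (N : ℕ) (I : ℕ × List (V × V)) : ℕ :=
  ((ded (endsE I.2)).map (fun v => wt.getD (col v) 0)).sum + N * I.1

end graph

/-- the number of a vertex of a cloud -/
def nuG {L : Type} [Encodable L] (x : ℕ × L) : ℕ := unbits (nb (Nat.bits x.1) (Encodable.encode x.2))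

/-- the colour of a vertex, coded in its name -/
def colN (v : ℕ) : ℕ := (unb (Nat.bits v)).2 % 3

/-- renaming the vertices of a list of edges -/
def mapE {V V' : Type} (ν : V → V') (E : List (V × V)) : List (V' × V') :=
  E.map (fun e => (ν e.1, ν e.2))

/-- the problem of the independence number: accept -/
def YI (I : ℕ × List (ℕ × ℕ)) : Prop := ∃ a : ℕ → Bool, IndE a I.2 ∧ I.1 ≤ szE a I.2

/-- the problem of the independence number: reject -/
def NI (ε : ℚ) (I : ℕ × List (ℕ × ℕ)) : Prop :=
  ∀ a : ℕ → Bool, IndE a I.2 → ((szE a I.2 : ℕ) : ℚ) < (1 - ε) * (I.1 : ℚ)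

/-! ### The subdivided graph and the clouds for the maximum cut -/

/-- the vertices of the subdivided graph -/
abbrev SubV : Type := ℕ ⊕ (ℕ × Bool)

/-- every edge is replaced by a path of three edges -/
def subE (E : List (ℕ × ℕ)) : List (SubV × SubV) :=
  E.zipIdx.flatMap (fun eq => [(Sum.inl eq.1.1, Sum.inr (eq.2, false)),
    (Sum.inr (eq.2, false), Sum.inr (eq.2, true)), (Sum.inr (eq.2, true), Sum.inl eq.1.2)])

/-- the number of a vertex of the subdivided graph; its colour is `0`, `1`, `2` for the three
kinds of vertices -/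
def nuS (x : SubV) : ℕ := Sum.elim (fun v => unbits (nb (Nat.bits v) 0))
  (fun qb => unbits (nb (List.replicate qb.1 false) (bif qb.2 then 2 else 1))) x

/-- The vertices of a cloud for the maximum cut: the slots `(x, l)`, the vertices between the slots
`(x, l)` and `(x, l + 1)`, and the vertices in the middle of the links of the pattern. -/
abbrev LocA (N : ℕ) : Type := ((Fin N × Fin 3) × ℕ) ⊕ (((Fin N × Fin 3) × ℕ) ⊕ ℕ)

/-- a slot -/
abbrev slA {N : ℕ} (x : Fin N × Fin 3) (l : ℕ) : LocA N := Sum.inl (x, l)
/-- the vertex between two slots -/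
abbrev sgA {N : ℕ} (x : Fin N × Fin 3) (l : ℕ) : LocA N := Sum.inr (Sum.inl (x, l))
/-- the vertex in the middle of a link -/
abbrev hmA {N : ℕ} (n : ℕ) : LocA N := Sum.inr (Sum.inr n)

/-- the paths through the slots `(x, 0), …, (x, m)` -/
def segA (N m : ℕ) : List (LocA N × LocA N) :=
  ((List.finRange N).flatMap (fun i => (List.finRange 3).map (fun r => (i, r)))).flatMap
    (fun x => (List.range m).flatMap (fun l => [(slA x l, sgA x l), (sgA x l, slA x (l + 1))]))

/-- the links: a pair uses the slots `1, …, K` of its first and the slots `K + 1, …, 2 * K` of its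
second element -/
def lnkA {N : ℕ} (K : ℕ) (L : List (Fin 2 → Fin N × Fin 3)) : List (LocA N × LocA N) :=
  L.zipIdx.flatMap (fun pn =>
    [(slA (pn.1 0) (1 + (L.take pn.2).countP (fun p => decide (p 0 = pn.1 0))), hmA pn.2),
     (hmA pn.2, slA (pn.1 1) (1 + K + (L.take pn.2).countP (fun p => decide (p 1 = pn.1 1))))])

/-- a cloud for the maximum cut -/
def clA {N : ℕ} (K : ℕ) (L : List (Fin 2 → Fin N × Fin 3)) : List (LocA N × LocA N) :=
  segA N (2 * K) ++ lnkA K L

/-- the clouds of the three colours -/
def CLA {N : ℕ} (K : ℕ) (H : Fin 3 → List (Fin 2 → Fin N × Fin 3)) :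
    List (List (LocA N × LocA N)) := [clA K (H 0), clA K (H 1), clA K (H 2)]

/-- the edges between the clouds join the slots with number `0` -/
def XLA (N : ℕ) : List (List (List (LocA N × LocA N))) :=
  (List.finRange 3).map (fun r => (List.finRange 3).map (fun r' =>
    (List.finRange N).map (fun i => (slA (i, r) 0, slA (i, r') 0))))

/-! ### The clouds for the independence number -/

/-- the vertices of a cloud for the independence number: slots and vertices between slots -/
abbrev LocI (N : ℕ) : Type := (Fin N × ℕ) ⊕ (Fin N × ℕ)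

/-- a slot -/
abbrev slI {N : ℕ} (j : Fin N) (l : ℕ) : LocI N := Sum.inl (j, l)
/-- the vertex between two slots -/
abbrev sgI {N : ℕ} (j : Fin N) (l : ℕ) : LocI N := Sum.inr (j, l)

/-- the paths through the slots `(j, 0), …, (j, m)` -/
def clI (N m : ℕ) : List (LocI N × LocI N) :=
  (List.finRange N).flatMap
    (fun j => (List.range m).flatMap (fun l => [(slI j l, sgI j l), (sgI j l, slI j (l + 1))]))

/-- the edges between the clouds for the ranks `r`, `r'` -/
def lnkI {N : ℕ} (D K r r' : ℕ) (L : List (Fin 2 → Fin N × Fin 1)) : List (LocI N × LocI N) :=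
  L.zipIdx.map (fun pn =>
    (slI (pn.1 0).1 (r * K + (L.take pn.2).countP (fun p => decide (p 0 = pn.1 0))),
     slI (pn.1 1).1 ((D + r') * K + (L.take pn.2).countP (fun p => decide (p 1 = pn.1 1)))))

/-- the edges between the clouds -/
def XLI {N D : ℕ} (K : ℕ) (H : Fin D × Fin D → List (Fin 2 → Fin N × Fin 1)) :
    List (List (List (LocI N × LocI N))) :=
  (List.finRange D).map (fun r : Fin D => (List.finRange D).map (fun r' : Fin D =>
    lnkI D K (r : ℕ) (r' : ℕ) (H (r, r'))))

/-- the clouds: there are `2 * D * K` slots -/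
def CLI (N D K : ℕ) : List (List (LocI N × LocI N)) := List.replicate 3 (clI N (2 * D * K - 1))

end Pool.Agent.Lib.MP_87d05f_lc.HG
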