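import Pool.Agent.Lib.MP_87d05f_lc.HG.Defs

set_option autoImplicit false

/-!
# MP_87d05f_lc, instances of large girth: the statements of the pieces

Aim (`Results/MP_87d05f_lc/HighGirth.lean`): Q1 is equivalent to its versions for instances of
girth more than `g`, for every fixed `g`, with a gap `ε` that does not depend on `g` (only the
constant `b` of the running time does): for 3-CNF formulas in which every variable occurs at most
three times (girth of the incidence graph), for the maximum cut (also search) and the independence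
number of graphs of maximum degree three, and for every constraint language with a minor-preserving
map to the projections.

Plan. (1) `S_PAT`: patterns exist, by counting. (2) `S_GIR`, `S_GEN`, `S_E1`: the girth. (3) The
lift of a constraint satisfaction problem (`S_LY`, `S_LN`, `S_LO`, `S_LG`, machine `S_LTR`,
assembly `S_CSP`). (4) From exact 3-clauses to three occurrences (`S_R3`, `S_CY`, `S_CN`, `S_CO`,
`S_CG`, machine `S_CTR`, assembly `S_CNF`). (5) Graphs of clouds, machine `S_GTR`: the independence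
number (`S_IB`, `S_I1`, `S_I2`, `S_I3`, `S_I4`, assembly `S_IND`, converse `S_IR`) and the maximum
cut (`S_SUB`, `S_A1`, `S_A2`, `S_A3`, `S_A4`, `S_A5`, assembly `S_CUT`, search `S_CF`).
-/

namespace Pool.Agent.Lib.MP_87d05f_lc.HG

open Pool.Agent.Lib.MP_87d05f_lc Pool.Agent.PolyTime Turing

/-! ## Patterns -/

/-- [HG MGF] Chernoff's bound by counting.

Proof. If `R (P - η) ≤ 0` (`P = |G| / |Y|`) no `ω` is counted. Otherwise, with `z = 1 - η / 2`:
`∑_ω z ^ (number of p with ω p ∈ G) = (∑_y z ^ [y ∈ G]) ^ R = |Y| ^ R (1 - (1 - z) P) ^ R ≤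
|Y| ^ R exp (- R P η / 2)` (`Finset.prod_univ_sum` or `Fintype.piFinset`), and the left side is at
least `z ^ (R (P - η))` (real power) times the number of the counted `ω`; `log z ≥ - s - s ^ 2` for
`s = η / 2 ∈ [0, 1 / 2]`; the exponent is `R (-s P + (s + s ^ 2) (P - η)) ≤ R (s ^ 2 - s η) =
- R η ^ 2 / 4`. -/
def S_MGF : Prop := ∀ (Y : Type) [Fintype Y] [DecidableEq Y] [Nonempty Y] (G : Finset Y) (R : ℕ)
  (η : ℝ), 0 < η → η ≤ 1 →
  ((Nat.card {ω : Fin R → Y // (((Finset.univ.filter (fun p => ω p ∈ G)).card : ℕ) : ℝ) <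
    (R : ℝ) * ((G.card : ℝ) / (Fintype.card Y : ℝ) - η)} : ℕ) : ℝ) ≤
    (Fintype.card Y : ℝ) ^ R * Real.exp (-(η ^ 2 * R / 4))

/-- [HG MIX] Most tables have the product property. (Uses `S_MGF`.)

Proof. `S_MGF` with `Y = Fin k → X`, `G` = the tuples in `S_1 × ⋯ × S_k` (`Fintype.piFinset`, so
`|G| / |Y| = ∏ |S_a| / |X|`), `η = 1 / h`, `R = C |X|`; union over the `(2 ^ |X|) ^ k` families
`S`: `2 ^ (k |X|) exp (- C |X| / (4 h ^ 2)) ≤ exp (|X| (k log 2 - (k + 3))) ≤ exp (-3) < 1 / 8`. -/
def S_MIX : Prop := ∀ (k h C : ℕ), 0 < h → 4 * (k + 3) * h ^ 2 ≤ C →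
  ∀ (X : Type) [Fintype X] [DecidableEq X] [Nonempty X],
  8 * Nat.card {ω : Fin (C * Fintype.card X) → (Fin k → X) // ∃ S : Fin k → Finset X,
    (((Finset.univ.filter (fun p => ∀ a, ω p a ∈ S a)).card : ℕ) : ℚ) <
      ((C * Fintype.card X : ℕ) : ℚ) *
        ((∏ a, (((S a).card : ℕ) : ℚ) / ((Fintype.card X : ℕ) : ℚ)) - 1 / (h : ℚ))} ≤
    Nat.card (Fin (C * Fintype.card X) → (Fin k → X))

/-- [HG DEG] In most tables few tuples meet an overloaded element.

Proof. `K = 8 * h * k * (1 + C) + 1`. With `R = C |X|`, `load a p = number of p' with ω p' a = ω p a`: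
the number `D ω` of the `p` with `load a p > K` for some `a` satisfies `K * D ω ≤ ∑_a ∑_p load a p`,
and `∑_ω load a p = |Ω| (1 + (R - 1) / |X|)` (for `p' ≠ p` the proportion of the `ω` with
`ω p' a = ω p a` is `1 / |X|`), so `∑_ω K * D ω ≤ |Ω| k R (1 + C)`; Markov. -/
def S_DEG : Prop := ∀ (k C h : ℕ), 0 < h → ∃ K : ℕ, 0 < K ∧
  ∀ (X : Type) [Fintype X] [DecidableEq X] [Nonempty X],
  8 * Nat.card {ω : Fin (C * Fintype.card X) → (Fin k → X) // C * Fintype.card X <
    h * (Finset.univ.filter (fun p => ∃ a,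
      K < (Finset.univ.filter (fun p' => ω p' a = ω p a)).card)).card} ≤
    Nat.card (Fin (C * Fintype.card X) → (Fin k → X))

/-- [HG CFG] The average number of index cycles.

Proof. There are at most `(|T| R) ^ (r + 1) * k ^ (2 (r + 1)) * N ^ (r + 1)` triples `p, (a, b), i`.
For fixed `p` injective, `a t ≠ b t`, `i`, the `2 (r + 1)` coordinates `((p t), a t)`, `((p t), b t)`
of `ω` (a function on `T × Fin R × Fin k`) are different, and the proportion of the `ω` with
prescribed first components at `m` different coordinates is `1 / N ^ m`. -/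
def S_CFG : Prop := ∀ (T : Type) [Fintype T] [DecidableEq T] (k W N R r : ℕ), 0 < N → 0 < W →
  N ^ (r + 1) * Nat.card {x : (T → Fin R → Fin k → Fin N × Fin W) × (Fin (r + 1) → T × Fin R) ×
    (Fin (r + 1) → Fin k) × (Fin (r + 1) → Fin k) × (Fin (r + 1) → Fin N) //
      CfgW x.1 x.2.1 x.2.2.1 x.2.2.2.1 x.2.2.2.2} ≤
    (Fintype.card T * R * k ^ 2) ^ (r + 1) * Nat.card (T → Fin R → Fin k → Fin N × Fin W)

/-- [HG IDX] Without index cycles the index graph has large girth.

Proof. A cycle of length at most `g` of `idxG H` alternates between places and indices, its length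
is `2 (r + 1)` with `r ≥ 1`; `p t` are its places and `i t` its indices, `p t` being between `i t`
and `i (t + 1)`; choose `a t`, `b t` with `(c (a t)).1 = i t`, `(c (b t)).1 = i (t + 1)`, where `c`
is the tuple at `p t`; `a t ≠ b t` because `i t ≠ i (t + 1)`. -/
def S_IDX : Prop := ∀ (T : Type) (k W N g : ℕ) (H : T → List (Fin k → Fin N × Fin W)),
  (∀ r : ℕ, 2 * (r + 1) ≤ g → ∀ (p : Fin (r + 1) → T × ℕ) (a b : Fin (r + 1) → Fin k)
    (i : Fin (r + 1) → Fin N), ¬ CfgH H p a b i) → (g : ℕ∞) < (idxG H).egirth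

/-- [HG PAT] Patterns exist; `C` and `K` depend on `k` and `h` only. (Uses `S_MIX`, `S_DEG`, `S_CFG`,
`S_IDX`.)

Proof. We may assume `g ≥ 2`. `C = 4 (k + 3) (2 h) ^ 2`, `K` from `S_DEG` for `4 * h`. `X = Fin N × Fin W`,
`R = C |X|`. By `S_MIX` (for `2 * h`) and `S_DEG` (for `4 * h`) the set `Ω₀` of the good tables has
at least half of the elements of `Ω = Fin R → Fin k → X`. By `S_CFG` (with `R = C N W`) the sum over
`ω : T → Ω` of `f ω = ∑_(r < g) (r + 1) * (number of index cycles of size r)` is at most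
`|Ω| ^ |T| * A`, `A = ∑_(r < g) (r + 1) (|T| C W k ^ 2) ^ (r + 1)`, independent of `N`. So some
`ω : T → Ω₀` has `f ω ≤ 2 ^ |T| * A ≤ R / (4 h)` for `N` large. `H τ` = the list of the `ω τ n`,
`n < R`, without the `n` for which `(τ, n)` is in an index cycle of some size `r < g` (at most
`f ω`) and without those with an overloaded entry (at most `R / (4 h)`). `mix`: we lose at most
`R / (2 h)`. `inj`: index cycles with `r = 0`. `girth`: `S_IDX`. -/
def S_PAT : Prop := ∀ (k h : ℕ), 0 < h → ∃ C K : ℕ, 2 ≤ C ∧ 0 < K ∧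
  ∀ (T : Type) [Finite T] (W g : ℕ), 0 < W → ∃ N : ℕ, 0 < N ∧
    ∃ H : T → List (Fin k → Fin N × Fin W), Pat h C K g H

/-! ## Girth -/

/-- [HG GIR] The girth by closed walks without backtracking.

Proof. `→`: let `u` be periodic with `u i ≠ u (i + 2)` for all `i`. Take `i < j`, `u i = u j`, with
`j - i` minimal (so `j - i ≤ r`; `j - i ≥ 3`): the walk from `u i` to `u j` is a cycle, so
`G.egirth ≤ j - i`. `←`: if `G.egirth ≤ g` there is a cycle of length `r ≤ g`; its vertices, repeated
periodically, satisfy `u i ≠ u (i + 2)` (`r ≥ 3`). -/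
def S_GIR : Prop := ∀ (V : Type) (G : SimpleGraph V) (g : ℕ), (g : ℕ∞) < G.egirth ↔
  ∀ r : ℕ, 1 ≤ r → r ≤ g → ∀ u : ℕ → V, (∀ i, u (i + r) = u i) →
    (∀ i, G.Adj (u i) (u (i + 1))) → ∃ i, u i = u (i + 2)

/-- [HG GEN] The girth of a graph mapped to a graph of large girth; edges inside the fibres are
stutters, their graph is a forest by the function `dep`. (Uses `S_GIR`.)

Proof. Let `u` be a closed walk of `G'` without backtracking, of period `r ≤ g`. (A) There is no
closed walk `x 0, …, x L = x 0`, `L ≥ 1`, of stutters with `x i ≠ x (i + 2)` for `i + 2 ≤ L`: take a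
vertex of maximal depth; an inner one has two different stutter neighbours of at most its depth,
impossible; so the maximum is at the end `x 0 = x L` only, and `x 1 = x (L - 1)` by the hypothesis
on `dep`; induction with `x 1, …, x (L - 1)` (`L ≤ 2` is impossible anyway). (B) So `u` has times
`t` with `φ (u t) ≠ φ (u (t + 1))` (crossings); the successive values `φ (u (t + 1))` at the
crossings form a closed walk `v` of `G` with period at most `r`, so by `S_GIR` there are successive
crossings `t < t' `, with `φ (u t) = φ (u (t' + 1))`. `x = u (t + 1)`, `x' = u t'` are joined by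
stutters, so `φ` and `κ` agree, and the last hypothesis for `y = u t`, `y' = u (t' + 1)` gives
`x = x'`, `y = y'`. If `t' = t + 1`, `u t = u (t + 2)`, contradiction; otherwise `u (t + 1), …, u t'`
contradicts (A). -/
def S_GEN : Prop := ∀ (V V' Z : Type) (G : SimpleGraph V) (G' : SimpleGraph V') (φ : V' → V)
  (κ : V' → Z) (dep : V' → ℕ) (g : ℕ),
  (∀ x y, G'.Adj x y → φ x ≠ φ y → G.Adj (φ x) (φ y)) →
  (∀ x y, G'.Adj x y → φ x = φ y → κ x = κ y) →
  (∀ x y z, G'.Adj x y → G'.Adj x z → φ y = φ x → φ z = φ x → dep y ≤ dep x → dep z ≤ dep x →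
    y = z) →
  (∀ x x' y y', G'.Adj x y → G'.Adj x' y' → φ x = φ x' → κ x = κ x' → φ y = φ y' → φ y ≠ φ x →
    x = x' ∧ y = y') →
  (g : ℕ∞) < G.egirth → (g : ℕ∞) < G'.egirth

/-- [HG E1] The graph on the indices, for pairs. (Uses `S_GIR`.)

Proof. With `S_GIR`. A closed walk without backtracking in `eH H` gives one of twice the length in
`idxG H` by inserting the places (a place has exactly two neighbours, so at an index `i t` the two
places are different because `i (t - 1) ≠ i (t + 1)`). Two different places joining the same pair of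
indices give a closed walk of length four without backtracking. -/
def S_E1 : Prop := ∀ (T : Type) (W N g : ℕ) (H : T → List (Fin 2 → Fin N × Fin W)),
  (∀ τ, ∀ c ∈ H τ, (c 0).1 ≠ (c 1).1) → ((2 * g + 4 : ℕ) : ℕ∞) < (idxG H).egirth →
  (g : ℕ∞) < (eH H).egirth ∧
  ∀ (τ τ' : T) (n n' : ℕ) (c c' : Fin 2 → Fin N × Fin W), (H τ)[n]? = some c →
    (H τ')[n']? = some c' →
    (((c 0).1 = (c' 0).1 ∧ (c 1).1 = (c' 1).1) ∨ ((c 0).1 = (c' 1).1 ∧ (c 1).1 = (c' 0).1)) →
    τ = τ' ∧ n = n'

/-- [HG RNG] Renaming the vertices of a graph. (Uses `S_GEN`.)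

Proof. The girth: `S_GEN` with `φ` a left inverse of `ν` (all vertices outside the image are
isolated), `κ = id`; the rest is direct. -/
def S_RNG : Prop := ∀ (V V' : Type) [DecidableEq V] [DecidableEq V'] (ν : V → V'),
  Function.Injective ν → ∀ E : List (V × V),
    (∀ D, SimpD D E → SimpD D (mapE ν E)) ∧
    (∀ g : ℕ, (g : ℕ∞) < (gE E).egirth → (g : ℕ∞) < (gE (mapE ν E)).egirth) ∧
    nvE (mapE ν E) = nvE E ∧
    (∀ a' : V' → Bool, (mapE ν E).countP (cutE a') = E.countP (cutE (fun v => a' (ν v))) ∧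
      (IndE a' (mapE ν E) ↔ IndE (fun v => a' (ν v)) E) ∧
      szE a' (mapE ν E) = szE (fun v => a' (ν v)) E) ∧
    (∀ a : V → Bool, ∃ a' : V' → Bool, ∀ v, a' (ν v) = a v)

/-- [HG RNC] Renaming the variables of constraints and clauses. (Uses `S_GEN`.)

Proof. As `S_RNG`. -/
def S_RNC : Prop :=
  (∀ (s : ℕ) (ar : Fin s → ℕ) (V V' : Type) [DecidableEq V] [DecidableEq V'] (ν : V → V'),
    Function.Injective ν → ∀ F : List (CV ar V),
      (∀ K, occK K F → occK K (F.map (mapC ν))) ∧
      (∀ g, HGI vsC g F → HGI vsC g (F.map (mapC ν))) ∧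
      (∀ (d : ℕ) (a : V → Fin d), 0 < d → ∃ a' : V' → Fin d, ∀ v, a' (ν v) = a v)) ∧
  (∀ (V V' : Type) (ν : V → V'), Function.Injective ν →
    ∀ F : List (List (Bool × V)), ∀ g, HGI vsL g F → HGI vsL g (F.map (mapL ν)))

/-- [HG INJ] The names are injective.

Proof. `bits_unbits`, `nb_inj`, `nb_end`, `unb_nb`, `bits_injective` (as `bits_unbits_nmC`). -/
def S_INJ : Prop := (∀ N, Function.Injective (nuL (N := N))) ∧ Function.Injective nu3 ∧
  (∀ (L : Type) [Encodable L], Function.Injective (nuG (L := L))) ∧ Function.Injective nuS ∧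
  (∀ x : SubV, colN (nuS x) = Sum.elim (fun _ => 0) (fun qb => bif qb.2 then 2 else 1) x)

/-! ## The lift of a constraint satisfaction problem -/

/-- [HG LY] satisfiable instances have satisfiable lifts -/
def S_LY : Prop := ∀ (s d k K N : ℕ) (ar : Fin s → ℕ) (V : Type) [DecidableEq V]
  (hk : ∀ i, ar i ≤ k) (H : (Fin k → Fin (K + 1)) → List (Fin k → Fin N × Fin 1))
  (R : (i : Fin s) → (Fin (ar i) → Fin d) → Bool) (F : List (CV ar V)) (a : V → Fin d),
  satV R a F → satV R (fun x : V × Fin N => a x.1) (liftF hk H F)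

/-- [HG LN] lifts of instances far from satisfiable

Proof. `a v` = a value taken by `a'` on at least `N / d` of the copies of `v`, `S_v` = the set of
these copies. For a constraint violated by `a` the copies whose tuple is in `∏ S_(x_a)` (all of
`Fin N` at the places `≥ ar i`) are violated by `a'`; by `mix` there are at least
`C N (d ^ (-k) - 1 / (2 d ^ k))` of them. Sum over the constraints (`liftF` is a `flatMap`). -/
def S_LN : Prop := ∀ (s d k K N C K' g : ℕ) (ar : Fin s → ℕ) (V : Type) [DecidableEq V]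
  (hk : ∀ i, ar i ≤ k) (H : (Fin k → Fin (K + 1)) → List (Fin k → Fin N × Fin 1))
  (R : (i : Fin s) → (Fin (ar i) → Fin d) → Bool) (F : List (CV ar V)),
  0 < d → 0 < N → Pat (2 * d ^ k) C K' g H → ∀ a' : V × Fin N → Fin d, ∃ a : V → Fin d,
    C * N * falV R a F ≤ 2 * d ^ k * falV R a' (liftF hk H F)

/-- [HG LO] the size of the lift

Proof. An occurrence of `v` at the place `a` of a constraint gives at most `K'` occurrences of
`(v, j)` (`deg` with `x = (j, 0)`). Length: `len`. Nonempty: `mix` with all sets equal to `univ`. -/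
def S_LO : Prop := ∀ (s k K N h C K' g : ℕ) (ar : Fin s → ℕ) (V : Type) [DecidableEq V]
  (hk : ∀ i, ar i ≤ k) (H : (Fin k → Fin (K + 1)) → List (Fin k → Fin N × Fin 1))
  (F : List (CV ar V)), 2 ≤ h → 0 < C → 0 < N → Pat h C K' g H → occK K F →
  occK (K * K') (liftF hk H F) ∧ (liftF hk H F).length ≤ C * N * F.length ∧
    (F ≠ [] → liftF hk H F ≠ [])

/-- [HG LG] the girth of the lift (Uses `S_GEN`.)

Proof. `Nodup`: `inj`. Girth: `S_GEN` with `G = idxG H`, `κ = id`, `dep = 0`, `φ (inr (v, j)) = inr j`,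
`φ (inl m) = inl (type, n)` if the `m`-th element of `liftT H F` is `((c, q), (p, n))`, the type
being `tyC k K (F.take q) c` (for `m ≥` the length anything). There are no stutters. The last
hypothesis with `x = x'` (`κ = id`): if `x = inl m`, `y = (c.2 a, (p a).1)`, `y' = (c.2 b, (p b).1)`
with `(p a).1 = (p b).1`, so `a = b` by `inj`. If `x = inr (v, j)`, `y = inl m`, `y' = inl m'`, with
the same type and the same `n`, so the same tuple `p`, `(p a).1 = j = (p b).1`, so `a = b`; `v` is at
the place `a` of the `q`-th and of the `q'`-th constraint, with the same rank (the ranks are less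
than `K` by `occK K F`), so `q = q'` and `m = m'` (`liftT H F` has no repetition). -/
def S_LG : Prop := ∀ (s k K N h C K' g : ℕ) (ar : Fin s → ℕ) (V : Type) [DecidableEq V]
  (hk : ∀ i, ar i ≤ k) (H : (Fin k → Fin (K + 1)) → List (Fin k → Fin N × Fin 1))
  (F : List (CV ar V)), Pat h C K' g H → occK K F → HGI vsC g (liftF hk H F)

/-- [HG LTR] the lift is computed in polynomial time

Proof. `transfer` (Transfer.lean). On words: `parseW (codeC F) = F.map wordC` (`codeC_eq`,
`parseW_encW`), `G.zipIdx.flatMap` of a constant table lookup (the types as numbers in base `K + 1`;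
ranks by counting the words of the variables in `(G.take q)`), names `nb w j`. `h x =
mydiv (parseW x).length b`. `B` = 1 + the maximal length of the lists `H τ`. Compare `CutRed.lean`,
`CspFwd.lean`, `CspMain.lean`. -/
def S_LTR : Prop := ∀ (s k K N : ℕ) (ar : Fin s → ℕ) (hk : ∀ i, ar i ≤ k)
  (H : (Fin k → Fin (K + 1)) → List (Fin k → Fin N × Fin 1)), ∃ B : ℕ, 0 < B ∧
  ∀ (V₁ Y₁ N₁ V₂ Y₂ N₂ : List (Con ar) → Prop) (b : ℕ), 0 < b →
    (∀ F, V₁ F → V₂ ((liftF hk H F).map (mapC nuL)) ∧
      (Y₁ F → Y₂ ((liftF hk H F).map (mapC nuL))) ∧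
      (N₁ F → N₂ ((liftF hk H F).map (mapC nuL)))) →
    GSep (codeC (ar := ar)) V₂ Y₂ N₂ List.length (B * b) →
    GSep (codeC (ar := ar)) V₁ Y₁ N₁ List.length b

/-- [HG CSP] all constraint languages (Uses `S_PAT`, `S_RNC`, `S_INJ`, `S_LY`, `S_LN`, `S_LO`, `S_LG`,
`S_LTR`.)

Proof. `csp_main hR sepK_of_not sparse_of` gives `K₀, ε₀, b₀` with no separator on `VK K₀`. `d > 0`
(`minHom_pos`), `k` a bound of the arities, `h = 2 d ^ k`, `C`, `K'` from `S_PAT`; the result holds
with `K = K₀ K'`, `ε = ε₀ / (2 d ^ k)`: for given `g` take `N`, `H` for the types `Fin k → Fin (K₀ + 1)`,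
`W = 1`; `b = B b₀`. (`falV R a' (F.map (mapC ν)) = falV R (a' ∘ ν) F`.) -/
def S_CSP : Prop := ∀ (s d : ℕ) (ar : Fin s → ℕ) (R : (i : Fin s) → (Fin (ar i) → Fin d) → Bool),
  MinHom R → GapETH → ∃ K : ℕ, ∃ ε : ℚ, 0 < ε ∧ ε < 1 ∧ ∀ g : ℕ, ∃ b : ℕ, 0 < b ∧
    ¬ GSep (codeC (ar := ar)) (fun F => VK K F ∧ HGI (vsC (ar := ar) (V := ℕ)) g F) (YC R)
      (NC R ε) List.length b

/-! ## Three occurrences -/

/-- [HG R3] the language of exact 3-clauses is hard

Proof. `minHom_boolean`; the six conditions by `decide` after choosing symbols and tuples. -/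
def S_R3 : Prop := MinHom R3

/-- [HG CY] satisfiable instances

Proof. `a' (v, t) = decide (a v = 1)`. -/
def S_CY : Prop := ∀ (K : ℕ) (V : Type) [DecidableEq V] (F : List (CV ar3 V)) (a : V → Fin 2),
  satV R3 a F → ∀ c ∈ cnf3 K F, ∃ l ∈ c, decide (a l.2.1 = 1) = l.1

/-- [HG CN] instances far from satisfiable

Proof. `a v = 1` iff `a' (v, 3 * K)`. If no clause of the chain of `v` is falsified, `a'` is
nondecreasing along the chain, so a true positive slot (`< 3 * K`) gives `a v = 1` and a false
negative slot (`≥ 3 * K`) gives `a v = 0`. So a clause violated by `a` but satisfied by `a'` has a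
variable with a broken chain; every variable occurs at most `K` times and different variables have
different chains. -/
def S_CN : Prop := ∀ (K : ℕ) (V : Type) [DecidableEq V] (F : List (CV ar3 V)), occK K F →
  ∀ a' : V × ℕ → Bool, ∃ a : V → Fin 2,
    falV R3 a F ≤ (K + 1) * (cnf3 K F).countP (fun c => !(c.any (fun l => a' l.2 == l.1)))

/-- [HG CO] the size of the formula and the occurrences

Proof. A slot `(v, t)` is in at most one clause of `main3` (the slot determines the sign, the place
and the rank of the occurrence, hence the occurrence) and in at most two clauses of `chain3`. The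
length is `F.length + (6 K - 1) * (number of variables)`. -/
def S_CO : Prop := ∀ (K : ℕ) (V : Type) [DecidableEq V] (F : List (CV ar3 V)),
  (cnf3 K F).length ≤ (18 * K + 1) * F.length ∧ (F ≠ [] → cnf3 K F ≠ []) ∧
  (∀ c ∈ cnf3 K F, c.length ≤ 3) ∧ [] ∉ cnf3 K F ∧
  (occK K F → (∀ c ∈ F, (vsC c).Nodup) →
    ∀ x, ((cnf3 K F).flatten.map Prod.snd).count x ≤ 3)

/-- [HG CG] the girth (Uses `S_GEN`.)

Proof. `S_GEN` with `G = incG vsC F`, `κ = φ`: `φ (inr (v, t)) = inr v`, `φ (inl m) = inl m` for
`m < F.length` (the clauses of `main3`), and for `m ≥ F.length` the `m`-th clause is the `t`-th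
clause of the chain of some `v`, `φ (inl m) = inr v`. Depths: `2 t` for `(v, t)`, `2 t + 1` for the
`t`-th clause of a chain, `0` for the others. The last hypothesis: `x = (v, t)`, `x' = (v, t')` slots
in the clause `m` (`v` occurs once in the constraint, so `t = t'`), or `x = x' = inl m` and `y`, `y'`
slots of the same variable. `Nodup` of the clauses is direct. -/
def S_CG : Prop := ∀ (K g : ℕ) (V : Type) [DecidableEq V] (F : List (CV ar3 V)), occK K F →
  HGI vsC g F → HGI vsL g (cnf3 K F)

/-- [HG CTR] the formula is computed in polynomial time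

Proof. As `S_LTR`, with the target encoding `encF` (compare `Split.lean`, `Occ3.lean`, `Enc3.lean`
for encodings of formulas with named variables). `B = 18 * K + 1` (`S_CO` may be used, or count). -/
def S_CTR : Prop := ∀ K : ℕ, ∃ B : ℕ, 0 < B ∧
  ∀ (V₁ Y₁ N₁ : List (Con ar3) → Prop) (V₂ Y₂ N₂ : List (List (Bool × ℕ)) → Prop) (b : ℕ), 0 < b →
    (∀ F, V₁ F → V₂ ((cnf3 K F).map (mapL nu3)) ∧ (Y₁ F → Y₂ ((cnf3 K F).map (mapL nu3))) ∧
      (N₁ F → N₂ ((cnf3 K F).map (mapL nu3)))) →
    GSep encF V₂ Y₂ N₂ List.length (B * b) →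
    GSep (codeC (ar := ar3)) V₁ Y₁ N₁ List.length b

/-- [HG CNF] 3-CNF formulas with three occurrences (Uses `S_CSP`, `S_R3`, `S_RNC`, `S_INJ`, `S_CY`,
`S_CN`, `S_CO`, `S_CG`, `S_CTR`.)

Proof. `S_CSP` for `R3` gives `K`, `ε₀`; `ε = ε₀ / ((K + 1) (18 K + 1))`. -/
def S_CNF : Prop := GapETH → ∃ ε : ℚ, 0 < ε ∧ ε < 1 ∧ ∀ g : ℕ, ∃ b : ℕ, 0 < b ∧
  ¬ GSep encF (fun F => V3 F ∧ HGI (vsL (V := ℕ)) g F) Y3 (N3 ε) List.length b

/-! ## Graphs of clouds -/

/-- [HG GTR] graphs of clouds are computed in polynomial time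

Proof. As `S_LTR` (compare `CutRed.lean`, `CutMain.lean`). The tables `CL`, `XL` (entries coded by
`Encodable.encode`) and `wt` are constants; `ded` has `ded_ptime`; the colour of a name `w` is
`(unb w).2 % 3`; the threshold is in unary. `h x` = the number of different words of the edges
divided by `b` (`nvCut_eq`). `B` = 1 + the number of elements of `L` in the tables. -/
def S_GTR : Prop := ∀ (L : Type) [Encodable L] (CL : List (List (L × L)))
  (XL : List (List (List (L × L)))) (wt : List ℕ) (N : ℕ), ∃ B : ℕ, 0 < B ∧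
  ∀ (V₁ Y₁ N₁ V₂ Y₂ N₂ : ℕ × List (ℕ × ℕ) → Prop) (b : ℕ), 0 < b →
    (∀ I, V₁ I → V₂ (thrE colN wt N I, mapE nuG (cloudE colN CL XL I.2)) ∧
      (Y₁ I → Y₂ (thrE colN wt N I, mapE nuG (cloudE colN CL XL I.2))) ∧
      (N₁ I → N₂ (thrE colN wt N I, mapE nuG (cloudE colN CL XL I.2)))) →
    GSep enCut V₂ Y₂ N₂ nvCut (B * b) → GSep enCut V₁ Y₁ N₁ nvCut b

/-! ### The independence number -/

/-- [HG IB] the independence number of graphs of bounded degree (Uses `S_R3`.)

Proof. `csp_main` for `R3` gives `K₀, ε₀, b₀`. The graph of an instance `F`: vertices `(q, a)`,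
`a < 3`; the triangle on `(q, 0), (q, 1), (q, 2)` for every constraint, and an edge between `(q, a)`
and `(q', a')`, `q < q'`, if they have the same variable and opposite signs; `t = F.length`. Simple,
degree at most `2 + K₀`, `nvE = 3 t`. An independent set `I` gives an assignment violating at most
`t - |I|` constraints and conversely. `ε = ε₀ / 2` (strict inequality). Machine as in `CutRed.lean`
(`transfer`, from `codeC` to `enCut`); `nvCut / (3 b₀) = F.length / b₀`. -/
def S_IB : Prop := GapETH → ∃ D : ℕ, 0 < D ∧ ∃ ε : ℚ, 0 < ε ∧ ε < 1 ∧ ∃ b : ℕ, 0 < b ∧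
  ¬ GSep enCut (fun I => SimpD D I.2 ∧ nvE I.2 ≤ 3 * I.1) YI (NI ε) nvCut b

/-- [HG I1] the graph of clouds, large independent sets

Proof. `a' (v, slI j l) = a v`, `a' (v, sgI j l) = !(a v)`. All edges are inside the clouds or join
slots of adjacent vertices. The slots used by `lnkI` have numbers less than `2 * D * K` (ranks less
than `D` by `SimpD D E`, counts less than `K` by `deg`), so the vertices of the graph are the
`N * (4 * D * K - 1)` vertices of the paths, for every vertex of `E` (`2 * D * K ≥ 2`). -/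
def S_I1 : Prop := ∀ (V : Type) [DecidableEq V] (D N K h C g : ℕ)
  (H : Fin D × Fin D → List (Fin 2 → Fin N × Fin 1)) (col : V → ℕ) (E : List (V × V))
  (a : V → Bool), 0 < D → 0 < K → Pat h C K g H → (∀ v, col v < 3) → SimpD D E → IndE a E →
  ∃ a' : V × LocI N → Bool, IndE a' (cloudE col (CLI N D K) (XLI K H) E) ∧
    szE a' (cloudE col (CLI N D K) (XLI K H) E) =
      N * (2 * D * K - 1) * nvE E + N * szE a E

/-- [HG I2] the graph of clouds, all independent sets

Proof. Let `J` = the set of the `(v, j)` all of whose slots are in the independent set. The path of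
`(v, j)` has at most `2 * D * K - 1 + [(v, j) ∈ J]` vertices in the independent set (a path with
`m + 1` slots and `m` other vertices: every independent set not containing all slots has at most `m`
elements). By the edges between the clouds, for an edge `(u, v)` of `E` no tuple of the list of its
type is in `J_u × J_v` (as sets of indices), so `mix` gives `|J_u| |J_v| / N ^ 2 ≤ 1 / h₁ ^ 2`, and not
both densities are more than `1 / h₁`. `a v` iff the density of `J_v` is more than `1 / h₁`. -/
def S_I2 : Prop := ∀ (V : Type) [DecidableEq V] (D N K h₁ C g : ℕ)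
  (H : Fin D × Fin D → List (Fin 2 → Fin N × Fin 1)) (col : V → ℕ) (E : List (V × V))
  (a' : V × LocI N → Bool), 0 < D → 0 < K → 0 < N → 0 < C → 0 < h₁ → Pat (h₁ ^ 2) C K g H →
  (∀ v, col v < 3) → SimpD D E → IndE a' (cloudE col (CLI N D K) (XLI K H) E) →
  ∃ a : V → Bool, IndE a E ∧
    h₁ * szE a' (cloudE col (CLI N D K) (XLI K H) E) ≤
      h₁ * (N * (2 * D * K - 1) * nvE E + N * szE a E) + N * nvE E

/-- [HG I3] the graph of clouds is simple and has maximum degree at most three

Proof. A slot is in at most one edge between clouds: its number determines the end (first or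
second), the rank and the count, hence the edge of `E` and the tuple (`(L.take n).countP (p = p_n)`
determines `n` for given `p_n`). -/
def S_I3 : Prop := ∀ (V : Type) [DecidableEq V] (D N K h C g : ℕ)
  (H : Fin D × Fin D → List (Fin 2 → Fin N × Fin 1)) (col : V → ℕ) (E : List (V × V)),
  0 < D → 0 < K → Pat h C K g H → (∀ v, col v < 3) → SimpD D E →
  SimpD 3 (cloudE col (CLI N D K) (XLI K H) E)

/-- [HG I4] the girth of the graph of clouds (Uses `S_GEN`, `S_E1`.)

Proof. `S_GEN` with `G = eH H`, `φ (v, slI j l) = φ (v, sgI j l) = j`, `κ (v, …) = (v, j)`, depths `2 l`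
for slots and `2 l + 1` for the others. The last hypothesis: two edges between clouds leave the
slots of `(v, j)` towards the same index `j'`; by the second part of `S_E1` they come from the same
place `(τ, n)`, so from the same side of the tuple (its two indices are different), so the rank of
`v` is the same, so the edge of `E` is the same, and `x = x'`, `y = y'`. -/
def S_I4 : Prop := ∀ (V : Type) [DecidableEq V] (D N K h C g : ℕ)
  (H : Fin D × Fin D → List (Fin 2 → Fin N × Fin 1)) (col : V → ℕ) (E : List (V × V)),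
  0 < D → 0 < K → Pat h C K (2 * g + 4) H → (∀ v, col v < 3) → SimpD D E →
  (g : ℕ∞) < (gE (cloudE col (CLI N D K) (XLI K H) E)).egirth

/-- [HG IND] the independence number (Uses `S_PAT`, `S_RNG`, `S_INJ`, `S_GTR`, `S_IB`, `S_I1`, `S_I2`,
`S_I3`, `S_I4`.)

Proof. `S_IB` gives `D`, `ε₀`, `b₀`. `h₁ ≥ 6 / ε₀`, `k = 2`, `W = 1`, `h = h₁ ^ 2`, types
`Fin D × Fin D`; `wt = [w, w, w]` with `w = N (2 D K - 1)`, so the threshold is
`t' = N (2 D K - 1) n + N t` with `n = nvE E ≤ 3 t`. NO: every independent set has at most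
`N (2 D K - 1) n + N (1 - ε₀) t + N n / h₁ ≤ t' - N ε₀ t / 2 < (1 - ε) t'` vertices for
`ε = ε₀ / (4 (6 D K + 1))`. -/
def S_IND : Prop := GapETH → ∃ ε : ℚ, 0 < ε ∧ ε < 1 ∧ ∀ g : ℕ, ∃ b : ℕ, 0 < b ∧
  ¬ GSep enCut (fun I => VCut I ∧ (g : ℕ∞) < (gE I.2).egirth) YI (NI ε) nvCut b

/-- [HG IR] the converse for the independence number

Proof. `max_rev` for the payoffs `φ 0 x = x`, `φ 1 (x, y) = 1 - x y` (`d = 2`, arities `1`, `2`) and
`ε' = p / (7 q)`: the instance of `(t, E)` has the constraints `(0, v)` for the vertices `v` (`ded`)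
and `(1, u, v)` for the edges, and the threshold `t + m`, `m = E.length`. YES is clear. NO: an
assignment of value `V'` gives, deleting an end of every violated edge, an independent set with at
least `V' - m` elements; so `V' < m + (1 - ε) t`; a maximal independent set has at least `n / 4`
elements (degree three), and `m ≤ 3 n / 2`, so `m < 6 t`, and `m + (1 - ε) t ≤ (1 - ε / 7) (t + m)`.
`m` is at most twice the number of vertices (`edges_le`), the number of constraints at most three
times. Compare `cut_rev`, `cut_of_max`. -/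
def S_IR : Prop := ¬ GapETH → ∀ p q b : ℕ, 0 < p → p < q → 0 < b →
  GSep enCut VCut YI (NI ((p : ℚ) / (q : ℕ))) nvCut b

/-! ### The maximum cut -/

/-- [HG SUB] subdividing every edge twice (Uses `S_RNG`, `S_INJ`.)

Proof. The instance `(t + 2 m, mapE nuS (subE E))`, `m = E.length`. A path of three edges has at
most `2 + [ends different]` cut edges, and this is attained. `subE E` is simple of degree at most
three, with at most `n + 2 m ≤ 4 n` vertices. NO: some cut has at least `m / 2` edges, so `m < 2 t`,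
and `(1 - ε) t + 2 m ≤ (1 - ε / 5) (t + 2 m)`. Colours: `S_INJ`. Machine: `transfer`. -/
def S_SUB : Prop := ∀ p q b : ℕ, 0 < p → p < q → 0 < b →
  GSep enCut (fun I => VCut I ∧ ∀ e ∈ I.2, colN e.1 ≠ colN e.2) YCut
    (NCut ((p : ℚ) / ((5 * q : ℕ) : ℚ))) nvCut (4 * b) →
  GSep enCut VCut YCut (NCut ((p : ℚ) / (q : ℕ))) nvCut b

/-- [HG A1] the graph of clouds, large cuts

Proof. `a'` is `a v` on the slots of the cloud of `v` and `!(a v)` on the other vertices: all edges
inside the clouds are cut, and an edge of `E` gives `N` edges (its ranks are less than three). -/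
def S_A1 : Prop := ∀ (V : Type) [DecidableEq V] (N K : ℕ)
  (H : Fin 3 → List (Fin 2 → Fin N × Fin 3)) (col : V → ℕ) (E : List (V × V)) (a : V → Bool),
  SimpD 3 E → ∃ a' : V × LocA N → Bool,
    (cloudE col (CLA K H) (XLA N) E).countP (cutE a') =
      (intE col (CLA K H) E).length + N * E.countP (cutE a)

/-- [HG A2] the amplifier

Proof. `n' = 3 N`. A link (two edges with a common middle) has at most `2 - [its ends differ]` cut
edges; call it violated if its ends differ. `A` (`B`) = the elements `x` all of whose slots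
`0, …, 2 K` are true (false), `Z` the others; every `x ∈ Z` has a violated link between two
successive slots. If `|Z| > n' / 2`, let `b` be the majority of the slots `0`: the minority has at
most `n' / 2 < |Z|` elements. If `|Z| ≤ n' / 2`, let `|A| ≤ |B|`, `b = false` (the other case is
symmetric): `|B| ≥ n' / 4`; by `mix` for `(A, B)` and `(B, A)` at least `2 C n' (|A| |B| / n' ^ 2 - 1 / h) ≥
|A| - 2 C n' / h …` pattern links are violated; precisely, with `V_H` their number,
`V_H ≥ C |A| / 2 - 2 C n' / h`, so `|A| ≤ 2 V_H / C + 4 n' / h ≤ V_H + 12 N / h`, and the minority has at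
most `|A| + |Z|` elements. (The slots of the pattern links are `≤ 2 K` by the degree hypothesis.) -/
def S_A2 : Prop := ∀ (N C K h : ℕ) (L : List (Fin 2 → Fin N × Fin 3)), 2 ≤ C → 0 < h → 0 < N →
  (∀ S : Fin 2 → Finset (Fin N × Fin 3),
    ((C * (N * 3) : ℕ) : ℚ) * ((∏ a, (((S a).card : ℕ) : ℚ) / ((N * 3 : ℕ) : ℚ)) - 1 / (h : ℚ)) ≤
      ((L.countP (fun p => decide (∀ a, p a ∈ S a)) : ℕ) : ℚ)) →
  (∀ a x, L.countP (fun p => decide (p a = x)) ≤ K) →
  ∀ β : LocA N → Bool, ∃ b : Bool,
    h * ((Finset.univ.filter (fun x : Fin N × Fin 3 => β (slA x 0) ≠ b)).card +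
      (clA K L).countP (cutE β)) ≤ h * (clA K L).length + 12 * N

/-- [HG A3] the graph of clouds, all cuts (Uses `S_A2`.)

Proof. `a v` = the value `b` of `S_A2` for the cloud of `v`. An edge between clouds which is cut
comes from a cut edge of `E` or one of its ends is in the minority of its cloud; every slot with
number `0` is in at most one edge between clouds. -/
def S_A3 : Prop := ∀ (V : Type) [DecidableEq V] (N C K h g : ℕ)
  (H : Fin 3 → List (Fin 2 → Fin N × Fin 3)) (col : V → ℕ) (E : List (V × V)),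
  2 ≤ C → 0 < h → 0 < N → Pat h C K g H → (∀ v, col v < 3) → SimpD 3 E →
  ∀ a' : V × LocA N → Bool, ∃ a : V → Bool,
    h * (cloudE col (CLA K H) (XLA N) E).countP (cutE a') ≤
      h * ((intE col (CLA K H) E).length + N * E.countP (cutE a)) + 12 * N * nvE E

/-- [HG A4] the graph of clouds is simple and has maximum degree at most three

Proof. A slot `(x, l)`, `1 ≤ l`, is in at most one pattern link (its number determines the side and
the count), a slot `(x, 0)` in no pattern link and in at most one edge between clouds. -/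
def S_A4 : Prop := ∀ (V : Type) [DecidableEq V] (N C K h g : ℕ)
  (H : Fin 3 → List (Fin 2 → Fin N × Fin 3)) (col : V → ℕ) (E : List (V × V)),
  Pat h C K g H → (∀ v, col v < 3) → SimpD 3 E →
  SimpD 3 (cloudE col (CLA K H) (XLA N) E)

/-- [HG A5] the girth of the graph of clouds (Uses `S_GEN`.)

Proof. `S_GEN` with `G = idxG H`, `φ (v, hmA n) = inl (col v, n)`, `φ = inr i` on the other vertices
`(v, slA (i, s) l)`, `(v, sgA (i, s) l)`; depths `2 l`, `2 l + 1`; `κ` = itself for `(v, hmA n)`, and
for `(v, (i, s), …)` the index `i` with the set of the pairs `(v', s')` equal to `(v, s)` or joined to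
it by an edge of `E` (the edge end of rank `s` at `v` and the one of rank `s'` at `v'`); stutters stay
in the path formed by two paths of slots joined at their slots `0`. The last hypothesis for
`x, x'` not of the form `hmA`: `y = (v, hmA n)`, `y' = (v', hmA n)` with `col v = col v'`; `v'` is `v`
or a neighbour of `v`, so `v = v'`; the two ends of the link have different indices (`inj`), so
`x = x'`. For `x = x' = (v, hmA n)`: the same. -/
def S_A5 : Prop := ∀ (V : Type) [DecidableEq V] (N C K h g : ℕ)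
  (H : Fin 3 → List (Fin 2 → Fin N × Fin 3)) (col : V → ℕ) (E : List (V × V)),
  Pat h C K g H → (∀ v, col v < 3) → SimpD 3 E → (∀ e ∈ E, col e.1 ≠ col e.2) →
  (g : ℕ∞) < (gE (cloudE col (CLA K H) (XLA N) E)).egirth

/-- [HG CUT] the maximum cut (Uses `S_PAT`, `S_RNG`, `S_INJ`, `S_GTR`, `S_SUB`, `S_A1`, `S_A3`, `S_A4`,
`S_A5`.)

Proof. `cut_main` gives `ε₀`, `b₀`; `S_SUB` the coloured version with `ε₁ = ε₀ / 5`. `h ≥ 96 / ε₁`,
`k = 2`, `W = 3`, types `Fin 3` (colours); `wt` = the lengths of the three clouds, so the threshold is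
`t' = (intE …).length + N t`. The clouds have at most `6 N (2 K + C)` edges (`len`), `n ≤ 2 m ≤ 4 t` in
the NO case (some cut has at least `m / 2` edges). NO: all cuts have at most
`t' - N ε₁ t + 12 N n / h ≤ t' - N ε₁ t / 2` edges and `t' ≤ N t (24 (2 K + C) + 1)`;
`ε = ε₁ / (2 (24 (2 K + C) + 2))`. -/
def S_CUT : Prop := GapETH → ∃ ε : ℚ, 0 < ε ∧ ε < 1 ∧ ∀ g : ℕ, ∃ b : ℕ, 0 < b ∧
  ¬ GSep enCut (fun I => VCut I ∧ (g : ℕ∞) < (gE I.2).egirth) YCut (NCut ε) nvCut b

/-- [HG CF] from finding large cuts to separators, on a class of graphs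

Proof. As `sep_of_find_cut` (CutFind.lean); only the class changes. -/
def S_CF : Prop := ∀ (P : List (ℕ × ℕ) → Prop) (p q b : ℕ), 0 < q → p ≤ q → 0 < b →
  GFind enG (fun E => VG E ∧ P E) (goodCut ((p : ℚ) / (q : ℕ))) nvG b →
  GSep enCut (fun I => VCut I ∧ P I.2) YCut (NCut ((p : ℚ) / (q : ℕ))) nvCut b

end Pool.Agent.Lib.MP_87d05f_lc.HG
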