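import Pool.Agent.Lib.MP_87d05f_lc.HG.Stm

set_option autoImplicit false

/-!
# Graphs of clouds: large cuts (piece A1)
-/

namespace Pool.Agent.Lib.MP_87d05f_lc.HG

open Pool.Agent.Lib.MP_87d05f_lc

/-- the assignment of the copies -/
def A1_asg {V : Type} {N : ℕ} (a : V → Bool) (x : V × LocA N) : Bool :=
  Sum.elim (fun _ => a x.1) (fun _ => !(a x.1)) x.2

theorem A1_seg {V : Type} {N K : ℕ} (a : V → Bool) (L : List (Fin 2 → Fin N × Fin 3)) (v : V)
    (z : LocA N × LocA N) (hz : z ∈ clA K L) :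
    cutE (A1_asg (N := N) a) ((v, z.1), (v, z.2)) = true := by
  unfold clA at hz
  rw [List.mem_append] at hz
  rcases hz with hz | hz
  · unfold segA at hz
    rw [List.mem_flatMap] at hz
    obtain ⟨x, _, hz⟩ := hz
    rw [List.mem_flatMap] at hz
    obtain ⟨l, _, hz⟩ := hz
    simp only [List.mem_cons, List.not_mem_nil, or_false] at hz
    rcases hz with rfl | rfl <;> simp [cutE, A1_asg, slA, sgA]
  · unfold lnkA at hz
    rw [List.mem_flatMap] at hz
    obtain ⟨x, _, hz⟩ := hz
    simp only [List.mem_cons, List.not_mem_nil, or_false] at hz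
    rcases hz with rfl | rfl <;> simp [cutE, A1_asg, slA, hmA]

theorem A1_cla {N K : ℕ} (H : Fin 3 → List (Fin 2 → Fin N × Fin 3)) (c : ℕ)
    (z : LocA N × LocA N) (hz : z ∈ (CLA K H).getD c []) : ∃ L, z ∈ clA K L := by
  unfold CLA at hz
  match c, hz with
  | 0, hz => exact ⟨H 0, hz⟩
  | 1, hz => exact ⟨H 1, hz⟩
  | 2, hz => exact ⟨H 2, hz⟩
  | (c + 3), hz =>
    exfalso
    rw [List.getD_eq_default _ _ (by simp)] at hz
    exact List.not_mem_nil hz

theorem A1_int {V : Type} [DecidableEq V] {N K : ℕ} (H : Fin 3 → List (Fin 2 → Fin N × Fin 3))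
    (col : V → ℕ) (E : List (V × V)) (a : V → Bool) :
    (intE col (CLA K H) E).countP (cutE (A1_asg (N := N) a)) =
      (intE col (CLA K H) E).length := by
  rw [List.countP_eq_length]
  intro e he
  unfold intE at he
  rw [List.mem_flatMap] at he
  obtain ⟨v, _, he⟩ := he
  rw [List.mem_map] at he
  obtain ⟨z, hz, rfl⟩ := he
  obtain ⟨L, hL⟩ := A1_cla H (col v) z hz
  exact A1_seg a L v z hL

theorem A1_rk {V : Type} [DecidableEq V] {E : List (V × V)}
    (hE : ∀ v, (endsE E).count v ≤ 3) {e : V × V} {q : ℕ} (h : E[q]? = some e) :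
    rkE (E.take q) e.1 < 3 ∧ rkE (E.take q) e.2 < 3 := by
  obtain ⟨hq, he⟩ := List.getElem?_eq_some_iff.1 h
  have h1 : E = E.take q ++ e :: E.drop (q + 1) := by
    rw [← he, List.getElem_cons_drop, List.take_append_drop]
  have h2 : ∀ v, (endsE E).count v = rkE (E.take q) v + (List.count v [e.1, e.2] +
      (endsE (E.drop (q + 1))).count v) := by
    intro v
    conv_lhs => rw [h1]
    unfold rkE endsE
    rw [List.flatMap_append, List.flatMap_cons, List.count_append, List.count_append]
  have h3 := hE e.1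
  have h4 := hE e.2
  rw [h2] at h3 h4
  have h5 : 1 ≤ List.count e.1 [e.1, e.2] := List.one_le_count_iff.2 (by simp)
  have h6 : 1 ≤ List.count e.2 [e.1, e.2] := List.one_le_count_iff.2 (by simp)
  omega

theorem A1_xla {N r r' : ℕ} (hr : r < 3) (hr' : r' < 3) :
    ((XLA N).getD r []).getD r' [] = (List.finRange N).map (fun i =>
      ((slA (i, (⟨r, hr⟩ : Fin 3)) 0, slA (i, (⟨r', hr'⟩ : Fin 3)) 0) : LocA N × LocA N)) := by
  have h1 : (XLA N).getD r [] = (List.finRange 3).map (fun r' : Fin 3 =>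
      (List.finRange N).map (fun i =>
        ((slA (i, (⟨r, hr⟩ : Fin 3)) 0, slA (i, r') 0) : LocA N × LocA N))) := by
    unfold XLA
    rw [List.getD_eq_getElem?_getD, List.getElem?_map,
      List.getElem?_eq_getElem (l := List.finRange 3) (i := r) (by simpa using hr)]
    simp
  rw [h1, List.getD_eq_getElem?_getD, List.getElem?_map,
    List.getElem?_eq_getElem (l := List.finRange 3) (i := r') (by simpa using hr')]
  simp

theorem A1_one {V : Type} {N r r' : ℕ} (hr : r < 3) (hr' : r' < 3) (a : V → Bool) (e : V × V) :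
    ((((XLA N).getD r []).getD r' []).map
      (fun z => ((e.1, z.1), (e.2, z.2)))).countP (cutE (A1_asg (N := N) a)) =
      bif cutE a e then N else 0 := by
  rw [A1_xla hr hr', List.map_map, List.countP_map]
  have h : (cutE (A1_asg (N := N) a)) ∘ ((fun z : LocA N × LocA N => ((e.1, z.1), (e.2, z.2))) ∘
      (fun i : Fin N => ((slA (i, (⟨r, hr⟩ : Fin 3)) 0, slA (i, (⟨r', hr'⟩ : Fin 3)) 0) :
        LocA N × LocA N))) = fun _ => cutE a e := by
    funext i
    rfl
  rw [h]
  cases cutE a e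
  · simp
  · simp

theorem A1_sum {α : Type} (f : α × ℕ → ℕ) (g : α → Bool) (N : ℕ) (E : List α) (j : ℕ)
    (h : ∀ p ∈ E.zipIdx j, f p = bif g p.1 then N else 0) :
    ((E.zipIdx j).map f).sum = N * E.countP g := by
  induction E generalizing j with
  | nil => simp
  | cons x E ih =>
    rw [List.zipIdx_cons, List.map_cons, List.sum_cons, List.countP_cons,
      ih (j + 1) fun p hp => h p (by rw [List.zipIdx_cons]; exact List.mem_cons_of_mem _ hp),
      h (x, j) (by rw [List.zipIdx_cons]; exact List.mem_cons_self)]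
    cases hg : g x
    · simp
    · simp [mul_add, add_comm]

theorem p_A1 : S_A1 := by
  intro V _ N K H col E a hE
  refine ⟨A1_asg a, ?_⟩
  unfold cloudE
  rw [List.countP_append, A1_int]
  congr 1
  unfold extE
  rw [List.countP_flatMap]
  refine A1_sum _ (cutE a) N E 0 fun p hp => ?_
  obtain ⟨e, q⟩ := p
  have h1 : E[q]? = some e := List.mk_mem_zipIdx_iff_getElem?.1 hp
  obtain ⟨h2, h3⟩ := A1_rk hE.2.2 h1
  exact A1_one h2 h3 a e

end Pool.Agent.Lib.MP_87d05f_lc.HG
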