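import Mathlib
import Pool.Agent.Lib.MP_87d05f_lc.HG.Stm

set_option autoImplicit false

/-!
# MP_87d05f_lc, instances of large girth: the amplifier
-/

namespace Pool.Agent.Lib.MP_87d05f_lc.HG

open Pool.Agent.Lib.MP_87d05f_lc

/-- `1` if the values differ -/
private def A2_br (x y : Bool) : ℕ := if x = y then 0 else 1

private theorem A2_br_le (x y : Bool) : A2_br x y ≤ 1 := by
  unfold A2_br
  split <;> omega

private theorem A2_two {S : Type} (β : S → Bool) (u m w : S) :
    List.countP (cutE β) [(u, m), (m, w)] + A2_br (β u) (β w) ≤ 2 := by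
  unfold A2_br cutE
  rcases hu : β u <;> rcases hm : β m <;> rcases hw : β w <;> simp [hu, hm, hw]

private theorem A2_flat {S T : Type} (P : S → Bool) (f : T → List S) (v : T → ℕ) (l : List T)
    (h : ∀ t ∈ l, (f t).countP P + v t ≤ (f t).length) :
    (l.flatMap f).countP P + (l.map v).sum ≤ (l.flatMap f).length := by
  induction l with
  | nil => simp
  | cons t l ih =>
    have h1 := h t List.mem_cons_self
    have h2 := ih fun t' ht' => h t' (List.mem_cons_of_mem _ ht')
    rw [List.flatMap_cons, List.countP_append, List.length_append, List.map_cons, List.sum_cons]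
    omega

/-- the number of breaks of the path of an element -/
private def A2_v {N : ℕ} (β : LocA N → Bool) (m : ℕ) (x : Fin N × Fin 3) : ℕ :=
  ((List.range m).map (fun l => A2_br (β (slA x l)) (β (slA x (l + 1))))).sum

private theorem A2_seg {N : ℕ} (β : LocA N → Bool) (m : ℕ) :
    (segA N m).countP (cutE β) + ∑ x : Fin N × Fin 3, A2_v β m x ≤ (segA N m).length := by
  have h := A2_flat (cutE β)
    (fun x : Fin N × Fin 3 => (List.range m).flatMap
      (fun l => [(slA x l, sgA x l), (sgA x l, slA x (l + 1))])) (A2_v β m)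
    ((List.finRange N).flatMap (fun i => (List.finRange 3).map (fun r => (i, r))))
    (fun x _ => A2_flat (cutE β) _ _ _ (fun l _ => A2_two β _ _ _))
  have h2 : (((List.finRange N).flatMap (fun i => (List.finRange 3).map
      (fun r => (i, r)))).map (A2_v β m)).sum = ∑ x : Fin N × Fin 3, A2_v β m x := by
    rw [Fintype.sum_prod_type, Fin.sum_univ_def, List.map_flatMap, List.flatMap_def,
      List.sum_flatten, List.map_map]
    congr 1
  rw [h2] at h
  exact h

private theorem A2_zero {N : ℕ} (β : LocA N → Bool) (m : ℕ) (x : Fin N × Fin 3)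
    (h : A2_v β m x = 0) : ∀ l, l ≤ m → β (slA x l) = β (slA x 0) := by
  intro l
  induction l with
  | zero => intro _; rfl
  | succ l ih =>
    intro hl
    rw [← ih (by omega)]
    have h1 : A2_br (β (slA x l)) (β (slA x (l + 1))) = 0 := by
      unfold A2_v at h
      exact List.sum_eq_zero_iff.1 h _ (List.mem_map.2 ⟨l, List.mem_range.2 (by omega), rfl⟩)
    unfold A2_br at h1
    split at h1
    · rename_i h2; exact h2.symm
    · omega

private theorem A2_lt {α : Type} (L : List α) (q : α → Bool) (p : α) (n : ℕ)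
    (h : L[n]? = some p) (hq : q p = true) : (L.take n).countP q + 1 ≤ L.countP q := by
  obtain ⟨hn, hp⟩ := List.getElem?_eq_some_iff.1 h
  have h1 : (L.take (n + 1)).countP q ≤ L.countP q := (List.take_sublist _ _).countP_le
  rw [List.take_succ_eq_append_getElem hn, List.countP_append, hp] at h1
  simpa [List.countP_cons, hq] using h1

private theorem A2_countP {α : Type} (q : α → Bool) (L : List α) :
    L.countP q = (L.zipIdx.map (fun pn => if q pn.1 then 1 else 0)).sum := by
  have h : ∀ (L : List α) (k : ℕ),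
      L.countP q = ((L.zipIdx k).map (fun pn => if q pn.1 then 1 else 0)).sum := by
    intro L
    induction L with
    | nil => intro k; rfl
    | cons a L ih =>
      intro k
      rw [List.zipIdx_cons, List.map_cons, List.sum_cons, ← ih (k + 1), List.countP_cons]
      simp only
      split <;> omega
  exact h L 0

private theorem A2_sum_le {α : Type} (f g : α → ℕ) (l : List α) (h : ∀ x ∈ l, f x ≤ g x) :
    (l.map f).sum ≤ (l.map g).sum := by
  induction l with
  | nil => simp
  | cons a l ih =>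
    have h1 := h a List.mem_cons_self
    have h2 := ih fun t' ht' => h t' (List.mem_cons_of_mem _ ht')
    rw [List.map_cons, List.map_cons, List.sum_cons, List.sum_cons]
    omega

private theorem A2_sum_add {α : Type} (f g : α → ℕ) (l : List α) :
    (l.map f).sum + (l.map g).sum = (l.map (fun x => f x + g x)).sum := by
  induction l with
  | nil => simp
  | cons a l ih =>
    rw [List.map_cons, List.map_cons, List.map_cons, List.sum_cons, List.sum_cons, List.sum_cons]
    omega

/-- the final estimate -/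
private theorem A2_arith (C h N a b z c₁ c₂ V : ℕ) (hC : 2 ≤ C) (hh : 0 < h) (hN : 0 < N)
    (hs : a + b + z = 3 * N) (hz : 2 * z ≤ 3 * N) (hab : a ≤ b) (hV : c₁ + c₂ ≤ V)
    (h₁ : ((C * (N * 3) : ℕ) : ℚ) * ((a : ℚ) / ((N * 3 : ℕ) : ℚ) * ((b : ℚ) / ((N * 3 : ℕ) : ℚ)) -
      1 / (h : ℚ)) ≤ (c₁ : ℚ))
    (h₂ : ((C * (N * 3) : ℕ) : ℚ) * ((b : ℚ) / ((N * 3 : ℕ) : ℚ) * ((a : ℚ) / ((N * 3 : ℕ) : ℚ)) -
      1 / (h : ℚ)) ≤ (c₂ : ℚ)) : h * a ≤ h * V + 12 * N := by
  have hC' : (2 : ℚ) ≤ C := by exact_mod_cast hC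
  have hh' : (0 : ℚ) < h := by exact_mod_cast hh
  have hN' : (0 : ℚ) < N := by exact_mod_cast hN
  have ha0 : (0 : ℚ) ≤ a := Nat.cast_nonneg a
  have hV0 : (0 : ℚ) ≤ V := Nat.cast_nonneg V
  have hV' : (c₁ : ℚ) + c₂ ≤ V := by exact_mod_cast hV
  have hb : (3 : ℚ) * N ≤ 4 * b := by
    have : 3 * N ≤ 4 * b := by omega
    exact_mod_cast this
  push_cast at h₁ h₂
  have e1 : (C : ℚ) * (N * 3) * ((a : ℚ) / (N * 3) * (b / (N * 3)) - 1 / h) =
      C * (a * b / (3 * N) - 3 * N / h) := by
    field_simp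
  have e2 : (C : ℚ) * (N * 3) * ((b : ℚ) / (N * 3) * (a / (N * 3)) - 1 / h) =
      C * (a * b / (3 * N) - 3 * N / h) := by
    field_simp
  rw [e1] at h₁
  rw [e2] at h₂
  have h3 : (a : ℚ) / 4 ≤ a * b / (3 * N) := by
    rw [div_le_div_iff₀ (by norm_num) (by positivity)]
    nlinarith
  have hgoal : (h : ℚ) * a ≤ h * V + 12 * N := by
    by_cases hW : (a : ℚ) / 4 - 3 * N / h ≤ 0
    · have h4 : (a : ℚ) * h ≤ 12 * N := by
        have h5 : (a : ℚ) / 4 ≤ 3 * N / h := by linarith
        rw [div_le_div_iff₀ (by norm_num) hh'] at h5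
        linarith
      have h6 : (0 : ℚ) ≤ h * V := by positivity
      linarith
    · push Not at hW
      have h4 : (4 : ℚ) * (a / 4 - 3 * N / h) ≤ V := by
        have h5 : (C : ℚ) * (a / 4 - 3 * N / h) ≤ C * (a * b / (3 * N) - 3 * N / h) :=
          mul_le_mul_of_nonneg_left (by linarith) (by linarith)
        nlinarith
      have h5 : (h : ℚ) * (4 * (a / 4 - 3 * N / h)) = h * a - 12 * N := by
        field_simp
        ring
      have h6 := mul_le_mul_of_nonneg_left h4 hh'.le
      linarith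
  exact_mod_cast hgoal

/-- the number of violated links -/
private def A2_w {N : ℕ} (K : ℕ) (L : List (Fin 2 → Fin N × Fin 3)) (β : LocA N → Bool)
    (pn : (Fin 2 → Fin N × Fin 3) × ℕ) : ℕ :=
  A2_br (β (slA (pn.1 0) (1 + (L.take pn.2).countP (fun p => decide (p 0 = pn.1 0)))))
    (β (slA (pn.1 1) (1 + K + (L.take pn.2).countP (fun p => decide (p 1 = pn.1 1)))))

private theorem A2_lnk {N : ℕ} (K : ℕ) (L : List (Fin 2 → Fin N × Fin 3)) (β : LocA N → Bool) :
    (lnkA K L).countP (cutE β) + (L.zipIdx.map (A2_w K L β)).sum ≤ (lnkA K L).length :=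
  A2_flat _ _ _ _ (fun _ _ => A2_two β _ _ _)

private theorem A2_viol {N : ℕ} (K : ℕ) (L : List (Fin 2 → Fin N × Fin 3)) (β : LocA N → Bool)
    (hdeg : ∀ a x, L.countP (fun p => decide (p a = x)) ≤ K) (A B : Finset (Fin N × Fin 3))
    (hA : ∀ x, x ∈ A → ∀ l, l ≤ 2 * K → β (slA x l) = true)
    (hB : ∀ x, x ∈ B → ∀ l, l ≤ 2 * K → β (slA x l) = false) :
    L.countP (fun p => decide (∀ a, p a ∈ (![A, B] : Fin 2 → Finset (Fin N × Fin 3)) a)) +
      L.countP (fun p => decide (∀ a, p a ∈ (![B, A] : Fin 2 → Finset (Fin N × Fin 3)) a)) ≤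
      (L.zipIdx.map (A2_w K L β)).sum := by
  rw [A2_countP, A2_countP, A2_sum_add]
  refine A2_sum_le _ _ _ fun pn hpn => ?_
  have hget : L[pn.2]? = some pn.1 := List.mem_zipIdx_iff_getElem?.1 hpn
  have c0 := A2_lt L (fun p => decide (p 0 = pn.1 0)) pn.1 pn.2 hget (by simp)
  have c1 := A2_lt L (fun p => decide (p 1 = pn.1 1)) pn.1 pn.2 hget (by simp)
  have d0 := hdeg 0 (pn.1 0)
  have d1 := hdeg 1 (pn.1 1)
  have hl0 : 1 + (L.take pn.2).countP (fun p => decide (p 0 = pn.1 0)) ≤ 2 * K := by omega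
  have hl1 : 1 + K + (L.take pn.2).countP (fun p => decide (p 1 = pn.1 1)) ≤ 2 * K := by omega
  have hdis : ∀ x, x ∈ A → x ∈ B → False := fun x hxA hxB => by
    have h1 := hA x hxA 0 (Nat.zero_le _)
    rw [hB x hxB 0 (Nat.zero_le _)] at h1
    exact Bool.false_ne_true h1
  simp only [decide_eq_true_eq, Fin.forall_fin_two, Matrix.cons_val_zero, Matrix.cons_val_one]
  unfold A2_w
  by_cases h1 : pn.1 0 ∈ A ∧ pn.1 1 ∈ B
  · have h2 : ¬ (pn.1 0 ∈ B ∧ pn.1 1 ∈ A) := fun h => hdis _ h1.1 h.1
    rw [if_pos h1, if_neg h2, hA _ h1.1 _ hl0, hB _ h1.2 _ hl1]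
    simp [A2_br]
  · by_cases h2 : pn.1 0 ∈ B ∧ pn.1 1 ∈ A
    · rw [if_neg h1, if_pos h2, hB _ h2.1 _ hl0, hA _ h2.2 _ hl1]
      simp [A2_br]
    · rw [if_neg h1, if_neg h2]
      exact Nat.zero_le _

theorem p_A2 : S_A2 := by
  classical
  intro N C K h L hC hh hN hmix hdeg β
  have hseg := A2_seg β (2 * K)
  have hlnk := A2_lnk K L β
  have hz0 := A2_zero β (2 * K)
  set v : Fin N × Fin 3 → ℕ := A2_v β (2 * K) with hv
  set V : ℕ := (L.zipIdx.map (A2_w K L β)).sum with hV
  set A : Finset (Fin N × Fin 3) :=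
    Finset.univ.filter (fun x => v x = 0 ∧ β (slA x 0) = true) with hA
  set B : Finset (Fin N × Fin 3) :=
    Finset.univ.filter (fun x => v x = 0 ∧ β (slA x 0) = false) with hB
  set Z : Finset (Fin N × Fin 3) := Finset.univ.filter (fun x => v x ≠ 0) with hZ
  have hcard : A.card + B.card + Z.card = 3 * N := by
    rw [hA, hB, hZ, Finset.card_filter, Finset.card_filter, Finset.card_filter,
      ← Finset.sum_add_distrib, ← Finset.sum_add_distrib]
    have h1 : ∀ x : Fin N × Fin 3, ((if v x = 0 ∧ β (slA x 0) = true then 1 else 0) +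
        (if v x = 0 ∧ β (slA x 0) = false then 1 else 0)) + (if v x ≠ 0 then 1 else 0) = 1 := by
      intro x
      by_cases h2 : v x = 0
      · rcases h3 : β (slA x 0) <;> simp [h2]
      · simp [h2]
    rw [Finset.sum_congr rfl fun x _ => h1 x]
    simp [mul_comm]
  have hVZ : Z.card ≤ ∑ x : Fin N × Fin 3, v x := by
    rw [hZ, Finset.card_filter]
    refine Finset.sum_le_sum fun x _ => ?_
    split <;> omega
  have hAl : ∀ x, x ∈ A → ∀ l, l ≤ 2 * K → β (slA x l) = true := by
    intro x hx l hl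
    rw [hA, Finset.mem_filter] at hx
    rw [hz0 x hx.2.1 l hl]
    exact hx.2.2
  have hBl : ∀ x, x ∈ B → ∀ l, l ≤ 2 * K → β (slA x l) = false := by
    intro x hx l hl
    rw [hB, Finset.mem_filter] at hx
    rw [hz0 x hx.2.1 l hl]
    exact hx.2.2
  have hviol := A2_viol K L β hdeg A B hAl hBl
  have hm1 := hmix ![A, B]
  have hm2 := hmix ![B, A]
  rw [Fin.prod_univ_two] at hm1 hm2
  simp only [Matrix.cons_val_zero, Matrix.cons_val_one] at hm1 hm2
  -- the minorities
  have hmf : (Finset.univ.filter (fun x : Fin N × Fin 3 => β (slA x 0) ≠ false)).card ≤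
      A.card + Z.card := by
    rw [hA, hZ, Finset.card_filter, Finset.card_filter, Finset.card_filter,
      ← Finset.sum_add_distrib]
    refine Finset.sum_le_sum fun x _ => ?_
    by_cases h2 : v x = 0
    · rcases h3 : β (slA x 0) <;> simp [h2]
    · rcases h3 : β (slA x 0) <;> simp [h2]
  have hmt : (Finset.univ.filter (fun x : Fin N × Fin 3 => β (slA x 0) ≠ true)).card ≤
      B.card + Z.card := by
    rw [hB, hZ, Finset.card_filter, Finset.card_filter, Finset.card_filter,
      ← Finset.sum_add_distrib]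
    refine Finset.sum_le_sum fun x _ => ?_
    by_cases h2 : v x = 0
    · rcases h3 : β (slA x 0) <;> simp [h2]
    · rcases h3 : β (slA x 0) <;> simp [h2]
  have hmm : (Finset.univ.filter (fun x : Fin N × Fin 3 => β (slA x 0) ≠ false)).card +
      (Finset.univ.filter (fun x : Fin N × Fin 3 => β (slA x 0) ≠ true)).card = 3 * N := by
    rw [Finset.card_filter, Finset.card_filter, ← Finset.sum_add_distrib]
    have h1 : ∀ x : Fin N × Fin 3, (if β (slA x 0) ≠ false then 1 else 0) +
        (if β (slA x 0) ≠ true then 1 else 0) = 1 := by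
      intro x
      rcases h3 : β (slA x 0) <;> simp
    rw [Finset.sum_congr rfl fun x _ => h1 x]
    simp [mul_comm]
  have key : ∃ b : Bool, h * (Finset.univ.filter (fun x : Fin N × Fin 3 =>
      β (slA x 0) ≠ b)).card ≤ h * (Z.card + V) + 12 * N := by
    by_cases hz : 2 * Z.card ≤ 3 * N
    · rcases Nat.le_total A.card B.card with hab | hab
      · refine ⟨false, ?_⟩
        have h1 := A2_arith C h N A.card B.card Z.card _ _ V hC hh hN hcard hz hab hviol hm1 hm2
        have h2 := Nat.mul_le_mul_left h hmf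
        rw [Nat.mul_add] at h2 ⊢
        omega
      · refine ⟨true, ?_⟩
        have h1 := A2_arith C h N B.card A.card Z.card _ _ V hC hh hN (by omega) hz hab
          (by rw [Nat.add_comm]; exact hviol) hm2 hm1
        have h2 := Nat.mul_le_mul_left h hmt
        rw [Nat.mul_add] at h2 ⊢
        omega
    · rcases Nat.le_total (Finset.univ.filter (fun x : Fin N × Fin 3 =>
        β (slA x 0) ≠ false)).card (Finset.univ.filter (fun x : Fin N × Fin 3 =>
        β (slA x 0) ≠ true)).card with hab | hab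
      · refine ⟨false, ?_⟩
        have h2 := Nat.mul_le_mul_left h (show (Finset.univ.filter (fun x : Fin N × Fin 3 =>
          β (slA x 0) ≠ false)).card ≤ Z.card + V by omega)
        omega
      · refine ⟨true, ?_⟩
        have h2 := Nat.mul_le_mul_left h (show (Finset.univ.filter (fun x : Fin N × Fin 3 =>
          β (slA x 0) ≠ true)).card ≤ Z.card + V by omega)
        omega
  obtain ⟨b, hb⟩ := key
  refine ⟨b, ?_⟩
  have htot : (clA K L).countP (cutE β) + (Z.card + V) ≤ (clA K L).length := by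
    unfold clA
    rw [List.countP_append, List.length_append]
    omega
  have h3 := Nat.mul_le_mul_left h htot
  rw [Nat.mul_add] at h3 ⊢
  omega

end Pool.Agent.Lib.MP_87d05f_lc.HG
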