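import Pool.Agent.Lib.MP_87d05f_lc.HG.Stm

set_option autoImplicit false

/-!
# MP_87d05f_lc, instances of large girth: all cuts of the graph of clouds
-/

namespace Pool.Agent.Lib.MP_87d05f_lc.HG

open Pool.Agent.Lib.MP_87d05f_lc

section

variable {V : Type} [DecidableEq V]

/-- a sum over the vertices that are not isolated -/
theorem A3_ded (l : List V) (f : V → ℕ) : ((ded l).map f).sum = ∑ v ∈ l.toFinset, f v := by
  rw [← ded_toFinset, List.sum_toFinset f (nodup_ded l)]

/-- one more edge -/
theorem A3_ext {L : Type} (XL : List (List (List (L × L)))) (E : List (V × V)) (e : V × V) :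
    extE XL (E ++ [e]) = extE XL E ++
      ((XL.getD (rkE E e.1) []).getD (rkE E e.2) []).map (fun z => ((e.1, z.1), (e.2, z.2))) := by
  unfold extE
  rw [List.zipIdx_append, List.flatMap_append]
  congr 1
  · refine List.flatMap_congr ?_
    intro eq heq
    have h1 : eq.2 < E.length := by
      have h2 := List.mem_zipIdx heq
      omega
    rw [List.take_append_of_le_length h1.le]
  · simp

/-- the ends of one more edge -/
theorem A3_ends (E : List (V × V)) (e : V × V) (v : V) :
    (endsE (E ++ [e])).count v = (endsE E).count v + (if e.1 = v then 1 else 0) +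
      (if e.2 = v then 1 else 0) := by
  unfold endsE
  rw [List.flatMap_append, List.count_append, add_assoc]
  congr 1
  simp only [List.flatMap_cons, List.flatMap_nil, List.append_nil, List.count_cons,
    List.count_nil, zero_add, beq_iff_eq]
  rw [add_comm]

/-- the number of the slots `0` of rank `r` in the minority -/
def A3_m {N : ℕ} (a' : V × LocA N → Bool) (a : V → Bool) (v : V) (r : ℕ) : ℕ :=
  if h : r < 3 then (Finset.univ.filter (fun i : Fin N => a' (v, slA (i, ⟨r, h⟩) 0) ≠ a v)).card
    else 0

/-- the edges between clouds -/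
theorem A3_XLA (N r r' : ℕ) (hr : r < 3) (hr' : r' < 3) :
    ((XLA N).getD r []).getD r' [] = (List.finRange N).map
      (fun i => (slA (i, (⟨r, hr⟩ : Fin 3)) 0, slA (i, (⟨r', hr'⟩ : Fin 3)) 0)) := by
  interval_cases r <;> interval_cases r' <;> rfl

/-- the clouds of the three colours -/
theorem A3_CLA {N : ℕ} (K : ℕ) (H : Fin 3 → List (Fin 2 → Fin N × Fin 3)) (n : ℕ) (hn : n < 3) :
    (CLA K H).getD n [] = clA K (H ⟨n, hn⟩) := by
  interval_cases n <;> rfl

omit [DecidableEq V] in
/-- the edges between two clouds -/
theorem A3_edge {N : ℕ} (a' : V × LocA N → Bool) (a : V → Bool) (e : V × V) (r r' : ℕ)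
    (hr : r < 3) (hr' : r' < 3) :
    ((((XLA N).getD r []).getD r' []).map (fun z => ((e.1, z.1), (e.2, z.2)))).countP (cutE a') ≤
      N * (bif cutE a e then 1 else 0) + A3_m a' a e.1 r + A3_m a' a e.2 r' := by
  rw [A3_XLA N r r' hr hr', List.map_map, List.countP_map]
  unfold A3_m
  rw [dif_pos hr, dif_pos hr']
  have h0 : ∀ q : Fin N → Bool, (List.finRange N).countP q =
      (Finset.univ.filter (fun i => q i = true)).card := by
    intro q
    have h1 : (Finset.univ.filter (fun i => q i = true)) =
        ((List.finRange N).filter q).toFinset := by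
      ext i
      simp
    rw [h1, List.toFinset_card_of_nodup ((List.nodup_finRange N).filter _),
      List.countP_eq_length_filter]
  rw [h0]
  by_cases hc : cutE a e = true
  · rw [hc, cond_true, mul_one]
    refine le_trans (Finset.card_le_univ _) ?_
    rw [Fintype.card_fin]
    omega
  · have hc' : cutE a e = false := by simpa using hc
    rw [hc', cond_false, mul_zero, zero_add]
    refine le_trans (Finset.card_le_card ?_) (Finset.card_union_le _ _)
    intro i hi
    have hi' := (Finset.mem_filter.1 hi).2
    rw [Finset.mem_union, Finset.mem_filter, Finset.mem_filter]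
    by_contra hcon
    rw [not_or] at hcon
    have h2 : a' (e.1, slA (i, ⟨r, hr⟩) 0) = a e.1 := by
      by_contra h3
      exact hcon.1 ⟨Finset.mem_univ _, h3⟩
    have h3 : a' (e.2, slA (i, ⟨r', hr'⟩) 0) = a e.2 := by
      by_contra h4
      exact hcon.2 ⟨Finset.mem_univ _, h4⟩
    have h4 : xor (a' (e.1, slA (i, ⟨r, hr⟩) 0)) (a' (e.2, slA (i, ⟨r', hr'⟩) 0)) = true := hi'
    rw [h2, h3] at h4
    exact hc h4

/-- all edges between clouds -/
theorem A3_all {N : ℕ} (a' : V × LocA N → Bool) (a : V → Bool) (S : Finset V) (E : List (V × V))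
    (hne : ∀ e ∈ E, e.1 ≠ e.2) (h3 : ∀ v, (endsE E).count v ≤ 3)
    (hS : ∀ v ∈ endsE E, v ∈ S) :
    (extE (XLA N) E).countP (cutE a') ≤ N * E.countP (cutE a) +
      ∑ v ∈ S, ∑ r ∈ Finset.range ((endsE E).count v), A3_m a' a v r := by
  induction E using List.reverseRecOn with
  | nil => exact Nat.zero_le _
  | append_singleton E e ih =>
    have hne' : ∀ e' ∈ E, e'.1 ≠ e'.2 := fun e' he' => hne e' (List.mem_append_left _ he')
    have he : e.1 ≠ e.2 := hne e (by simp)
    have h3' : ∀ v, (endsE E).count v ≤ 3 := by
      intro v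
      have h4 := h3 v
      rw [A3_ends] at h4
      omega
    have hS' : ∀ v ∈ endsE E, v ∈ S := by
      intro v hv
      refine hS v ?_
      unfold endsE at hv ⊢
      rw [List.flatMap_append]
      exact List.mem_append_left _ hv
    have he1 : e.1 ∈ S := hS e.1 (by
      unfold endsE
      rw [List.flatMap_append]
      exact List.mem_append_right _ (by simp))
    have he2 : e.2 ∈ S := hS e.2 (by
      unfold endsE
      rw [List.flatMap_append]
      exact List.mem_append_right _ (by simp))
    have hr : rkE E e.1 < 3 := by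
      have h4 := h3 e.1
      rw [A3_ends, if_pos rfl] at h4
      unfold rkE
      omega
    have hr' : rkE E e.2 < 3 := by
      have h4 := h3 e.2
      rw [A3_ends, if_pos rfl] at h4
      unfold rkE
      omega
    have ih' := ih hne' h3' hS'
    have hnew := A3_edge a' a e (rkE E e.1) (rkE E e.2) hr hr'
    rw [A3_ext, List.countP_append, List.countP_append]
    have hsum : ∑ v ∈ S, ∑ r ∈ Finset.range ((endsE (E ++ [e])).count v), A3_m a' a v r =
        ∑ v ∈ S, ∑ r ∈ Finset.range ((endsE E).count v), A3_m a' a v r +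
          A3_m a' a e.1 (rkE E e.1) + A3_m a' a e.2 (rkE E e.2) := by
      have h5 : ∀ v ∈ S, ∑ r ∈ Finset.range ((endsE (E ++ [e])).count v), A3_m a' a v r =
          (∑ r ∈ Finset.range ((endsE E).count v), A3_m a' a v r +
            (if e.1 = v then A3_m a' a v (rkE E v) else 0)) +
            (if e.2 = v then A3_m a' a v (rkE E v) else 0) := by
        intro v _
        rw [A3_ends]
        by_cases h6 : e.1 = v
        · have h7 : ¬ e.2 = v := fun h8 => he (h6.trans h8.symm)
          rw [if_pos h6, if_neg h7, if_pos h6, if_neg h7, add_zero, add_zero,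
            Finset.sum_range_succ]
          rfl
        · by_cases h7 : e.2 = v
          · rw [if_neg h6, if_pos h7, if_neg h6, if_pos h7, add_zero, add_zero,
              Finset.sum_range_succ]
            rfl
          · rw [if_neg h6, if_neg h7, if_neg h6, if_neg h7, add_zero, add_zero, add_zero,
              add_zero]
      rw [Finset.sum_congr rfl h5, Finset.sum_add_distrib, Finset.sum_add_distrib,
        Finset.sum_ite_eq, Finset.sum_ite_eq, if_pos he1, if_pos he2]
    rw [hsum]
    have hcnt : ([e] : List (V × V)).countP (cutE a) = bif cutE a e then 1 else 0 := by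
      cases h6 : cutE a e <;> simp [h6]
    rw [hcnt, mul_add]
    omega

end

theorem p_A3 : S_A2 → S_A3 := by
  intro hA2 V _ N C K h g H col E hC hh hN hP hcol hE a'
  have hb : ∀ v : V, ∃ b : Bool,
      h * ((Finset.univ.filter (fun x : Fin N × Fin 3 => a' (v, slA x 0) ≠ b)).card +
      (clA K (H ⟨col v, hcol v⟩)).countP (cutE (fun l => a' (v, l)))) ≤
        h * (clA K (H ⟨col v, hcol v⟩)).length + 12 * N := by
    intro v
    exact hA2 N C K h (H ⟨col v, hcol v⟩) hC hh hN (hP.mix _) (hP.deg _) (fun l => a' (v, l))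
  choose a ha using hb
  refine ⟨a, ?_⟩
  have hCL : ∀ v, (CLA K H).getD (col v) [] = clA K (H ⟨col v, hcol v⟩) :=
    fun v => A3_CLA K H (col v) (hcol v)
  have hcnt : (intE col (CLA K H) E).countP (cutE a') = ∑ v ∈ (endsE E).toFinset,
      (clA K (H ⟨col v, hcol v⟩)).countP (cutE (fun l => a' (v, l))) := by
    unfold intE
    rw [List.countP_flatMap, ← A3_ded]
    refine congrArg List.sum (List.map_congr_left ?_)
    intro v _
    rw [Function.comp_apply, hCL, List.countP_map]
    rfl
  have hlen : (intE col (CLA K H) E).length = ∑ v ∈ (endsE E).toFinset,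
      (clA K (H ⟨col v, hcol v⟩)).length := by
    unfold intE
    rw [List.length_flatMap, ← A3_ded]
    refine congrArg List.sum (List.map_congr_left ?_)
    intro v _
    rw [hCL, List.length_map]
  have hmin : ∀ v, ∑ r ∈ Finset.range ((endsE E).count v), A3_m a' a v r ≤
      (Finset.univ.filter (fun x : Fin N × Fin 3 => a' (v, slA x 0) ≠ a v)).card := by
    intro v
    have h1 : (Finset.univ.filter (fun x : Fin N × Fin 3 => a' (v, slA x 0) ≠ a v)).card =
        ∑ r ∈ Finset.range 3, A3_m a' a v r := by
      rw [Finset.card_eq_sum_card_fiberwise (f := fun x : Fin N × Fin 3 => x.2)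
        (t := Finset.univ) (fun x _ => Finset.mem_coe.2 (Finset.mem_univ _)),
        Finset.sum_range]
      refine Finset.sum_congr rfl ?_
      intro r _
      unfold A3_m
      rw [dif_pos r.2]
      refine Finset.card_bij (fun x _ => x.1) ?_ ?_ ?_
      · intro x hx
        obtain ⟨hx1, hx2⟩ := Finset.mem_filter.1 hx
        refine Finset.mem_filter.2 ⟨Finset.mem_univ _, ?_⟩
        have hx3 := (Finset.mem_filter.1 hx1).2
        rw [← hx2]
        exact hx3
      · intro x hx y hy hxy
        obtain ⟨_, hx2⟩ := Finset.mem_filter.1 hx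
        obtain ⟨_, hy2⟩ := Finset.mem_filter.1 hy
        exact Prod.ext hxy (hx2.trans hy2.symm)
      · intro i hi
        refine ⟨(i, r), ?_, rfl⟩
        exact Finset.mem_filter.2 ⟨Finset.mem_filter.2 ⟨Finset.mem_univ _,
          (Finset.mem_filter.1 hi).2⟩, rfl⟩
    rw [h1]
    exact Finset.sum_le_sum_of_subset_of_nonneg
      (Finset.range_subset_range.2 (hE.2.2 v)) (fun _ _ _ => Nat.zero_le _)
  have hext := A3_all a' a (endsE E).toFinset E hE.1 hE.2.2 (fun v hv => List.mem_toFinset.2 hv)
  have hext' := le_trans hext (Nat.add_le_add_left (Finset.sum_le_sum (fun v _ => hmin v)) _)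
  have hmain := Finset.sum_le_sum (fun v (_ : v ∈ (endsE E).toFinset) => ha v)
  rw [← Finset.mul_sum, Finset.sum_add_distrib, Finset.sum_add_distrib, ← Finset.mul_sum,
    ← hcnt, ← hlen, Finset.sum_const, smul_eq_mul] at hmain
  have hfin := Nat.mul_le_mul_left h hext'
  unfold cloudE nvE
  rw [List.countP_append]
  rw [mul_add] at hmain hfin ⊢
  rw [mul_add h (intE col (CLA K H) E).length]
  have h9 : (endsE E).toFinset.card * (12 * N) = 12 * N * (endsE E).toFinset.card := by ring
  rw [h9] at hmain
  omega

end Pool.Agent.Lib.MP_87d05f_lc.HG
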