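import Pool.Agent.Lib.MP_87d05f_lc.HG.Stm

set_option autoImplicit false

/-!
# MP_87d05f_lc, instances of large girth: the graph of clouds for the maximum cut is simple
-/

namespace Pool.Agent.Lib.MP_87d05f_lc.HG

open Pool.Agent.Lib.MP_87d05f_lc

/-! ### Sums over lists -/

/-- a sum with at most one term that is not zero -/
theorem A4_sum {α : Type} (l : List α) (hl : l.Nodup) (f : α → ℕ) (B : ℕ)
    (h : ∀ y ∈ l, f y ≤ B) (h' : ∀ y ∈ l, ∀ y' ∈ l, f y ≠ 0 → f y' ≠ 0 → y = y') :
    (l.map f).sum ≤ B := by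
  induction l with
  | nil => simp
  | cons a l ih =>
    rw [List.map_cons, List.sum_cons]
    by_cases ha : f a = 0
    · rw [ha, zero_add]
      exact ih (List.nodup_cons.1 hl).2 (fun y hy => h y (List.mem_cons_of_mem _ hy))
        (fun y hy y' hy' => h' y (List.mem_cons_of_mem _ hy) y' (List.mem_cons_of_mem _ hy'))
    · have h0 : (l.map f).sum = 0 := by
        refine List.sum_eq_zero ?_
        intro z hz
        obtain ⟨y, hy, rfl⟩ := List.mem_map.1 hz
        by_contra hne
        have h1 := h' a List.mem_cons_self y (List.mem_cons_of_mem _ hy) ha hne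
        rw [← h1] at hy
        exact (List.nodup_cons.1 hl).1 hy
      rw [h0, add_zero]
      exact h a List.mem_cons_self

/-- a sum with at most one term that is not zero is not zero only if this term is not zero -/
theorem A4_sum_ne {α : Type} (l : List α) (f : α → ℕ) (h : (l.map f).sum ≠ 0) :
    ∃ y ∈ l, f y ≠ 0 := by
  by_contra hcon
  refine h (List.sum_eq_zero ?_)
  intro z hz
  obtain ⟨y, hy, rfl⟩ := List.mem_map.1 hz
  by_contra hne
  exact hcon ⟨y, hy, hne⟩

/-- a double sum with at most one term that is not zero -/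
theorem A4_sum2 {α : Type} (l : List α) (hl : l.Nodup) (m : ℕ) (f : α → ℕ → ℕ) (B : ℕ)
    (h : ∀ x n, f x n ≤ B) (h' : ∀ x n x' n', f x n ≠ 0 → f x' n' ≠ 0 → x = x' ∧ n = n') :
    (l.map (fun x => ((List.range m).map (fun n => f x n)).sum)).sum ≤ B := by
  refine A4_sum l hl _ B ?_ ?_
  · intro x _
    refine A4_sum (List.range m) List.nodup_range _ B (fun n _ => h x n) ?_
    intro n _ n' _ hn hn'
    exact (h' x n x n' hn hn').2
  · intro x _ x' _ hx hx'
    obtain ⟨n, _, hn⟩ := A4_sum_ne _ _ hx
    obtain ⟨n', _, hn'⟩ := A4_sum_ne _ _ hx'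
    exact (h' x n x' n' hn hn').1

/-- there is at most one element with a given rank -/
theorem A4_rank {α : Type} (P : α → Bool) (L : List α) (c : ℕ) :
    (L.zipIdx.map (fun an => if P an.1 = true ∧ (L.take an.2).countP P = c then 1 else 0)).sum =
      if c < L.countP P then 1 else 0 := by
  induction L using List.reverseRecOn with
  | nil => rfl
  | append_singleton L a ih =>
    rw [List.zipIdx_append, List.map_append, List.sum_append]
    have h1 : (L.zipIdx.map (fun an => if P an.1 = true ∧
        ((L ++ [a]).take an.2).countP P = c then 1 else 0)) =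
        (L.zipIdx.map (fun an => if P an.1 = true ∧ (L.take an.2).countP P = c then 1 else 0)) := by
      refine List.map_congr_left ?_
      intro an han
      have h2 : an.2 < L.length := by
        have h3 := List.mem_zipIdx han
        omega
      rw [List.take_append_of_le_length h2.le]
    rw [h1, ih, List.countP_append]
    simp only [List.zipIdx_cons, List.zipIdx_nil, List.map_cons, List.map_nil, List.sum_cons,
      List.sum_nil, add_zero, zero_add, List.take_left, List.countP_cons, List.countP_nil]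
    by_cases ha : P a = true
    · by_cases hc : L.countP P = c
      · simp [ha, hc]
      · by_cases hc' : c < L.countP P
        · have h4 : c < L.countP P + 1 := by omega
          simp [ha, hc, hc', h4]
        · have h4 : ¬ c < L.countP P + 1 := by omega
          simp [ha, hc, hc', h4]
    · simp [ha]

/-! ### Degrees -/

/-- the edges with the first end `w` -/
def A4_c1 {W : Type} [DecidableEq W] (w : W) (E : List (W × W)) : ℕ :=
  (E.map (fun e => if e.1 = w then 1 else 0)).sum

/-- the edges with the second end `w` -/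
def A4_c2 {W : Type} [DecidableEq W] (w : W) (E : List (W × W)) : ℕ :=
  (E.map (fun e => if e.2 = w then 1 else 0)).sum

theorem A4_count {W : Type} [DecidableEq W] (w : W) (E : List (W × W)) :
    (endsE E).count w = A4_c1 w E + A4_c2 w E := by
  induction E with
  | nil => rfl
  | cons e E ih =>
    unfold endsE A4_c1 A4_c2 at *
    rw [List.flatMap_cons, List.count_append, ih, List.map_cons, List.map_cons, List.sum_cons,
      List.sum_cons]
    simp only [List.count_cons, List.count_nil, beq_iff_eq, zero_add]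
    omega

theorem A4_c1_append {W : Type} [DecidableEq W] (w : W) (E E' : List (W × W)) :
    A4_c1 w (E ++ E') = A4_c1 w E + A4_c1 w E' := by
  unfold A4_c1
  rw [List.map_append, List.sum_append]

theorem A4_c2_append {W : Type} [DecidableEq W] (w : W) (E E' : List (W × W)) :
    A4_c2 w (E ++ E') = A4_c2 w E + A4_c2 w E' := by
  unfold A4_c2
  rw [List.map_append, List.sum_append]

theorem A4_c1_flatMap {α W : Type} [DecidableEq W] (w : W) (l : List α) (f : α → List (W × W)) :
    A4_c1 w (l.flatMap f) = (l.map (fun a => A4_c1 w (f a))).sum := by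
  induction l with
  | nil => rfl
  | cons a l ih => rw [List.flatMap_cons, A4_c1_append, ih, List.map_cons, List.sum_cons]

theorem A4_c2_flatMap {α W : Type} [DecidableEq W] (w : W) (l : List α) (f : α → List (W × W)) :
    A4_c2 w (l.flatMap f) = (l.map (fun a => A4_c2 w (f a))).sum := by
  induction l with
  | nil => rfl
  | cons a l ih => rw [List.flatMap_cons, A4_c2_append, ih, List.map_cons, List.sum_cons]

/-- the places of the paths -/
def A4_xs (N : ℕ) : List (Fin N × Fin 3) :=
  (List.finRange N).flatMap (fun i => (List.finRange 3).map (fun r => (i, r)))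

theorem A4_xs_nodup (N : ℕ) : (A4_xs N).Nodup := by
  unfold A4_xs
  rw [List.nodup_flatMap]
  refine ⟨?_, ?_⟩
  · intro i _
    exact (List.nodup_finRange 3).map (fun r r' h => congrArg Prod.snd h)
  · refine List.Pairwise.imp ?_ (List.nodup_finRange N)
    intro i i' hne x hx hx'
    obtain ⟨r, _, hr⟩ := List.mem_map.1 hx
    obtain ⟨r', _, hr'⟩ := List.mem_map.1 hx'
    exact hne (congrArg Prod.fst (hr.trans hr'.symm))

theorem A4_seg1 {N : ℕ} (m : ℕ) (w : LocA N) : A4_c1 w (segA N m) ≤ 1 := by
  unfold segA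
  rw [A4_c1_flatMap]
  have h1 : ∀ x : Fin N × Fin 3, A4_c1 w ((List.range m).flatMap
      (fun l => [(slA x l, sgA x l), (sgA x l, slA x (l + 1))])) =
      ((List.range m).map (fun l => (if (slA x l : LocA N) = w then 1 else 0) +
        (if (sgA x l : LocA N) = w then 1 else 0))).sum := by
    intro x
    rw [A4_c1_flatMap]
    rfl
  rw [List.map_congr_left (fun x _ => h1 x)]
  refine A4_sum2 _ (A4_xs_nodup N) m _ 1 ?_ ?_
  · intro x n
    rcases w with ⟨y, l⟩ | ⟨⟨y, l⟩ | q⟩
    · by_cases h : x = y ∧ n = l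
      · simp [h]
      · simp [h]
    · by_cases h : x = y ∧ n = l
      · simp [h]
      · simp [h]
    · simp
  · intro x n x' n' h h'
    rcases w with ⟨y, l⟩ | ⟨⟨y, l⟩ | q⟩
    · simp at h h'
      exact ⟨h.1.trans h'.1.symm, h.2.trans h'.2.symm⟩
    · simp at h h'
      exact ⟨h.1.trans h'.1.symm, h.2.trans h'.2.symm⟩
    · simp at h

theorem A4_seg2 {N : ℕ} (m : ℕ) (w : LocA N) : A4_c2 w (segA N m) ≤ 1 := by
  unfold segA
  rw [A4_c2_flatMap]
  have h1 : ∀ x : Fin N × Fin 3, A4_c2 w ((List.range m).flatMap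
      (fun l => [(slA x l, sgA x l), (sgA x l, slA x (l + 1))])) =
      ((List.range m).map (fun l => (if (sgA x l : LocA N) = w then 1 else 0) +
        (if (slA x (l + 1) : LocA N) = w then 1 else 0))).sum := by
    intro x
    rw [A4_c2_flatMap]
    rfl
  rw [List.map_congr_left (fun x _ => h1 x)]
  refine A4_sum2 _ (A4_xs_nodup N) m _ 1 ?_ ?_
  · intro x n
    rcases w with ⟨y, l⟩ | ⟨⟨y, l⟩ | q⟩
    · by_cases h : x = y ∧ n + 1 = l
      · simp [h]
      · simp [h]
    · by_cases h : x = y ∧ n = l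
      · simp [h]
      · simp [h]
    · simp
  · intro x n x' n' h h'
    rcases w with ⟨y, l⟩ | ⟨⟨y, l⟩ | q⟩
    · simp at h h'
      exact ⟨h.1.trans h'.1.symm, by omega⟩
    · simp at h h'
      exact ⟨h.1.trans h'.1.symm, by omega⟩
    · simp at h

theorem A4_seg0 {N : ℕ} (m : ℕ) (x : Fin N × Fin 3) :
    A4_c2 (slA x 0 : LocA N) (segA N m) = 0 := by
  unfold segA
  rw [A4_c2_flatMap]
  refine List.sum_eq_zero ?_
  intro z hz
  obtain ⟨y, _, rfl⟩ := List.mem_map.1 hz
  rw [A4_c2_flatMap]
  refine List.sum_eq_zero ?_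
  intro z hz
  obtain ⟨l, _, rfl⟩ := List.mem_map.1 hz
  simp [A4_c2]

theorem A4_segh {N : ℕ} (m : ℕ) (n : ℕ) :
    A4_c1 (hmA n : LocA N) (segA N m) = 0 ∧ A4_c2 (hmA n : LocA N) (segA N m) = 0 := by
  unfold segA
  rw [A4_c1_flatMap, A4_c2_flatMap]
  constructor
  · refine List.sum_eq_zero ?_
    intro z hz
    obtain ⟨y, _, rfl⟩ := List.mem_map.1 hz
    rw [A4_c1_flatMap]
    refine List.sum_eq_zero ?_
    intro z hz
    obtain ⟨l, _, rfl⟩ := List.mem_map.1 hz
    simp [A4_c1]
  · refine List.sum_eq_zero ?_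
    intro z hz
    obtain ⟨y, _, rfl⟩ := List.mem_map.1 hz
    rw [A4_c2_flatMap]
    refine List.sum_eq_zero ?_
    intro z hz
    obtain ⟨l, _, rfl⟩ := List.mem_map.1 hz
    simp [A4_c2]

/-- the pattern links at a slot -/
theorem A4_lnk {N : ℕ} (K : ℕ) (L : List (Fin 2 → Fin N × Fin 3))
    (hdeg : ∀ a x, L.countP (fun p => decide (p a = x)) ≤ K) (x : Fin N × Fin 3) (l : ℕ) :
    A4_c1 (slA x l : LocA N) (lnkA K L) + A4_c2 (slA x l : LocA N) (lnkA K L) ≤
      if l = 0 then 0 else 1 := by
  have h1 : A4_c1 (slA x l : LocA N) (lnkA K L) ≤ if 0 < l ∧ l ≤ K then 1 else 0 := by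
    unfold lnkA
    rw [A4_c1_flatMap]
    by_cases hl : 0 < l
    · have h2 : ∀ pn ∈ L.zipIdx, A4_c1 (slA x l : LocA N)
          [(slA (pn.1 0) (1 + (L.take pn.2).countP (fun p => decide (p 0 = pn.1 0))), hmA pn.2),
          (hmA pn.2, slA (pn.1 1) (1 + K + (L.take pn.2).countP
            (fun p => decide (p 1 = pn.1 1))))] =
          if (decide (pn.1 0 = x)) = true ∧
            (L.take pn.2).countP (fun p => decide (p 0 = x)) = l - 1 then 1 else 0 := by
        intro pn _
        by_cases hx : pn.1 0 = x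
        · by_cases hc : (L.take pn.2).countP (fun p => decide (p 0 = x)) = l - 1
          · have hc' : 1 + (L.take pn.2).countP (fun p => decide (p 0 = x)) = l := by omega
            simp [A4_c1, hx, hc]
            omega
          · have hc' : ¬ 1 + (L.take pn.2).countP (fun p => decide (p 0 = x)) = l := by omega
            simp [A4_c1, hx, hc, hc']
        · simp [A4_c1, hx]
      rw [List.map_congr_left h2, A4_rank (fun p : Fin 2 → Fin N × Fin 3 => decide (p 0 = x))]
      by_cases hlt : l - 1 < L.countP (fun p => decide (p 0 = x))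
      · have h3 := hdeg 0 x
        rw [if_pos hlt, if_pos ⟨hl, by omega⟩]
      · rw [if_neg hlt]
        exact Nat.zero_le _
    · have hl0 : l = 0 := by omega
      subst hl0
      refine le_of_eq_of_le (List.sum_eq_zero ?_) (Nat.zero_le _)
      intro z hz
      obtain ⟨pn, _, rfl⟩ := List.mem_map.1 hz
      simp [A4_c1]
  have h1' : A4_c2 (slA x l : LocA N) (lnkA K L) ≤ if K < l then 1 else 0 := by
    unfold lnkA
    rw [A4_c2_flatMap]
    by_cases hl : K < l
    · have h2 : ∀ pn ∈ L.zipIdx, A4_c2 (slA x l : LocA N)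
          [(slA (pn.1 0) (1 + (L.take pn.2).countP (fun p => decide (p 0 = pn.1 0))), hmA pn.2),
          (hmA pn.2, slA (pn.1 1) (1 + K + (L.take pn.2).countP
            (fun p => decide (p 1 = pn.1 1))))] =
          if (decide (pn.1 1 = x)) = true ∧
            (L.take pn.2).countP (fun p => decide (p 1 = x)) = l - 1 - K then 1 else 0 := by
        intro pn _
        by_cases hx : pn.1 1 = x
        · by_cases hc : (L.take pn.2).countP (fun p => decide (p 1 = x)) = l - 1 - K
          · have hc' : 1 + K + (L.take pn.2).countP (fun p => decide (p 1 = x)) = l := by omega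
            simp [A4_c2, hx, hc]
            omega
          · have hc' : ¬ 1 + K + (L.take pn.2).countP (fun p => decide (p 1 = x)) = l := by omega
            simp [A4_c2, hx, hc, hc']
        · simp [A4_c2, hx]
      rw [List.map_congr_left h2, A4_rank (fun p : Fin 2 → Fin N × Fin 3 => decide (p 1 = x))]
      rw [if_pos hl]
      split_ifs <;> omega
    · rw [if_neg hl]
      refine le_of_eq (List.sum_eq_zero ?_)
      intro z hz
      obtain ⟨pn, _, rfl⟩ := List.mem_map.1 hz
      have h3 : ∀ n : ℕ, ¬ (1 + K + n = l) := fun n => by omega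
      simp [A4_c2, h3]
  refine le_trans (Nat.add_le_add h1 h1') ?_
  split_ifs <;> omega

theorem A4_lnks {N : ℕ} (K : ℕ) (L : List (Fin 2 → Fin N × Fin 3)) (x : Fin N × Fin 3) (l : ℕ) :
    A4_c1 (sgA x l : LocA N) (lnkA K L) = 0 ∧ A4_c2 (sgA x l : LocA N) (lnkA K L) = 0 := by
  unfold lnkA
  rw [A4_c1_flatMap, A4_c2_flatMap]
  constructor
  · refine List.sum_eq_zero ?_
    intro z hz
    obtain ⟨y, _, rfl⟩ := List.mem_map.1 hz
    simp [A4_c1]
  · refine List.sum_eq_zero ?_
    intro z hz
    obtain ⟨y, _, rfl⟩ := List.mem_map.1 hz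
    simp [A4_c2]

theorem A4_zipIdx_nodup {α : Type} (L : List α) : (L.zipIdx).Nodup := by
  refine List.Nodup.of_map Prod.snd ?_
  rw [List.zipIdx_map_snd]
  exact List.nodup_range' 1 (by norm_num)

theorem A4_lnkh {N : ℕ} (K : ℕ) (L : List (Fin 2 → Fin N × Fin 3)) (n : ℕ) :
    A4_c1 (hmA n : LocA N) (lnkA K L) ≤ 1 ∧ A4_c2 (hmA n : LocA N) (lnkA K L) ≤ 1 := by
  have h0 : ∀ pn ∈ L.zipIdx, ∀ pn' ∈ L.zipIdx, pn.2 = n → pn'.2 = n → pn = pn' := by
    intro pn hpn pn' hpn' h h'
    have h1 := List.mk_mem_zipIdx_iff_getElem?.1 (show (pn.1, pn.2) ∈ L.zipIdx from hpn)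
    have h2 := List.mk_mem_zipIdx_iff_getElem?.1 (show (pn'.1, pn'.2) ∈ L.zipIdx from hpn')
    rw [h] at h1
    rw [h', h1] at h2
    exact Prod.ext (Option.some.inj h2) (h.trans h'.symm)
  unfold lnkA
  rw [A4_c1_flatMap, A4_c2_flatMap]
  constructor
  · refine A4_sum _ (A4_zipIdx_nodup L) _ 1 ?_ ?_
    · intro pn _
      by_cases h : pn.2 = n
      · simp [A4_c1, h]
      · simp [A4_c1, h]
    · intro pn hpn pn' hpn' h h'
      refine h0 pn hpn pn' hpn' ?_ ?_
      · by_contra hne
        exact h (by simp [A4_c1, hne])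
      · by_contra hne
        exact h' (by simp [A4_c1, hne])
  · refine A4_sum _ (A4_zipIdx_nodup L) _ 1 ?_ ?_
    · intro pn _
      by_cases h : pn.2 = n
      · simp [A4_c2, h]
      · simp [A4_c2, h]
    · intro pn hpn pn' hpn' h h'
      refine h0 pn hpn pn' hpn' ?_ ?_
      · by_contra hne
        exact h (by simp [A4_c2, hne])
      · by_contra hne
        exact h' (by simp [A4_c2, hne])

/-- the bound for the degrees inside a cloud -/
def A4_bd {N : ℕ} : LocA N → ℕ
  | Sum.inl (_, 0) => 1
  | Sum.inl (_, _ + 1) => 3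
  | Sum.inr _ => 2

/-- the degrees inside a cloud -/
theorem A4_cl {N : ℕ} (K : ℕ) (L : List (Fin 2 → Fin N × Fin 3))
    (hdeg : ∀ a x, L.countP (fun p => decide (p a = x)) ≤ K) (w : LocA N) :
    A4_c1 w (clA K L) + A4_c2 w (clA K L) ≤ A4_bd w := by
  unfold clA
  rw [A4_c1_append, A4_c2_append]
  have h1 := A4_seg1 (2 * K) w
  have h2 := A4_seg2 (2 * K) w
  rcases w with ⟨x, l⟩ | ⟨⟨x, l⟩ | n⟩
  · have h3 := A4_lnk K L hdeg x l
    rcases l with _ | l
    · have h4 := A4_seg0 (2 * K) x
      rw [if_pos rfl] at h3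
      have h5 : A4_c2 (Sum.inl (x, 0) : LocA N) (segA N (2 * K)) = 0 := h4
      show _ ≤ 1
      have h6 : A4_c1 (Sum.inl (x, 0) : LocA N) (lnkA K L) +
        A4_c2 (Sum.inl (x, 0) : LocA N) (lnkA K L) ≤ 0 := h3
      omega
    · rw [if_neg (Nat.succ_ne_zero l)] at h3
      show _ ≤ 3
      have h6 : A4_c1 (Sum.inl (x, l + 1) : LocA N) (lnkA K L) +
        A4_c2 (Sum.inl (x, l + 1) : LocA N) (lnkA K L) ≤ 1 := h3
      omega
  · obtain ⟨h3, h4⟩ := A4_lnks K L x l
    show _ ≤ 2
    have h3' : A4_c1 (Sum.inr (Sum.inl (x, l)) : LocA N) (lnkA K L) = 0 := h3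
    have h4' : A4_c2 (Sum.inr (Sum.inl (x, l)) : LocA N) (lnkA K L) = 0 := h4
    omega
  · obtain ⟨h3, h4⟩ := A4_segh (N := N) (2 * K) n
    obtain ⟨h5, h6⟩ := A4_lnkh K L n
    show _ ≤ 2
    have h3' : A4_c1 (Sum.inr (Sum.inr n) : LocA N) (segA N (2 * K)) = 0 := h3
    have h4' : A4_c2 (Sum.inr (Sum.inr n) : LocA N) (segA N (2 * K)) = 0 := h4
    have h5' : A4_c1 (Sum.inr (Sum.inr n) : LocA N) (lnkA K L) ≤ 1 := h5
    have h6' : A4_c2 (Sum.inr (Sum.inr n) : LocA N) (lnkA K L) ≤ 1 := h6
    omega

section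

variable {V : Type} [DecidableEq V]

theorem A4_CLA {N : ℕ} (K : ℕ) (H : Fin 3 → List (Fin 2 → Fin N × Fin 3)) (n : ℕ) (hn : n < 3) :
    (CLA K H).getD n [] = clA K (H ⟨n, hn⟩) := by
  interval_cases n <;> rfl

theorem A4_XLA (N r r' : ℕ) (hr : r < 3) (hr' : r' < 3) :
    ((XLA N).getD r []).getD r' [] = (List.finRange N).map
      (fun i => (slA (i, (⟨r, hr⟩ : Fin 3)) 0, slA (i, (⟨r', hr'⟩ : Fin 3)) 0)) := by
  interval_cases r <;> interval_cases r' <;> rfl

/-- the degrees of the edges inside the clouds -/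
theorem A4_int {N K : ℕ} (H : Fin 3 → List (Fin 2 → Fin N × Fin 3)) (col : V → ℕ)
    (E : List (V × V)) (hdeg : ∀ τ a x, (H τ).countP (fun p => decide (p a = x)) ≤ K)
    (hcol : ∀ v, col v < 3) (v : V) (w : LocA N) :
    A4_c1 (v, w) (intE col (CLA K H) E) + A4_c2 (v, w) (intE col (CLA K H) E) ≤ A4_bd w := by
  unfold intE
  rw [A4_c1_flatMap, A4_c2_flatMap, ← List.sum_map_add]
  have h1 : ∀ (v' : V) (Z : List (LocA N × LocA N)),
      A4_c1 (v, w) (Z.map (fun z => ((v', z.1), (v', z.2)))) +
      A4_c2 (v, w) (Z.map (fun z => ((v', z.1), (v', z.2)))) =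
      if v' = v then A4_c1 w Z + A4_c2 w Z else 0 := by
    intro v' Z
    unfold A4_c1 A4_c2
    rw [List.map_map, List.map_map]
    by_cases h : v' = v
    · rw [if_pos h]
      congr 2
      · refine List.map_congr_left ?_
        intro z _
        simp [h]
      · refine List.map_congr_left ?_
        intro z _
        simp [h]
    · rw [if_neg h]
      have h2 : ∀ z : LocA N × LocA N, ((fun e : (V × LocA N) × (V × LocA N) =>
          if e.1 = (v, w) then 1 else 0) ∘ fun z : LocA N × LocA N => ((v', z.1), (v', z.2))) z =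
          0 := by
        intro z
        simp [h]
      have h3 : ∀ z : LocA N × LocA N, ((fun e : (V × LocA N) × (V × LocA N) =>
          if e.2 = (v, w) then 1 else 0) ∘ fun z : LocA N × LocA N => ((v', z.1), (v', z.2))) z =
          0 := by
        intro z
        simp [h]
      rw [List.map_congr_left (fun z _ => h2 z), List.map_congr_left (fun z _ => h3 z)]
      simp
  refine A4_sum _ (nodup_ded _) _ _ ?_ ?_
  · intro v' _
    rw [h1]
    split_ifs with h
    · rw [A4_CLA K H (col v') (hcol v')]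
      exact A4_cl K _ (hdeg _) w
    · exact Nat.zero_le _
  · intro v' _ v'' _ h h'
    rw [h1] at h h'
    have h2 : v' = v := by
      by_contra hne
      exact h (if_neg hne)
    have h3 : v'' = v := by
      by_contra hne
      exact h' (if_neg hne)
    rw [h2, h3]

theorem A4_ext {L : Type} (XL : List (List (List (L × L)))) (E : List (V × V)) (e : V × V) :
    extE XL (E ++ [e]) = extE XL E ++
      ((XL.getD (rkE E e.1) []).getD (rkE E e.2) []).map (fun z => ((e.1, z.1), (e.2, z.2))) := by
  unfold extE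
  rw [List.zipIdx_append, List.flatMap_append]
  congr 1
  · refine List.flatMap_congr ?_
    intro eq heq
    have h1 : eq.2 < E.length := by
      have h2 := List.mem_zipIdx heq
      omega
    rw [List.take_append_of_le_length h1.le]
  · simp

theorem A4_ends (E : List (V × V)) (e : V × V) (v : V) :
    (endsE (E ++ [e])).count v = (endsE E).count v + (if e.1 = v then 1 else 0) +
      (if e.2 = v then 1 else 0) := by
  unfold endsE
  rw [List.flatMap_append, List.count_append, add_assoc]
  congr 1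
  simp only [List.flatMap_cons, List.flatMap_nil, List.append_nil, List.count_cons,
    List.count_nil, zero_add, beq_iff_eq]
  rw [add_comm]

/-- the number of the edges between two clouds at a slot -/
theorem A4_pair {N : ℕ} (e : V × V) (r r' : ℕ) (hr : r < 3) (hr' : r' < 3) (v : V)
    (i : Fin N) (s : Fin 3) :
    A4_c1 (v, (slA (i, s) 0 : LocA N))
      ((((XLA N).getD r []).getD r' []).map (fun z => ((e.1, z.1), (e.2, z.2)))) ≤
      (if e.1 = v ∧ r = (s : ℕ) then 1 else 0) ∧
    A4_c2 (v, (slA (i, s) 0 : LocA N))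
      ((((XLA N).getD r []).getD r' []).map (fun z => ((e.1, z.1), (e.2, z.2)))) ≤
      (if e.2 = v ∧ r' = (s : ℕ) then 1 else 0) := by
  rw [A4_XLA N r r' hr hr', List.map_map]
  unfold A4_c1 A4_c2
  rw [List.map_map, List.map_map]
  constructor
  · refine A4_sum _ (List.nodup_finRange N) _ _ ?_ ?_
    · intro i' _
      by_cases h : e.1 = v ∧ r = (s : ℕ)
      · rw [if_pos h]
        simp only [Function.comp_apply]
        split_ifs <;> omega
      · rw [if_neg h]
        simp only [Function.comp_apply]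
        rw [if_neg]
        intro h2
        refine h ⟨congrArg Prod.fst h2, ?_⟩
        have h3 := congrArg Prod.snd h2
        have h4 : ((i', (⟨r, hr⟩ : Fin 3)), 0) = ((i, s), 0) := Sum.inl.inj h3
        have h5 : (⟨r, hr⟩ : Fin 3) = s := congrArg (fun y => y.1.2) h4
        rw [← h5]
    · intro i' _ i'' _ h h'
      simp only [Function.comp_apply] at h h'
      have h2 : ∀ i' : Fin N, (if (e.1, (slA (i', (⟨r, hr⟩ : Fin 3)) 0 : LocA N)) =
          (v, slA (i, s) 0) then 1 else 0) ≠ 0 → i' = i := by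
        intro i' h
        by_contra hne
        refine h (if_neg ?_)
        intro h3
        have h4 := congrArg Prod.snd h3
        have h5 : ((i', (⟨r, hr⟩ : Fin 3)), 0) = ((i, s), 0) := Sum.inl.inj h4
        exact hne (congrArg (fun y => y.1.1) h5)
      rw [h2 i' h, h2 i'' h']
  · refine A4_sum _ (List.nodup_finRange N) _ _ ?_ ?_
    · intro i' _
      by_cases h : e.2 = v ∧ r' = (s : ℕ)
      · rw [if_pos h]
        simp only [Function.comp_apply]
        split_ifs <;> omega
      · rw [if_neg h]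
        simp only [Function.comp_apply]
        rw [if_neg]
        intro h2
        refine h ⟨congrArg Prod.fst h2, ?_⟩
        have h3 := congrArg Prod.snd h2
        have h4 : ((i', (⟨r', hr'⟩ : Fin 3)), 0) = ((i, s), 0) := Sum.inl.inj h3
        have h5 : (⟨r', hr'⟩ : Fin 3) = s := congrArg (fun y => y.1.2) h4
        rw [← h5]
    · intro i' _ i'' _ h h'
      simp only [Function.comp_apply] at h h'
      have h2 : ∀ i' : Fin N, (if (e.2, (slA (i', (⟨r', hr'⟩ : Fin 3)) 0 : LocA N)) =
          (v, slA (i, s) 0) then 1 else 0) ≠ 0 → i' = i := by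
        intro i' h
        by_contra hne
        refine h (if_neg ?_)
        intro h3
        have h4 := congrArg Prod.snd h3
        have h5 : ((i', (⟨r', hr'⟩ : Fin 3)), 0) = ((i, s), 0) := Sum.inl.inj h4
        exact hne (congrArg (fun y => y.1.1) h5)
      rw [h2 i' h, h2 i'' h']

/-- the degrees of the edges between the clouds -/
theorem A4_extd {N : ℕ} (E : List (V × V)) (hne : ∀ e ∈ E, e.1 ≠ e.2)
    (h3 : ∀ v, (endsE E).count v ≤ 3) (v : V) (i : Fin N) (s : Fin 3) :
    A4_c1 (v, (slA (i, s) 0 : LocA N)) (extE (XLA N) E) +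
      A4_c2 (v, (slA (i, s) 0 : LocA N)) (extE (XLA N) E) ≤
      if (s : ℕ) < (endsE E).count v then 1 else 0 := by
  induction E using List.reverseRecOn with
  | nil => exact Nat.zero_le _
  | append_singleton E e ih =>
    have hne' : ∀ e' ∈ E, e'.1 ≠ e'.2 := fun e' he' => hne e' (List.mem_append_left _ he')
    have he : e.1 ≠ e.2 := hne e (by simp)
    have h3' : ∀ v, (endsE E).count v ≤ 3 := by
      intro v
      have h4 := h3 v
      rw [A4_ends] at h4
      omega
    have hr : rkE E e.1 < 3 := by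
      have h4 := h3 e.1
      rw [A4_ends, if_pos rfl] at h4
      unfold rkE
      omega
    have hr' : rkE E e.2 < 3 := by
      have h4 := h3 e.2
      rw [A4_ends, if_pos rfl] at h4
      unfold rkE
      omega
    have ih' := ih hne' h3'
    obtain ⟨hp1, hp2⟩ := A4_pair (N := N) e (rkE E e.1) (rkE E e.2) hr hr' v i s
    rw [A4_ext, A4_c1_append, A4_c2_append, A4_ends]
    by_cases h5 : e.1 = v
    · have h6 : ¬ e.2 = v := fun h8 => he (h5.trans h8.symm)
      rw [if_pos h5, if_neg h6]
      rw [if_neg (fun h => h6 h.1)] at hp2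
      have h7 : rkE E e.1 = (endsE E).count v := by rw [h5]; rfl
      split_ifs at ih' hp1 ⊢ <;> omega
    · rw [if_neg (fun h => h5 h.1)] at hp1
      by_cases h6 : e.2 = v
      · rw [if_neg h5, if_pos h6]
        have h7 : rkE E e.2 = (endsE E).count v := by rw [h6]; rfl
        split_ifs at ih' hp2 ⊢ <;> omega
      · rw [if_neg (fun h => h6 h.1)] at hp2
        rw [if_neg h5, if_neg h6]
        split_ifs at ih' ⊢ <;> omega

/-- the ranks of the ends of an edge -/
theorem A4_rk (E : List (V × V)) (h3 : ∀ v, (endsE E).count v ≤ 3) (eq : (V × V) × ℕ)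
    (heq : eq ∈ E.zipIdx) : rkE (E.take eq.2) eq.1.1 < 3 ∧ rkE (E.take eq.2) eq.1.2 < 3 := by
  have h1 : E[eq.2]? = some eq.1 := List.mk_mem_zipIdx_iff_getElem?.1
    (show (eq.1, eq.2) ∈ E.zipIdx from heq)
  obtain ⟨hlt, hget⟩ := List.getElem?_eq_some_iff.1 h1
  have h2 : E = E.take eq.2 ++ (eq.1 :: E.drop (eq.2 + 1)) := by
    rw [← hget, List.getElem_cons_drop, List.take_append_drop]
  have h4 : ∀ v, (endsE (E.take eq.2)).count v + (if eq.1.1 = v then 1 else 0) +
      (if eq.1.2 = v then 1 else 0) ≤ 3 := by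
    intro v
    refine le_trans ?_ (h3 v)
    rw [← A4_ends]
    have h5 : E = (E.take eq.2 ++ [eq.1]) ++ E.drop (eq.2 + 1) := by
      rw [List.append_assoc]
      exact h2
    have h6 : (endsE E).count v = (endsE (E.take eq.2 ++ [eq.1])).count v +
        (endsE (E.drop (eq.2 + 1))).count v := by
      conv_lhs => rw [h5]
      unfold endsE
      rw [List.flatMap_append, List.count_append]
    rw [h6]
    exact Nat.le_add_right _ _
  constructor
  · have h5 := h4 eq.1.1
    rw [if_pos rfl] at h5
    unfold rkE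
    omega
  · have h5 := h4 eq.1.2
    rw [if_pos rfl] at h5
    unfold rkE
    omega

/-- the edges between the clouds -/
theorem A4_mem {N : ℕ} (E : List (V × V)) (h3 : ∀ v, (endsE E).count v ≤ 3)
    (eq : (V × V) × ℕ) (heq : eq ∈ E.zipIdx) (f : (V × LocA N) × (V × LocA N))
    (hf : f ∈ (((XLA N).getD (rkE (E.take eq.2) eq.1.1) []).getD
    (rkE (E.take eq.2) eq.1.2) []).map (fun z => ((eq.1.1, z.1), (eq.1.2, z.2)))) :
    ∃ (i : Fin N) (s s' : Fin 3), f = ((eq.1.1, slA (i, s) 0), (eq.1.2, slA (i, s') 0)) := by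
  obtain ⟨h1, h2⟩ := A4_rk E h3 eq heq
  rw [A4_XLA N _ _ h1 h2, List.map_map] at hf
  obtain ⟨i, _, hi⟩ := List.mem_map.1 hf
  exact ⟨i, _, _, hi.symm⟩

/-- the edges between the clouds join slots with number `0` -/
theorem A4_extz {N : ℕ} (E : List (V × V)) (h3 : ∀ v, (endsE E).count v ≤ 3) (v : V)
    (w : LocA N) (hw : ∀ x, w ≠ slA x 0) :
    A4_c1 (v, w) (extE (XLA N) E) = 0 ∧ A4_c2 (v, w) (extE (XLA N) E) = 0 := by
  unfold extE
  rw [A4_c1_flatMap, A4_c2_flatMap]
  constructor
  · refine List.sum_eq_zero ?_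
    intro z hz
    obtain ⟨eq, heq, rfl⟩ := List.mem_map.1 hz
    refine List.sum_eq_zero ?_
    intro z hz
    obtain ⟨f, hf, rfl⟩ := List.mem_map.1 hz
    obtain ⟨i, s, s', rfl⟩ := A4_mem E h3 eq heq f hf
    refine if_neg ?_
    intro h
    exact hw _ (congrArg Prod.snd h).symm
  · refine List.sum_eq_zero ?_
    intro z hz
    obtain ⟨eq, heq, rfl⟩ := List.mem_map.1 hz
    refine List.sum_eq_zero ?_
    intro z hz
    obtain ⟨f, hf, rfl⟩ := List.mem_map.1 hz
    obtain ⟨i, s, s', rfl⟩ := A4_mem E h3 eq heq f hf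
    refine if_neg ?_
    intro h
    exact hw _ (congrArg Prod.snd h).symm

end

/-! ### No repeated edges -/

/-- different edges -/
def A4_R {W : Type} (e f : W × W) : Prop := e ≠ f ∧ e ≠ (f.2, f.1)

theorem A4_Rmid {W : Type} {e f : W × W} (q : W → Prop)
    (he : q e.1 ∨ q e.2) (hf1 : ¬ q f.1) (hf2 : ¬ q f.2) : A4_R e f := by
  constructor
  · intro h
    rw [h] at he
    rcases he with h1 | h1
    · exact hf1 h1
    · exact hf2 h1
  · intro h
    rw [h] at he
    rcases he with h1 | h1
    · exact hf2 h1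
    · exact hf1 h1

theorem A4_Rmid' {W : Type} {e f : W × W} (q : W → Prop)
    (hf : q f.1 ∨ q f.2) (he1 : ¬ q e.1) (he2 : ¬ q e.2) : A4_R e f := by
  constructor
  · intro h
    rw [← h] at hf
    rcases hf with h1 | h1
    · exact he1 h1
    · exact he2 h1
  · intro h
    rw [h] at he1 he2
    rcases hf with h1 | h1
    · exact he2 h1
    · exact he1 h1

theorem A4_segP (N m : ℕ) : (segA N m).Pairwise A4_R := by
  have hseg : segA N m = (A4_xs N).flatMap (fun x => (List.range m).flatMap
    (fun l => [(slA x l, sgA x l), (sgA x l, slA x (l + 1))])) := rfl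
  rw [hseg, List.pairwise_flatMap]
  constructor
  · intro x _
    rw [List.pairwise_flatMap]
    constructor
    · intro l _
      rw [List.pairwise_pair]
      constructor
      · intro h
        exact absurd (congrArg Prod.fst h) (by simp)
      · intro h
        have h1 := congrArg Prod.fst h
        simp at h1
    · refine List.Pairwise.imp ?_ (List.nodup_range (n := m))
      intro l l' hne e he f hf
      refine A4_Rmid (fun w => w = sgA x l) ?_ ?_ ?_
      · simp only [List.mem_cons, List.not_mem_nil, or_false] at he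
        rcases he with rfl | rfl
        · exact Or.inr rfl
        · exact Or.inl rfl
      · simp only [List.mem_cons, List.not_mem_nil, or_false] at hf
        rcases hf with rfl | rfl
        · simp
        · simp only [Sum.inr.injEq, Sum.inl.injEq, Prod.mk.injEq, true_and]
          exact fun h => hne h.symm
      · simp only [List.mem_cons, List.not_mem_nil, or_false] at hf
        rcases hf with rfl | rfl
        · simp only [Sum.inr.injEq, Sum.inl.injEq, Prod.mk.injEq, true_and]
          exact fun h => hne h.symm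
        · simp
  · refine List.Pairwise.imp ?_ (A4_xs_nodup N)
    intro x x' hne e he f hf
    obtain ⟨l, _, hl⟩ := List.mem_flatMap.1 he
    obtain ⟨l', _, hl'⟩ := List.mem_flatMap.1 hf
    refine A4_Rmid (fun w => ∃ l, w = sgA x l) ?_ ?_ ?_
    · simp only [List.mem_cons, List.not_mem_nil, or_false] at hl
      rcases hl with rfl | rfl
      · exact Or.inr ⟨_, rfl⟩
      · exact Or.inl ⟨_, rfl⟩
    · simp only [List.mem_cons, List.not_mem_nil, or_false] at hl'
      rcases hl' with rfl | rfl
      · simp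
      · rintro ⟨l₀, h₀⟩
        simp only [Sum.inr.injEq, Sum.inl.injEq, Prod.mk.injEq] at h₀
        exact hne h₀.1.symm
    · simp only [List.mem_cons, List.not_mem_nil, or_false] at hl'
      rcases hl' with rfl | rfl
      · rintro ⟨l₀, h₀⟩
        simp only [Sum.inr.injEq, Sum.inl.injEq, Prod.mk.injEq] at h₀
        exact hne h₀.1.symm
      · simp

theorem A4_zipIdx_ne {α : Type} (L : List α) :
    (L.zipIdx).Pairwise (fun a b => a.2 ≠ b.2) := by
  have h : ((L.zipIdx).map Prod.snd).Nodup := by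
    rw [List.zipIdx_map_snd]
    exact List.nodup_range' 1 (by norm_num)
  exact List.pairwise_map.1 h

theorem A4_lnkP {N : ℕ} (K : ℕ) (L : List (Fin 2 → Fin N × Fin 3))
    (hinj : ∀ p ∈ L, ∀ a b, (p a).1 = (p b).1 → a = b) : (lnkA K L).Pairwise A4_R := by
  unfold lnkA
  rw [List.pairwise_flatMap]
  constructor
  · intro pn hpn
    rw [List.pairwise_pair]
    have h01 : pn.1 0 ≠ pn.1 1 := by
      intro h
      have h1 : pn.1 ∈ L := by
        have h2 : pn.1 ∈ L.zipIdx.map Prod.fst := List.mem_map.2 ⟨pn, hpn, rfl⟩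
        rwa [List.zipIdx_map_fst] at h2
      exact absurd (hinj pn.1 h1 0 1 (congrArg Prod.fst h)) (by decide)
    constructor
    · intro h
      exact absurd (congrArg Prod.fst h) (by simp)
    · intro h
      have h1 := congrArg Prod.fst h
      have h2 := Sum.inl.inj h1
      exact h01 (congrArg Prod.fst h2)
  · refine List.Pairwise.imp ?_ (A4_zipIdx_ne L)
    intro pn pn' hne e he f hf
    refine A4_Rmid (fun w => w = hmA pn.2) ?_ ?_ ?_
    · simp only [List.mem_cons, List.not_mem_nil, or_false] at he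
      rcases he with rfl | rfl
      · exact Or.inr rfl
      · exact Or.inl rfl
    · simp only [List.mem_cons, List.not_mem_nil, or_false] at hf
      rcases hf with rfl | rfl
      · simp
      · simp only [Sum.inr.injEq]
        exact fun h => hne h.symm
    · simp only [List.mem_cons, List.not_mem_nil, or_false] at hf
      rcases hf with rfl | rfl
      · simp only [Sum.inr.injEq]
        exact fun h => hne h.symm
      · simp

/-- the middles of the paths -/
def A4_sg {N : ℕ} (w : LocA N) : Prop := ∃ x l, w = sgA x l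

/-- the middles of the paths and of the links -/
def A4_md {N : ℕ} (w : LocA N) : Prop := ∃ y, w = Sum.inr y

theorem A4_seg_md {N m : ℕ} (e : LocA N × LocA N) (he : e ∈ segA N m) :
    (A4_sg e.1 ∨ A4_sg e.2) ∧ (A4_md e.1 ∨ A4_md e.2) ∧ e.1 ≠ e.2 := by
  unfold segA at he
  obtain ⟨x, _, hx⟩ := List.mem_flatMap.1 he
  obtain ⟨l, _, hl⟩ := List.mem_flatMap.1 hx
  simp only [List.mem_cons, List.not_mem_nil, or_false] at hl
  rcases hl with rfl | rfl
  · exact ⟨Or.inr ⟨_, _, rfl⟩, Or.inr ⟨_, rfl⟩, by simp⟩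
  · exact ⟨Or.inl ⟨_, _, rfl⟩, Or.inl ⟨_, rfl⟩, by simp⟩

theorem A4_lnk_md {N K : ℕ} (L : List (Fin 2 → Fin N × Fin 3)) (e : LocA N × LocA N)
    (he : e ∈ lnkA K L) :
    ¬ A4_sg e.1 ∧ ¬ A4_sg e.2 ∧ (A4_md e.1 ∨ A4_md e.2) ∧ e.1 ≠ e.2 := by
  unfold lnkA at he
  obtain ⟨pn, _, hl⟩ := List.mem_flatMap.1 he
  simp only [List.mem_cons, List.not_mem_nil, or_false] at hl
  rcases hl with rfl | rfl
  · refine ⟨?_, ?_, Or.inr ⟨_, rfl⟩, by simp⟩
    · rintro ⟨x, l, h⟩
      simp at h
    · rintro ⟨x, l, h⟩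
      simp at h
  · refine ⟨?_, ?_, Or.inl ⟨_, rfl⟩, by simp⟩
    · rintro ⟨x, l, h⟩
      simp at h
    · rintro ⟨x, l, h⟩
      simp at h

theorem A4_clP {N : ℕ} (K : ℕ) (L : List (Fin 2 → Fin N × Fin 3))
    (hinj : ∀ p ∈ L, ∀ a b, (p a).1 = (p b).1 → a = b) :
    (clA K L).Pairwise A4_R ∧ (∀ e ∈ clA K L, (A4_md e.1 ∨ A4_md e.2) ∧ e.1 ≠ e.2) := by
  unfold clA
  constructor
  · rw [List.pairwise_append]
    refine ⟨A4_segP N (2 * K), A4_lnkP K L hinj, ?_⟩
    intro e he f hf
    obtain ⟨h1, _, _⟩ := A4_seg_md e he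
    obtain ⟨h2, h3, _, _⟩ := A4_lnk_md L f hf
    exact A4_Rmid A4_sg h1 h2 h3
  · intro e he
    rcases List.mem_append.1 he with h | h
    · exact (A4_seg_md e h).2
    · exact (A4_lnk_md L e h).2.2

theorem p_A4 : S_A4 := by
  intro V _ N C K h g H col E hP hcol hE
  obtain ⟨hE1, hE2, hE3⟩ := hE
  -- the edges inside the clouds
  have hint : ∀ e ∈ intE col (CLA K H) E, e.1.1 = e.2.1 ∧ (A4_md e.1.2 ∨ A4_md e.2.2) ∧
      e.1 ≠ e.2 := by
    intro e he
    unfold intE at he
    obtain ⟨v, _, hv⟩ := List.mem_flatMap.1 he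
    rw [A4_CLA K H (col v) (hcol v)] at hv
    obtain ⟨z, hz, rfl⟩ := List.mem_map.1 hv
    obtain ⟨h1, h2⟩ := (A4_clP K _ (hP.inj _)).2 z hz
    exact ⟨rfl, h1, fun h => h2 (congrArg Prod.snd h)⟩
  have hext : ∀ e ∈ extE (XLA N) E, ¬ A4_md e.1.2 ∧ ¬ A4_md e.2.2 ∧ e.1 ≠ e.2 := by
    intro e he
    unfold extE at he
    obtain ⟨eq, heq, hf⟩ := List.mem_flatMap.1 he
    obtain ⟨i, s, s', rfl⟩ := A4_mem E hE3 eq heq e hf
    refine ⟨?_, ?_, ?_⟩
    · rintro ⟨y, hy⟩
      simp at hy
    · rintro ⟨y, hy⟩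
      simp at hy
    · intro h
      have h1 : eq.1 ∈ E := by
        have h2 : eq.1 ∈ E.zipIdx.map Prod.fst := List.mem_map.2 ⟨eq, heq, rfl⟩
        rwa [List.zipIdx_map_fst] at h2
      exact hE1 eq.1 h1 (congrArg Prod.fst h)
  unfold cloudE
  refine ⟨?_, ?_, ?_⟩
  · intro e he
    rcases List.mem_append.1 he with h | h
    · exact (hint e h).2.2
    · exact (hext e h).2.2
  · show (intE col (CLA K H) E ++ extE (XLA N) E).Pairwise A4_R
    rw [List.pairwise_append]
    refine ⟨?_, ?_, ?_⟩
    · unfold intE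
      rw [List.pairwise_flatMap]
      constructor
      · intro v _
        rw [A4_CLA K H (col v) (hcol v), List.pairwise_map]
        refine List.Pairwise.imp ?_ (A4_clP K _ (hP.inj _)).1
        intro z z' hz
        constructor
        · intro h
          exact hz.1 (Prod.ext (congrArg (fun y => y.1.2) h) (congrArg (fun y => y.2.2) h))
        · intro h
          exact hz.2 (Prod.ext (congrArg (fun y => y.1.2) h) (congrArg (fun y => y.2.2) h))
      · refine List.Pairwise.imp ?_ (nodup_ded (endsE E))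
        intro v v' hne e he f hf
        obtain ⟨z, _, rfl⟩ := List.mem_map.1 he
        obtain ⟨z', _, rfl⟩ := List.mem_map.1 hf
        exact ⟨fun h => hne (congrArg (fun y => y.1.1) h),
          fun h => hne (congrArg (fun y => y.1.1) h)⟩
    · unfold extE
      rw [List.pairwise_flatMap]
      constructor
      · intro eq heq
        obtain ⟨h1, h2⟩ := A4_rk E hE3 eq heq
        have hmem : eq.1 ∈ E := by
          have h2 : eq.1 ∈ E.zipIdx.map Prod.fst := List.mem_map.2 ⟨eq, heq, rfl⟩
          rwa [List.zipIdx_map_fst] at h2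
        rw [A4_XLA N _ _ h1 h2, List.map_map, List.pairwise_map]
        refine List.Pairwise.imp ?_ (List.nodup_finRange N)
        intro i i' hne
        constructor
        · intro h
          have h3 : (slA (i, (⟨_, h1⟩ : Fin 3)) 0 : LocA N) = slA (i', (⟨_, h1⟩ : Fin 3)) 0 :=
            congrArg (fun y => y.1.2) h
          exact hne (congrArg (fun y => y.1.1) (Sum.inl.inj h3))
        · intro h
          exact hE1 eq.1 hmem (congrArg (fun y => y.1.1) h)
      · have hpw : E.zipIdx.Pairwise (fun a b => A4_R a.1 b.1) := by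
          rw [← List.pairwise_map (f := Prod.fst) (R := A4_R), List.zipIdx_map_fst]
          exact hE2
        refine (List.Pairwise.and_mem.1 hpw).imp ?_
        rintro eq eq' ⟨heq, heq', hR1, hR2⟩ e he f hf
        obtain ⟨i, s, s', rfl⟩ := A4_mem E hE3 eq heq e he
        obtain ⟨i', t, t', rfl⟩ := A4_mem E hE3 eq' heq' f hf
        constructor
        · intro h
          exact hR1 (Prod.ext (congrArg (fun y => y.1.1) h) (congrArg (fun y => y.2.1) h))
        · intro h
          exact hR2 (Prod.ext (congrArg (fun y => y.1.1) h) (congrArg (fun y => y.2.1) h))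
    · intro e he f hf
      obtain ⟨_, h1, _⟩ := hint e he
      obtain ⟨h2, h3, _⟩ := hext f hf
      exact A4_Rmid (fun w : V × LocA N => A4_md w.2) h1 h2 h3
  · rintro ⟨v, w⟩
    rw [A4_count, A4_c1_append, A4_c2_append]
    have h1 := A4_int H col E hP.deg hcol v w
    rcases w with ⟨⟨i, s⟩, l⟩ | y
    · rcases l with _ | l
      · have h2 := A4_extd E hE1 hE3 v i s
        have h3 : A4_bd (Sum.inl ((i, s), 0) : LocA N) = 1 := rfl
        rw [h3] at h1
        have h4 : A4_c1 (v, (Sum.inl ((i, s), 0) : LocA N)) (extE (XLA N) E) +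
            A4_c2 (v, (Sum.inl ((i, s), 0) : LocA N)) (extE (XLA N) E) ≤ 1 := by
          refine le_trans h2 ?_
          split_ifs <;> omega
        omega
      · obtain ⟨h2, h3⟩ := A4_extz E hE3 v (Sum.inl ((i, s), l + 1) : LocA N) (by
          intro x hx
          have h4 := congrArg Prod.snd (Sum.inl.inj hx)
          exact absurd h4 (Nat.succ_ne_zero l))
        have h4 : A4_bd (Sum.inl ((i, s), l + 1) : LocA N) = 3 := rfl
        rw [h4] at h1
        omega
    · obtain ⟨h2, h3⟩ := A4_extz E hE3 v (Sum.inr y : LocA N) (by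
        intro x hx
        simp at hx)
      have h4 : A4_bd (Sum.inr y : LocA N) = 2 := rfl
      rw [h4] at h1
      omega

end Pool.Agent.Lib.MP_87d05f_lc.HG
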