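import Pool.Agent.Lib.MP_87d05f_lc.HG.Stm

set_option autoImplicit false

/-!
# MP_87d05f_lc, instances of large girth: the girth of the graph of clouds for the maximum cut
-/

namespace Pool.Agent.Lib.MP_87d05f_lc.HG

open Pool.Agent.Lib.MP_87d05f_lc

section

variable {V : Type} [DecidableEq V]

/-- edge ends `(v, rank)` joined by an edge -/
def A5_J (E : List (V × V)) (a b : V × ℕ) : Prop :=
  ∃ q e, E[q]? = some e ∧
    ((a = (e.1, rkE (E.take q) e.1) ∧ b = (e.2, rkE (E.take q) e.2)) ∨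
      (b = (e.1, rkE (E.take q) e.1) ∧ a = (e.2, rkE (E.take q) e.2)))

theorem A5_J_symm {E : List (V × V)} {a b : V × ℕ} (h : A5_J E a b) : A5_J E b a := by
  obtain ⟨q, e, h1, h2 | h2⟩ := h
  · exact ⟨q, e, h1, Or.inr h2⟩
  · exact ⟨q, e, h1, Or.inl h2⟩

theorem A5_rk_append (P Q : List (V × V)) (u : V) : rkE (P ++ Q) u = rkE P u + rkE Q u := by
  simp only [rkE, endsE, List.flatMap_append, List.count_append]

theorem A5_rk_lt {E : List (V × V)} {q q' : ℕ} {e : V × V} {u : V} (h : E[q]? = some e)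
    (hu : u = e.1 ∨ u = e.2) (hq : q < q') : rkE (E.take q) u < rkE (E.take q') u := by
  have h1 : E.take q' = E.take (q + 1) ++ (E.take q').drop (q + 1) := by
    have := (List.take_append_drop (q + 1) (E.take q')).symm
    rwa [List.take_take, min_eq_left (by omega)] at this
  have h2 : E.take (q + 1) = E.take q ++ [e] := by
    rw [List.take_add_one, h]
    rfl
  rw [h1, h2, A5_rk_append, A5_rk_append]
  have h3 : 1 ≤ rkE [e] u := by
    have : u ∈ endsE [e] := by
      simp only [endsE, List.flatMap_cons, List.flatMap_nil, List.append_nil, List.mem_cons,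
        List.not_mem_nil, or_false]
      exact hu
    exact List.count_pos_iff.2 this
  omega

theorem A5_J_unique {E : List (V × V)} (hE : ∀ e ∈ E, e.1 ≠ e.2) {a b c : V × ℕ}
    (hb : A5_J E a b) (hc : A5_J E a c) : b = c := by
  obtain ⟨q, e, h1, h2⟩ := hb
  obtain ⟨q', e', h1', h2'⟩ := hc
  have hu : (a.1 = e.1 ∨ a.1 = e.2) ∧ a.2 = rkE (E.take q) a.1 := by
    rcases h2 with h | h
    · rw [h.1]; exact ⟨Or.inl rfl, rfl⟩
    · rw [h.2]; exact ⟨Or.inr rfl, rfl⟩
  have hu' : (a.1 = e'.1 ∨ a.1 = e'.2) ∧ a.2 = rkE (E.take q') a.1 := by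
    rcases h2' with h | h
    · rw [h.1]; exact ⟨Or.inl rfl, rfl⟩
    · rw [h.2]; exact ⟨Or.inr rfl, rfl⟩
  have hq : q = q' := by
    rcases Nat.lt_trichotomy q q' with h | h | h
    · have := A5_rk_lt h1 hu.1 h
      rw [← hu.2, ← hu'.2] at this
      exact absurd this (lt_irrefl _)
    · exact h
    · have := A5_rk_lt h1' hu'.1 h
      rw [← hu.2, ← hu'.2] at this
      exact absurd this (lt_irrefl _)
  subst hq
  rw [h1] at h1'
  have he : e = e' := Option.some.inj h1'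
  subst he
  have hne : e.1 ≠ e.2 := hE e (List.mem_of_getElem? h1)
  rcases h2 with h | h <;> rcases h2' with h' | h'
  · rw [h.2, h'.2]
  · exact absurd (congrArg Prod.fst (h.1.symm.trans h'.2)) hne
  · exact absurd (congrArg Prod.fst (h'.1.symm.trans h.2)) hne
  · rw [h.1, h'.1]

theorem A5_J_col {E : List (V × V)} {col : V → ℕ} (hE : ∀ e ∈ E, col e.1 ≠ col e.2) {a b : V × ℕ}
    (h : A5_J E a b) : col a.1 ≠ col b.1 := by
  obtain ⟨q, e, h1, h2⟩ := h
  have := hE e (List.mem_of_getElem? h1)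
  rcases h2 with h | h
  · rw [h.1, h.2]; exact this
  · rw [h.1, h.2]; exact this.symm

/-- the set of an edge end and its partner -/
def A5_S (E : List (V × V)) (a : V × ℕ) : Set (V × ℕ) := {b | b = a ∨ A5_J E a b}

theorem A5_S_eq {E : List (V × V)} (hE : ∀ e ∈ E, e.1 ≠ e.2) {a b : V × ℕ} (h : A5_J E a b) :
    A5_S E a = A5_S E b := by
  ext c
  constructor
  · rintro (hc | hc)
    · right; rw [hc]; exact A5_J_symm h
    · left; exact A5_J_unique hE hc h
  · rintro (hc | hc)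
    · right; rw [hc]; exact h
    · left; exact A5_J_unique hE hc (A5_J_symm h)

/-- the number of the slot used by a link -/
def A5_M {N : ℕ} (K : ℕ) (L : List (Fin 2 → Fin N × Fin 3)) (n : ℕ)
    (p : Fin 2 → Fin N × Fin 3) (j : Fin 2) : ℕ :=
  if j = 0 then 1 + (L.take n).countP (fun p' => decide (p' 0 = p 0))
  else 1 + K + (L.take n).countP (fun p' => decide (p' 1 = p 1))

/-- the links -/
def A5_L {N : ℕ} (K : ℕ) (H : Fin 3 → List (Fin 2 → Fin N × Fin 3)) (col : V → ℕ)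
    (a b : V × LocA N) : Prop :=
  ∃ (v : V) (c : Fin 3) (n : ℕ) (p : Fin 2 → Fin N × Fin 3) (j : Fin 2), (c : ℕ) = col v ∧
    (H c)[n]? = some p ∧ a = (v, hmA n) ∧ b = (v, slA (p j) (A5_M K (H c) n p j))

/-- the stutters, from the larger to the smaller depth -/
def A5_D {N : ℕ} (E : List (V × V)) (x y : V × LocA N) : Prop :=
  (∃ v a l, x = (v, slA a (l + 1)) ∧ y = (v, sgA a l)) ∨
  (∃ v a l, x = (v, sgA a l) ∧ y = (v, slA a l)) ∨
  (∃ (v : V) (i : Fin N) (s : Fin 3) (v' : V) (s' : Fin 3), x = (v, slA (i, s) 0) ∧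
    y = (v', slA (i, s') 0) ∧ A5_J E (v, (s : ℕ)) (v', (s' : ℕ)))

theorem A5_XL {N : ℕ} {r r' : ℕ} {z : LocA N × LocA N}
    (h : z ∈ ((XLA N).getD r []).getD r' []) : ∃ (i : Fin N) (s s' : Fin 3), (s : ℕ) = r ∧
      (s' : ℕ) = r' ∧ z = (slA (i, s) 0, slA (i, s') 0) := by
  have hf : List.finRange 3 = [0, 1, 2] := rfl
  by_cases hr : r < 3
  · by_cases hr' : r' < 3
    · have e : ((XLA N).getD r []).getD r' [] = (List.finRange N).map
          (fun i => (slA (i, (⟨r, hr⟩ : Fin 3)) 0, slA (i, (⟨r', hr'⟩ : Fin 3)) 0)) := by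
        unfold XLA
        rw [hf]
        interval_cases r <;> interval_cases r' <;> rfl
      rw [e, List.mem_map] at h
      obtain ⟨i, _, hi⟩ := h
      exact ⟨i, ⟨r, hr⟩, ⟨r', hr'⟩, rfl, rfl, hi.symm⟩
    · exfalso
      have e : ((XLA N).getD r []).getD r' [] = [] := by
        rw [List.getD_eq_default]
        unfold XLA
        rw [hf]
        interval_cases r <;> simp <;> omega
      rw [e] at h
      simp at h
  · exfalso
    have e : (XLA N).getD r [] = [] := by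
      rw [List.getD_eq_default]
      unfold XLA
      rw [hf]
      simp
      omega
    rw [e] at h
    simp at h

/-- the edges of the graph of clouds -/
theorem A5_mem {N K : ℕ} {H : Fin 3 → List (Fin 2 → Fin N × Fin 3)} {col : V → ℕ}
    {E : List (V × V)} (hcol : ∀ v, col v < 3) {x y : V × LocA N}
    (h : (x, y) ∈ cloudE col (CLA K H) (XLA N) E) :
    A5_D E x y ∨ A5_D E y x ∨ A5_L K H col x y ∨ A5_L K H col y x := by
  unfold cloudE at h
  rcases List.mem_append.1 h with h | h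
  · unfold intE at h
    rw [List.mem_flatMap] at h
    obtain ⟨v, _, h⟩ := h
    rw [List.mem_map] at h
    obtain ⟨z, hz, hxy⟩ := h
    have hc : ∀ c : Fin 3, (CLA K H).getD (c : ℕ) [] = clA K (H c) := by
      intro c
      fin_cases c <;> rfl
    have hc' := hc ⟨col v, hcol v⟩
    simp only at hc'
    rw [hc'] at hz
    have hx : x = (v, z.1) := (congrArg Prod.fst hxy).symm
    have hy : y = (v, z.2) := (congrArg Prod.snd hxy).symm
    unfold clA at hz
    rcases List.mem_append.1 hz with hz | hz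
    · unfold segA at hz
      rw [List.mem_flatMap] at hz
      obtain ⟨a, _, hz⟩ := hz
      rw [List.mem_flatMap] at hz
      obtain ⟨l, _, hz⟩ := hz
      simp only [List.mem_cons, List.not_mem_nil, or_false] at hz
      rcases hz with hz | hz
      · right; left
        right; left
        refine ⟨v, a, l, ?_, ?_⟩
        · rw [hy, hz]
        · rw [hx, hz]
      · right; left
        left
        refine ⟨v, a, l, ?_, ?_⟩
        · rw [hy, hz]
        · rw [hx, hz]
    · unfold lnkA at hz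
      rw [List.mem_flatMap] at hz
      obtain ⟨pn, hpn, hz⟩ := hz
      have hpn' : (H ⟨col v, hcol v⟩)[pn.2]? = some pn.1 := by
        have := List.mem_zipIdx_iff_getElem?.1 hpn
        simpa using this
      simp only [List.mem_cons, List.not_mem_nil, or_false] at hz
      rcases hz with hz | hz
      · right; right; right
        refine ⟨v, ⟨col v, hcol v⟩, pn.2, pn.1, 0, rfl, hpn', ?_, ?_⟩
        · rw [hy, hz]
        · rw [hx, hz]; rfl
      · right; right; left
        refine ⟨v, ⟨col v, hcol v⟩, pn.2, pn.1, 1, rfl, hpn', ?_, ?_⟩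
        · rw [hx, hz]
        · rw [hy, hz]; rfl
  · unfold extE at h
    rw [List.mem_flatMap] at h
    obtain ⟨eq, heq, h⟩ := h
    rw [List.mem_map] at h
    obtain ⟨z, hz, hxy⟩ := h
    have heq' : E[eq.2]? = some eq.1 := by
      have := List.mem_zipIdx_iff_getElem?.1 heq
      simpa using this
    obtain ⟨i, s, s', hs, hs', hz'⟩ := A5_XL hz
    left; right; right
    refine ⟨eq.1.1, i, s, eq.1.2, s', ?_, ?_, ?_⟩
    · exact (congrArg Prod.fst hxy).symm.trans (by rw [hz'])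
    · exact (congrArg Prod.snd hxy).symm.trans (by rw [hz'])
    · refine ⟨eq.2, eq.1, heq', Or.inl ⟨?_, ?_⟩⟩
      · rw [hs]
      · rw [hs']

/-- the map to the index graph -/
def A5_phi {N : ℕ} {col : V → ℕ} (hcol : ∀ v, col v < 3) (x : V × LocA N) :
    (Fin 3 × ℕ) ⊕ Fin N :=
  Sum.elim (fun a => Sum.inr a.1.1) (Sum.elim (fun a => Sum.inr a.1.1)
    (fun n => Sum.inl (⟨col x.1, hcol x.1⟩, n))) x.2

/-- the depth -/
def A5_dep {N : ℕ} (x : V × LocA N) : ℕ :=
  Sum.elim (fun a => 2 * a.2) (Sum.elim (fun a => 2 * a.2 + 1) (fun _ => 0)) x.2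

/-- the invariant -/
def A5_kap {N : ℕ} (E : List (V × V)) (x : V × LocA N) : (V × ℕ) ⊕ (Fin N × Set (V × ℕ)) :=
  Sum.elim (fun a => Sum.inr (a.1.1, A5_S E (x.1, (a.1.2 : ℕ))))
    (Sum.elim (fun a => Sum.inr (a.1.1, A5_S E (x.1, (a.1.2 : ℕ))))
      (fun n => Sum.inl (x.1, n))) x.2

theorem A5_D_phi {N : ℕ} {col : V → ℕ} (hcol : ∀ v, col v < 3) {E : List (V × V)}
    {x y : V × LocA N} (h : A5_D E x y) : A5_phi hcol x = A5_phi hcol y := by
  rcases h with ⟨v, a, l, rfl, rfl⟩ | ⟨v, a, l, rfl, rfl⟩ | ⟨v, i, s, v', s', rfl, rfl, _⟩ <;> rfl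

theorem A5_D_kap {N : ℕ} {E : List (V × V)} (hE : ∀ e ∈ E, e.1 ≠ e.2)
    {x y : V × LocA N} (h : A5_D E x y) : A5_kap E x = A5_kap E y := by
  rcases h with ⟨v, a, l, rfl, rfl⟩ | ⟨v, a, l, rfl, rfl⟩ | ⟨v, i, s, v', s', rfl, rfl, h⟩
  · rfl
  · rfl
  · change Sum.inr (i, A5_S E (v, (s : ℕ))) = Sum.inr (i, A5_S E (v', (s' : ℕ)))
    rw [A5_S_eq hE h]

omit [DecidableEq V] in
theorem A5_L_phi {N K : ℕ} {H : Fin 3 → List (Fin 2 → Fin N × Fin 3)} {col : V → ℕ}
    (hcol : ∀ v, col v < 3) {x y : V × LocA N} (h : A5_L K H col x y) :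
    (idxG H).Adj (A5_phi hcol x) (A5_phi hcol y) := by
  obtain ⟨v, c, n, p, j, hc, hp, rfl, rfl⟩ := h
  have hc' : c = ⟨col v, hcol v⟩ := Fin.ext hc
  rw [idxG, SimpleGraph.fromRel_adj]
  refine ⟨by simp [A5_phi], Or.inl ?_⟩
  exact ⟨c, n, (p j).1, p, j, by rw [hc']; rfl, rfl, hp, rfl⟩

omit [DecidableEq V] in
theorem A5_L_ne {N K : ℕ} {H : Fin 3 → List (Fin 2 → Fin N × Fin 3)} {col : V → ℕ}
    (hcol : ∀ v, col v < 3) {x y : V × LocA N} (h : A5_L K H col x y) :
    A5_phi hcol x ≠ A5_phi hcol y := (A5_L_phi hcol h).ne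

theorem A5_D_fun {N : ℕ} {E : List (V × V)} (hE : ∀ e ∈ E, e.1 ≠ e.2)
    {x y z : V × LocA N} (hy : A5_D E x y) (hz : A5_D E x z) : y = z := by
  rcases hy with ⟨v, a, l, rfl, rfl⟩ | ⟨v, a, l, rfl, rfl⟩ | ⟨v, i, s, v', s', rfl, rfl, h⟩
  · rcases hz with ⟨w, b, m, h1, rfl⟩ | ⟨w, b, m, h1, rfl⟩ | ⟨w, b, t, w', t', h1, rfl, _⟩
    · simp only [Prod.mk.injEq, Sum.inl.injEq, Nat.add_right_cancel_iff] at h1
      obtain ⟨rfl, rfl, rfl⟩ := h1
      rfl
    · simp at h1
    · simp at h1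
  · rcases hz with ⟨w, b, m, h1, rfl⟩ | ⟨w, b, m, h1, rfl⟩ | ⟨w, b, t, w', t', h1, rfl, _⟩
    · simp at h1
    · simp only [Prod.mk.injEq, Sum.inr.injEq, Sum.inl.injEq] at h1
      obtain ⟨rfl, rfl, rfl⟩ := h1
      rfl
    · simp at h1
  · rcases hz with ⟨w, b, m, h1, rfl⟩ | ⟨w, b, m, h1, rfl⟩ | ⟨w, b, t, w', t', h1, rfl, h'⟩
    · simp at h1
    · simp at h1
    · simp only [Prod.mk.injEq, Sum.inl.injEq, and_true] at h1
      obtain ⟨rfl, rfl, rfl⟩ := h1
      have := A5_J_unique hE h h'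
      simp only [Prod.mk.injEq] at this
      obtain ⟨rfl, h2⟩ := this
      have h3 : s' = t' := Fin.ext h2
      rw [h3]

/-- a stutter to a vertex of at least the same depth goes down or is between slots `0` -/
theorem A5_D_dep {N : ℕ} {E : List (V × V)} {x y : V × LocA N} (h : A5_D E y x)
    (hd : A5_dep y ≤ A5_dep x) : A5_D E x y := by
  rcases h with ⟨v, a, l, rfl, rfl⟩ | ⟨v, a, l, rfl, rfl⟩ | ⟨v, i, s, v', s', rfl, rfl, h⟩
  · exfalso
    simp only [A5_dep, Sum.elim_inl, Sum.elim_inr] at hd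
    omega
  · exfalso
    simp only [A5_dep, Sum.elim_inl, Sum.elim_inr] at hd
    omega
  · right; right
    exact ⟨v', i, s', v, s, rfl, rfl, A5_J_symm h⟩

omit [DecidableEq V] in
theorem A5_L_fun {N K : ℕ} {H : Fin 3 → List (Fin 2 → Fin N × Fin 3)} {col : V → ℕ}
    (hcol : ∀ v, col v < 3) (hinj : ∀ τ, ∀ p ∈ H τ, ∀ a b, (p a).1 = (p b).1 → a = b)
    {x y y' : V × LocA N} (h : A5_L K H col x y) (h' : A5_L K H col x y')
    (hy : A5_phi hcol y = A5_phi hcol y') : y = y' := by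
  obtain ⟨v, c, n, p, j, hc, hp, rfl, rfl⟩ := h
  obtain ⟨v', c', n', p', j', hc', hp', h1, rfl⟩ := h'
  simp only [Prod.mk.injEq, Sum.inr.injEq] at h1
  obtain ⟨rfl, rfl⟩ := h1
  have hcc : c = c' := Fin.ext (hc.trans hc'.symm)
  subst hcc
  rw [hp] at hp'
  have hpp : p = p' := Option.some.inj hp'
  subst hpp
  have hj : j = j' := by
    apply hinj c p (List.mem_of_getElem? hp)
    have h2 : (Sum.inr (p j).1 : (Fin 3 × ℕ) ⊕ Fin N) = Sum.inr (p j').1 := hy
    exact Sum.inr.inj h2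
  rw [hj]

theorem p_A5 : S_GEN → S_A5 := by
  intro hGEN V _ N C K h g H col E hP hcol hE hEc
  have hE1 : ∀ e ∈ E, e.1 ≠ e.2 := hE.1
  have hadj : ∀ x y : V × LocA N, (gE (cloudE col (CLA K H) (XLA N) E)).Adj x y →
      A5_D E x y ∨ A5_D E y x ∨ A5_L K H col x y ∨ A5_L K H col y x := by
    intro x y hxy
    rw [gE, SimpleGraph.fromRel_adj] at hxy
    rcases hxy.2 with h1 | h1
    · exact A5_mem hcol h1
    · rcases A5_mem hcol h1 with h2 | h2 | h2 | h2
      · exact Or.inr (Or.inl h2)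
      · exact Or.inl h2
      · exact Or.inr (Or.inr (Or.inr h2))
      · exact Or.inr (Or.inr (Or.inl h2))
  refine hGEN ((Fin 3 × ℕ) ⊕ Fin N) (V × LocA N) ((V × ℕ) ⊕ (Fin N × Set (V × ℕ))) (idxG H)
    (gE (cloudE col (CLA K H) (XLA N) E)) (A5_phi hcol) (A5_kap E) A5_dep g ?_ ?_ ?_ ?_ hP.girth
  · intro x y hxy hne
    rcases hadj x y hxy with h1 | h1 | h1 | h1
    · exact absurd (A5_D_phi hcol h1) hne
    · exact absurd (A5_D_phi hcol h1).symm hne
    · exact A5_L_phi hcol h1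
    · exact (A5_L_phi hcol h1).symm
  · intro x y hxy heq
    rcases hadj x y hxy with h1 | h1 | h1 | h1
    · exact A5_D_kap hE1 h1
    · exact (A5_D_kap hE1 h1).symm
    · exact absurd heq (A5_L_ne hcol h1)
    · exact absurd heq.symm (A5_L_ne hcol h1)
  · intro x y z hxy hxz hy hz hdy hdz
    have key : ∀ w, (gE (cloudE col (CLA K H) (XLA N) E)).Adj x w →
        A5_phi hcol w = A5_phi hcol x → A5_dep w ≤ A5_dep x → A5_D E x w := by
      intro w hw hφ hd
      rcases hadj x w hw with h1 | h1 | h1 | h1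
      · exact h1
      · exact A5_D_dep h1 hd
      · exact absurd hφ.symm (A5_L_ne hcol h1)
      · exact absurd hφ (A5_L_ne hcol h1)
    exact A5_D_fun hE1 (key y hxy hy hdy) (key z hxz hz hdz)
  · intro x x' y y' hxy hxy' hφ hκ hφ' hne
    have key : ∀ x y, (gE (cloudE col (CLA K H) (XLA N) E)).Adj x y →
        A5_phi hcol y ≠ A5_phi hcol x → A5_L K H col x y ∨ A5_L K H col y x := by
      intro x y hxy hne
      rcases hadj x y hxy with h1 | h1 | h1 | h1
      · exact absurd (A5_D_phi hcol h1).symm hne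
      · exact absurd (A5_D_phi hcol h1) hne
      · exact Or.inl h1
      · exact Or.inr h1
    have hne' : A5_phi hcol y' ≠ A5_phi hcol x' := by rw [← hφ, ← hφ']; exact hne
    rcases key x y hxy hne with h1 | h1 <;> rcases key x' y' hxy' hne' with h2 | h2
    · have hx : x = x' := by
        obtain ⟨v, c, n, p, j, hc, hp, rfl, rfl⟩ := h1
        obtain ⟨v', c', n', p', j', hc', hp', rfl, rfl⟩ := h2
        have h3 : (Sum.inl (v, n) : (V × ℕ) ⊕ (Fin N × Set (V × ℕ))) = Sum.inl (v', n') := hκ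
        simp only [Sum.inl.injEq, Prod.mk.injEq] at h3
        obtain ⟨rfl, rfl⟩ := h3
        rfl
      subst hx
      exact ⟨rfl, A5_L_fun hcol hP.inj h1 h2 hφ'⟩
    · exfalso
      obtain ⟨v, c, n, p, j, hc, hp, rfl, rfl⟩ := h1
      obtain ⟨v', c', n', p', j', hc', hp', rfl, rfl⟩ := h2
      simp [A5_phi] at hφ
    · exfalso
      obtain ⟨v, c, n, p, j, hc, hp, rfl, rfl⟩ := h1
      obtain ⟨v', c', n', p', j', hc', hp', rfl, rfl⟩ := h2
      simp [A5_phi] at hφ
    · have hy : y = y' := by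
        obtain ⟨v, c, n, p, j, hc, hp, rfl, rfl⟩ := h1
        obtain ⟨v', c', n', p', j', hc', hp', rfl, rfl⟩ := h2
        have h3 : (Sum.inl ((⟨col v, hcol v⟩ : Fin 3), n) : (Fin 3 × ℕ) ⊕ Fin N) =
            Sum.inl ((⟨col v', hcol v'⟩ : Fin 3), n') := hφ'
        simp only [Sum.inl.injEq, Prod.mk.injEq, Fin.mk.injEq] at h3
        have h4 : (Sum.inr ((p j).1, A5_S E (v, ((p j).2 : ℕ))) :
            (V × ℕ) ⊕ (Fin N × Set (V × ℕ))) =
            Sum.inr ((p' j').1, A5_S E (v', ((p' j').2 : ℕ))) := hκ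
        simp only [Sum.inr.injEq, Prod.mk.injEq] at h4
        have h5 : (v', ((p' j').2 : ℕ)) ∈ A5_S E (v, ((p j).2 : ℕ)) := by
          rw [h4.2]; exact Or.inl rfl
        have h6 : v' = v := by
          rcases h5 with h5 | h5
          · exact congrArg Prod.fst h5
          · exact absurd h3.1 (A5_J_col hEc h5)
        rw [h6, h3.2]
      subst hy
      exact ⟨A5_L_fun hcol hP.inj h1 h2 hφ, rfl⟩

end

end Pool.Agent.Lib.MP_87d05f_lc.HG
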