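import Pool.Agent.Lib.MP_87d05f_lc.HG.Stm

set_option autoImplicit false

/-!
# MP_87d05f_lc, instances of large girth: the piece CF (from finding large cuts to separators)
-/

namespace Pool.Agent.Lib.MP_87d05f_lc.HG

open Pool.Agent.Lib.MP_87d05f_lc Pool.Agent.PolyTime Turing Function

theorem p_CF : S_CF := by
  intro P p q b hq hpq hb hs
  refine sep_of_find ?_
  have hf : PTime (fun x => encW (parseW x).tail) := encW_ptime (PTime.tail parseW_ptime)
  have hh : PTime (fun x => mydiv (ded (parseW x).tail.flatten).length b) :=
    mydiv_ptime (PTime.length (ded_ptime (PTime.flatten (PTime.tail parseW_ptime))))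
      (PTime.const b)
  have hx : ∀ (t : ℕ) (E : List (ℕ × ℕ)),
      parseW (enCut (t, E)) = [List.replicate t true] :: E.map wordE := by
    intro t E
    unfold enCut
    rw [parseW_encW]
  have hlen : ∀ (t : ℕ) (E : List (ℕ × ℕ)), 2 * E.length ≤ (enCut (t, E)).length := by
    intro t E
    unfold enCut
    refine le_trans ?_ (encW_length _)
    have h1 : ∀ E : List (ℕ × ℕ), ((E.map wordE).map List.length).sum = 2 * E.length := by
      intro E
      induction E with
      | nil => rfl
      | cons e E ih =>
        rw [List.map_cons, List.map_cons, List.sum_cons, ih]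
        unfold wordE
        simp only [List.length_cons, List.length_nil]
        omega
    rw [List.map_cons, List.sum_cons, h1]
    dsimp only
    omega
  refine find_transfer (R := 1) hf hh (outC_ptime p q) ?_ ?_ hs
  · rintro ⟨t, E⟩ _
    refine le_trans ?_ (hlen t E)
    unfold nvCut
    refine (List.toFinset_card_le _).trans ?_
    rw [length_ends]
  · rintro ⟨t, E⟩ hV
    refine ⟨E, hV, ?_, ?_, ?_, ?_⟩
    · rw [hx, List.tail_cons]
      rfl
    · rintro w ⟨a, rfl, ha⟩
      have hth : thI (enCut (t, E)) = t := by
        unfold thI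
        rw [hx]
        simp
      constructor
      · rw [length_ends' E a, Nat.one_mul]
        exact hlen t E
      · unfold outC
        simp only
        rw [hth, cutW_eq]
        have hq' : (0 : ℚ) < ((q : ℕ) : ℚ) := by exact_mod_cast hq
        constructor
        · rintro ⟨a', ha'⟩
          simp only at ha'
          have h1 := ha a'
          have h2 : ((q : ℕ) : ℚ) * ((1 - (p : ℚ) / ((q : ℕ) : ℚ)) *
              ((E.countP (cutE a') : ℕ) : ℚ)) =
              (((q : ℕ) : ℚ) - (p : ℚ)) * ((E.countP (cutE a') : ℕ) : ℚ) := by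
            field_simp
          have h3 := mul_le_mul_of_nonneg_left h1 hq'.le
          rw [h2] at h3
          have h4 : (t : ℚ) ≤ ((E.countP (cutE a') : ℕ) : ℚ) := by exact_mod_cast ha'
          have h5 : (0 : ℚ) ≤ ((q : ℕ) : ℚ) - (p : ℚ) := by
            have : (p : ℚ) ≤ ((q : ℕ) : ℚ) := by exact_mod_cast hpq
            linarith
          have h6 := mul_le_mul_of_nonneg_left h4 h5
          have h7 : ((q : ℕ) : ℚ) * (t : ℚ) ≤
              ((q : ℕ) : ℚ) * ((E.countP (cutE a) : ℕ) : ℚ) + (p : ℚ) * (t : ℚ) := by
            have h8 : (((q : ℕ) : ℚ) - (p : ℚ)) * (t : ℚ) =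
              ((q : ℕ) : ℚ) * (t : ℚ) - (p : ℚ) * (t : ℚ) := by ring
            linarith
          have h9 : q * t ≤ q * E.countP (cutE a) + p * t := by exact_mod_cast h7
          rw [decide_eq_true h9]
        · intro hN
          have h1 := hN a
          simp only at h1
          rw [lt_frac_iff hq] at h1
          rw [decide_eq_false (by omega)]
    · rw [hx, List.tail_cons, nvCut_eq E 0, mydiv_eq hb]
      rfl
    · rw [hx, List.tail_cons, nvCut_eq E t, mydiv_eq hb]

end Pool.Agent.Lib.MP_87d05f_lc.HG
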