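import Mathlib
import Pool.Agent.Lib.MP_87d05f_lc.HG.Stm

set_option autoImplicit false

/-!
# MP_87d05f_lc, instances of large girth: the average number of index cycles
-/

namespace Pool.Agent.Lib.MP_87d05f_lc.HG

open Pool.Agent.Lib.MP_87d05f_lc

/-- the table with the first components at the places `(p t, b t)` replaced by `s t` -/
private noncomputable def CFG_upd {T : Type} {k W N R r : ℕ}
    (ω : T → Fin R → Fin k → Fin N × Fin W) (p : Fin (r + 1) → T × Fin R)
    (b : Fin (r + 1) → Fin k) (s : Fin (r + 1) → Fin N) : T → Fin R → Fin k → Fin N × Fin W :=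
  by
    classical
    exact fun τ j c => if h : ∃ t, p t = (τ, j) ∧ b t = c then (s h.choose, (ω τ j c).2) else ω τ j c

private theorem CFG_upd_ne {T : Type} {k W N R r : ℕ}
    (ω : T → Fin R → Fin k → Fin N × Fin W) (p : Fin (r + 1) → T × Fin R)
    (b : Fin (r + 1) → Fin k) (s : Fin (r + 1) → Fin N) (τ : T) (j : Fin R) (c : Fin k)
    (h : ¬ ∃ t, p t = (τ, j) ∧ b t = c) : CFG_upd ω p b s τ j c = ω τ j c := by
  classical
  unfold CFG_upd
  exact dif_neg h

private theorem CFG_upd_eq {T : Type} {k W N R r : ℕ}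
    (ω : T → Fin R → Fin k → Fin N × Fin W) (p : Fin (r + 1) → T × Fin R)
    (b : Fin (r + 1) → Fin k) (s : Fin (r + 1) → Fin N) (hp : Function.Injective p)
    (t : Fin (r + 1)) :
    CFG_upd ω p b s (p t).1 (p t).2 (b t) = (s t, (ω (p t).1 (p t).2 (b t)).2) := by
  classical
  have h : ∃ t', p t' = ((p t).1, (p t).2) ∧ b t' = b t := ⟨t, rfl, rfl⟩
  unfold CFG_upd
  rw [dif_pos h]
  have h1 : h.choose = t := hp h.choose_spec.1
  rw [h1]

theorem p_CFG : S_CFG := by
  intro T _ _ k W N R r _ _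
  classical
  let X := {x : (T → Fin R → Fin k → Fin N × Fin W) × (Fin (r + 1) → T × Fin R) ×
    (Fin (r + 1) → Fin k) × (Fin (r + 1) → Fin k) × (Fin (r + 1) → Fin N) //
      CfgW x.1 x.2.1 x.2.2.1 x.2.2.2.1 x.2.2.2.2}
  let Y := (Fin (r + 1) → T × Fin R) × (Fin (r + 1) → Fin k) × (Fin (r + 1) → Fin k) ×
    (T → Fin R → Fin k → Fin N × Fin W)
  let f : (Fin (r + 1) → Fin N) × X → Y := fun z =>
    (z.2.1.2.1, z.2.1.2.2.1, z.2.1.2.2.2.1, CFG_upd z.2.1.1 z.2.1.2.1 z.2.1.2.2.2.1 z.1)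
  have hf : Function.Injective f := by
    rintro ⟨s, ⟨⟨ω, p, a, b, i⟩, hx⟩⟩ ⟨s', ⟨⟨ω', p', a', b', i'⟩, hx'⟩⟩ hEq
    have e1 : p = p' := congrArg (fun y : Y => y.1) hEq
    have e2 : a = a' := congrArg (fun y : Y => y.2.1) hEq
    have e3 : b = b' := congrArg (fun y : Y => y.2.2.1) hEq
    have e4 : CFG_upd ω p b s = CFG_upd ω' p' b' s' := congrArg (fun y : Y => y.2.2.2) hEq
    subst e1 e2 e3
    obtain ⟨hp, hab, hc⟩ := hx
    obtain ⟨-, -, hc'⟩ := hx'
    replace hp : Function.Injective p := hp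
    replace hab : ∀ t, a t ≠ b t := hab
    replace hc : ∀ t, (ω (p t).1 (p t).2 (a t)).1 = i t ∧
      (ω (p t).1 (p t).2 (b t)).1 = i (t + 1) := hc
    replace hc' : ∀ t, (ω' (p t).1 (p t).2 (a t)).1 = i' t ∧
      (ω' (p t).1 (p t).2 (b t)).1 = i' (t + 1) := hc'
    have h4 : ∀ τ j c, CFG_upd ω p b s τ j c = CFG_upd ω' p b s' τ j c := fun τ j c => by
      rw [e4]
    have hi : i = i' := by
      funext t
      have hn : ¬ ∃ t', p t' = ((p t).1, (p t).2) ∧ b t' = a t := by
        rintro ⟨t', h1, h2⟩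
        have h3 : t' = t := hp h1
        subst h3
        exact hab t' h2.symm
      have h5 := h4 (p t).1 (p t).2 (a t)
      rw [CFG_upd_ne _ _ _ _ _ _ _ hn, CFG_upd_ne _ _ _ _ _ _ _ hn] at h5
      rw [← (hc t).1, ← (hc' t).1, h5]
    subst hi
    have hb : ∀ t, s t = s' t ∧
        (ω (p t).1 (p t).2 (b t)).2 = (ω' (p t).1 (p t).2 (b t)).2 := by
      intro t
      have h5 := h4 (p t).1 (p t).2 (b t)
      rw [CFG_upd_eq _ _ _ _ hp, CFG_upd_eq _ _ _ _ hp] at h5
      exact Prod.mk.inj h5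
    have hs : s = s' := funext fun t => (hb t).1
    subst hs
    have hω : ω = ω' := by
      funext τ j c
      by_cases h : ∃ t, p t = (τ, j) ∧ b t = c
      · obtain ⟨t, h1, h2⟩ := h
        have h3 : (ω (p t).1 (p t).2 (b t)) = (ω' (p t).1 (p t).2 (b t)) :=
          Prod.ext ((hc t).2.trans (hc' t).2.symm) (hb t).2
        rw [h1, h2] at h3
        exact h3
      · have h5 := h4 τ j c
        rwa [CFG_upd_ne _ _ _ _ _ _ _ h, CFG_upd_ne _ _ _ _ _ _ _ h] at h5
    subst hω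
    rfl
  have hcard := Nat.card_le_card_of_injective f hf
  have hY : Nat.card Y = (Fintype.card T * R * k ^ 2) ^ (r + 1) *
      Nat.card (T → Fin R → Fin k → Fin N × Fin W) := by
    have h1 : Nat.card (Fin (r + 1) → T × Fin R) = (Fintype.card T * R) ^ (r + 1) := by
      rw [Nat.card_fun, Nat.card_prod, Nat.card_eq_fintype_card (α := T),
        Nat.card_eq_fintype_card (α := Fin R), Nat.card_eq_fintype_card (α := Fin (r + 1)),
        Fintype.card_fin, Fintype.card_fin]
    have h2 : Nat.card (Fin (r + 1) → Fin k) = k ^ (r + 1) := by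
      rw [Nat.card_fun, Nat.card_eq_fintype_card (α := Fin k),
        Nat.card_eq_fintype_card (α := Fin (r + 1)), Fintype.card_fin, Fintype.card_fin]
    show Nat.card ((Fin (r + 1) → T × Fin R) × (Fin (r + 1) → Fin k) × (Fin (r + 1) → Fin k) ×
      (T → Fin R → Fin k → Fin N × Fin W)) = _
    rw [Nat.card_prod, Nat.card_prod, Nat.card_prod, h1, h2, mul_pow, mul_pow, mul_pow]
    ring
  have hX : Nat.card ((Fin (r + 1) → Fin N) × X) = N ^ (r + 1) * Nat.card X := by
    rw [Nat.card_prod, Nat.card_fun, Nat.card_eq_fintype_card (α := Fin N),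
      Nat.card_eq_fintype_card (α := Fin (r + 1)), Fintype.card_fin, Fintype.card_fin]
  rw [hX, hY] at hcard
  exact hcard

end Pool.Agent.Lib.MP_87d05f_lc.HG
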