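import Pool.Agent.Lib.MP_87d05f_lc.HG.Stm

set_option autoImplicit false

namespace Pool.Agent.Lib.MP_87d05f_lc.HG

open Pool.Agent.Lib.MP_87d05f_lc Pool.Agent.PolyTime Turing

section CG

variable {V : Type} [DecidableEq V]

private theorem CG_main_len (K : ℕ) (F : List (CV ar3 V)) : (main3 K F).length = F.length := by
  simp [main3]

private theorem CG_main_get (K : ℕ) (F : List (CV ar3 V)) (m : ℕ) :
    (main3 K F)[m]? = (F[m]?).map (fun c => List.ofFn (fun a : Fin 3 =>
      (sgn3 c a, (c.2 a, slot3 K (F.take m) c a)))) := by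
  simp [main3, List.getElem?_zipIdx, Function.comp_def]

private theorem CG_get_left (K : ℕ) (F : List (CV ar3 V)) (m : ℕ) (hm : m < F.length) :
    (cnf3 K F)[m]? = (F[m]?).map (fun c => List.ofFn (fun a : Fin 3 =>
      (sgn3 c a, (c.2 a, slot3 K (F.take m) c a)))) := by
  rw [← CG_main_get, cnf3, List.getElem?_append_left (by rw [CG_main_len]; exact hm)]

private theorem CG_get_right (K : ℕ) (F : List (CV ar3 V)) (m : ℕ) (hm : F.length ≤ m) :
    (cnf3 K F)[m]? = (chain3 K F)[m - F.length]? := by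
  rw [cnf3, List.getElem?_append_right (by rw [CG_main_len]; exact hm), CG_main_len]

private theorem CG_mem_chain (K : ℕ) (F : List (CV ar3 V)) (c : List (Bool × (V × ℕ)))
    (hc : c ∈ chain3 K F) : ∃ v t, c = [(false, (v, t)), (true, (v, t + 1))] := by
  simp only [chain3, List.mem_flatMap, List.mem_map] at hc
  obtain ⟨v, -, t, -, rfl⟩ := hc
  exact ⟨v, t, rfl⟩

private theorem CG_chain_nodup (K : ℕ) (F : List (CV ar3 V)) : (chain3 K F).Nodup := by
  unfold chain3
  rw [List.nodup_flatMap]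
  constructor
  · intro v _
    refine List.Nodup.map ?_ List.nodup_range
    intro t t' h
    simp only [List.cons.injEq, Prod.mk.injEq, true_and, and_true] at h
    exact h.1
  · refine (nodup_ded _).imp ?_
    intro v w hvw
    simp only [Function.onFun]
    rw [List.disjoint_left]
    intro c hc hc'
    simp only [List.mem_map] at hc hc'
    obtain ⟨t, -, rfl⟩ := hc
    obtain ⟨t', -, h⟩ := hc'
    simp only [List.cons.injEq, Prod.mk.injEq, true_and, and_true] at h
    exact hvw h.1.1.symm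

/-- the projection -/
private def CG_phi (K : ℕ) (F : List (CV ar3 V)) : ℕ ⊕ (V × ℕ) → ℕ ⊕ V
  | Sum.inr x => Sum.inr x.1
  | Sum.inl m => if m < F.length then Sum.inl m else
      match (chain3 K F)[m - F.length]? with
      | some (x :: _) => Sum.inr x.2.1
      | _ => Sum.inl m

/-- the depth -/
private def CG_dep (K : ℕ) (F : List (CV ar3 V)) : ℕ ⊕ (V × ℕ) → ℕ
  | Sum.inr x => 2 * x.2
  | Sum.inl m => if m < F.length then 0 else
      match (chain3 K F)[m - F.length]? with
      | some (x :: _) => 2 * x.2.2 + 1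
      | _ => 0

/-- the edges of the new graph -/
private def CG_E (K : ℕ) (F : List (CV ar3 V)) (m : ℕ) (v : V) (t : ℕ) : Prop :=
  (m < F.length ∧ CG_phi K F (Sum.inl m) = Sum.inl m ∧ ∃ c, F[m]? = some c ∧
    ∃ a : Fin 3, c.2 a = v ∧ slot3 K (F.take m) c a = t) ∨
  (F.length ≤ m ∧ CG_phi K F (Sum.inl m) = Sum.inr v ∧ ∃ t',
    (chain3 K F)[m - F.length]? = some [(false, (v, t')), (true, (v, t' + 1))] ∧
    CG_dep K F (Sum.inl m) = 2 * t' + 1 ∧ (t = t' ∨ t = t' + 1))

private theorem CG_edge (K : ℕ) (F : List (CV ar3 V)) (m : ℕ) (v : V) (t : ℕ)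
    (c : List (Bool × (V × ℕ))) (hc : (cnf3 K F)[m]? = some c) (hv : (v, t) ∈ vsL c) :
    CG_E K F m v t := by
  rcases lt_or_ge m F.length with hm | hm
  · left
    refine ⟨hm, by simp [CG_phi, hm], ?_⟩
    rw [CG_get_left K F m hm] at hc
    simp only [Option.map_eq_some_iff] at hc
    obtain ⟨c0, h0, rfl⟩ := hc
    refine ⟨c0, h0, ?_⟩
    simp only [vsL, List.mem_map, List.mem_ofFn] at hv
    obtain ⟨l, ⟨a, rfl⟩, hl⟩ := hv
    simp only [Prod.mk.injEq] at hl
    exact ⟨a, hl.1, hl.2⟩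
  · right
    rw [CG_get_right K F m hm] at hc
    obtain ⟨w, t', rfl⟩ := CG_mem_chain K F c (List.mem_of_getElem? hc)
    have hwt : v = w ∧ (t = t' ∨ t = t' + 1) := by
      simp only [vsL, List.map_cons, List.map_nil, List.mem_cons, Prod.mk.injEq,
        List.not_mem_nil, or_false] at hv
      rcases hv with h | h
      · exact ⟨h.1, Or.inl h.2⟩
      · exact ⟨h.1, Or.inr h.2⟩
    obtain ⟨rfl, ht⟩ := hwt
    refine ⟨hm, ?_, t', hc, ?_, ht⟩
    · simp only [CG_phi, not_lt.2 hm, if_false, hc]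
    · simp only [CG_dep, not_lt.2 hm, if_false, hc]

private theorem CG_adj (K : ℕ) (F : List (CV ar3 V)) (x y : ℕ ⊕ (V × ℕ))
    (h : (incG vsL (cnf3 K F)).Adj x y) :
    (∃ m v t, x = Sum.inl m ∧ y = Sum.inr (v, t) ∧ CG_E K F m v t) ∨
    (∃ m v t, y = Sum.inl m ∧ x = Sum.inr (v, t) ∧ CG_E K F m v t) := by
  unfold incG at h
  rw [SimpleGraph.fromRel_adj] at h
  rcases h.2 with ⟨q, ⟨v, t⟩, c, rfl, rfl, hc, hv⟩ | ⟨q, ⟨v, t⟩, c, rfl, rfl, hc, hv⟩
  · exact Or.inl ⟨q, v, t, rfl, rfl, CG_edge K F q v t c hc hv⟩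
  · exact Or.inr ⟨q, v, t, rfl, rfl, CG_edge K F q v t c hc hv⟩

private theorem CG_adjG (F : List (CV ar3 V)) (m : ℕ) (c : CV ar3 V) (a : Fin 3)
    (hc : F[m]? = some c) : (incG vsC F).Adj (Sum.inl m) (Sum.inr (c.2 a)) := by
  unfold incG
  rw [SimpleGraph.fromRel_adj]
  refine ⟨by simp, Or.inl ⟨m, c.2 a, c, rfl, rfl, hc, ?_⟩⟩
  simp only [vsC, List.mem_ofFn]
  exact ⟨a, rfl⟩

private theorem CG_inj (K : ℕ) (F : List (CV ar3 V)) (m m' : ℕ) (c : List (Bool × (V × ℕ)))
    (hm : F.length ≤ m) (hm' : F.length ≤ m') (h : (chain3 K F)[m - F.length]? = some c)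
    (h' : (chain3 K F)[m' - F.length]? = some c) : m = m' := by
  obtain ⟨h1, h2⟩ := List.getElem?_eq_some_iff.1 h
  obtain ⟨h3, h4⟩ := List.getElem?_eq_some_iff.1 h'
  have := (CG_chain_nodup K F).getElem_inj_iff.1 (h2.trans h4.symm)
  omega

private theorem CG_slot (F : List (CV ar3 V)) (hF : ∀ c ∈ F, (vsC c).Nodup) (m : ℕ)
    (c : CV ar3 V) (hc : F[m]? = some c) (a b : Fin 3) (h : c.2 a = c.2 b) : a = b := by
  have h1 := hF c (List.mem_of_getElem? hc)
  unfold vsC at h1
  rw [List.nodup_ofFn] at h1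
  exact h1 h

end CG

theorem p_CG : S_GEN → S_CG := by
  intro hGEN K g V _ F _ hF
  obtain ⟨hnd, hg⟩ := hF
  constructor
  · intro c hc
    rw [cnf3, List.mem_append] at hc
    rcases hc with hc | hc
    · obtain ⟨m, hm⟩ := List.mem_iff_getElem?.1 hc
      rw [CG_main_get] at hm
      simp only [Option.map_eq_some_iff] at hm
      obtain ⟨c0, h0, rfl⟩ := hm
      have h1 : vsL (List.ofFn (fun a : Fin 3 =>
          (sgn3 c0 a, (c0.2 a, slot3 K (F.take m) c0 a)))) =
          List.ofFn (fun a : Fin 3 => (c0.2 a, slot3 K (F.take m) c0 a)) := by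
        simp [vsL, List.map_ofFn, Function.comp_def]
      rw [h1, List.nodup_ofFn]
      intro a b hab
      simp only [Prod.mk.injEq] at hab
      exact CG_slot F hnd m c0 h0 a b hab.1
    · obtain ⟨v, t, rfl⟩ := CG_mem_chain K F c hc
      simp [vsL]
  · refine hGEN (ℕ ⊕ V) (ℕ ⊕ (V × ℕ)) (ℕ ⊕ V) (incG vsC F) (incG vsL (cnf3 K F))
      (CG_phi K F) (CG_phi K F) (CG_dep K F) g ?_ ?_ ?_ ?_ hg
    · intro x y hxy hne
      rcases CG_adj K F x y hxy with ⟨m, v, t, rfl, rfl, hE⟩ | ⟨m, v, t, rfl, rfl, hE⟩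
      · rcases hE with ⟨hm, hphi, c, hc, a, rfl, -⟩ | ⟨hm, hphi, -⟩
        · rw [hphi]
          exact CG_adjG F m c a hc
        · exact absurd hphi hne
      · rcases hE with ⟨hm, hphi, c, hc, a, rfl, -⟩ | ⟨hm, hphi, -⟩
        · rw [hphi]
          exact (CG_adjG F m c a hc).symm
        · exact absurd hphi.symm hne
    · intro x y _ h
      exact h
    · intro x y z hxy hxz hy hz hdy hdz
      rcases CG_adj K F x y hxy with ⟨m, v, t, rfl, rfl, hE⟩ | ⟨m, v, t, rfl, rfl, hE⟩
      · rcases CG_adj K F _ z hxz with ⟨m', v', t', h1, rfl, hE'⟩ | ⟨m', v', t', rfl, h1, hE'⟩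
        swap
        · exact absurd h1 (by simp)
        obtain rfl : m = m' := Sum.inl.inj h1
        rcases hE with ⟨hm, hphi, -⟩ | ⟨hm, hphi, s, hs, hd, hst⟩
        · rw [hphi] at hy
          exact absurd hy (by simp [CG_phi])
        rcases hE' with ⟨hm', -⟩ | ⟨hm', hphi', s', hs', hd', hst'⟩
        · omega
        rw [hs] at hs'
        simp only [Option.some.injEq, List.cons.injEq, Prod.mk.injEq, true_and, and_true] at hs'
        obtain ⟨⟨rfl, rfl⟩, -⟩ := hs'
        rw [hd] at hdy hdz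
        simp only [CG_dep] at hdy hdz
        have e1 : t = s := by omega
        have e2 : t' = s := by omega
        rw [e1, e2]
      · rcases CG_adj K F _ z hxz with ⟨m', v', t', h1, rfl, hE'⟩ | ⟨m', v', t', rfl, h1, hE'⟩
        · exact absurd h1 (by simp)
        simp only [Sum.inr.injEq, Prod.mk.injEq] at h1
        obtain ⟨rfl, rfl⟩ := h1
        rcases hE with ⟨hm, hphi, -⟩ | ⟨hm, hphi, s, hs, hd, hst⟩
        · rw [hphi] at hy
          exact absurd hy (by simp [CG_phi])
        rcases hE' with ⟨hm', hphi', -⟩ | ⟨hm', hphi', s', hs', hd', hst'⟩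
        · rw [hphi'] at hz
          exact absurd hz (by simp [CG_phi])
        rw [hd] at hdy
        rw [hd'] at hdz
        simp only [CG_dep] at hdy hdz
        have e1 : s' = s := by omega
        rw [e1] at hs'
        rw [CG_inj K F m m' _ hm hm' hs hs']
    · intro x x' y y' hxy hxy' hx _ hy hne
      rcases CG_adj K F x y hxy with ⟨m, v, t, rfl, rfl, hE⟩ | ⟨m, v, t, rfl, rfl, hE⟩
      · rcases hE with ⟨hm, hphi, c, hc, a, ha, hat⟩ | ⟨hm, hphi, -⟩
        swap
        · exact absurd hphi.symm hne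
        rw [hphi] at hx
        rcases CG_adj K F x' y' hxy' with ⟨m', v', t', rfl, rfl, hE'⟩ | ⟨m', v', t', rfl, rfl, hE'⟩
        · rcases hE' with ⟨hm', hphi', c', hc', a', ha', hat'⟩ | ⟨hm', hphi', -⟩
          · rw [hphi'] at hx
            obtain rfl : m = m' := Sum.inl.inj hx
            rw [hc] at hc'
            obtain rfl : c = c' := Option.some.inj hc'
            simp only [CG_phi, Sum.inr.injEq] at hy
            have haa : a = a' := CG_slot F hnd m c hc a a' (by rw [ha, ha', hy])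
            subst haa
            exact ⟨rfl, by rw [← ha, ← hat, ← ha', ← hat']⟩
          · rw [hphi'] at hx
            exact absurd hx (by simp)
        · exact absurd hx (by simp [CG_phi])
      · rcases hE with ⟨hm, hphi, c, hc, a, ha, hat⟩ | ⟨hm, hphi, -⟩
        swap
        · exact absurd hphi hne
        rw [hphi] at hy
        rcases CG_adj K F x' y' hxy' with ⟨m', v', t', rfl, rfl, hE'⟩ | ⟨m', v', t', rfl, rfl, hE'⟩
        · exact absurd hy (by simp [CG_phi])
        · rcases hE' with ⟨hm', hphi', c', hc', a', ha', hat'⟩ | ⟨hm', hphi', -⟩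
          · rw [hphi'] at hy
            obtain rfl : m = m' := Sum.inl.inj hy
            rw [hc] at hc'
            obtain rfl : c = c' := Option.some.inj hc'
            simp only [CG_phi, Sum.inr.injEq] at hx
            have haa : a = a' := CG_slot F hnd m c hc a a' (by rw [ha, ha', hx])
            subst haa
            exact ⟨by rw [← ha, ← hat, ← ha', ← hat'], rfl⟩
          · rw [hphi'] at hy
            exact absurd hy (by simp)

end Pool.Agent.Lib.MP_87d05f_lc.HG
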