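import Pool.Agent.Lib.MP_87d05f_lc.HG.Stm

set_option autoImplicit false

/-!
# Instances of large girth: soundness of the chains
-/

namespace Pool.Agent.Lib.MP_87d05f_lc.HG

open Pool.Agent.Lib.MP_87d05f_lc Pool.Agent.PolyTime Turing

theorem CN_count {α : Type} (L : List α) (P Q : α → Bool) (w : α → ℕ)
    (h : ∀ x ∈ L, P x = true → Q x = true ∨ 1 ≤ w x) :
    L.countP P ≤ L.countP Q + (L.map w).sum := by
  induction L with
  | nil => simp
  | cons x L ih =>
    have h1 := ih fun y hy => h y (List.mem_cons_of_mem _ hy)
    have h2 := h x List.mem_cons_self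
    rw [List.countP_cons, List.countP_cons, List.map_cons, List.sum_cons]
    by_cases hP : P x = true
    · rw [if_pos hP]
      rcases h2 hP with h3 | h3
      · rw [if_pos h3]
        omega
      · omega
    · rw [if_neg hP]
      omega

theorem CN_classes {V : Type} [DecidableEq V] (p : V → Bool) (K : ℕ) (m : List V) :
    ∀ l : List V, (∀ v ∈ l, v ∈ m) → (∀ v, l.count v ≤ K) →
      l.countP p ≤ K * m.countP p := by
  induction m with
  | nil =>
    intro l hl _
    have : l = [] := List.eq_nil_iff_forall_not_mem.2 fun v hv => List.not_mem_nil (hl v hv)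
    rw [this]
    simp
  | cons v m ih =>
    intro l hl hK
    have h1 : (l.filter (fun x => !decide (x = v))).countP p ≤ K * m.countP p := by
      apply ih
      · intro x hx
        rw [List.mem_filter] at hx
        have h2 := hl x hx.1
        rw [List.mem_cons] at h2
        rcases h2 with h2 | h2
        · rw [h2] at hx
          simp at hx
        · exact h2
      · intro x
        exact (List.Sublist.count_le x List.filter_sublist).trans (hK x)
    have h3 : l.countP p ≤ (l.filter (fun x => !decide (x = v))).countP p +
        (if p v = true then l.count v else 0) := by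
      clear h1 hl hK ih
      induction l with
      | nil => simp
      | cons y l ih =>
        rw [List.countP_cons, List.filter_cons, List.count_cons]
        by_cases hy : y = v
        · subst hy
          simp only [decide_true, Bool.not_true, Bool.false_eq_true, if_false, beq_self_eq_true,
            if_true]
          by_cases hp : p y = true
          · simp only [hp, if_true] at ih ⊢
            omega
          · simp only [hp, if_false, Bool.false_eq_true] at ih ⊢
            omega
        · have hb : (y == v) = false := by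
            rw [beq_eq_false_iff_ne]
            exact hy
          simp only [hy, decide_false, Bool.not_false, if_true, hb, Bool.false_eq_true, if_false,
            Nat.add_zero]
          rw [List.countP_cons]
          omega
    rw [List.countP_cons, Nat.mul_add]
    have h4 := hK v
    by_cases hp : p v = true
    · simp only [hp, if_true, Nat.mul_one] at h3 ⊢
      omega
    · simp only [hp, if_false, Nat.mul_zero, Bool.false_eq_true] at h3 ⊢
      omega

/-- the chain of a variable is broken -/
def CN_bad {V : Type} (K : ℕ) (a' : V × ℕ → Bool) (v : V) : Bool :=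
  (List.range (6 * K - 1)).any (fun t => a' (v, t) && !a' (v, t + 1))

theorem CN_mono {V : Type} (K : ℕ) (a' : V × ℕ → Bool) (v : V) (h : CN_bad K a' v = false)
    (t : ℕ) (ht : a' (v, t) = true) (n : ℕ) (hn : t + n ≤ 6 * K - 1) : a' (v, t + n) = true := by
  induction n with
  | zero => exact ht
  | succ n ih =>
    have h1 := ih (by omega)
    unfold CN_bad at h
    rw [List.any_eq_false] at h
    have h2 := h (t + n) (List.mem_range.2 (by omega))
    rw [h1, Bool.true_and] at h2
    rw [← Nat.add_assoc]
    rcases hb : a' (v, t + n + 1) with _ | _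
    · rw [hb] at h2
      exact absurd rfl h2
    · rfl

theorem CN_mono' {V : Type} (K : ℕ) (a' : V × ℕ → Bool) (v : V) (h : CN_bad K a' v = false)
    (t s : ℕ) (hts : t ≤ s) (hs : s ≤ 6 * K - 1) (ht : a' (v, t) = true) :
    a' (v, s) = true := by
  have h1 := CN_mono K a' v h t ht (s - t) (by omega)
  rw [Nat.add_sub_cancel' hts] at h1
  exact h1

theorem CN_rank {V : Type} [DecidableEq V] {K : ℕ} {F : List (CV ar3 V)} (hK : occK K F) {q : ℕ}
    {c : CV ar3 V} (hq : F[q]? = some c) (a : Fin 3) : rkC (F.take q) (c.2 a) + 1 ≤ K := by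
  have h1 := hK (c.2 a)
  obtain ⟨hlt, hc⟩ := List.getElem?_eq_some_iff.1 hq
  have h2 : F = F.take q ++ c :: F.drop (q + 1) := by
    rw [← hc, List.getElem_cons_drop hlt, List.take_append_drop]
  have h3 : (F.flatMap vsC).count (c.2 a) = ((F.take q).flatMap vsC).count (c.2 a) +
      ((vsC c).count (c.2 a) + ((F.drop (q + 1)).flatMap vsC).count (c.2 a)) := by
    conv_lhs => rw [h2]
    rw [List.flatMap_append, List.flatMap_cons, List.count_append, List.count_append]
  have h4 : 0 < (vsC c).count (c.2 a) := by
    rw [List.count_pos_iff]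
    unfold vsC
    rw [List.mem_ofFn]
    exact ⟨a, rfl⟩
  unfold rkC
  omega

theorem p_CN : S_CN := by
  intro K V _ F hK a'
  refine ⟨fun v => if a' (v, 3 * K) = true then 1 else 0, ?_⟩
  obtain ⟨Q, hQ⟩ : ∃ Q : List (Bool × (V × ℕ)) → Bool,
    Q = fun c => !(c.any (fun l => a' l.2 == l.1)) := ⟨_, rfl⟩
  obtain ⟨cl, hcl⟩ : ∃ cl : CV ar3 V × ℕ → List (Bool × (V × ℕ)),
    cl = fun cq => List.ofFn (fun a : Fin 3 =>
      (sgn3 cq.1 a, (cq.1.2 a, slot3 K (F.take cq.2) cq.1 a))) := ⟨_, rfl⟩
  have hmain : main3 K F = F.zipIdx.map cl := by rw [hcl]; rfl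
  have hfal : falV R3 (fun v => if a' (v, 3 * K) = true then 1 else 0) F =
      F.zipIdx.countP (fun cq => !(R3 cq.1.1 (fun j => if a' (cq.1.2 j, 3 * K) = true then 1
        else 0))) := by
    unfold falV
    conv_lhs => rw [← List.zipIdx_map_fst 0 F]
    rw [List.countP_map]
    rfl
  have hstep : F.zipIdx.countP (fun cq => !(R3 cq.1.1 (fun j => if a' (cq.1.2 j, 3 * K) = true
      then 1 else 0))) ≤ F.zipIdx.countP (fun cq => Q (cl cq)) +
        (F.zipIdx.map (fun cq => (vsC cq.1).countP (CN_bad K a'))).sum := by
    apply CN_count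
    rintro ⟨c, q⟩ hcq hP
    have hq := List.mem_zipIdx_iff_getElem?.1 hcq
    simp only at hP hq ⊢
    by_cases hb : ∃ a : Fin 3, CN_bad K a' (c.2 a) = true
    · right
      obtain ⟨a, ha⟩ := hb
      apply List.countP_pos_iff.2
      refine ⟨c.2 a, ?_, ha⟩
      unfold vsC
      rw [List.mem_ofFn]
      exact ⟨a, rfl⟩
    · left
      have hb' : ∀ a : Fin 3, CN_bad K a' (c.2 a) = false := by
        intro a
        rcases h : CN_bad K a' (c.2 a) with _ | _
        · rfl
        · exact absurd ⟨a, h⟩ hb
      have hv : ∀ a : Fin 3, decide ((if a' (c.2 a, 3 * K) = true then (1 : Fin 2) else 0) = 1) ≠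
          sgn3 c a := by
        intro a ha
        rw [Bool.not_eq_true'] at hP
        unfold R3 at hP
        rw [decide_eq_false_iff_not] at hP
        exact hP ⟨a, ha⟩
      rw [hQ, hcl]
      simp only
      rw [Bool.not_eq_true', List.any_eq_false]
      intro l hl
      rw [List.mem_ofFn] at hl
      obtain ⟨a, rfl⟩ := hl
      simp only
      have hr := CN_rank hK hq a
      have ha3 : (a : ℕ) * K ≤ 2 * K := Nat.mul_le_mul_right K (by omega)
      have hva := hv a
      unfold slot3
      rcases hs : sgn3 c a with _ | _
      · -- negative occurrence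
        rw [hs] at hva
        have h3 : a' (c.2 a, 3 * K) = true := by
          rcases h : a' (c.2 a, 3 * K) with _ | _
          · rw [h] at hva
            exact absurd (by simp) hva
          · rfl
        rw [cond_false]
        have h4 := CN_mono' K a' (c.2 a) (hb' a) (3 * K)
          (3 * K + (a : ℕ) * K + rkC (F.take q) (c.2 a)) (by omega) (by omega) h3
        rw [h4]
        simp
      · rw [hs] at hva
        have h3 : a' (c.2 a, 3 * K) = false := by
          rcases h : a' (c.2 a, 3 * K) with _ | _
          · rfl
          · rw [h] at hva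
            exact absurd (by simp) hva
        rw [cond_true]
        rcases h4 : a' (c.2 a, 0 + (a : ℕ) * K + rkC (F.take q) (c.2 a)) with _ | _
        · simp
        · have h5 := CN_mono' K a' (c.2 a) (hb' a)
            (0 + (a : ℕ) * K + rkC (F.take q) (c.2 a)) (3 * K) (by omega) (by omega) h4
          rw [h3] at h5
          exact absurd h5 (by simp)
  have hsum : (F.zipIdx.map (fun cq => (vsC cq.1).countP (CN_bad K a'))).sum =
      (F.flatMap vsC).countP (CN_bad K a') := by
    rw [List.countP_flatMap]
    conv_rhs => rw [← List.zipIdx_map_fst 0 F]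
    rw [List.map_map]
    rfl
  have hcls := CN_classes (CN_bad K a') K (ded (F.flatMap vsC)) (F.flatMap vsC)
    (fun v hv => mem_ded.2 hv) hK
  have hch : (ded (F.flatMap vsC)).countP (CN_bad K a') ≤ (chain3 K F).countP Q := by
    unfold chain3
    rw [List.countP_flatMap]
    have h := CN_count (ded (F.flatMap vsC)) (CN_bad K a') (fun _ => false)
      (fun v => ((List.range (6 * K - 1)).map (fun t =>
        ([(false, (v, t)), (true, (v, t + 1))] : List (Bool × (V × ℕ))))).countP Q) (by
        intro v _ hv
        right
        unfold CN_bad at hv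
        rw [List.any_eq_true] at hv
        obtain ⟨t, ht, hat⟩ := hv
        apply List.countP_pos_iff.2
        refine ⟨_, List.mem_map.2 ⟨t, ht, rfl⟩, ?_⟩
        rw [Bool.and_eq_true, Bool.not_eq_true'] at hat
        rw [hQ]
        simp [hat.1, hat.2])
    have h0 : (ded (F.flatMap vsC)).countP (fun _ => false) = 0 :=
      List.countP_eq_zero.2 fun _ _ => Bool.false_ne_true
    rw [h0, Nat.zero_add] at h
    exact h
  have hm : (main3 K F).countP Q = F.zipIdx.countP (fun cq => Q (cl cq)) := by
    rw [hmain, List.countP_map]
    rfl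
  have hfin : (cnf3 K F).countP Q = (main3 K F).countP Q + (chain3 K F).countP Q := by
    unfold cnf3
    rw [List.countP_append]
  rw [hQ] at hfin
  rw [hfin, ← hQ, hfal]
  rw [hsum] at hstep
  rw [← hm] at hstep
  have h6 := Nat.mul_le_mul_left K hch
  have h7 : (K + 1) * ((main3 K F).countP Q + (chain3 K F).countP Q) =
      (main3 K F).countP Q + K * (chain3 K F).countP Q + (K * (main3 K F).countP Q +
        (chain3 K F).countP Q) := by ring
  omega

end Pool.Agent.Lib.MP_87d05f_lc.HG
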