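import Mathlib
import Pool.Agent.Lib.MP_87d05f_lc.HG.Stm

set_option autoImplicit false

/-!
# MP_87d05f_lc, instances of large girth: 3-CNF formulas with three occurrences
-/

namespace Pool.Agent.Lib.MP_87d05f_lc.HG

open Pool.Agent.Lib.MP_87d05f_lc Pool.Agent.PolyTime Turing

private theorem CNF_flat (G : List (List (Bool × (ℕ × ℕ)))) :
    ((G.map (mapL nu3)).flatten.map (fun l => l.2)) =
      (G.flatten.map Prod.snd).map nu3 := by
  induction G with
  | nil => rfl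
  | cons c G ih =>
    have h : (mapL nu3 c).map (fun l => l.2) = (c.map Prod.snd).map nu3 := by
      rw [mapL, List.map_map, List.map_map]
      rfl
    rw [List.map_cons, List.flatten_cons, List.map_append, ih, List.flatten_cons, List.map_append,
      List.map_append, h]

private theorem CNF_count (hnu : Function.Injective nu3) (L : List (ℕ × ℕ))
    (h : ∀ x, L.count x ≤ 3) (v : ℕ) : (L.map nu3).count v ≤ 3 := by
  by_cases hv : ∃ x, nu3 x = v
  · obtain ⟨x, rfl⟩ := hv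
    rw [List.count_map_of_injective L nu3 hnu]
    exact h x
  · have h0 : (L.map nu3).count v = 0 := by
      rw [List.count_eq_zero]
      intro hm
      obtain ⟨x, -, hx⟩ := List.mem_map.1 hm
      exact hv ⟨x, hx⟩
    omega

private theorem CNF_countP (a : ℕ → Bool) (G : List (List (Bool × (ℕ × ℕ)))) :
    (G.map (mapL nu3)).countP (falsB a) =
      G.countP (fun c => !(c.any (fun l => (fun x => a (nu3 x)) l.2 == l.1))) := by
  rw [List.countP_map]
  refine List.countP_congr fun c _ => ?_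
  have h : (falsB a ∘ mapL nu3) c = !(c.any (fun l => (fun x => a (nu3 x)) l.2 == l.1)) := by
    simp only [Function.comp, falsB, mapL, List.any_map]
    rfl
  rw [h]

theorem p_CNF : S_CSP → S_R3 → S_RNG → S_RNC → S_INJ → S_CY → S_CN → S_CO → S_CG → S_CTR →
    S_CNF := by
  intro hCSP hR3 _ hRNC hINJ hCY hCN hCO hCG hCTR hG
  obtain ⟨K, ε₀, hε0, hε1, hmain⟩ := hCSP 8 2 ar3 R3 hR3 hG
  obtain ⟨B, hB, htr⟩ := hCTR K
  have hnu : Function.Injective nu3 := hINJ.2.1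
  have hK1 : (0 : ℚ) < (K : ℚ) + 1 := by positivity
  have hK2 : (0 : ℚ) < 18 * (K : ℚ) + 1 := by positivity
  have hK3 : (1 : ℚ) ≤ ((K : ℚ) + 1) * (18 * (K : ℚ) + 1) := by
    have hk : (0 : ℚ) ≤ (K : ℚ) := Nat.cast_nonneg K
    nlinarith
  have hK4 : (0 : ℚ) < ((K : ℚ) + 1) * (18 * (K : ℚ) + 1) := by positivity
  refine ⟨ε₀ / (((K : ℚ) + 1) * (18 * (K : ℚ) + 1)), by positivity, ?_, fun g => ?_⟩
  · rw [div_lt_one hK4]
    linarith
  obtain ⟨b₀, hb₀, hno⟩ := hmain g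
  refine ⟨B * b₀, Nat.mul_pos hB hb₀, fun hsep => hno ?_⟩
  refine htr _ _ _ _ _ _ b₀ hb₀ (fun F hF => ?_) hsep
  obtain ⟨⟨hne, hocc⟩, hgir⟩ := hF
  have hocc' : occK K F := hocc
  obtain ⟨hlen, hne', h3, h0, hcnt⟩ := hCO K ℕ F
  refine ⟨⟨⟨?_, ?_, ?_, ?_⟩, ?_⟩, ?_, ?_⟩
  · intro h
    exact hne' hne (List.map_eq_nil_iff.1 h)
  · intro c hc
    obtain ⟨c0, hc0, rfl⟩ := List.mem_map.1 hc
    rw [mapL, List.length_map]
    exact h3 c0 hc0
  · intro hc
    obtain ⟨c0, hc0, h⟩ := List.mem_map.1 hc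
    rw [mapL, List.map_eq_nil_iff] at h
    rw [h] at hc0
    exact h0 hc0
  · intro v
    rw [CNF_flat]
    exact CNF_count hnu _ (hcnt hocc' hgir.1) v
  · exact hRNC.2 _ _ nu3 hnu _ g (hCG K g ℕ F hocc' hgir)
  · rintro ⟨a, ha⟩
    refine ⟨fun m => decide (a (Function.invFun nu3 m).1 = 1), fun c hc => ?_⟩
    obtain ⟨c0, hc0, rfl⟩ := List.mem_map.1 hc
    obtain ⟨l, hl, hal⟩ := hCY K ℕ F a ha c0 hc0
    refine ⟨(l.1, nu3 l.2), List.mem_map.2 ⟨l, hl, rfl⟩, ?_⟩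
    simp only
    rw [Function.leftInverse_invFun hnu]
    exact hal
  · intro hN a'
    obtain ⟨a, ha⟩ := hCN K ℕ F hocc' (fun x => a' (nu3 x))
    have h1 := hN a
    have h2 : ((F.countP (fun c => !(R3 c.1 (fun j => a (c.2 j)))) : ℕ) : ℚ) ≤
        ((K : ℚ) + 1) * (((cnf3 K F).map (mapL nu3)).countP (falsB a') : ℕ) := by
      rw [CNF_countP]
      exact_mod_cast ha
    have h3' : (((cnf3 K F).map (mapL nu3)).length : ℚ) ≤ (18 * (K : ℚ) + 1) * (F.length : ℚ) := by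
      rw [List.length_map]
      exact_mod_cast hlen
    have h4 : ε₀ / (((K : ℚ) + 1) * (18 * (K : ℚ) + 1)) *
        (((cnf3 K F).map (mapL nu3)).length : ℚ) ≤ ε₀ * (F.length : ℚ) / ((K : ℚ) + 1) := by
      calc ε₀ / (((K : ℚ) + 1) * (18 * (K : ℚ) + 1)) *
          (((cnf3 K F).map (mapL nu3)).length : ℚ)
          ≤ ε₀ / (((K : ℚ) + 1) * (18 * (K : ℚ) + 1)) * ((18 * (K : ℚ) + 1) * (F.length : ℚ)) :=
            mul_le_mul_of_nonneg_left h3' (by positivity)
        _ = ε₀ * (F.length : ℚ) / ((K : ℚ) + 1) := by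
            field_simp
    refine h4.trans ?_
    rw [div_le_iff₀ hK1, mul_comm _ ((K : ℚ) + 1)]
    exact h1.trans h2

end Pool.Agent.Lib.MP_87d05f_lc.HG
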