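import Pool.Agent.Lib.MP_87d05f_lc.HG.Stm

set_option autoImplicit false

/-!
# MP_87d05f_lc, instances of large girth: all constraint languages
-/

namespace Pool.Agent.Lib.MP_87d05f_lc.HG

open Pool.Agent.Lib.MP_87d05f_lc Pool.Agent.PolyTime Turing

/-- The number of violated constraints after renaming. -/
private theorem CSP_count {s d : ℕ} {ar : Fin s → ℕ} {V V' : Type}
    (R : (i : Fin s) → (Fin (ar i) → Fin d) → Bool) (ν : V → V') (a : V' → Fin d)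
    (L : List (CV ar V)) :
    (L.map (mapC ν)).countP (fun c => !(R c.1 (fun j => a (c.2 j)))) =
      L.countP (fun c => !(R c.1 (fun j => a (ν (c.2 j))))) := by
  rw [List.countP_map]
  rfl

/-- The arithmetic of the gap. -/
private theorem CSP_arith (ε₀ : ℚ) (h0 : 0 < ε₀) (D CN l₁ l₂ f₁ f₂ : ℕ) (hD : 0 < D)
    (h1 : ε₀ * (l₁ : ℚ) ≤ (f₁ : ℚ)) (h2 : l₂ ≤ CN * l₁) (h3 : CN * f₁ ≤ D * f₂) :
    ε₀ / (D : ℚ) * (l₂ : ℚ) ≤ (f₂ : ℚ) := by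
  have hD' : (0 : ℚ) < (D : ℚ) := by exact_mod_cast hD
  have h2' : (l₂ : ℚ) ≤ (CN : ℚ) * (l₁ : ℚ) := by exact_mod_cast h2
  have h3' : (CN : ℚ) * (f₁ : ℚ) ≤ (D : ℚ) * (f₂ : ℚ) := by exact_mod_cast h3
  have h4 : ε₀ * (l₂ : ℚ) ≤ (D : ℚ) * (f₂ : ℚ) := by
    calc ε₀ * (l₂ : ℚ) ≤ ε₀ * ((CN : ℚ) * (l₁ : ℚ)) := mul_le_mul_of_nonneg_left h2' h0.le
      _ = (CN : ℚ) * (ε₀ * (l₁ : ℚ)) := by ring
      _ ≤ (CN : ℚ) * (f₁ : ℚ) := mul_le_mul_of_nonneg_left h1 (by positivity)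
      _ ≤ _ := h3'
  rw [div_mul_eq_mul_div, div_le_iff₀ hD']
  linarith

theorem p_CSP : S_PAT → S_RNC → S_INJ → S_LY → S_LN → S_LO → S_LG → S_LTR → S_CSP := by
  intro PAT RNC INJ LY LN LO LG LTR s d ar R hR hG
  obtain ⟨K₀, ε₀, he0, he1, b₀, hb₀, hno⟩ :=
    (csp_main hR (A := GapETH) (fun h k p q b => sepK_of_not h k p q b) sparse_of).1 hG
  have hd : 0 < d := minHom_pos hR
  obtain ⟨k, hkdef⟩ : ∃ k : ℕ, k = ∑ i : Fin s, ar i := ⟨_, rfl⟩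
  have hk : ∀ i, ar i ≤ k := by
    intro i
    rw [hkdef]
    exact Finset.single_le_sum (f := ar) (fun _ _ => Nat.zero_le _) (Finset.mem_univ i)
  obtain ⟨D, hDdef⟩ : ∃ D : ℕ, D = 2 * d ^ k := ⟨_, rfl⟩
  have hD1 : 0 < d ^ k := Nat.pow_pos hd
  have hD2 : 2 ≤ D := by omega
  obtain ⟨C, K', hC, hK', hpat⟩ := PAT k D (by omega)
  refine ⟨K₀ * K', ε₀ / (D : ℚ), ?_, ?_, ?_⟩
  · have : (0 : ℚ) < (D : ℚ) := by
      have : 0 < D := by omega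
      exact_mod_cast this
    positivity
  · have h1 : (1 : ℚ) ≤ (D : ℚ) := by
      have : 1 ≤ D := by omega
      exact_mod_cast this
    rw [div_lt_one (by linarith)]
    linarith
  intro g
  obtain ⟨N, hN, H, hH⟩ := hpat (Fin k → Fin (K₀ + 1)) 1 g Nat.one_pos
  obtain ⟨B, hB, hltr⟩ := LTR s k K₀ N ar hk H
  refine ⟨B * b₀, Nat.mul_pos hB hb₀, fun hs => hno ?_⟩
  refine hltr (VK K₀) (YC R) (NC R ε₀) _ (YC R) (NC R (ε₀ / (D : ℚ))) b₀ hb₀ ?_ hs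
  intro F hF
  obtain ⟨hFne, hFocc⟩ := hF
  have hocc : occK K₀ F := hFocc
  obtain ⟨lo1, lo2, lo3⟩ := LO s k K₀ N D C K' g ar ℕ hk H F hD2 (by omega) hN hH hocc
  have hhg := LG s k K₀ N D C K' g ar ℕ hk H F hH hocc
  obtain ⟨r1, r2, r3⟩ := RNC.1 s ar (ℕ × Fin N) ℕ nuL (INJ.1 N) (liftF hk H F)
  refine ⟨⟨⟨?_, ?_⟩, ?_⟩, ?_, ?_⟩
  · intro h
    exact lo3 hFne (List.map_eq_nil_iff.mp h)
  · exact r1 _ lo1
  · exact r2 g hhg
  · rintro ⟨a, ha⟩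
    have h1 := LY s d k K₀ N ar ℕ hk H R F a ha
    obtain ⟨a', ha'⟩ := r3 d (fun x : ℕ × Fin N => a x.1) hd
    refine ⟨a', fun c hc => ?_⟩
    obtain ⟨c0, hc0, rfl⟩ := List.mem_map.mp hc
    have h2 := h1 c0 hc0
    have h3 : (fun j : Fin (ar c0.1) => a' (nuL (c0.2 j))) = fun j => a (c0.2 j).1 :=
      funext fun j => ha' (c0.2 j)
    change R c0.1 (fun j : Fin (ar c0.1) => a' (nuL (c0.2 j))) = true
    rw [h3]
    exact h2
  · intro hN' a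
    subst hDdef
    obtain ⟨a0, ha0⟩ := LN s d k K₀ N C K' g ar ℕ hk H R F hd hN hH (fun x => a (nuL x))
    have h1 := hN' a0
    rw [CSP_count, List.length_map]
    exact CSP_arith ε₀ he0 (2 * d ^ k) (C * N) F.length (liftF hk H F).length (falV R a0 F)
      (falV R (fun x => a (nuL x)) (liftF hk H F)) (by omega) h1 lo2 ha0

end Pool.Agent.Lib.MP_87d05f_lc.HG
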