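import Pool.Agent.Lib.MP_87d05f_lc.HG.Stm

set_option autoImplicit false

/-!
# MP_87d05f_lc, HighGirth: the formula with three occurrences is computed in polynomial time
-/

namespace Pool.Agent.Lib.MP_87d05f_lc.HG

open Pool.Agent.Lib.MP_87d05f_lc Pool.Agent.PolyTime Turing

private theorem CTR_count_ptime {α : Type} [SCode α] {w : α → List Bool}
    {l : α → List (List Bool)} (hw : PTime w) (hl : PTime l) :
    PTime (fun a => (l a).count (w a)) := by
  have h : PTime (fun a => ((l a).filter (fun u => decide (u = w a))).length) :=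
    PTime.length (PTime.filter (p := fun a (u : List Bool) => decide (u = w a)) hl
      (PTime.eq PTime.snd (hw.comp PTime.fst)))
  refine h.of_eq fun a => ?_
  rw [List.count_eq_length_filter]
  congr 1
  refine List.filter_congr fun u _ => ?_
  by_cases hu : u = w a <;> simp [hu]

private theorem CTR_ded_map {α β : Type} [DecidableEq α] [DecidableEq β] {f : α → β}
    (hf : Function.Injective f) (l : List α) : ded (l.map f) = (ded l).map f := by
  induction l with
  | nil => rfl
  | cons a l ih =>
    rw [List.map_cons, ded_cons, ded_cons, ih]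
    have h : (f a ∈ (ded l).map f) ↔ a ∈ ded l := by
      rw [List.mem_map]
      constructor
      · rintro ⟨b, hb, hba⟩
        rwa [← hf hba]
      · exact fun h => ⟨a, h, rfl⟩
    by_cases ha : a ∈ ded l
    · have hb := h.2 ha
      simp only [ha, hb, decide_true, cond_true]
    · have hb : ¬ (f a ∈ (ded l).map f) := fun hb => ha (h.1 hb)
      simp only [ha, hb, decide_false, cond_false, List.map_cons]

/-- the sign of a literal, from the words of a clause -/
def CTR_sgn (c : List (List Bool)) (a : ℕ) : Bool := (c.headD []).getD a false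

/-- the number of the slot, from the words -/
def CTR_slot (K : ℕ) (P : List (List (List Bool))) (c : List (List Bool)) (a : ℕ) : ℕ :=
  (bif CTR_sgn c a then 0 else 3 * K) + a * K + (P.flatMap List.tail).count (c.tail.getD a [])

/-- the clauses with their variables replaced by slots, in words -/
def CTR_main (K : ℕ) (G : List (List (List Bool))) : List (List (Lit (List Bool))) :=
  G.zipIdx.map (fun cq => (List.range 3).map (fun a =>
    (CTR_sgn cq.1 a, nb (cq.1.tail.getD a []) (CTR_slot K (G.take cq.2) cq.1 a))))

/-- the chains, in words -/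
def CTR_chain (K : ℕ) (G : List (List (List Bool))) : List (List (Lit (List Bool))) :=
  (ded (G.flatMap List.tail)).flatMap (fun w => (List.range (6 * K - 1)).map (fun t =>
    [(false, nb w t), (true, nb w (t + 1))]))

private theorem CTR_main_ptime (K : ℕ) {α : Type} [SCode α] {G : α → List (List (List Bool))}
    (hG : PTime G) : PTime (fun a => CTR_main K (G a)) := by
  unfold CTR_main
  refine PTime.map (l := fun a => (G a).zipIdx) (f := fun x (cq : List (List Bool) × ℕ) =>
    (List.range 3).map (fun a => ((CTR_sgn cq.1 a, nb (cq.1.tail.getD a [])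
      (CTR_slot K ((G x).take cq.2) cq.1 a)) : Lit (List Bool)))) (PTime.zipIdx hG) ?_
  refine PTime.map (l := fun _ : α × (List (List Bool) × ℕ) => List.range 3)
    (f := fun (p : α × (List (List Bool) × ℕ)) (a : ℕ) =>
      ((CTR_sgn p.2.1 a, nb (p.2.1.tail.getD a [])
        (CTR_slot K ((G p.1).take p.2.2) p.2.1 a)) : Lit (List Bool))) (PTime.const _) ?_
  have hc : PTime (fun p : (α × (List (List Bool) × ℕ)) × ℕ => p.1.2.1) :=
    (PTime.fst.comp PTime.snd).comp PTime.fst
  have hq : PTime (fun p : (α × (List (List Bool) × ℕ)) × ℕ => p.1.2.2) :=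
    (PTime.snd.comp PTime.snd).comp PTime.fst
  have hg : PTime (fun p : (α × (List (List Bool) × ℕ)) × ℕ => G p.1.1) :=
    hG.comp (PTime.fst.comp PTime.fst)
  have hs : PTime (fun p : (α × (List (List Bool) × ℕ)) × ℕ => CTR_sgn p.1.2.1 p.2) := by
    unfold CTR_sgn
    exact PTime.getD PTime.snd (PTime.headD hc (PTime.const [])) (PTime.const false)
  have hw : PTime (fun p : (α × (List (List Bool) × ℕ)) × ℕ => p.1.2.1.tail.getD p.2 []) :=
    PTime.getD PTime.snd (PTime.tail hc) (PTime.const [])
  have hP : PTime (fun p : (α × (List (List Bool) × ℕ)) × ℕ =>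
      ((G p.1.1).take p.1.2.2).flatMap List.tail) :=
    PTime.flatMap (f := fun (_ : (α × (List (List Bool) × ℕ)) × ℕ) (u : List (List Bool)) =>
      u.tail) (PTime.take hq hg) (PTime.tail PTime.snd)
  refine hs.pair (nb_ptime hw ?_)
  unfold CTR_slot
  exact PTime.add (PTime.add (PTime.cond hs (PTime.const 0) (PTime.const (3 * K)))
    (PTime.mul PTime.snd (PTime.const K))) (CTR_count_ptime hw hP)

private theorem CTR_chain_ptime (K : ℕ) {α : Type} [SCode α] {G : α → List (List (List Bool))}
    (hG : PTime G) : PTime (fun a => CTR_chain K (G a)) := by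
  unfold CTR_chain
  have hf : PTime (fun a => (G a).flatMap List.tail) :=
    PTime.flatMap (f := fun (_ : α) (u : List (List Bool)) => u.tail) hG (PTime.tail PTime.snd)
  refine PTime.flatMap (l := fun a => ded ((G a).flatMap List.tail))
    (f := fun (_ : α) (w : List Bool) => (List.range (6 * K - 1)).map (fun t =>
      ([(false, nb w t), (true, nb w (t + 1))] : List (Lit (List Bool))))) (ded_ptime hf) ?_
  refine PTime.map (l := fun _ : α × List Bool => List.range (6 * K - 1))
    (f := fun (p : α × List Bool) (t : ℕ) =>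
      ([(false, nb p.2 t), (true, nb p.2 (t + 1))] : List (Lit (List Bool)))) (PTime.const _) ?_
  have hw : PTime (fun p : (α × List Bool) × ℕ => p.1.2) := PTime.snd.comp PTime.fst
  exact PTime.cons ((PTime.const false).pair (nb_ptime hw PTime.snd))
    (PTime.cons ((PTime.const true).pair (nb_ptime hw (PTime.succ PTime.snd))) (PTime.const []))

/-- the formula in words -/
def CTR_G (K : ℕ) (F : List (Con ar3)) : List (List (Lit (List Bool))) :=
  (cnf3 K F).map (fun c => c.map (fun l => (l.1, nb (Nat.bits l.2.1) l.2.2)))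

private theorem CTR_numG (K : ℕ) (F : List (Con ar3)) :
    numG (CTR_G K F) = (cnf3 K F).map (mapL nu3) := by
  unfold numG CTR_G
  rw [List.map_map]
  refine List.map_congr_left fun c _ => ?_
  simp only [Function.comp, List.map_map]
  rfl

private theorem CTR_canon (K : ℕ) (F : List (Con ar3)) : Canon (CTR_G K F) := by
  intro w hw
  unfold vlist CTR_G at hw
  obtain ⟨l, hl, rfl⟩ := List.mem_map.1 hw
  obtain ⟨c, hc, hlc⟩ := List.mem_flatten.1 hl
  obtain ⟨d, _, rfl⟩ := List.mem_map.1 hc
  obtain ⟨l', _, rfl⟩ := List.mem_map.1 hlc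
  exact nb_end _ _

private theorem CTR_testBit (n a : ℕ) : (Nat.bits n).getD a false = Nat.testBit n a := by
  rw [Nat.testBit_eq_inth]
  rfl

private theorem CTR_rank (P : List (Con ar3)) (v : ℕ) :
    (((P.map wordC).flatMap List.tail).count (Nat.bits v)) = rkC (V := ℕ) (ar := ar3) P v := by
  rw [vars_wordC]
  unfold rkC vsC
  exact List.count_map_of_injective _ _ bits_injective _

private theorem CTR_main_eq (K : ℕ) (F : List (Con ar3)) :
    (main3 (V := ℕ) K F).map (fun c => c.map (fun l => (l.1, nb (Nat.bits l.2.1) l.2.2))) =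
      CTR_main K (F.map wordC) := by
  unfold main3 CTR_main
  have h1 : (F.map wordC).zipIdx = F.zipIdx.map (fun cq => (wordC cq.1, cq.2)) := by
    rw [List.zipIdx_map]
    rfl
  rw [h1, List.map_map, List.map_map]
  refine List.map_congr_left fun cq _ => ?_
  simp only [Function.comp]
  rw [List.map_ofFn, List.ofFn_eq_map, ← List.map_coe_finRange_eq_range, List.map_map]
  refine List.map_congr_left fun a _ => ?_
  have hs : CTR_sgn (wordC cq.1) (a : ℕ) = sgn3 (V := ℕ) cq.1 a := by
    unfold CTR_sgn sgn3 wordC
    rw [List.headD_cons, CTR_testBit]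
  have hw : (wordC cq.1).tail.getD (a : ℕ) [] = Nat.bits (cq.1.2 a) := getD_wordC cq.1 a
  simp only [Function.comp]
  unfold CTR_slot slot3
  rw [hs, hw, ← List.map_take, CTR_rank]

private theorem CTR_chain_eq (K : ℕ) (F : List (Con ar3)) :
    (chain3 (V := ℕ) K F).map (fun c => c.map (fun l => (l.1, nb (Nat.bits l.2.1) l.2.2))) =
      CTR_chain K (F.map wordC) := by
  unfold chain3 CTR_chain
  have h1 : (F.map wordC).flatMap List.tail = (F.flatMap (vsC (V := ℕ))).map Nat.bits :=
    vars_wordC F
  rw [h1, CTR_ded_map bits_injective, List.flatMap_map, List.map_flatMap]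
  refine List.flatMap_congr fun v _ => ?_
  rw [List.map_map]
  rfl

private theorem CTR_len (K : ℕ) (F : List (Con ar3)) :
    (cnf3 (V := ℕ) K F).length ≤ (18 * K + 1) * F.length := by
  unfold cnf3 main3 chain3
  rw [List.length_append, List.length_map, List.length_zipIdx, List.length_flatMap]
  have h1 : ((ded (F.flatMap (vsC (V := ℕ)))).map (fun v => ((List.range (6 * K - 1)).map
      (fun t => [((false, (v, t)) : Bool × (ℕ × ℕ)), (true, (v, t + 1))])).length)).sum ≤
      (ded (F.flatMap (vsC (V := ℕ)))).length * (6 * K - 1) := by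
    refine (List.sum_le_card_nsmul _ (6 * K - 1) ?_).trans ?_
    · intro x hx
      obtain ⟨v, _, rfl⟩ := List.mem_map.1 hx
      rw [List.length_map, List.length_range]
    · rw [List.length_map, smul_eq_mul]
  have h2 : (ded (F.flatMap (vsC (V := ℕ)))).length ≤ 3 * F.length := by
    rw [ded_length]
    refine (List.toFinset_card_le _).trans ?_
    rw [List.length_flatMap]
    refine (List.sum_le_card_nsmul _ 3 ?_).trans ?_
    · intro x hx
      obtain ⟨v, _, rfl⟩ := List.mem_map.1 hx
      unfold vsC
      rw [List.length_ofFn]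
    · rw [List.length_map, smul_eq_mul, Nat.mul_comm]
  have h3 : (ded (F.flatMap (vsC (V := ℕ)))).length * (6 * K - 1) ≤ 3 * F.length * (6 * K) :=
    Nat.mul_le_mul h2 (by omega)
  have h4 : (18 * K + 1) * F.length = F.length + 3 * F.length * (6 * K) := by ring
  rw [h4]
  exact Nat.add_le_add_left (h1.trans h3) _

theorem p_CTR : S_CTR := by
  intro K
  refine ⟨18 * K + 1, by omega, fun V₁ Y₁ N₁ V₂ Y₂ N₂ b hb hred hsep => ?_⟩
  have hf : PTime (fun x : List Bool => encG (CTR_main K (parseW x) ++
      CTR_chain K (parseW x))) :=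
    encG_ptime (PTime.append (CTR_main_ptime K parseW_ptime) (CTR_chain_ptime K parseW_ptime))
  have hh : PTime (fun x => mydiv (parseW x).length b) :=
    mydiv_ptime (PTime.length parseW_ptime) (PTime.const b)
  refine transfer hf hh (fun F _ => length_le_code F) ?_ hsep
  intro F hF
  obtain ⟨h1, h2, h3⟩ := hred F hF
  have hx : parseW (codeC F) = F.map wordC := by
    rw [codeC_eq, parseW_encW]
  refine ⟨(cnf3 K F).map (mapL nu3), h1, ?_, h2, h3, ?_, ?_⟩
  · rw [hx, ← CTR_numG, encF_numG (CTR_canon K F)]
    congr 1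
    unfold CTR_G cnf3
    rw [List.map_append, CTR_main_eq, CTR_chain_eq]
  · simp only [hx, List.length_map]
    rw [mydiv_eq hb]
    have h4 := Nat.div_le_div_right (c := (18 * K + 1) * b) (CTR_len K F)
    rwa [Nat.mul_div_mul_left _ _ (by omega)] at h4
  · simp only [hx, List.length_map]
    rw [mydiv_eq hb]

end Pool.Agent.Lib.MP_87d05f_lc.HG
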