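import Pool.Agent.Lib.MP_87d05f_lc.HG.P_SUB

set_option autoImplicit false

/-!
# MP_87d05f_lc, instances of large girth: the maximum cut
-/

namespace Pool.Agent.Lib.MP_87d05f_lc.HG

open Pool.Agent.Lib.MP_87d05f_lc Pool.Agent.PolyTime Turing

private theorem CUT_len {V L : Type} [DecidableEq V] (col : V → ℕ) (CL : List (List (L × L)))
    (E : List (V × V)) : (intE col CL E).length =
      ((ded (endsE E)).map (fun v => (CL.map List.length).getD (col v) 0)).sum := by
  unfold intE
  rw [List.length_flatMap]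
  congr 1
  refine List.map_congr_left fun v _ => ?_
  rw [List.length_map]
  have h : ∀ (M : List (List (L × L))) (n : ℕ), (M.getD n []).length =
      (M.map List.length).getD n 0 := by
    intro M
    induction M with
    | nil => intro n; simp
    | cons a M ih =>
      intro n
      cases n with
      | zero => simp
      | succ n => simpa using ih n
  exact h CL (col v)

private theorem CUT_sum_le (l : List ℕ) (f : ℕ → ℕ) (M : ℕ) (h : ∀ v ∈ l, f v ≤ M) :
    (l.map f).sum ≤ M * l.length := by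
  induction l with
  | nil => simp
  | cons a l ih =>
    rw [List.map_cons, List.sum_cons, List.length_cons, Nat.mul_add, Nat.mul_one]
    have h1 := h a List.mem_cons_self
    have h2 := ih (fun v hv => h v (List.mem_cons_of_mem _ hv))
    omega

private theorem CUT_clA {N C K : ℕ} (L : List (Fin 2 → Fin N × Fin 3))
    (hL : L.length ≤ C * (N * 3)) : (clA K L).length ≤ 6 * N * (2 * K + C) := by
  unfold clA
  rw [List.length_append]
  have h1 : (segA N (2 * K)).length = 12 * N * K := by
    unfold segA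
    rw [List.length_flatMap]
    have h2 : (((List.finRange N).flatMap (fun i => (List.finRange 3).map
        (fun r => (i, r)))).map (fun x => ((List.range (2 * K)).flatMap (fun l =>
          [((slA x l : LocA N), sgA x l), (sgA x l, slA x (l + 1))])).length)) =
        (((List.finRange N).flatMap (fun i => (List.finRange 3).map
        (fun r => (i, r)))).map (fun _ => 4 * K)) := by
      refine List.map_congr_left fun x _ => ?_
      rw [List.length_flatMap]
      simp
      ring
    rw [h2, List.map_const', List.sum_replicate, List.length_flatMap]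
    simp
    ring
  have h2 : (lnkA K L).length = 2 * L.length := by
    unfold lnkA
    rw [List.length_flatMap]
    simp
    ring
  rw [h1, h2]
  nlinarith

private theorem CUT_nv {V : Type} [DecidableEq V] (E : List (V × V)) : nvE E ≤ 2 * E.length := by
  unfold nvE
  refine (List.toFinset_card_le _).trans ?_
  unfold endsE
  rw [List.length_flatMap]
  simp
  omega

theorem p_CUT : S_PAT → S_RNG → S_INJ → S_GTR → S_SUB → S_A1 → S_A3 → S_A4 → S_A5 → S_CUT := by
  intro PAT RNG INJ GTR SUB A1 A3 A4 A5 hG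
  obtain ⟨ε₀, h0, h1, b₀, hb₀, hno⟩ := cut_main.1 hG
  obtain ⟨p, q, hp, hpq, rfl⟩ : ∃ p q : ℕ, 0 < p ∧ p < q ∧ ε₀ = (p : ℚ) / (q : ℕ) := by
    have hp : 0 < ε₀.num.toNat := by
      have := Rat.num_pos.2 h0
      omega
    have hpq : ((ε₀.num.toNat : ℕ) : ℚ) / ((ε₀.den : ℕ) : ℚ) = ε₀ := by
      have h2 : ((ε₀.num.toNat : ℕ) : ℤ) = ε₀.num := Int.toNat_of_nonneg (Rat.num_pos.2 h0).le
      have h3 : ((ε₀.num.toNat : ℕ) : ℚ) = (ε₀.num : ℚ) := by exact_mod_cast h2
      rw [h3, Rat.num_div_den]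
    have hlt : ε₀.num.toNat < ε₀.den := by
      have hq' : (0 : ℚ) < ((ε₀.den : ℕ) : ℚ) := by exact_mod_cast ε₀.den_pos
      rw [← hpq, div_lt_one hq'] at h1
      exact_mod_cast h1
    exact ⟨_, _, hp, hlt, hpq.symm⟩
  obtain ⟨Q, hQ⟩ : ∃ Q : ℕ, Q = 5 * q := ⟨_, rfl⟩
  have hQ0 : 0 < Q := by omega
  obtain ⟨C, K, hC, hK, hpat⟩ := PAT 2 (96 * Q) (by omega)
  obtain ⟨M, hM⟩ : ∃ M : ℕ, M = 2 * (24 * (2 * K + C) + 2) := ⟨_, rfl⟩
  have hM0 : 0 < M := by omega
  have hp' : (0 : ℚ) < (p : ℚ) := by exact_mod_cast hp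
  have hQM : (0 : ℚ) < ((Q * M : ℕ) : ℚ) := by
    have : 0 < Q * M := Nat.mul_pos hQ0 hM0
    exact_mod_cast this
  refine ⟨(p : ℚ) / ((Q * M : ℕ) : ℚ), by positivity, ?_, fun g => ?_⟩
  · rw [div_lt_one hQM]
    have : p < Q * M := by
      calc p < Q * 1 := by omega
        _ ≤ Q * M := Nat.mul_le_mul_left _ hM0
    exact_mod_cast this
  obtain ⟨N, hN, H, hH⟩ := hpat (Fin 3) 3 g (by norm_num)
  obtain ⟨B, hB, htr⟩ := GTR (LocA N) (CLA K H) (XLA N) ((CLA K H).map List.length) N
  refine ⟨B * (4 * b₀), by positivity, fun hs => hno ?_⟩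
  refine SUB p q b₀ hp hpq hb₀ ?_
  refine htr (fun I => VCut I ∧ ∀ e ∈ I.2, colN e.1 ≠ colN e.2) YCut _ _ YCut
    (NCut ((p : ℚ) / ((Q * M : ℕ) : ℚ))) (4 * b₀) (by omega) ?_ hs
  rintro ⟨t, E⟩ ⟨hV, hcol⟩
  simp only at hcol ⊢
  have hE : SimpD 3 E := hV
  have hcl : ∀ v, colN v < 3 := fun v => Nat.mod_lt _ (by norm_num)
  have hinj : Function.Injective (nuG (L := LocA N)) := INJ.2.2.1 (LocA N)
  obtain ⟨r1, r2, r3, r4, r5⟩ := RNG (ℕ × LocA N) ℕ nuG hinj (cloudE colN (CLA K H) (XLA N) E)
  have hthr : thrE colN ((CLA K H).map List.length) N (t, E) =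
      (intE colN (CLA K H) E).length + N * t := by
    rw [CUT_len]
    rfl
  refine ⟨⟨r1 3 (A4 ℕ N C K (96 * Q) g H colN E hH hcl hE), ?_⟩, ?_, ?_⟩
  · exact r2 g (A5 ℕ N C K (96 * Q) g H colN E hH hcl hE hcol)
  · rintro ⟨a, ha⟩
    obtain ⟨a', ha'⟩ := A1 ℕ N K H colN E a hE
    obtain ⟨a'', ha''⟩ := r5 a'
    refine ⟨a'', ?_⟩
    simp only at ha ⊢
    rw [(r4 a'').1]
    have h2 : (fun v => a'' (nuG v)) = a' := funext ha''
    rw [h2, ha', hthr]
    exact Nat.add_le_add_left (Nat.mul_le_mul_left _ ha) _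
  · intro hNO a''
    simp only
    rw [(r4 a'').1, hthr]
    obtain ⟨a, ha⟩ := A3 ℕ N C K (96 * Q) g H colN E hC (by omega) hN hH hcl hE
      (fun v => a'' (nuG v))
    generalize (cloudE colN (CLA K H) (XLA N) E).countP (cutE (fun v => a'' (nuG v))) = c' at ha ⊢
    have h2 := hNO a
    obtain ⟨a₀, ha₀⟩ := SUB_half E hE.1
    have h3 := hNO a₀
    have hQ5 : ((5 * q : ℕ) : ℚ) = ((Q : ℕ) : ℚ) := by rw [hQ]
    simp only at h2 h3
    rw [hQ5, lt_frac_iff hQ0] at h2 h3
    rw [lt_frac_iff (Nat.mul_pos hQ0 hM0)]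
    have h4 : E.countP (cutE a₀) < t := by
      by_contra h
      have := Nat.mul_le_mul_left Q (not_lt.1 h)
      omega
    have h5 : nvE E ≤ 4 * t := by
      have := CUT_nv E
      omega
    have h6 : (intE colN (CLA K H) E).length ≤ 6 * N * (2 * K + C) * (4 * t) := by
      rw [CUT_len]
      refine (CUT_sum_le _ _ (6 * N * (2 * K + C)) ?_).trans ?_
      · intro v _
        have h7 : ∀ L : List (Fin 2 → Fin N × Fin 3), L.length ≤ C * (N * 3) →
            (clA K L).length ≤ 6 * N * (2 * K + C) := fun L hL => CUT_clA L hL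
        have h8 := h7 _ (hH.len 0)
        have h9 := h7 _ (hH.len 1)
        have h10 := h7 _ (hH.len 2)
        unfold CLA
        have h11 := hcl v
        interval_cases colN v
        · simpa using h8
        · simpa using h9
        · simpa using h10
      · refine Nat.mul_le_mul_left _ ?_
        rw [ded_length]
        exact h5
    generalize (intE colN (CLA K H) E).length = len at ha h6 ⊢
    generalize E.countP (cutE a) = c at ha h2
    generalize nvE E = n at ha h5
    have ht : 0 < t := by omega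
    -- everything over the rationals
    have ha' : (96 * Q : ℚ) * c' ≤ 96 * Q * (len + N * c) + 12 * N * n := by exact_mod_cast ha
    have h2' : (Q : ℚ) * c + p * t < Q * t := by exact_mod_cast h2
    have h5' : (n : ℚ) ≤ 4 * t := by exact_mod_cast h5
    have h6' : (len : ℚ) ≤ 6 * N * (2 * K + C) * (4 * t) := by exact_mod_cast h6
    have hM' : (M : ℚ) = 2 * (24 * (2 * K + C) + 2) := by
      rw [hM]
      push_cast
      ring
    have hN' : (0 : ℚ) < N := by exact_mod_cast hN
    have ht' : (0 : ℚ) < t := by exact_mod_cast ht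
    have hQ' : (0 : ℚ) < Q := by exact_mod_cast hQ0
    have hpp : (1 : ℚ) ≤ p := by exact_mod_cast hp
    have hK' : (0 : ℚ) ≤ K := Nat.cast_nonneg K
    have hC' : (0 : ℚ) ≤ C := Nat.cast_nonneg C
    have key : ((Q * M : ℕ) : ℚ) * c' + p * ((len + N * t : ℕ) : ℚ) <
        ((Q * M : ℕ) : ℚ) * ((len + N * t : ℕ) : ℚ) := by
      push_cast
      -- Q c' ≤ Q (len + N c) + N n / 8
      have e1 : (Q : ℚ) * c' ≤ Q * (len + N * c) + N * n / 8 := by linarith
      have e2 : (N : ℚ) * n ≤ N * (4 * t) := mul_le_mul_of_nonneg_left h5' hN'.le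
      have e3 : (N : ℚ) * (Q * c + p * t) < N * (Q * t) := mul_lt_mul_of_pos_left h2' hN'
      have e4 : (Q : ℚ) * c' + N * p * t / 2 < Q * (len + N * t) := by
        have e5 : (N : ℚ) * t ≤ N * (p * t) := by
          refine mul_le_mul_of_nonneg_left ?_ hN'.le
          nlinarith
        nlinarith
      have e6 : (p : ℚ) * (len + N * t) ≤ M * (N * p * t / 2) := by
        have e7 : (len + N * t : ℚ) ≤ N * t * (24 * (2 * K + C) + 1) := by
          have : (6 * N * (2 * K + C) * (4 * t) : ℚ) = N * t * (24 * (2 * K + C)) := by ring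
          nlinarith
        have e8 : (p : ℚ) * (len + N * t) ≤ p * (N * t * (24 * (2 * K + C) + 1)) :=
          mul_le_mul_of_nonneg_left e7 hp'.le
        refine e8.trans ?_
        rw [hM']
        have e9 : (0 : ℚ) ≤ p * (N * t) := by positivity
        nlinarith
      have hM1 : (0 : ℚ) < M := by exact_mod_cast hM0
      have e10 := mul_lt_mul_of_pos_left e4 hM1
      nlinarith
    exact_mod_cast key

end Pool.Agent.Lib.MP_87d05f_lc.HG
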