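import Mathlib
import Pool.Agent.Lib.MP_87d05f_lc.HG.Stm

set_option autoImplicit false

/-!
# HighGirth, piece DEG: in most tables few tuples meet an overloaded element
-/

namespace Pool.Agent.Lib.MP_87d05f_lc.HG

open Finset

/-- the number of the tables with a coincidence at two different places -/
private theorem DEG_pair {X : Type} [Fintype X] [DecidableEq X] {R k : ℕ} (p p' : Fin R)
    (hp : p' ≠ p) (a : Fin k) :
    ((univ : Finset (Fin R → Fin k → X)).filter (fun ω => ω p' a = ω p a)).card *
      Fintype.card X ≤ Fintype.card (Fin R → Fin k → X) := by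
  classical
  rw [← Finset.card_univ (α := X), ← Finset.card_product, ← Finset.card_univ (α := Fin R → Fin k → X)]
  refine Finset.card_le_card_of_injOn
    (fun q : (Fin R → Fin k → X) × X => Function.update q.1 p' (Function.update (q.1 p') a q.2))
    (fun q _ => Finset.mem_coe.2 (Finset.mem_univ _)) ?_
  rintro ⟨ω, x⟩ h1 ⟨ω', x'⟩ h2 h
  have e1 : ω p' a = ω p a := by
    have := (Finset.mem_product.1 (Finset.mem_coe.1 h1)).1
    exact (Finset.mem_filter.1 this).2
  have e2 : ω' p' a = ω' p a := by
    have := (Finset.mem_product.1 (Finset.mem_coe.1 h2)).1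
    exact (Finset.mem_filter.1 this).2
  simp only at h
  have hx : x = x' := by
    have h3 := congrFun (congrFun h p') a
    rwa [Function.update_self, Function.update_self, Function.update_self,
      Function.update_self] at h3
  have hne : ∀ q, q ≠ p' → ω q = ω' q := by
    intro q hq
    have h3 := congrFun h q
    rwa [Function.update_of_ne hq, Function.update_of_ne hq] at h3
  have hω : ω = ω' := by
    funext q
    by_cases hq : q = p'
    · subst hq
      funext b
      by_cases hb : b = a
      · subst hb
        rw [e1, e2, hne p (Ne.symm hp)]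
      · have h3 := congrFun (congrFun h q) b
        rwa [Function.update_self, Function.update_self, Function.update_of_ne hb,
          Function.update_of_ne hb] at h3
    · exact hne q hq
  rw [hx, hω]

/-- the average load -/
private theorem DEG_load {X : Type} [Fintype X] [DecidableEq X] {C k : ℕ} [Nonempty X]
    (p : Fin (C * Fintype.card X)) (a : Fin k) :
    ∑ ω : Fin (C * Fintype.card X) → Fin k → X, (univ.filter (fun p' => ω p' a = ω p a)).card ≤
      Fintype.card (Fin (C * Fintype.card X) → Fin k → X) * (1 + C) := by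
  classical
  have hX : 0 < Fintype.card X := Fintype.card_pos
  have h1 : ∑ ω : Fin (C * Fintype.card X) → Fin k → X,
      (univ.filter (fun p' => ω p' a = ω p a)).card =
      ∑ p' : Fin (C * Fintype.card X),
        ((univ : Finset (Fin (C * Fintype.card X) → Fin k → X)).filter
          (fun ω => ω p' a = ω p a)).card := by
    simp only [Finset.card_filter]
    exact Finset.sum_comm
  have h2 : ∀ p' : Fin (C * Fintype.card X),
      ((univ : Finset (Fin (C * Fintype.card X) → Fin k → X)).filter
          (fun ω => ω p' a = ω p a)).card * Fintype.card X ≤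
      Fintype.card (Fin (C * Fintype.card X) → Fin k → X) +
        (if p' = p then Fintype.card (Fin (C * Fintype.card X) → Fin k → X) * Fintype.card X
          else 0) := by
    intro p'
    by_cases hp : p' = p
    · rw [if_pos hp]
      refine le_trans (Nat.mul_le_mul_right _ (Finset.card_filter_le _ _)) ?_
      rw [Finset.card_univ]
      omega
    · rw [if_neg hp]
      have := DEG_pair (X := X) p p' hp a
      omega
  have h3 : (∑ ω : Fin (C * Fintype.card X) → Fin k → X,
      (univ.filter (fun p' => ω p' a = ω p a)).card) * Fintype.card X ≤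
      (Fintype.card (Fin (C * Fintype.card X) → Fin k → X) * (1 + C)) * Fintype.card X := by
    rw [h1, Finset.sum_mul]
    refine (Finset.sum_le_sum fun p' _ => h2 p').trans (le_of_eq ?_)
    rw [Finset.sum_add_distrib, Finset.sum_const, Finset.card_univ, Fintype.card_fin,
      Finset.sum_ite_eq' univ p, if_pos (Finset.mem_univ _), smul_eq_mul]
    ring
  exact Nat.le_of_mul_le_mul_right h3 hX

theorem p_DEG : S_DEG := by
  classical
  intro k C h hh
  refine ⟨8 * (h * k * (1 + C)) + 1, Nat.succ_pos _, ?_⟩
  intro X _ _ _
  obtain ⟨K, hK⟩ : ∃ K, K = 8 * (h * k * (1 + C)) + 1 := ⟨_, rfl⟩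
  rw [← hK]
  let R : ℕ := C * Fintype.card X
  let D : (Fin R → Fin k → X) → ℕ := fun ω => (Finset.univ.filter (fun p => ∃ a,
      K < (Finset.univ.filter (fun p' => ω p' a = ω p a)).card)).card
  let B : Finset (Fin R → Fin k → X) := univ.filter (fun ω => R < h * D ω)
  have hB : Nat.card {ω : Fin (C * Fintype.card X) → (Fin k → X) // C * Fintype.card X <
    h * (Finset.univ.filter (fun p => ∃ a,
      K < (Finset.univ.filter (fun p' => ω p' a = ω p a)).card)).card} = B.card := by
    rw [Nat.card_eq_fintype_card, Fintype.card_subtype]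
  rw [hB, Nat.card_eq_fintype_card]
  have hD : ∀ ω, K * D ω ≤ ∑ p, ∑ a, (univ.filter (fun p' => ω p' a = ω p a)).card := by
    intro ω
    have h1 : (Finset.univ.filter (fun p => ∃ a,
        K < (Finset.univ.filter (fun p' => ω p' a = ω p a)).card)).card * K ≤
        ∑ p ∈ Finset.univ.filter (fun p => ∃ a,
          K < (Finset.univ.filter (fun p' => ω p' a = ω p a)).card),
          ∑ a, (univ.filter (fun p' => ω p' a = ω p a)).card := by
      rw [← smul_eq_mul]
      refine Finset.card_nsmul_le_sum _ _ _ fun p hp => ?_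
      obtain ⟨a, ha⟩ := (Finset.mem_filter.1 hp).2
      refine ha.le.trans ?_
      exact Finset.single_le_sum
        (f := fun a => (univ.filter (fun p' => ω p' a = ω p a)).card)
        (fun _ _ => Nat.zero_le _) (Finset.mem_univ a)
    rw [Nat.mul_comm]
    refine h1.trans ?_
    exact Finset.sum_le_sum_of_subset (Finset.filter_subset _ _)
  have hsum : ∑ ω, K * D ω ≤ R * (k * (Fintype.card (Fin R → Fin k → X) * (1 + C))) := by
    refine (Finset.sum_le_sum fun ω _ => hD ω).trans ?_
    rw [Finset.sum_comm]
    calc ∑ p : Fin R, ∑ ω : Fin R → Fin k → X, ∑ a,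
          (univ.filter (fun p' => ω p' a = ω p a)).card
        = ∑ p : Fin R, ∑ a, ∑ ω : Fin R → Fin k → X,
          (univ.filter (fun p' => ω p' a = ω p a)).card :=
          Finset.sum_congr rfl fun p _ => Finset.sum_comm
      _ ≤ ∑ p : Fin R, ∑ a : Fin k, Fintype.card (Fin R → Fin k → X) * (1 + C) :=
          Finset.sum_le_sum fun p _ => Finset.sum_le_sum fun a _ => DEG_load p a
      _ = _ := by
          rw [Finset.sum_const, Finset.sum_const, Finset.card_univ, Finset.card_univ,
            Fintype.card_fin, Fintype.card_fin, smul_eq_mul, smul_eq_mul]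
  have hmark : (R + 1) * (K * B.card) ≤
      (R + 1) * ((h * k * (1 + C)) * Fintype.card (Fin R → Fin k → X)) := by
    have h1 : B.card * (R + 1) ≤ ∑ ω ∈ B, h * D ω := by
      rw [← smul_eq_mul]
      refine Finset.card_nsmul_le_sum _ _ _ fun ω hω => ?_
      exact (Finset.mem_filter.1 hω).2
    have h2 : ∑ ω ∈ B, h * D ω ≤ ∑ ω, h * D ω :=
      Finset.sum_le_sum_of_subset (Finset.filter_subset _ _)
    have h3 : K * ∑ ω, h * D ω = h * ∑ ω, K * D ω := by
      rw [Finset.mul_sum, Finset.mul_sum]
      refine Finset.sum_congr rfl fun ω _ => ?_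
      ring
    calc (R + 1) * (K * B.card) = K * (B.card * (R + 1)) := by ring
      _ ≤ K * ∑ ω, h * D ω := Nat.mul_le_mul_left _ (h1.trans h2)
      _ = h * ∑ ω, K * D ω := h3
      _ ≤ h * (R * (k * (Fintype.card (Fin R → Fin k → X) * (1 + C)))) :=
          Nat.mul_le_mul_left _ hsum
      _ ≤ h * ((R + 1) * (k * (Fintype.card (Fin R → Fin k → X) * (1 + C)))) := by
          gcongr
          omega
      _ = _ := by ring
  have h4 := Nat.le_of_mul_le_mul_left hmark (Nat.succ_pos R)
  rw [hK] at h4
  obtain ⟨M, hM⟩ : ∃ M, M = h * k * (1 + C) := ⟨_, rfl⟩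
  rw [← hM] at h4
  change 8 * B.card ≤ Fintype.card (Fin R → Fin k → X)
  rcases Nat.eq_zero_or_pos M with h0 | h0
  · rw [h0] at h4
    simp only [Nat.mul_zero, Nat.zero_add, Nat.one_mul, Nat.zero_mul] at h4
    omega
  · refine Nat.le_of_mul_le_mul_left ?_ h0
    calc M * (8 * B.card) ≤ (8 * M + 1) * B.card := by
          rw [Nat.add_mul, Nat.one_mul]
          have : M * (8 * B.card) = 8 * M * B.card := by ring
          omega
      _ ≤ _ := h4

end Pool.Agent.Lib.MP_87d05f_lc.HG
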