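import Pool.Agent.Lib.MP_87d05f_lc.HG.Stm

set_option autoImplicit false

/-!
# MP_87d05f_lc, instances of large girth: the graph on the indices
-/

namespace Pool.Agent.Lib.MP_87d05f_lc.HG

open Pool.Agent.Lib.MP_87d05f_lc

private theorem E1_adj {T : Type} {W N : ℕ} (H : T → List (Fin 2 → Fin N × Fin W)) (p : T × ℕ)
    (c : Fin 2 → Fin N × Fin W) (h : (H p.1)[p.2]? = some c) (a : Fin 2) :
    (idxG H).Adj (Sum.inl p) (Sum.inr (c a).1) := by
  unfold idxG
  rw [SimpleGraph.fromRel_adj]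
  exact ⟨by simp, Or.inl ⟨p.1, p.2, (c a).1, c, a, rfl, rfl, h, rfl⟩⟩

/-- the tuple `c` joins the indices `i` and `j` -/
private def E1J {N W : ℕ} (c : Fin 2 → Fin N × Fin W) (i j : Fin N) : Prop :=
  ((c 0).1 = i ∧ (c 1).1 = j) ∨ ((c 0).1 = j ∧ (c 1).1 = i)

private theorem E1_fst {T : Type} {W N : ℕ} (H : T → List (Fin 2 → Fin N × Fin W)) (p : T × ℕ)
    (c : Fin 2 → Fin N × Fin W) (h : (H p.1)[p.2]? = some c) (i j : Fin N) (hc : E1J c i j) :
    (idxG H).Adj (Sum.inr i) (Sum.inl p) ∧ (idxG H).Adj (Sum.inl p) (Sum.inr j) := by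
  rcases hc with ⟨h1, h2⟩ | ⟨h1, h2⟩
  · rw [← h1, ← h2]
    exact ⟨(E1_adj H p c h 0).symm, E1_adj H p c h 1⟩
  · rw [← h1, ← h2]
    exact ⟨(E1_adj H p c h 1).symm, E1_adj H p c h 0⟩

private theorem E1_two (hgir : S_GIR) {T : Type} {W N : ℕ} (g : ℕ)
    (H : T → List (Fin 2 → Fin N × Fin W)) (hG : ((2 * g + 4 : ℕ) : ℕ∞) < (idxG H).egirth)
    (p p' : T × ℕ) (c c' : Fin 2 → Fin N × Fin W) (h : (H p.1)[p.2]? = some c)
    (h' : (H p'.1)[p'.2]? = some c') (i j : Fin N) (hij : i ≠ j) (hc : E1J c i j)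
    (hc' : E1J c' i j) : p = p' := by
  by_contra hne
  obtain ⟨a1, a2⟩ := E1_fst H p c h i j hc
  obtain ⟨b1, b2⟩ := E1_fst H p' c' h' i j hc'
  let w : ℕ → (T × ℕ) ⊕ Fin N := fun m =>
    if m % 4 = 0 then Sum.inl p else if m % 4 = 1 then Sum.inr i else
      if m % 4 = 2 then Sum.inl p' else Sum.inr j
  have w0 : ∀ m, m % 4 = 0 → w m = Sum.inl p := fun m hm => by simp only [w]; rw [if_pos hm]
  have w1 : ∀ m, m % 4 = 1 → w m = Sum.inr i := fun m hm => by
    simp only [w]; rw [if_neg (by omega), if_pos hm]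
  have w2 : ∀ m, m % 4 = 2 → w m = Sum.inl p' := fun m hm => by
    simp only [w]; rw [if_neg (by omega), if_neg (by omega), if_pos hm]
  have w3 : ∀ m, m % 4 = 3 → w m = Sum.inr j := fun m hm => by
    simp only [w]; rw [if_neg (by omega), if_neg (by omega), if_neg (by omega)]
  have hcase : ∀ m : ℕ, m % 4 = 0 ∨ m % 4 = 1 ∨ m % 4 = 2 ∨ m % 4 = 3 := fun m => by omega
  obtain ⟨m, hm⟩ := (hgir _ (idxG H) (2 * g + 4)).1 hG 4 (by omega) (by omega) w
    (by
      intro m
      have e : (m + 4) % 4 = m % 4 := by omega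
      simp only [w, e])
    (by
      intro m
      rcases hcase m with h | h | h | h
      · rw [w0 m h, w1 (m + 1) (by omega)]; exact a1.symm
      · rw [w1 m h, w2 (m + 1) (by omega)]; exact b1
      · rw [w2 m h, w3 (m + 1) (by omega)]; exact b2
      · rw [w3 m h, w0 (m + 1) (by omega)]; exact a2.symm)
  rcases hcase m with h | h | h | h
  · rw [w0 m h, w2 (m + 2) (by omega)] at hm
    exact hne (Sum.inl.inj hm)
  · rw [w1 m h, w3 (m + 2) (by omega)] at hm
    exact hij (Sum.inr.inj hm)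
  · rw [w2 m h, w0 (m + 2) (by omega)] at hm
    exact hne (Sum.inl.inj hm).symm
  · rw [w3 m h, w1 (m + 2) (by omega)] at hm
    exact hij (Sum.inr.inj hm).symm

/-- **HG E1.** -/
theorem p_E1 : S_GIR → S_E1 := by
  intro hgir T W N g H hne hG
  constructor
  · rw [hgir]
    intro r hr1 hr2 u hper hadj
    by_contra hcon
    push Not at hcon
    -- the places
    have hpl : ∀ a b, (eH H).Adj a b → ∃ p : T × ℕ, ∃ c, (H p.1)[p.2]? = some c ∧ E1J c a b := by
      intro a b hab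
      unfold eH at hab
      rw [SimpleGraph.fromRel_adj] at hab
      rcases hab.2 with ⟨τ, c, hc, h1, h2⟩ | ⟨τ, c, hc, h1, h2⟩
      · obtain ⟨n, hn⟩ := List.mem_iff_getElem?.1 hc
        exact ⟨(τ, n), c, hn, Or.inl ⟨h1, h2⟩⟩
      · obtain ⟨n, hn⟩ := List.mem_iff_getElem?.1 hc
        exact ⟨(τ, n), c, hn, Or.inr ⟨h1, h2⟩⟩
    choose pl cc hcc hJ using hpl
    have hpe : ∀ a b a' b' (h : (eH H).Adj a b) (h' : (eH H).Adj a' b'), a = a' → b = b' →
        pl a b h = pl a' b' h' := by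
      intro a b a' b' h h' e1 e2
      subst e1 e2
      rfl
    let P : ℕ → T × ℕ := fun m => pl (u m) (u (m + 1)) (hadj m)
    let w : ℕ → (T × ℕ) ⊕ Fin N := fun m =>
      if m % 2 = 0 then Sum.inr (u (m / 2)) else Sum.inl (P (m / 2))
    have w0 : ∀ m, w (2 * m) = Sum.inr (u m) := fun m => by
      have e : 2 * m / 2 = m := by omega
      simp only [w]
      rw [if_pos (by omega), e]
    have w1 : ∀ m, w (2 * m + 1) = Sum.inl (P m) := fun m => by
      have e : (2 * m + 1) / 2 = m := by omega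
      simp only [w]
      rw [if_neg (by omega), e]
    have hcase : ∀ m : ℕ, (∃ n, m = 2 * n) ∨ ∃ n, m = 2 * n + 1 := fun m => by
      rcases Nat.even_or_odd' m with ⟨n, h | h⟩
      · exact Or.inl ⟨n, h⟩
      · exact Or.inr ⟨n, h⟩
    have hA : ∀ m, (idxG H).Adj (Sum.inr (u m)) (Sum.inl (P m)) ∧
        (idxG H).Adj (Sum.inl (P m)) (Sum.inr (u (m + 1))) := fun m =>
      E1_fst H _ _ (hcc _ _ (hadj m)) _ _ (hJ _ _ (hadj m))
    obtain ⟨m, hm⟩ := (hgir _ (idxG H) (2 * g + 4)).1 hG (2 * r) (by omega) (by omega) w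
      (by
        intro m
        rcases hcase m with ⟨n, h⟩ | ⟨n, h⟩
        · have e : m + 2 * r = 2 * (n + r) := by omega
          rw [e, w0, h, w0, hper]
        · have e : m + 2 * r = 2 * (n + r) + 1 := by omega
          rw [e, w1, h, w1]
          refine congrArg Sum.inl (hpe _ _ _ _ _ _ (hper n) ?_)
          have e2 : n + r + 1 = n + 1 + r := by omega
          rw [e2, hper])
      (by
        intro m
        rcases hcase m with ⟨n, h⟩ | ⟨n, h⟩
        · rw [h, w0, w1]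
          exact (hA n).1
        · have e : 2 * n + 1 + 1 = 2 * (n + 1) := by omega
          rw [h, w1, e, w0]
          exact (hA n).2)
    rcases hcase m with ⟨n, h⟩ | ⟨n, h⟩
    · have e : m + 2 = 2 * (n + 1) := by omega
      rw [e, w0, h, w0] at hm
      exact (hadj n).ne (Sum.inr.inj hm)
    · have e : m + 2 = 2 * (n + 1) + 1 := by omega
      rw [e, w1, h, w1] at hm
      have hP : P n = P (n + 1) := Sum.inl.inj hm
      have k1 := hcc _ _ (hadj n)
      have k2 := hcc _ _ (hadj (n + 1))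
      have j1 := hJ _ _ (hadj n)
      have j2 := hJ _ _ (hadj (n + 1))
      have hP' : pl (u n) (u (n + 1)) (hadj n) = pl (u (n + 1)) (u (n + 1 + 1)) (hadj (n + 1)) :=
        hP
      rw [hP', k2] at k1
      have hc := Option.some.inj k1
      rw [← hc] at j1
      have n1 := (hadj n).ne
      have n2 := hcon n
      have n3 := (hadj (n + 1)).ne
      rcases j1 with ⟨x1, x2⟩ | ⟨x1, x2⟩ <;> rcases j2 with ⟨y1, y2⟩ | ⟨y1, y2⟩
      · exact n1 (x1.symm.trans y1)
      · exact n2 (x1.symm.trans y1)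
      · exact n2 (x2.symm.trans y2)
      · exact n1 (x2.symm.trans y2)
  · intro τ τ' n n' c c' h h' hc
    have hcm : c ∈ H τ := List.mem_of_getElem? h
    have h1 := hne τ c hcm
    have h2 := E1_two hgir g H hG (τ, n) (τ', n') c c' h h' (c 0).1 (c 1).1 h1
      (Or.inl ⟨rfl, rfl⟩)
      (by
        rcases hc with ⟨a, b⟩ | ⟨a, b⟩
        · exact Or.inl ⟨a.symm, b.symm⟩
        · exact Or.inr ⟨b.symm, a.symm⟩)
    exact ⟨congrArg Prod.fst h2, congrArg Prod.snd h2⟩

end Pool.Agent.Lib.MP_87d05f_lc.HG
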