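import Pool.Agent.Lib.MP_87d05f_lc.HG.Stm

set_option autoImplicit false

/-!
# MP_87d05f_lc, instances of large girth: the general girth lemma with stutters
-/

namespace Pool.Agent.Lib.MP_87d05f_lc.HG

/-- there is no closed walk of stutters without backtracking -/
theorem GEN_forest {V V' : Type} (G' : SimpleGraph V') (φ : V' → V) (dep : V' → ℕ)
    (h3 : ∀ x y z, G'.Adj x y → G'.Adj x z → φ y = φ x → φ z = φ x → dep y ≤ dep x →
      dep z ≤ dep x → y = z) :
    ∀ L : ℕ, 1 ≤ L → ∀ x : ℕ → V', x 0 = x L →
      (∀ i, i < L → G'.Adj (x i) (x (i + 1)) ∧ φ (x i) = φ (x (i + 1))) →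
      (∀ i, i + 2 ≤ L → x i ≠ x (i + 2)) → False := by
  intro L
  induction L using Nat.strong_induction_on with
  | _ L ih =>
    intro hL x h0 hadj hnb
    rcases Nat.lt_or_ge L 3 with hL3 | hL3
    · interval_cases L
      · exact (hadj 0 (by omega)).1.ne h0
      · exact hnb 0 (by omega) h0
    · obtain ⟨j, hj, hmax⟩ := Finset.exists_max_image (Finset.range (L + 1))
        (fun i => dep (x i)) ⟨0, by simp⟩
      have hmax' : ∀ i, i ≤ L → dep (x i) ≤ dep (x j) := fun i hi =>
        hmax i (Finset.mem_range.2 (by omega))
      have hjL : j ≤ L := by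
        have := Finset.mem_range.1 hj
        omega
      rcases Nat.eq_zero_or_pos j with hj0 | hj0
      · subst hj0
        have h1 := hadj 0 (by omega)
        have h2 := hadj (L - 1) (by omega)
        have e1 : L - 1 + 1 = L := by omega
        rw [e1] at h2
        have h01 : x 1 = x (L - 1) := by
          apply h3 (x 0) (x 1) (x (L - 1)) h1.1 _ h1.2.symm _ (hmax' 1 (by omega))
            (hmax' (L - 1) (by omega))
          · rw [h0]
            exact h2.1.symm
          · rw [h0]
            exact h2.2
        refine ih (L - 2) (by omega) (by omega) (fun i => x (i + 1)) ?_ ?_ ?_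
        · have e2 : L - 2 + 1 = L - 1 := by omega
          simp only [zero_add, e2]
          exact h01
        · intro i hi
          exact hadj (i + 1) (by omega)
        · intro i hi
          exact hnb (i + 1) (by omega)
      · rcases Nat.lt_or_ge j L with hjl | hjl
        · have h1 := hadj j hjl
          have h2 := hadj (j - 1) (by omega)
          have e1 : j - 1 + 1 = j := by omega
          rw [e1] at h2
          have h01 : x (j - 1) = x (j + 1) := by
            apply h3 (x j) (x (j - 1)) (x (j + 1)) h2.1.symm h1.1 h2.2 h1.2.symm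
              (hmax' (j - 1) (by omega)) (hmax' (j + 1) (by omega))
          have e3 : j - 1 + 2 = j + 1 := by omega
          exact hnb (j - 1) (by omega) (by rw [e3]; exact h01)
        · have hjL' : j = L := by omega
          subst hjL'
          have h1 := hadj 0 (by omega)
          have h2 := hadj (j - 1) (by omega)
          have e1 : j - 1 + 1 = j := by omega
          rw [e1] at h2
          have h01 : x 1 = x (j - 1) := by
            apply h3 (x j) (x 1) (x (j - 1)) _ h2.1.symm _ h2.2 (hmax' 1 (by omega))
              (hmax' (j - 1) (by omega))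
            · rw [← h0]
              exact h1.1
            · rw [← h0]
              exact h1.2.symm
          refine ih (j - 2) (by omega) (by omega) (fun i => x (i + 1)) ?_ ?_ ?_
          · have e2 : j - 2 + 1 = j - 1 := by omega
            simp only [zero_add, e2]
            exact h01
          · intro i hi
            exact hadj (i + 1) (by omega)
          · intro i hi
            exact hnb (i + 1) (by omega)

/-- [HG GEN] the general girth lemma with stutters -/
theorem p_GEN : S_GIR → S_GEN := by
  intro hG V V' Z G G' φ κ dep g h1 h2 h3 h4 hg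
  classical
  rw [hG V G g] at hg
  rw [hG V' G' g]
  intro r hr1 hrg u hper hadj
  by_contra hnb
  push Not at hnb
  -- constant along stutters
  have hconst : ∀ a b, a ≤ b → (∀ j, a ≤ j → j < b → φ (u j) = φ (u (j + 1))) →
      φ (u a) = φ (u b) ∧ κ (u a) = κ (u b) := by
    intro a b hab
    induction b, hab using Nat.le_induction with
    | base => intro _; exact ⟨rfl, rfl⟩
    | succ b hab ih =>
      intro hj
      have h := ih (fun j hj1 hj2 => hj j hj1 (by omega))
      have h' := hj b hab (by omega)
      exact ⟨h.1.trans h', h.2.trans (h2 _ _ (hadj b) h')⟩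
  -- crossings
  set p : ℕ → Prop := fun t => φ (u t) ≠ φ (u (t + 1)) with hp
  have hpper : ∀ t, p (r + t) ↔ p t := by
    intro t
    have e1 : u (r + t) = u t := by rw [add_comm]; exact hper t
    have e2 : u (r + t + 1) = u (t + 1) := by
      have := hper (t + 1)
      rw [show r + t + 1 = t + 1 + r by ring]
      exact this
    simp only [hp, e1, e2]
  have hcount : ∀ t, Nat.count p (r + t) = Nat.count p r + Nat.count p t := by
    intro t
    rw [Nat.count_add]
    have : (fun k => p (r + k)) = p := funext fun k => propext (hpper k)
    simp only [Nat.count_eq_card_filter_range, hpper]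
  have hex : ∃ t, t < r ∧ p t := by
    by_contra hno
    push Not at hno
    refine GEN_forest G' φ dep h3 r hr1 u ?_ ?_ ?_
    · have := hper 0
      rw [zero_add] at this
      exact this.symm
    · intro i hi
      refine ⟨hadj i, ?_⟩
      have := hno i hi
      simp only [hp, not_not] at this
      exact this
    · intro i _
      exact hnb i
  have hm : 1 ≤ Nat.count p r := by
    obtain ⟨t, ht, hpt⟩ := hex
    have := Nat.count_strict_mono hpt ht
    omega
  have hinf : (Set.ofPred p).Infinite := by
    obtain ⟨t, ht, hpt⟩ := hex
    have hpt' : ∀ n : ℕ, p (r * n + t) := by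
      intro n
      induction n with
      | zero => simpa using hpt
      | succ n ih =>
        rw [show r * (n + 1) + t = r + (r * n + t) by ring, hpper]
        exact ih
    refine Set.infinite_of_forall_exists_gt fun n => ⟨r * (n + 1) + t, hpt' (n + 1), ?_⟩
    nlinarith
  have hnth : ∀ k, Nat.nth p (k + Nat.count p r) = Nat.nth p k + r := by
    intro k
    have hpk : p (r + Nat.nth p k) := (hpper _).2 (Nat.nth_mem_of_infinite hinf k)
    have := Nat.nth_count hpk
    rw [hcount, Nat.count_nth_of_infinite hinf] at this
    rw [add_comm k, this, add_comm]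
  have hmono := Nat.nth_strictMono hinf
  -- between two crossings
  have hbet : ∀ k j, Nat.nth p k + 1 ≤ j → j < Nat.nth p (k + 1) → φ (u j) = φ (u (j + 1)) := by
    intro k j hj1 hj2
    by_contra hj
    obtain ⟨n, _, hn⟩ := Nat.exists_lt_card_nth_eq (p := p) (x := j) hj
    rw [← hn] at hj1 hj2
    have a1 := hmono.lt_iff_lt.1 (show Nat.nth p k < Nat.nth p n by omega)
    have a2 := hmono.lt_iff_lt.1 hj2
    omega
  have hseg : ∀ k, φ (u (Nat.nth p k + 1)) = φ (u (Nat.nth p (k + 1))) ∧
      κ (u (Nat.nth p k + 1)) = κ (u (Nat.nth p (k + 1))) := by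
    intro k
    have := hmono (Nat.lt_succ_self k)
    exact hconst _ _ this (hbet k)
  obtain ⟨k, hk⟩ := hg (Nat.count p r) hm (le_trans (Nat.count_le p) hrg)
    (fun k => φ (u (Nat.nth p k + 1))) (by
      intro k
      simp only [hnth]
      congr 1
      rw [show Nat.nth p k + r + 1 = Nat.nth p k + 1 + r by ring]
      exact hper _) (by
      intro k
      have hc : p (Nat.nth p (k + 1)) := Nat.nth_mem_of_infinite hinf (k + 1)
      have := h1 _ _ (hadj (Nat.nth p (k + 1))) hc
      rw [← (hseg k).1] at this
      exact this)
  -- the two successive crossings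
  set t := Nat.nth p (k + 1) with ht
  set t' := Nat.nth p (k + 2) with ht'
  have htt : t < t' := hmono (by omega)
  have hyy : φ (u t) = φ (u (t' + 1)) := by
    rw [← (hseg k).1]
    exact hk
  have hx := hseg (k + 1)
  rw [← ht] at hx
  have hct : p t := Nat.nth_mem_of_infinite hinf (k + 1)
  obtain ⟨e1, e2⟩ := h4 (u (t + 1)) (u t') (u t) (u (t' + 1)) (hadj t).symm (hadj t') hx.1 hx.2
    hyy hct
  rcases Nat.lt_or_ge (t + 1) t' with hlt | hge
  · refine GEN_forest G' φ dep h3 (t' - (t + 1)) (by omega) (fun i => u (t + 1 + i)) ?_ ?_ ?_
    · have : t + 1 + (t' - (t + 1)) = t' := by omega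
      simp only [add_zero, this]
      exact e1
    · intro i hi
      have e3 : Nat.nth p (k + 1 + 1) = t' := rfl
      exact ⟨hadj _, hbet (k + 1) (t + 1 + i) (by omega) (by omega)⟩
    · intro i _
      exact hnb (t + 1 + i)
  · have h' : t' = t + 1 := by omega
    rw [h'] at e2
    exact hnb t e2

end Pool.Agent.Lib.MP_87d05f_lc.HG
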