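import Pool.Agent.Lib.MP_87d05f_lc.HG.Stm

set_option autoImplicit false

/-!
# HighGirth, piece GIR: girth and closed walks without backtracking
-/

namespace Pool.Agent.Lib.MP_87d05f_lc.HG

open SimpleGraph

/-- the walk along a sequence of vertices -/
private def GIR_walk {V : Type} {G : SimpleGraph V} (u : ℕ → V)
    (h : ∀ i, G.Adj (u i) (u (i + 1))) (i : ℕ) : (n : ℕ) → G.Walk (u i) (u (i + n))
  | 0 => Walk.nil
  | n + 1 => (GIR_walk u h i n).concat (h (i + n))

private theorem GIR_length {V : Type} {G : SimpleGraph V} (u : ℕ → V)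
    (h : ∀ i, G.Adj (u i) (u (i + 1))) (i n : ℕ) : (GIR_walk u h i n).length = n := by
  induction n with
  | zero => rfl
  | succ n ih =>
    show ((GIR_walk u h i n).concat (h (i + n))).length = n + 1
    rw [Walk.length_concat, ih]

private theorem GIR_support {V : Type} {G : SimpleGraph V} (u : ℕ → V)
    (h : ∀ i, G.Adj (u i) (u (i + 1))) (i n : ℕ) (x : V) (hx : x ∈ (GIR_walk u h i n).support) :
    ∃ k, k ≤ n ∧ x = u (i + k) := by
  induction n with
  | zero =>
    have h1 : x ∈ (Walk.nil : G.Walk (u i) (u i)).support := hx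
    rw [Walk.support_nil, List.mem_singleton] at h1
    exact ⟨0, le_rfl, h1⟩
  | succ n ih =>
    have h1 : x ∈ ((GIR_walk u h i n).concat (h (i + n))).support := hx
    rw [Walk.support_concat, List.mem_append, List.mem_singleton] at h1
    rcases h1 with h1 | h1
    · obtain ⟨k, hk, e⟩ := ih h1
      exact ⟨k, by omega, e⟩
    · exact ⟨n + 1, le_rfl, h1⟩

private theorem GIR_path {V : Type} {G : SimpleGraph V} (u : ℕ → V)
    (h : ∀ i, G.Adj (u i) (u (i + 1))) (i n : ℕ)
    (hne : ∀ a b, a < b → b ≤ n → u (i + a) ≠ u (i + b)) : (GIR_walk u h i n).IsPath := by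
  induction n with
  | zero => exact Walk.IsPath.nil
  | succ n ih =>
    show ((GIR_walk u h i n).concat (h (i + n))).IsPath
    rw [Walk.concat_isPath_iff]
    refine ⟨ih fun a b hab hb => hne a b hab (by omega), fun hm => ?_⟩
    obtain ⟨k, hk, e⟩ := GIR_support u h i n _ hm
    exact hne k (n + 1) (by omega) le_rfl e.symm

theorem p_GIR : S_GIR := by
  intro V G g
  constructor
  · intro hg r hr hrg u hper hadj
    by_contra hcon
    push Not at hcon
    have hex : ∃ d, 1 ≤ d ∧ ∃ i, u i = u (i + d) := ⟨r, hr, 0, (hper 0).symm⟩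
    classical
    let d := Nat.find hex
    obtain ⟨hd1, i, hi⟩ : 1 ≤ d ∧ ∃ i, u i = u (i + d) := Nat.find_spec hex
    have hmin : ∀ e, 1 ≤ e → e < d → ∀ j, u j ≠ u (j + e) := by
      intro e he hed j hj
      exact Nat.find_min hex hed ⟨he, j, hj⟩
    have hdr : d ≤ r := Nat.find_min' hex ⟨hr, 0, (hper 0).symm⟩
    have hd_ne1 : d ≠ 1 := by
      intro h1
      rw [h1] at hi
      exact (hadj i).ne hi
    have hd_ne2 : d ≠ 2 := by
      intro h2
      rw [h2] at hi
      exact hcon i hi
    obtain ⟨m, hm⟩ : ∃ m, d = m + 1 := ⟨d - 1, by omega⟩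
    have he : u (i + 1 + m) = u i := by
      rw [hi, hm]
      congr 1
      omega
    have hp : (GIR_walk u hadj (i + 1) m).IsPath := by
      apply GIR_path
      intro a b hab hb heq
      refine hmin (b - a) (by omega) (by omega) (i + 1 + a) ?_
      rw [heq]
      congr 1
      omega
    have hp2 : ((GIR_walk u hadj (i + 1) m).copy rfl he).IsPath :=
      (Walk.isPath_copy _ _ _).2 hp
    have hc : (Walk.cons (hadj i) ((GIR_walk u hadj (i + 1) m).copy rfl he)).IsCycle := by
      rw [Walk.cons_isCycle_iff]
      refine ⟨hp2, fun hmem => ?_⟩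
      rw [Sym2.eq_swap] at hmem
      have h1 := hp2.length_eq_one_of_mem_edges hmem
      rw [Walk.length_copy, GIR_length] at h1
      omega
    have h1 : G.egirth ≤ ((Walk.cons (hadj i)
        ((GIR_walk u hadj (i + 1) m).copy rfl he)).length : ℕ∞) :=
      le_egirth.1 le_rfl _ _ hc
    rw [Walk.length_cons, Walk.length_copy, GIR_length] at h1
    have h2 := lt_of_lt_of_le hg h1
    rw [Nat.cast_lt] at h2
    omega
  · intro h
    by_contra hg
    rw [not_lt] at hg
    have hna : ¬ G.IsAcyclic := by
      intro hac
      rw [egirth_eq_top.2 hac] at hg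
      exact absurd hg (not_le.2 (ENat.natCast_lt_top g))
    obtain ⟨a, w, hw, hlen⟩ := exists_egirth_eq_length.2 hna
    rw [hlen, Nat.cast_le] at hg
    have h3 : 3 ≤ w.length := by
      have h4 := three_le_egirth (G := G)
      rw [hlen] at h4
      exact_mod_cast h4
    have hr : 0 < w.length := by omega
    obtain ⟨i, hi⟩ := h w.length (by omega) hg (fun i => w.getVert (i % w.length))
      (fun i => by simp) (fun i => by
        show G.Adj (w.getVert (i % w.length)) (w.getVert ((i + 1) % w.length))
        have hlt := Nat.mod_lt i hr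
        have hadj := w.adj_getVert_succ hlt
        by_cases hc : i % w.length + 1 < w.length
        · have e : (i + 1) % w.length = i % w.length + 1 := by
            rw [Nat.add_mod, Nat.mod_eq_of_lt (show 1 < w.length by omega), Nat.mod_eq_of_lt hc]
          rw [e]
          exact hadj
        · have e1 : i % w.length + 1 = w.length := by omega
          have e2 : (i + 1) % w.length = 0 := by
            rw [Nat.add_mod, Nat.mod_eq_of_lt (show 1 < w.length by omega), e1, Nat.mod_self]
          rw [e2, Walk.getVert_zero]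
          rw [e1, Walk.getVert_length] at hadj
          exact hadj)
    have hlt := Nat.mod_lt i hr
    have hlt2 := Nat.mod_lt (i + 2) hr
    have e := hw.getVert_injOn' (show i % w.length ∈ {j | j ≤ w.length - 1} by
      show i % w.length ≤ w.length - 1
      omega) (show (i + 2) % w.length ∈ {j | j ≤ w.length - 1} by
      show (i + 2) % w.length ≤ w.length - 1
      omega) hi
    rw [Nat.add_mod, Nat.mod_eq_of_lt (show 2 < w.length by omega)] at e
    by_cases hc : i % w.length + 2 < w.length
    · rw [Nat.mod_eq_of_lt hc] at e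
      omega
    · have e1 : (i % w.length + 2) % w.length = i % w.length + 2 - w.length := by
        rw [Nat.mod_eq_sub_mod (by omega), Nat.mod_eq_of_lt (by omega)]
      rw [e1] at e
      omega

end Pool.Agent.Lib.MP_87d05f_lc.HG
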