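import Pool.Agent.Lib.MP_87d05f_lc.HG.Stm

set_option autoImplicit false

/-!
# MP_87d05f_lc, instances of large girth, piece [HG I1]: large independent sets
-/

namespace Pool.Agent.Lib.MP_87d05f_lc.HG

open Pool.Agent.Lib.MP_87d05f_lc

theorem I1_count {α : Type} (L : List α) (q : α → Bool) (n : ℕ) (p : α) (h : L[n]? = some p)
    (hq : q p = true) : (L.take n).countP q < L.countP q := by
  obtain ⟨hn, rfl⟩ := List.getElem?_eq_some_iff.1 h
  have h1 : L.countP q = (L.take n).countP q + (L.drop n).countP q := by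
    rw [← List.countP_append, List.take_append_drop]
  rw [h1, List.drop_eq_getElem_cons hn, List.countP_cons_of_pos hq]
  omega

theorem I1_cl {N m : ℕ} (z : LocI N × LocI N) : z ∈ clI N m ↔ ∃ (j : Fin N) (l : ℕ), l < m ∧
    (z = (slI j l, sgI j l) ∨ z = (sgI j l, slI j (l + 1))) := by
  simp [clI]

theorem I1_ends {V : Type} (E : List (V × V)) (x : V) :
    x ∈ endsE E ↔ ∃ e ∈ E, x = e.1 ∨ x = e.2 := by
  simp [endsE]

theorem I1_int {V : Type} [DecidableEq V] {D N K : ℕ} (col : V → ℕ) (E : List (V × V))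
    (hcol : ∀ v, col v < 3) (e : (V × LocI N) × (V × LocI N)) :
    e ∈ intE col (CLI N D K) E ↔
      ∃ v ∈ endsE E, ∃ z ∈ clI N (2 * D * K - 1), e = ((v, z.1), (v, z.2)) := by
  have hg : ∀ v, (CLI N D K).getD (col v) [] = clI N (2 * D * K - 1) := fun v => by
    rw [CLI, List.getD_eq_getElem?_getD, List.getElem?_replicate, if_pos (hcol v)]
    rfl
  simp only [intE, List.mem_flatMap, List.mem_map, mem_ded, hg]
  constructor
  · rintro ⟨v, hv, z, hz, rfl⟩
    exact ⟨v, hv, z, hz, rfl⟩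
  · rintro ⟨v, hv, z, hz, rfl⟩
    exact ⟨v, hv, z, hz, rfl⟩

theorem I1_getD {α : Type} (l : List (List α)) (n : ℕ) (x : α) (h : x ∈ l.getD n []) :
    ∃ a ∈ l, x ∈ a := by
  rw [List.getD_eq_getElem?_getD] at h
  rcases hl : l[n]? with _ | a
  · rw [hl] at h
    simp at h
  · rw [hl] at h
    exact ⟨a, List.mem_of_getElem? hl, h⟩

theorem I1_ext {V : Type} [DecidableEq V] {D N K h C g : ℕ}
    (H : Fin D × Fin D → List (Fin 2 → Fin N × Fin 1)) (E : List (V × V)) (hP : Pat h C K g H)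
    (e : (V × LocI N) × (V × LocI N)) (he : e ∈ extE (XLI K H) E) :
    ∃ uv ∈ E, ∃ (i j : Fin N) (s t : ℕ), s < 2 * D * K ∧ t < 2 * D * K ∧
      e = ((uv.1, slI i s), (uv.2, slI j t)) := by
  rw [extE, List.mem_flatMap] at he
  obtain ⟨eq, heq, he⟩ := he
  rw [List.mem_map] at he
  obtain ⟨z, hz, rfl⟩ := he
  rw [List.mem_zipIdx_iff_getElem?] at heq
  have hmem : eq.1 ∈ E := List.mem_of_getElem? heq
  obtain ⟨B, hB, hz⟩ := I1_getD _ _ _ hz
  obtain ⟨A', hA, hB⟩ := I1_getD _ _ _ hB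
  rw [XLI, List.mem_map] at hA
  obtain ⟨r, -, rfl⟩ := hA
  rw [List.mem_map] at hB
  obtain ⟨r', -, rfl⟩ := hB
  rw [lnkI, List.mem_map] at hz
  obtain ⟨pn, hpn, rfl⟩ := hz
  rw [List.mem_zipIdx_iff_getElem?] at hpn
  have hc0 : ((H (r, r')).take pn.2).countP (fun p => decide (p 0 = pn.1 0)) < K :=
    lt_of_lt_of_le (I1_count _ _ _ _ hpn (by simp)) (hP.deg (r, r') 0 (pn.1 0))
  have hc1 : ((H (r, r')).take pn.2).countP (fun p => decide (p 1 = pn.1 1)) < K :=
    lt_of_lt_of_le (I1_count _ _ _ _ hpn (by simp)) (hP.deg (r, r') 1 (pn.1 1))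
  refine ⟨eq.1, hmem, (pn.1 0).1, (pn.1 1).1, _, _, ?_, ?_, rfl⟩
  · have h1 : (r : ℕ) + 1 ≤ D := r.2
    have h2 : ((r : ℕ) + 1) * K ≤ D * K := Nat.mul_le_mul_right K h1
    nlinarith
  · have h1 : (r' : ℕ) + 1 ≤ D := r'.2
    have h2 : ((r' : ℕ) + 1) * K ≤ D * K := Nat.mul_le_mul_right K h1
    nlinarith

/-- the vertices of the paths -/
def I1_T (N M : ℕ) : Finset (LocI N) :=
  ((Finset.univ : Finset (Fin N)) ×ˢ Finset.range (M + 1)).disjSum
    ((Finset.univ : Finset (Fin N)) ×ˢ Finset.range M)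

theorem I1_mem_sl {N M : ℕ} (j : Fin N) (l : ℕ) : slI j l ∈ I1_T N M ↔ l < M + 1 := by
  simp [I1_T, slI]

theorem I1_mem_sg {N M : ℕ} (j : Fin N) (l : ℕ) : sgI j l ∈ I1_T N M ↔ l < M := by
  simp [I1_T, sgI]

theorem I1_verts {V : Type} [DecidableEq V] {D N K h C g : ℕ}
    (H : Fin D × Fin D → List (Fin 2 → Fin N × Fin 1)) (col : V → ℕ) (E : List (V × V))
    (hD : 0 < D) (hK : 0 < K) (hP : Pat h C K g H) (hcol : ∀ v, col v < 3) :
    (endsE (cloudE col (CLI N D K) (XLI K H) E)).toFinset =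
      (endsE E).toFinset ×ˢ I1_T N (2 * D * K - 1) := by
  have hDK : 0 < D * K := Nat.mul_pos hD hK
  have hDK2 : 2 * D * K = 2 * (D * K) := by ring
  ext ⟨v, y⟩
  rw [List.mem_toFinset, Finset.mem_product, List.mem_toFinset, I1_ends]
  constructor
  · rintro ⟨e, he, hv⟩
    rw [cloudE, List.mem_append] at he
    rcases he with he | he
    · rw [I1_int col E hcol] at he
      obtain ⟨v', hv', z, hz, rfl⟩ := he
      obtain ⟨j, l, hl, rfl | rfl⟩ := (I1_cl z).1 hz
      · rcases hv with hv | hv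
        · obtain ⟨rfl, rfl⟩ := Prod.mk.inj hv
          exact ⟨hv', (I1_mem_sl j l).2 (by omega)⟩
        · obtain ⟨rfl, rfl⟩ := Prod.mk.inj hv
          exact ⟨hv', (I1_mem_sg j l).2 hl⟩
      · rcases hv with hv | hv
        · obtain ⟨rfl, rfl⟩ := Prod.mk.inj hv
          exact ⟨hv', (I1_mem_sg j l).2 hl⟩
        · obtain ⟨rfl, rfl⟩ := Prod.mk.inj hv
          exact ⟨hv', (I1_mem_sl j (l + 1)).2 (by omega)⟩
    · obtain ⟨uv, huv, i, j, s, t, hs, ht, rfl⟩ := I1_ext H E hP e he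
      rcases hv with hv | hv
      · obtain ⟨rfl, rfl⟩ := Prod.mk.inj hv
        exact ⟨(I1_ends E _).2 ⟨uv, huv, Or.inl rfl⟩, (I1_mem_sl i s).2 (by omega)⟩
      · obtain ⟨rfl, rfl⟩ := Prod.mk.inj hv
        exact ⟨(I1_ends E _).2 ⟨uv, huv, Or.inr rfl⟩, (I1_mem_sl j t).2 (by omega)⟩
  · rintro ⟨hv, hy⟩
    have key : ∀ z ∈ clI N (2 * D * K - 1), ((v, z.1), (v, z.2)) ∈
        cloudE col (CLI N D K) (XLI K H) E := fun z hz => by
      rw [cloudE, List.mem_append]
      exact Or.inl ((I1_int col E hcol _).2 ⟨v, hv, z, hz, rfl⟩)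
    rcases y with ⟨j, l⟩ | ⟨j, l⟩
    · have hl : l < 2 * D * K - 1 + 1 := (I1_mem_sl j l).1 hy
      by_cases hl2 : l < 2 * D * K - 1
      · exact ⟨_, key _ ((I1_cl _).2 ⟨j, l, hl2, Or.inl rfl⟩), Or.inl rfl⟩
      · refine ⟨_, key _ ((I1_cl _).2 ⟨j, l - 1, by omega, Or.inr rfl⟩), Or.inr ?_⟩
        have : l - 1 + 1 = l := by omega
        simp only [this, slI]
    · have hl : l < 2 * D * K - 1 := (I1_mem_sg j l).1 hy
      exact ⟨_, key _ ((I1_cl _).2 ⟨j, l, hl, Or.inl rfl⟩), Or.inr rfl⟩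

/-- the independent set -/
def I1_a {V : Type} {N : ℕ} (a : V → Bool) (x : V × LocI N) : Bool :=
  Sum.elim (fun _ => a x.1) (fun _ => !(a x.1)) x.2

theorem I1_card {V : Type} [DecidableEq V] {N M : ℕ} (a : V → Bool) (A : Finset V) :
    ((A ×ˢ I1_T N M).filter (fun x => I1_a a x = true)).card =
      N * M * A.card + N * (A.filter (fun v => a v = true)).card := by
  rw [Finset.card_filter, Finset.sum_product]
  have h1 : ∀ v ∈ A, (∑ y ∈ I1_T N M, if I1_a a (v, y) = true then 1 else 0) =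
      N * M + N * (if a v = true then 1 else 0) := by
    intro v _
    rw [I1_T, Finset.sum_disjSum]
    cases hv : a v
    · simp [I1_a, hv]
    · simp [I1_a, hv]
      ring
  have h2 : (∑ v ∈ A, N * (if a v = true then 1 else 0)) =
      N * (A.filter (fun v => a v = true)).card := by
    rw [← Finset.mul_sum, ← Finset.card_filter]
  rw [Finset.sum_congr rfl h1, Finset.sum_add_distrib, h2, Finset.sum_const, smul_eq_mul]
  ring

theorem p_I1 : S_I1 := by
  intro V _ D N K h C g H col E a hD hK hP hcol hE ha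
  refine ⟨I1_a a, ?_, ?_⟩
  · intro e he
    rw [cloudE, List.mem_append] at he
    rcases he with he | he
    · rw [I1_int col E hcol] at he
      obtain ⟨v, hv, z, hz, rfl⟩ := he
      obtain ⟨j, l, hl, rfl | rfl⟩ := (I1_cl z).1 hz
      · simp [I1_a]
      · simp [I1_a]
    · obtain ⟨uv, huv, i, j, s, t, hs, ht, rfl⟩ := I1_ext H E hP e he
      have := ha uv huv
      simpa [I1_a] using this
  · rw [szE, I1_verts H col E hD hK hP hcol, I1_card, nvE, szE]

end Pool.Agent.Lib.MP_87d05f_lc.HG
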