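import Pool.Agent.Lib.MP_87d05f_lc.HG.P_I1

set_option autoImplicit false

/-!
# MP_87d05f_lc, instances of large girth, piece [HG I2]: all independent sets
-/

namespace Pool.Agent.Lib.MP_87d05f_lc.HG

open Pool.Agent.Lib.MP_87d05f_lc

/-- independent sets of a path with `M + 1` slots and `M` other vertices -/
theorem I2_path (s t : ℕ → Bool) (M : ℕ) (h1 : ∀ l < M, ¬ (s l = true ∧ t l = true))
    (h2 : ∀ l < M, ¬ (t l = true ∧ s (l + 1) = true)) :
    (∑ l ∈ Finset.range (M + 1), if s l = true then 1 else 0) +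
      (∑ l ∈ Finset.range M, if t l = true then 1 else 0) ≤
      M + (if ∀ l < M + 1, s l = true then 1 else 0) := by
  induction M with
  | zero =>
    simp only [zero_add, Finset.sum_range_one, Finset.range_zero, Finset.sum_empty, add_zero]
    by_cases h : s 0 = true
    · rw [if_pos h, if_pos (fun l hl => by
        have : l = 0 := by omega
        rw [this]; exact h)]
    · rw [if_neg h]
      exact Nat.zero_le _
  | succ M ih =>
    have ih' := ih (fun l hl => h1 l (by omega)) (fun l hl => h2 l (by omega))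
    rw [Finset.sum_range_succ (fun l => if s l = true then 1 else 0) (M + 1),
      Finset.sum_range_succ (fun l => if t l = true then 1 else 0) M]
    by_cases hall : ∀ l < M + 1, s l = true
    · rw [if_pos hall] at ih'
      have hs : s M = true := hall M (by omega)
      have ht : ¬ t M = true := fun h => h1 M (by omega) ⟨hs, h⟩
      rw [if_neg ht]
      by_cases hs1 : s (M + 1) = true
      · rw [if_pos hs1, if_pos (fun l hl => by
          rcases Nat.lt_succ_iff_lt_or_eq.1 hl with h | h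
          · exact hall l h
          · rw [h]; exact hs1)]
        omega
      · rw [if_neg hs1]
        omega
    · rw [if_neg hall] at ih'
      have h3 := h2 M (by omega)
      have h4 : (if s (M + 1) = true then 1 else 0) + (if t M = true then 1 else 0) ≤ 1 := by
        by_cases ha : s (M + 1) = true
        · have hb : ¬ t M = true := fun h => h3 ⟨h, ha⟩
          rw [if_pos ha, if_neg hb]
        · rw [if_neg ha]
          split_ifs <;> omega
      omega

/-- the indices all of whose slots are in the set -/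
def I2_J {V : Type} {N : ℕ} (M : ℕ) (a' : V × LocI N → Bool) (v : V) : Finset (Fin N) :=
  Finset.univ.filter (fun j => ∀ l < M + 1, a' (v, slI j l) = true)

theorem I2_card {V : Type} [DecidableEq V] {N M : ℕ} (a' : V × LocI N → Bool) (A : Finset V)
    (h1 : ∀ v ∈ A, ∀ j, ∀ l < M, ¬ (a' (v, slI j l) = true ∧ a' (v, sgI j l) = true))
    (h2 : ∀ v ∈ A, ∀ j, ∀ l < M, ¬ (a' (v, sgI j l) = true ∧ a' (v, slI j (l + 1)) = true)) :
    ((A ×ˢ I1_T N M).filter (fun x => a' x = true)).card ≤
      N * M * A.card + ∑ v ∈ A, (I2_J M a' v).card := by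
  rw [Finset.card_filter, Finset.sum_product]
  have h3 : ∀ v ∈ A, (∑ y ∈ I1_T N M, if a' (v, y) = true then 1 else 0) ≤
      N * M + (I2_J M a' v).card := by
    intro v hv
    rw [I1_T, Finset.sum_disjSum, Finset.sum_product, Finset.sum_product,
      ← Finset.sum_add_distrib, I2_J, Finset.card_filter]
    have h4 : N * M = ∑ _j : Fin N, M := by
      rw [Finset.sum_const, Finset.card_univ, Fintype.card_fin, smul_eq_mul]
    rw [h4, ← Finset.sum_add_distrib]
    refine Finset.sum_le_sum fun j _ => ?_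
    exact I2_path (fun l => a' (v, slI j l)) (fun l => a' (v, sgI j l)) M
      (fun l hl => h1 v hv j l hl) (fun l hl => h2 v hv j l hl)
  calc (∑ v ∈ A, ∑ y ∈ I1_T N M, if a' (v, y) = true then 1 else 0)
      ≤ ∑ v ∈ A, (N * M + (I2_J M a' v).card) := Finset.sum_le_sum h3
    _ = N * M * A.card + ∑ v ∈ A, (I2_J M a' v).card := by
      rw [Finset.sum_add_distrib, Finset.sum_const, smul_eq_mul, mul_comm A.card]

/-- the ranks are less than the degree -/
theorem I2_rank {V : Type} [DecidableEq V] {D : ℕ} {E : List (V × V)} (hE : SimpD D E) {q : ℕ}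
    {e : V × V} (hq : E[q]? = some e) (x : V) (hx : x = e.1 ∨ x = e.2) :
    rkE (E.take q) x < D := by
  obtain ⟨hn, rfl⟩ := List.getElem?_eq_some_iff.1 hq
  refine lt_of_lt_of_le ?_ (hE.2.2 x)
  have h1 : endsE E = endsE (E.take q) ++ (endsE [E[q]] ++ endsE (E.drop (q + 1))) := by
    rw [endsE, endsE, endsE, endsE, ← List.flatMap_append, ← List.flatMap_append,
      List.singleton_append, ← List.drop_eq_getElem_cons hn, List.take_append_drop]
  have h2 : 0 < (endsE [E[q]]).count x := by
    rw [List.count_pos_iff]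
    rcases hx with rfl | rfl <;> simp [endsE]
  rw [h1, List.count_append, List.count_append, rkE]
  omega

theorem I2_fin {D i : ℕ} (h : i < D) : (List.finRange D)[i]? = some ⟨i, h⟩ := by
  rw [List.getElem?_eq_getElem (by simpa using h)]
  simp

/-- the edges between the clouds of adjacent vertices -/
theorem I2_ext {V : Type} [DecidableEq V] {D N K : ℕ}
    (H : Fin D × Fin D → List (Fin 2 → Fin N × Fin 1)) (E : List (V × V)) {q : ℕ} {e : V × V}
    (hq : E[q]? = some e) (hr : rkE (E.take q) e.1 < D) (hr' : rkE (E.take q) e.2 < D)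
    (z : LocI N × LocI N)
    (hz : z ∈ lnkI D K (rkE (E.take q) e.1) (rkE (E.take q) e.2) (H (⟨_, hr⟩, ⟨_, hr'⟩))) :
    ((e.1, z.1), (e.2, z.2)) ∈ extE (XLI K H) E := by
  rw [extE, List.mem_flatMap]
  refine ⟨(e, q), List.mem_zipIdx_iff_getElem?.2 hq, ?_⟩
  rw [List.mem_map]
  refine ⟨z, ?_, rfl⟩
  have h1 : (XLI K H).getD (rkE (E.take q) e.1) [] = (List.finRange D).map (fun r' : Fin D =>
      lnkI D K (rkE (E.take q) e.1) (r' : ℕ) (H (⟨_, hr⟩, r'))) := by
    rw [XLI, List.getD_eq_getElem?_getD, List.getElem?_map, I2_fin hr]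
    rfl
  show z ∈ ((XLI K H).getD (rkE (E.take q) e.1) []).getD (rkE (E.take q) e.2) []
  rw [h1, List.getD_eq_getElem?_getD, List.getElem?_map, I2_fin hr']
  exact hz

theorem I2_key {V : Type} [DecidableEq V] {D N K h₁ C g : ℕ}
    (H : Fin D × Fin D → List (Fin 2 → Fin N × Fin 1)) (col : V → ℕ) (E : List (V × V))
    (a' : V × LocI N → Bool) (hN : 0 < N) (hC : 0 < C) (hh : 0 < h₁) (hP : Pat (h₁ ^ 2) C K g H)
    (hE : SimpD D E) (ha : IndE a' (cloudE col (CLI N D K) (XLI K H) E)) (e : V × V)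
    (he : e ∈ E) : h₁ ^ 2 * ((I2_J (2 * D * K - 1) a' e.1).card *
      (I2_J (2 * D * K - 1) a' e.2).card) ≤ N ^ 2 := by
  obtain ⟨q, hq⟩ := List.mem_iff_getElem?.1 he
  have hr := I2_rank hE hq e.1 (Or.inl rfl)
  have hr' := I2_rank hE hq e.2 (Or.inr rfl)
  set L := H (⟨_, hr⟩, ⟨_, hr'⟩) with hL
  set J₀ := I2_J (2 * D * K - 1) a' e.1 with hJ₀
  set J₁ := I2_J (2 * D * K - 1) a' e.2 with hJ₁
  let S : Fin 2 → Finset (Fin N × Fin 1) := ![J₀ ×ˢ Finset.univ, J₁ ×ˢ Finset.univ]
  have hmix := hP.mix (⟨_, hr⟩, ⟨_, hr'⟩) S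
  have hzero : L.countP (fun p => decide (∀ a, p a ∈ S a)) = 0 := by
    rw [List.countP_eq_zero]
    intro p hp hpS
    have hpS' : ∀ a, p a ∈ S a := by simpa using hpS
    obtain ⟨n, hn⟩ := List.mem_iff_getElem?.1 hp
    have h0 : (p 0).1 ∈ J₀ := by
      have h2 : p 0 ∈ J₀ ×ˢ (Finset.univ : Finset (Fin 1)) := hpS' 0
      exact (Finset.mem_product.1 h2).1
    have h1 : (p 1).1 ∈ J₁ := by
      have h2 : p 1 ∈ J₁ ×ˢ (Finset.univ : Finset (Fin 1)) := hpS' 1
      exact (Finset.mem_product.1 h2).1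
    have hc0 : (L.take n).countP (fun p' => decide (p' 0 = p 0)) < K :=
      lt_of_lt_of_le (I1_count _ _ _ _ hn (by simp)) (hP.deg _ 0 (p 0))
    have hc1 : (L.take n).countP (fun p' => decide (p' 1 = p 1)) < K :=
      lt_of_lt_of_le (I1_count _ _ _ _ hn (by simp)) (hP.deg _ 1 (p 1))
    have hz := I2_ext (K := K) H E hq hr hr' (slI (p 0).1 (rkE (E.take q) e.1 * K +
        (L.take n).countP (fun p' => decide (p' 0 = p 0))),
      slI (p 1).1 ((D + rkE (E.take q) e.2) * K +
        (L.take n).countP (fun p' => decide (p' 1 = p 1)))) (by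
      rw [lnkI, List.mem_map]
      exact ⟨(p, n), List.mem_zipIdx_iff_getElem?.2 hn, rfl⟩)
    have hcl := List.mem_append_right (intE col (CLI N D K) E) hz
    refine ha _ hcl ⟨?_, ?_⟩
    · rw [hJ₀, I2_J, Finset.mem_filter] at h0
      refine h0.2 _ ?_
      have h3 : (rkE (E.take q) e.1 + 1) * K ≤ D * K := Nat.mul_le_mul_right K hr
      have h4 : 2 * D * K = D * K + D * K := by ring
      have h5 : (rkE (E.take q) e.1 + 1) * K = rkE (E.take q) e.1 * K + K := by ring
      omega
    · rw [hJ₁, I2_J, Finset.mem_filter] at h1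
      refine h1.2 _ ?_
      have h3 : (rkE (E.take q) e.2 + 1) * K ≤ D * K := Nat.mul_le_mul_right K hr'
      have h4 : 2 * D * K = D * K + D * K := by ring
      have h5 : (D + rkE (E.take q) e.2) * K + K = D * K + (rkE (E.take q) e.2 + 1) * K := by ring
      omega
  rw [hzero] at hmix
  have hS0 : (S 0).card = J₀.card := by
    simp [S, Finset.card_product]
  have hS1 : (S 1).card = J₁.card := by
    simp [S, Finset.card_product]
  rw [Fin.prod_univ_two, hS0, hS1] at hmix
  have hCN : (0 : ℚ) < ((C * (N * 1) : ℕ) : ℚ) := by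
    have : 0 < C * (N * 1) := by positivity
    exact_mod_cast this
  have hle : (J₀.card : ℚ) / ((N * 1 : ℕ) : ℚ) * ((J₁.card : ℚ) / ((N * 1 : ℕ) : ℚ)) -
      1 / ((h₁ ^ 2 : ℕ) : ℚ) ≤ 0 := by
    by_contra hcon
    push Not at hcon
    have := mul_pos hCN hcon
    simp only [Nat.cast_zero] at hmix
    exact absurd hmix (not_le.2 this)
  have hNq : (0 : ℚ) < (N : ℚ) := by exact_mod_cast hN
  have hhq : (0 : ℚ) < (h₁ : ℚ) := by exact_mod_cast hh
  have h6 : ((h₁ : ℚ) ^ 2) * ((J₀.card : ℚ) * (J₁.card : ℚ)) ≤ (N : ℚ) ^ 2 := by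
    have h7 : (J₀.card : ℚ) / (N : ℚ) * ((J₁.card : ℚ) / (N : ℚ)) ≤ 1 / (h₁ : ℚ) ^ 2 := by
      have := hle
      simp only [mul_one, Nat.cast_pow] at this
      linarith
    rw [div_mul_div_comm, div_le_div_iff₀ (by positivity) (by positivity)] at h7
    nlinarith
  exact_mod_cast h6

theorem p_I2 : S_I2 := by
  intro V _ D N K h₁ C g H col E a' hD hK hN hC hh hP hcol hE ha
  set M := 2 * D * K - 1 with hM
  refine ⟨fun v => decide (N < h₁ * (I2_J M a' v).card), ?_, ?_⟩
  · intro e he ⟨h1, h2⟩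
    have h1' : N < h₁ * (I2_J M a' e.1).card := by simpa using h1
    have h2' : N < h₁ * (I2_J M a' e.2).card := by simpa using h2
    have h3 := I2_key H col E a' hN hC hh hP hE ha e he
    rw [← hM] at h3
    have h4 : N * N < (h₁ * (I2_J M a' e.1).card) * (h₁ * (I2_J M a' e.2).card) :=
      Nat.mul_lt_mul'' h1' h2'
    have h5 : (h₁ * (I2_J M a' e.1).card) * (h₁ * (I2_J M a' e.2).card) =
      h₁ ^ 2 * ((I2_J M a' e.1).card * (I2_J M a' e.2).card) := by ring
    have h6 : N * N = N ^ 2 := by ring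
    omega
  · have hint : ∀ v ∈ (endsE E).toFinset, ∀ z ∈ clI N M, ((v, z.1), (v, z.2)) ∈
        cloudE col (CLI N D K) (XLI K H) E := fun v hv z hz => by
      rw [cloudE, List.mem_append]
      exact Or.inl ((I1_int col E hcol _).2 ⟨v, List.mem_toFinset.1 hv, z, hz, rfl⟩)
    have h1 := I2_card (M := M) a' (endsE E).toFinset
      (fun v hv j l hl h => ha _ (hint v hv _ ((I1_cl _).2 ⟨j, l, hl, Or.inl rfl⟩)) h)
      (fun v hv j l hl h => ha _ (hint v hv _ ((I1_cl _).2 ⟨j, l, hl, Or.inr rfl⟩)) h)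
    rw [szE, I1_verts H col E hD hK hP hcol, ← hM]
    have h2 : h₁ * ∑ v ∈ (endsE E).toFinset, (I2_J M a' v).card ≤
        h₁ * (N * szE (fun v => decide (N < h₁ * (I2_J M a' v).card)) E) + N * nvE E := by
      rw [szE, nvE, Finset.card_filter, Finset.mul_sum, Finset.mul_sum, Finset.mul_sum,
        Finset.card_eq_sum_ones, Finset.mul_sum, ← Finset.sum_add_distrib]
      refine Finset.sum_le_sum fun v _ => ?_
      by_cases hv : N < h₁ * (I2_J M a' v).card
      · rw [if_pos (by simpa using hv)]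
        have h3 : (I2_J M a' v).card ≤ N := by
          have := Finset.card_le_univ (I2_J M a' v)
          rwa [Fintype.card_fin] at this
        have h5 := Nat.mul_le_mul_left h₁ h3
        calc h₁ * (I2_J M a' v).card ≤ h₁ * N := h5
          _ ≤ h₁ * (N * 1) + N * 1 := by
            rw [mul_one]
            exact Nat.le_add_right _ _
      · rw [if_neg (by simpa using hv)]
        omega
    have h3 := Nat.mul_le_mul_left h₁ h1
    have h4 : nvE E = (endsE E).toFinset.card := rfl
    rw [h4] at h2 ⊢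
    calc _ ≤ _ := h3
      _ ≤ _ := by
        rw [Nat.mul_add, Nat.mul_add]
        omega

end Pool.Agent.Lib.MP_87d05f_lc.HG
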