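import Pool.Agent.Lib.MP_87d05f_lc.HG.Stm

set_option autoImplicit false

/-!
# HG, piece I3: the graph of clouds is simple and has maximum degree at most three
-/

namespace Pool.Agent.Lib.MP_87d05f_lc.HG

open Pool.Agent.Lib.MP_87d05f_lc

/-! ### Ranks -/

theorem I3_take {A : Type} (L : List A) (i j : ℕ) (hij : i < j) (hi : i < L.length)
    (q : A → Bool) (hq : q L[i] = true) : (L.take i).countP q < (L.take j).countP q := by
  have h1 : (L.take (i + 1)).countP q = (L.take i).countP q + 1 := by
    rw [List.take_succ_eq_append_getElem hi, List.countP_append]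
    simp [hq]
  have h2 : (L.take (i + 1)).countP q ≤ (L.take j).countP q :=
    (List.take_sublist_take_left (by omega)).countP_le
  omega

theorem I3_lt {A : Type} (L : List A) (pn : A × ℕ) (h : pn ∈ L.zipIdx) (q : A → Bool)
    (hq : q pn.1 = true) (K : ℕ) (hK : L.countP q ≤ K) : (L.take pn.2).countP q < K := by
  obtain ⟨p, n⟩ := pn
  obtain ⟨hn, hp⟩ := List.mem_zipIdx' h
  simp only at hq
  rw [hp] at hq
  have h1 : (L.take (n + 1)).countP q = (L.take n).countP q + 1 := by
    rw [List.take_succ_eq_append_getElem hn, List.countP_append]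
    simp [hq]
  have h2 : (L.take (n + 1)).countP q ≤ L.countP q := (List.take_sublist _ _).countP_le
  simp only
  omega

theorem I3_pw {A : Type} (L : List A) : L.zipIdx.Pairwise (fun x y => ∀ q : A → Bool,
    q x.1 = true → (L.take x.2).countP q < (L.take y.2).countP q) := by
  rw [List.pairwise_iff_getElem]
  intro i j hi hj hij q hq
  rw [List.length_zipIdx] at hi hj
  simp only [List.getElem_zipIdx, Nat.zero_add] at hq ⊢
  exact I3_take L i j hij hi q hq

section ranks
variable {V : Type} [DecidableEq V]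

theorem I3_endsE_append {T : Type} (E F : List (T × T)) : endsE (E ++ F) = endsE E ++ endsE F := by
  unfold endsE
  rw [List.flatMap_append]

theorem I3_rk_succ (E : List (V × V)) (i : ℕ) (hi : i < E.length) (v : V)
    (hv : v = E[i].1 ∨ v = E[i].2) : rkE (E.take i) v + 1 ≤ rkE (E.take (i + 1)) v := by
  unfold rkE
  rw [List.take_succ_eq_append_getElem hi, I3_endsE_append, List.count_append]
  have : 0 < (endsE [E[i]]).count v := by
    rw [List.count_pos_iff]
    unfold endsE
    simp only [List.flatMap_cons, List.flatMap_nil, List.append_nil, List.mem_cons,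
      List.not_mem_nil, or_false]
    exact hv
  omega

theorem I3_rk_mono (E : List (V × V)) (i j : ℕ) (hij : i ≤ j) (v : V) :
    rkE (E.take i) v ≤ rkE (E.take j) v := by
  unfold rkE
  obtain ⟨t, ht⟩ := List.take_prefix_take_left (l := E) hij
  rw [← ht, I3_endsE_append, List.count_append]
  omega

theorem I3_rk_lt (E : List (V × V)) (D : ℕ) (hD : ∀ v, (endsE E).count v ≤ D) (eq : (V × V) × ℕ)
    (h : eq ∈ E.zipIdx) (v : V) (hv : v = eq.1.1 ∨ v = eq.1.2) : rkE (E.take eq.2) v < D := by
  obtain ⟨e, n⟩ := eq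
  obtain ⟨hn, hp⟩ := List.mem_zipIdx' h
  simp only at hv
  rw [hp] at hv
  have h1 := I3_rk_succ E n hn v hv
  have h2 := I3_rk_mono E (n + 1) E.length (by omega) v
  rw [List.take_length] at h2
  have h3 : rkE E v ≤ D := hD v
  simp only
  omega

theorem I3_rk_pw (E : List (V × V)) : E.zipIdx.Pairwise (fun x y => ∀ v : V,
    (v = x.1.1 ∨ v = x.1.2) → rkE (E.take x.2) v < rkE (E.take y.2) v) := by
  rw [List.pairwise_iff_getElem]
  intro i j hi hj hij v hv
  rw [List.length_zipIdx] at hi hj
  simp only [List.getElem_zipIdx, Nat.zero_add] at hv ⊢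
  have h1 := I3_rk_succ E i hi v hv
  have h2 := I3_rk_mono E (i + 1) j (by omega) v
  omega

end ranks

/-! ### The ends of the edges between the clouds -/

section ext
variable {V : Type} {N : ℕ}

/-- the ends of the edges between two clouds -/
def I3_end (D K r r' : ℕ) (u w : V) (L : List (Fin 2 → Fin N × Fin 1)) : List (V × LocI N) :=
  L.zipIdx.flatMap (fun pn =>
    [(u, slI (pn.1 0).1 (r * K + (L.take pn.2).countP (fun p => decide (p 0 = pn.1 0)))),
     (w, slI (pn.1 1).1 ((D + r') * K + (L.take pn.2).countP (fun p => decide (p 1 = pn.1 1))))])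

theorem I3_end_eq (D K r r' : ℕ) (u w : V) (L : List (Fin 2 → Fin N × Fin 1)) :
    endsE ((lnkI D K r r' L).map (fun z => ((u, z.1), (w, z.2)))) = I3_end D K r r' u w L := by
  unfold endsE lnkI I3_end
  rw [List.map_map, List.flatMap_map]
  rfl

theorem I3_end_mem (D K r r' : ℕ) (u w : V) (L : List (Fin 2 → Fin N × Fin 1))
    (hdeg : ∀ a x, L.countP (fun p => decide (p a = x)) ≤ K) (x : V × LocI N)
    (hx : x ∈ I3_end D K r r' u w L) :
    (∃ (j : Fin N) (c : ℕ), c < K ∧ x = (u, slI j (r * K + c))) ∨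
      (∃ (j : Fin N) (c : ℕ), c < K ∧ x = (w, slI j ((D + r') * K + c))) := by
  unfold I3_end at hx
  rw [List.mem_flatMap] at hx
  obtain ⟨pn, hpn, hx⟩ := hx
  simp only [List.mem_cons, List.not_mem_nil, or_false] at hx
  rcases hx with rfl | rfl
  · left
    exact ⟨_, _, I3_lt L pn hpn _ (by simp) K (hdeg 0 _), rfl⟩
  · right
    exact ⟨_, _, I3_lt L pn hpn _ (by simp) K (hdeg 1 _), rfl⟩

theorem I3_slI {j j' : Fin N} {l l' : ℕ} {u u' : V} (h : (u, slI j l) = (u', slI j' l')) :
    u = u' ∧ j = j' ∧ l = l' := by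
  rw [Prod.mk.injEq] at h
  obtain ⟨h1, h2⟩ := h
  have h3 := Sum.inl_injective h2
  rw [Prod.mk.injEq] at h3
  exact ⟨h1, h3.1, h3.2⟩

theorem I3_end_nodup (D K r r' : ℕ) (u w : V) (huw : u ≠ w) (L : List (Fin 2 → Fin N × Fin 1)) :
    (I3_end D K r r' u w L).Nodup := by
  unfold I3_end
  rw [List.nodup_flatMap]
  constructor
  · intro pn _
    rw [List.nodup_cons]
    refine ⟨?_, List.nodup_singleton _⟩
    rw [List.mem_singleton]
    intro h
    exact huw (I3_slI h).1
  · refine (I3_pw L).imp ?_
    intro x y hxy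
    rw [Function.onFun, List.disjoint_left]
    intro z hz1 hz2
    simp only [List.mem_cons, List.not_mem_nil, or_false] at hz1 hz2
    rcases hz1 with rfl | rfl <;> rcases hz2 with h | h
    · obtain ⟨-, h2, h3⟩ := I3_slI h
      have h4 : x.1 0 = y.1 0 := Prod.ext h2 (Subsingleton.elim _ _)
      have h5 := hxy (fun p => decide (p 0 = x.1 0)) (by simp)
      rw [h4] at h3 h5
      omega
    · exact huw (I3_slI h).1
    · exact huw (I3_slI h).1.symm
    · obtain ⟨-, h2, h3⟩ := I3_slI h
      have h4 : x.1 1 = y.1 1 := Prod.ext h2 (Subsingleton.elim _ _)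
      have h5 := hxy (fun p => decide (p 1 = x.1 1)) (by simp)
      rw [h4] at h3 h5
      omega

end ext

theorem I3_getD {A : Type} {D : ℕ} (f : Fin D → A) (d : A) (r : ℕ) (hr : r < D) :
    ((List.finRange D).map f).getD r d = f ⟨r, hr⟩ := by
  rw [List.getD_eq_getElem _ _ (by simpa using hr)]
  simp

section ext2
variable {V : Type} [DecidableEq V] {N D : ℕ}

/-- the list of the edges between the clouds given by one edge -/
def I3_M (K : ℕ) (H : Fin D × Fin D → List (Fin 2 → Fin N × Fin 1)) (E : List (V × V))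
    (eq : (V × V) × ℕ) : List ((V × LocI N) × (V × LocI N)) :=
  (((XLI K H).getD (rkE (E.take eq.2) eq.1.1) []).getD (rkE (E.take eq.2) eq.1.2) []).map
    (fun z => ((eq.1.1, z.1), (eq.1.2, z.2)))

theorem I3_M_eq (K : ℕ) (H : Fin D × Fin D → List (Fin 2 → Fin N × Fin 1)) (E : List (V × V))
    (hD : ∀ v, (endsE E).count v ≤ D) (eq : (V × V) × ℕ) (h : eq ∈ E.zipIdx) :
    ∃ (h1 : rkE (E.take eq.2) eq.1.1 < D) (h2 : rkE (E.take eq.2) eq.1.2 < D),
      I3_M K H E eq = (lnkI D K (rkE (E.take eq.2) eq.1.1) (rkE (E.take eq.2) eq.1.2)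
        (H (⟨_, h1⟩, ⟨_, h2⟩))).map (fun z => ((eq.1.1, z.1), (eq.1.2, z.2))) := by
  have h1 := I3_rk_lt E D hD eq h eq.1.1 (Or.inl rfl)
  have h2 := I3_rk_lt E D hD eq h eq.1.2 (Or.inr rfl)
  refine ⟨h1, h2, ?_⟩
  unfold I3_M XLI
  rw [I3_getD _ _ _ h1, I3_getD _ _ _ h2]

theorem I3_ext_nodup (K : ℕ) (H : Fin D × Fin D → List (Fin 2 → Fin N × Fin 1))
    (hdeg : ∀ τ a x, (H τ).countP (fun p => decide (p a = x)) ≤ K)
    (E : List (V × V)) (hE : SimpD D E) : (endsE (extE (XLI K H) E)).Nodup := by
  obtain ⟨hl, -, hD⟩ := hE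
  have e : endsE (extE (XLI K H) E) = E.zipIdx.flatMap (fun eq => endsE (I3_M K H E eq)) := by
    unfold extE
    rw [endsE, List.flatMap_assoc]
    rfl
  rw [e, List.nodup_flatMap]
  constructor
  · intro eq heq
    obtain ⟨h1, h2, h3⟩ := I3_M_eq K H E hD eq heq
    rw [h3, I3_end_eq]
    apply I3_end_nodup
    have h4 : eq.1 ∈ E := List.fst_mem_of_mem_zipIdx heq
    exact hl eq.1 h4
  · refine List.Pairwise.imp_of_mem ?_ (I3_rk_pw E)
    intro x y hx hy hxy
    rw [Function.onFun, List.disjoint_left]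
    intro z hz1 hz2
    obtain ⟨h1, h2, h3⟩ := I3_M_eq K H E hD x hx
    obtain ⟨h1', h2', h3'⟩ := I3_M_eq K H E hD y hy
    rw [h3, I3_end_eq] at hz1
    rw [h3', I3_end_eq] at hz2
    have m1 := I3_end_mem _ _ _ _ _ _ _ (hdeg _) z hz1
    have m2 := I3_end_mem _ _ _ _ _ _ _ (hdeg _) z hz2
    have key : ∀ a b c d : ℕ, c < K → d < K → a * K + c = b * K + d → a < b → False := by
      intro a b c d hc hd h hab
      have : (a + 1) * K ≤ b * K := Nat.mul_le_mul_right K hab
      rw [add_mul, one_mul] at this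
      omega
    rcases m1 with ⟨j, c, hc, rfl⟩ | ⟨j, c, hc, rfl⟩ <;>
      rcases m2 with ⟨j', c', hc', h⟩ | ⟨j', c', hc', h⟩
    · obtain ⟨e1, -, e3⟩ := I3_slI h
      have h5 := hxy x.1.1 (Or.inl rfl)
      rw [← e1] at e3
      exact key _ _ _ _ hc hc' e3 h5
    · obtain ⟨e1, -, e3⟩ := I3_slI h
      exact key _ _ _ _ hc hc' e3 (by omega)
    · obtain ⟨e1, -, e3⟩ := I3_slI h
      exact key _ _ _ _ hc' hc e3.symm (by omega)
    · obtain ⟨e1, -, e3⟩ := I3_slI h
      have h5 := hxy x.1.2 (Or.inr rfl)
      rw [← e1] at e3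
      exact key _ _ _ _ hc hc' e3 (by omega)

theorem I3_ext_slot (K : ℕ) (H : Fin D × Fin D → List (Fin 2 → Fin N × Fin 1))
    (E : List (V × V)) (hE : SimpD D E) (f : (V × LocI N) × (V × LocI N))
    (hf : f ∈ extE (XLI K H) E) : (∃ u j l, f.1 = (u, slI j l)) ∧ (∃ u j l, f.2 = (u, slI j l)) := by
  unfold extE at hf
  rw [List.mem_flatMap] at hf
  obtain ⟨eq, heq, hf⟩ := hf
  obtain ⟨h1, h2, h3⟩ := I3_M_eq K H E hE.2.2 eq heq
  unfold I3_M at h3
  rw [h3, List.mem_map] at hf
  obtain ⟨z, hz, rfl⟩ := hf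
  unfold lnkI at hz
  rw [List.mem_map] at hz
  obtain ⟨pn, -, rfl⟩ := hz
  exact ⟨⟨_, _, _, rfl⟩, ⟨_, _, _, rfl⟩⟩

end ext2

/-! ### Counting -/

section cnt
variable {T : Type} [DecidableEq T]

/-- the number of occurrences -/
def I3_c (x : T) (l : List T) : ℕ := l.count x

theorem I3_c_append (x : T) (l l' : List T) : I3_c x (l ++ l') = I3_c x l + I3_c x l' := by
  unfold I3_c
  rw [List.count_append]

theorem I3_c_cons (x a : T) (l : List T) : I3_c x (a :: l) = I3_c x l + if a = x then 1 else 0 := by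
  unfold I3_c
  rw [List.count_cons]
  simp only [beq_iff_eq]

theorem I3_c_nil (x : T) : I3_c x [] = 0 := rfl

theorem I3_c_zero (x : T) (l : List T) : I3_c x l = 0 ↔ x ∉ l := by
  unfold I3_c
  rw [List.count_eq_zero]

theorem I3_c_nodup (x : T) (l : List T) (h : l.Nodup) : I3_c x l ≤ 1 :=
  List.nodup_iff_count_le_one.1 h x

theorem I3_c_map {S : Type} [DecidableEq S] (f : T → S) (hf : Function.Injective f) (x : T)
    (l : List T) : I3_c (f x) (l.map f) = I3_c x l :=
  List.count_map_of_injective _ _ hf _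

theorem I3_sum {A : Type} (l : List A) (hl : l.Nodup) (g : A → List T) (b : T)
    (a₀ : A) (k : ℕ) (h1 : ∀ a ∈ l, a ≠ a₀ → I3_c b (g a) = 0) (h2 : I3_c b (g a₀) ≤ k) :
    I3_c b (l.flatMap g) ≤ k := by
  classical
  induction l with
  | nil => exact Nat.zero_le _
  | cons a l ih =>
    rw [List.nodup_cons] at hl
    rw [List.flatMap_cons, I3_c_append]
    by_cases h : a = a₀
    · subst h
      have h3 : I3_c b (l.flatMap g) = 0 := by
        rw [I3_c_zero]
        intro hb
        rw [List.mem_flatMap] at hb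
        obtain ⟨a', ha', hb⟩ := hb
        have h4 := h1 a' (List.mem_cons_of_mem _ ha') (by
          rintro rfl
          exact hl.1 ha')
        rw [I3_c_zero] at h4
        exact h4 hb
      omega
    · have h3 := h1 a List.mem_cons_self h
      have h4 := ih hl.2 (fun a' ha' => h1 a' (List.mem_cons_of_mem _ ha'))
      omega

end cnt

/-! ### The paths inside the clouds -/

/-- one path -/
def I3_P {N : ℕ} (j : Fin N) (m : ℕ) : List (LocI N × LocI N) :=
  (List.range m).flatMap (fun l => [(slI j l, sgI j l), (sgI j l, slI j (l + 1))])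

theorem I3_P_succ {N : ℕ} (j : Fin N) (m : ℕ) :
    I3_P j (m + 1) = I3_P j m ++ [(slI j m, sgI j m), (sgI j m, slI j (m + 1))] := by
  unfold I3_P
  rw [List.range_succ, List.flatMap_append]
  simp

theorem I3_P_cnt {N : ℕ} (j j' : Fin N) (m l : ℕ) :
    I3_c (slI j' l) (endsE (I3_P j m)) =
      (if j' = j then ((if l < m then 1 else 0) + (if 1 ≤ l ∧ l ≤ m then 1 else 0)) else 0) ∧
    I3_c (sgI j' l) (endsE (I3_P j m)) = (if j' = j then (if l < m then 2 else 0) else 0) := by
  induction m with
  | zero =>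
    have e : endsE (I3_P j 0) = [] := rfl
    rw [e, I3_c_nil, I3_c_nil]
    constructor
    · split_ifs <;> omega
    · split_ifs <;> omega
  | succ m ih =>
    obtain ⟨ih1, ih2⟩ := ih
    have e : endsE (I3_P j (m + 1)) = endsE (I3_P j m) ++
        [slI j m, sgI j m, sgI j m, slI j (m + 1)] := by
      rw [I3_P_succ, I3_endsE_append]
      rfl
    rw [e, I3_c_append, I3_c_append, ih1, ih2]
    have s1 : ∀ l' : ℕ, (slI j l' = slI j' l) ↔ (j' = j ∧ l = l') := by
      intro l'
      constructor
      · intro h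
        have h3 := Sum.inl_injective h
        rw [Prod.mk.injEq] at h3
        exact ⟨h3.1.symm, h3.2.symm⟩
      · rintro ⟨rfl, rfl⟩
        rfl
    have s2 : ∀ l' : ℕ, (sgI j l' = sgI j' l) ↔ (j' = j ∧ l = l') := by
      intro l'
      constructor
      · intro h
        have h3 := Sum.inr_injective h
        rw [Prod.mk.injEq] at h3
        exact ⟨h3.1.symm, h3.2.symm⟩
      · rintro ⟨rfl, rfl⟩
        rfl
    have s3 : ∀ l' : ℕ, ¬ (sgI j l' = slI j' l) := by
      intro l' h
      cases h
    have s4 : ∀ l' : ℕ, ¬ (slI j l' = sgI j' l) := by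
      intro l' h
      cases h
    constructor
    · simp only [I3_c_cons, I3_c_nil, s1, s3]
      by_cases hj : j' = j
      · simp only [hj, true_and, if_true, if_false]
        split_ifs <;> omega
      · simp [hj]
    · simp only [I3_c_cons, I3_c_nil, s2, s4]
      by_cases hj : j' = j
      · simp only [hj, true_and, if_true, if_false]
        split_ifs <;> omega
      · simp [hj]

theorem I3_cl_cnt {N : ℕ} (m : ℕ) (x : LocI N) : I3_c x (endsE (clI N m)) ≤ 2 := by
  have e : endsE (clI N m) = (List.finRange N).flatMap (fun j => endsE (I3_P j m)) := by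
    unfold clI
    rw [endsE, List.flatMap_assoc]
    rfl
  rw [e]
  rcases x with ⟨j, l⟩ | ⟨j, l⟩
  · apply I3_sum _ (List.nodup_finRange N) _ _ j
    · intro a _ ha
      rw [(I3_P_cnt a j m l).1, if_neg (Ne.symm ha)]
    · rw [(I3_P_cnt j j m l).1, if_pos rfl]
      split_ifs <;> omega
  · apply I3_sum _ (List.nodup_finRange N) _ _ j
    · intro a _ ha
      rw [(I3_P_cnt a j m l).2, if_neg (Ne.symm ha)]
    · rw [(I3_P_cnt j j m l).2, if_pos rfl]
      split_ifs <;> omega

/-- an edge of the clouds has the form (slot, middle) or (middle, slot) -/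
def I3_frm {N : ℕ} (j : Fin N) (l : ℕ) (z : LocI N × LocI N) : Prop :=
  z = (slI j l, sgI j l) ∨ z = (sgI j l, slI j (l + 1))

theorem I3_frm_ne {N : ℕ} {j j' : Fin N} {l l' : ℕ} (h : (j, l) ≠ (j', l'))
    {z z' : LocI N × LocI N} (hz : I3_frm j l z) (hz' : I3_frm j' l' z') :
    z ≠ z' ∧ z ≠ (z'.2, z'.1) := by
  have s1 : ∀ a b : ℕ, sgI j a = sgI j' b → (j, a) = (j', b) := by
    intro a b h
    exact Sum.inr_injective h
  rcases hz with rfl | rfl <;> rcases hz' with rfl | rfl
  all_goals
    constructor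
    · intro h1
      rw [Prod.mk.injEq] at h1
      first
        | exact h (s1 _ _ h1.1)
        | exact h (s1 _ _ h1.2)
        | cases h1.1
    · intro h1
      rw [Prod.mk.injEq] at h1
      first
        | exact h (s1 _ _ h1.1)
        | exact h (s1 _ _ h1.2)
        | cases h1.1

theorem I3_cl_pw (N m : ℕ) : (clI N m).Pairwise (fun e f => e ≠ f ∧ e ≠ (f.2, f.1)) := by
  unfold clI
  rw [List.pairwise_flatMap]
  constructor
  · intro j _
    rw [List.pairwise_flatMap]
    constructor
    · intro l _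
      rw [List.pairwise_cons]
      refine ⟨?_, List.pairwise_singleton _ _⟩
      intro z hz
      rw [List.mem_singleton] at hz
      subst hz
      constructor
      · intro h
        rw [Prod.mk.injEq] at h
        cases h.1
      · intro h
        rw [Prod.mk.injEq] at h
        have h3 := Sum.inl_injective h.1
        rw [Prod.mk.injEq] at h3
        omega
    · refine List.pairwise_lt_range.imp ?_
      intro l l' hl x hx y hy
      simp only [List.mem_cons, List.not_mem_nil, or_false] at hx hy
      exact I3_frm_ne (by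
        intro h
        rw [Prod.mk.injEq] at h
        omega) hx hy
  · refine (List.nodup_finRange N).imp ?_
    intro j j' hj x hx y hy
    rw [List.mem_flatMap] at hx hy
    obtain ⟨l, -, hx⟩ := hx
    obtain ⟨l', -, hy⟩ := hy
    simp only [List.mem_cons, List.not_mem_nil, or_false] at hx hy
    exact I3_frm_ne (by
      intro h
      rw [Prod.mk.injEq] at h
      exact hj h.1) hx hy

theorem I3_cl_mem (N m : ℕ) (z : LocI N × LocI N) (hz : z ∈ clI N m) :
    ∃ (j : Fin N) (l : ℕ), I3_frm j l z := by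
  unfold clI at hz
  rw [List.mem_flatMap] at hz
  obtain ⟨j, -, hz⟩ := hz
  rw [List.mem_flatMap] at hz
  obtain ⟨l, -, hz⟩ := hz
  simp only [List.mem_cons, List.not_mem_nil, or_false] at hz
  exact ⟨j, l, hz⟩

section int
variable {V : Type} [DecidableEq V] {N : ℕ}

/-- the edges of the cloud of `v` -/
def I3_I (m : ℕ) (v : V) : List ((V × LocI N) × (V × LocI N)) :=
  (clI N m).map (fun z => ((v, z.1), (v, z.2)))

theorem I3_int_eq (D K : ℕ) (col : V → ℕ) (hcol : ∀ v, col v < 3) (E : List (V × V)) :
    intE col (CLI N D K) E = (ded (endsE E)).flatMap (I3_I (N := N) (2 * D * K - 1)) := by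
  unfold intE I3_I CLI
  have : ∀ v : V, (List.replicate 3 (clI N (2 * D * K - 1))).getD (col v) [] =
      clI N (2 * D * K - 1) := by
    intro v
    have h := hcol v
    rw [List.getD_eq_getElem _ _ (by simpa using h), List.getElem_replicate]
  simp only [this]

theorem I3_I_cnt (m : ℕ) (v w : V) (x : LocI N) :
    I3_c (w, x) (endsE (I3_I m v)) = if w = v then I3_c x (endsE (clI N m)) else 0 := by
  have e : endsE (I3_I m v) = (endsE (clI N m)).map (fun z => (v, z)) := by
    unfold I3_I endsE
    rw [List.flatMap_map, List.map_flatMap]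
    rfl
  rw [e]
  split_ifs with h
  · subst h
    exact I3_c_map _ (Prod.mk_right_injective w) _ _
  · rw [I3_c_zero]
    intro h1
    rw [List.mem_map] at h1
    obtain ⟨z, -, h1⟩ := h1
    rw [Prod.mk.injEq] at h1
    exact h h1.1.symm

end int

theorem p_I3 : S_I3 := by
  intro V _ D N K h C g H col E hD hK hH hcol hE
  have hdeg := hH.deg
  have hI := I3_int_eq (N := N) D K col hcol E
  have hX := I3_ext_nodup K H hdeg E hE
  have hS := I3_ext_slot K H E hE
  set m := 2 * D * K - 1 with hm
  have hnd : (ded (endsE E)).Nodup := nodup_ded _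
  -- the internal edges
  have hImem : ∀ e ∈ intE col (CLI N D K) E, ∃ (v : V) (j : Fin N) (l : ℕ) (z : LocI N × LocI N),
      I3_frm j l z ∧ e = ((v, z.1), (v, z.2)) := by
    intro e he
    rw [hI, List.mem_flatMap] at he
    obtain ⟨v, -, he⟩ := he
    unfold I3_I at he
    rw [List.mem_map] at he
    obtain ⟨z, hz, rfl⟩ := he
    obtain ⟨j, l, hjl⟩ := I3_cl_mem N m z hz
    exact ⟨v, j, l, z, hjl, rfl⟩
  unfold cloudE
  refine ⟨?_, ?_, ?_⟩
  · intro e he
    rw [List.mem_append] at he
    rcases he with he | he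
    · obtain ⟨v, j, l, z, hz, rfl⟩ := hImem e he
      intro h1
      rw [Prod.mk.injEq] at h1
      rcases hz with rfl | rfl
      · cases h1.2
      · cases h1.2
    · unfold endsE at hX
      rw [List.nodup_flatMap] at hX
      have h1 := hX.1 e he
      rw [List.nodup_cons, List.mem_singleton] at h1
      exact h1.1
  · rw [List.pairwise_append]
    refine ⟨?_, ?_, ?_⟩
    · rw [hI, List.pairwise_flatMap]
      constructor
      · intro v _
        unfold I3_I
        rw [List.pairwise_map]
        refine (I3_cl_pw N m).imp ?_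
        intro a b hab
        constructor
        · intro h1
          apply hab.1
          simp only [Prod.mk.injEq, true_and] at h1
          exact Prod.ext h1.1 h1.2
        · intro h1
          apply hab.2
          simp only [Prod.mk.injEq, true_and] at h1
          exact Prod.ext h1.1 h1.2
      · refine hnd.imp ?_
        intro u v huv x hx y hy
        unfold I3_I at hx hy
        rw [List.mem_map] at hx hy
        obtain ⟨z, -, rfl⟩ := hx
        obtain ⟨z', -, rfl⟩ := hy
        constructor
        · intro h1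
          simp only [Prod.mk.injEq] at h1
          exact huv h1.1.1
        · intro h1
          simp only [Prod.mk.injEq] at h1
          exact huv h1.1.1
    · have hX' := hX
      unfold endsE at hX'
      rw [List.nodup_flatMap] at hX'
      refine hX'.2.imp ?_
      intro a b hab
      rw [Function.onFun, List.disjoint_left] at hab
      constructor
      · rintro rfl
        exact hab (List.mem_cons_self) (List.mem_cons_self)
      · intro h1
        apply hab (List.mem_cons_self)
        rw [h1]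
        exact List.mem_cons_of_mem _ (List.mem_singleton.2 rfl)
    · intro a ha b hb
      obtain ⟨v, j, l, z, hz, rfl⟩ := hImem a ha
      obtain ⟨⟨u1, j1, l1, h1⟩, ⟨u2, j2, l2, h2⟩⟩ := hS b hb
      have n1 : ∀ (j : Fin N) (l : ℕ) (j' : Fin N) (l' : ℕ), sgI j l ≠ slI j' l' := by
        intro j l j' l' h
        cases h
      constructor
      · rintro rfl
        rcases hz with rfl | rfl
        · exact n1 _ _ _ _ (congrArg Prod.snd h2)
        · exact n1 _ _ _ _ (congrArg Prod.snd h1)
      · intro h3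
        rw [Prod.mk.injEq, h1, h2] at h3
        rcases hz with rfl | rfl
        · exact n1 _ _ _ _ (congrArg Prod.snd h3.2)
        · exact n1 _ _ _ _ (congrArg Prod.snd h3.1)
  · rintro ⟨v, x⟩
    change I3_c (v, x) (endsE (intE col (CLI N D K) E ++ extE (XLI K H) E)) ≤ 3
    rw [I3_endsE_append, I3_c_append]
    have h1 := I3_c_nodup (v, x) _ hX
    have h2 : I3_c (v, x) (endsE (intE col (CLI N D K) E)) ≤ 2 := by
      have e : endsE (intE col (CLI N D K) E) =
          (ded (endsE E)).flatMap (fun v => endsE (I3_I (N := N) m v)) := by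
        rw [hI, endsE, List.flatMap_assoc]
        rfl
      rw [e]
      apply I3_sum _ hnd _ _ v
      · intro a _ ha
        rw [I3_I_cnt, if_neg (Ne.symm ha)]
      · rw [I3_I_cnt, if_pos rfl]
        exact I3_cl_cnt m x
    omega

end Pool.Agent.Lib.MP_87d05f_lc.HG
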