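import Pool.Agent.Lib.MP_87d05f_lc.HG.Stm

set_option autoImplicit false

/-!
# MP_87d05f_lc, instances of large girth: the girth of the graph of clouds (independence number)
-/

namespace Pool.Agent.Lib.MP_87d05f_lc.HG

open Pool.Agent.Lib.MP_87d05f_lc Pool.Agent.PolyTime Turing

section

variable {V : Type} [DecidableEq V]

/-- the two kinds of edges inside a cloud -/
private def I4_int {N : ℕ} (x y : V × LocI N) : Prop :=
  ∃ (v : V) (j : Fin N) (l : ℕ), (x = (v, slI j l) ∧ y = (v, sgI j l)) ∨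
    (x = (v, sgI j l) ∧ y = (v, slI j (l + 1)))

/-- the edges between clouds -/
private def I4_ext {D N : ℕ} (K : ℕ) (H : Fin D × Fin D → List (Fin 2 → Fin N × Fin 1))
    (E : List (V × V)) (x y : V × LocI N) : Prop :=
  ∃ (q : ℕ) (e : V × V) (τ : Fin D × Fin D) (n : ℕ) (c : Fin 2 → Fin N × Fin 1),
    E[q]? = some e ∧ rkE (E.take q) e.1 = (τ.1 : ℕ) ∧ rkE (E.take q) e.2 = (τ.2 : ℕ) ∧
    (H τ)[n]? = some c ∧
    x = (e.1, slI (c 0).1 ((τ.1 : ℕ) * K + ((H τ).take n).countP (fun p => decide (p 0 = c 0)))) ∧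
    y = (e.2, slI (c 1).1 ((D + (τ.2 : ℕ)) * K +
      ((H τ).take n).countP (fun p => decide (p 1 = c 1))))

private theorem I4_getD {α : Type} (D : ℕ) (F : Fin D → α) (r : ℕ) (d : α) :
    ((List.finRange D).map F).getD r d = if h : r < D then F ⟨r, h⟩ else d := by
  rw [List.getD_eq_getElem?_getD]
  split_ifs with h
  · rw [List.getElem?_eq_getElem (by simpa using h)]
    simp
  · rw [List.getElem?_eq_none (by simpa using h)]
    rfl

private theorem I4_mem {D N K : ℕ} (H : Fin D × Fin D → List (Fin 2 → Fin N × Fin 1))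
    (col : V → ℕ) (E : List (V × V)) (x y : V × LocI N)
    (h : (x, y) ∈ cloudE col (CLI N D K) (XLI K H) E) : I4_int x y ∨ I4_ext K H E x y := by
  rw [cloudE, List.mem_append] at h
  rcases h with h | h
  · left
    rw [intE, List.mem_flatMap] at h
    obtain ⟨v, _, h⟩ := h
    obtain ⟨z, hz, h⟩ := List.mem_map.1 h
    have hz' : z ∈ clI N (2 * D * K - 1) := by
      rw [CLI, List.getD_eq_getElem?_getD, List.getElem?_replicate] at hz
      split_ifs at hz with h1
      · exact hz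
      · simp at hz
    rw [clI, List.mem_flatMap] at hz'
    obtain ⟨j, _, hz'⟩ := hz'
    rw [List.mem_flatMap] at hz'
    obtain ⟨l, _, hz'⟩ := hz'
    have hx := (Prod.mk.inj h).1
    have hy := (Prod.mk.inj h).2
    simp only [List.mem_cons, List.not_mem_nil, or_false] at hz'
    refine ⟨v, j, l, ?_⟩
    rcases hz' with rfl | rfl
    · exact Or.inl ⟨hx.symm, hy.symm⟩
    · exact Or.inr ⟨hx.symm, hy.symm⟩
  · right
    rw [extE, List.mem_flatMap] at h
    obtain ⟨⟨e, q⟩, heq, h⟩ := h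
    rw [List.mem_zipIdx_iff_getElem?] at heq
    obtain ⟨z, hz, h⟩ := List.mem_map.1 h
    simp only at hz heq
    rw [XLI, I4_getD] at hz
    split_ifs at hz with h1
    · rw [I4_getD] at hz
      split_ifs at hz with h2
      · rw [lnkI] at hz
        obtain ⟨⟨c, n⟩, hc, hz⟩ := List.mem_map.1 hz
        rw [List.mem_zipIdx_iff_getElem?] at hc
        refine ⟨q, e, (⟨_, h1⟩, ⟨_, h2⟩), n, c, heq, rfl, rfl, hc, ?_, ?_⟩
        · rw [← (Prod.mk.inj h).1, ← hz]
        · rw [← (Prod.mk.inj h).2, ← hz]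
      · simp at hz
    · simp at hz

private theorem I4_rank (E : List (V × V)) (v : V) (q q' : ℕ) (e : V × V) (hq : E[q]? = some e)
    (hv : v = e.1 ∨ v = e.2) (hlt : q < q') : rkE (E.take q) v < rkE (E.take q') v := by
  have h1 : E.take (q + 1) = E.take q ++ [e] := by
    rw [List.take_add_one, hq]; rfl
  have h2 : E.take (q + 1) <+: E.take q' := List.take_prefix_take_left (by omega)
  have h3 : rkE (E.take (q + 1)) v ≤ rkE (E.take q') v := by
    obtain ⟨r, hr⟩ := h2
    rw [← hr, rkE, rkE, endsE, endsE, List.flatMap_append, List.count_append]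
    omega
  have h4 : rkE (E.take q) v + 1 ≤ rkE (E.take (q + 1)) v := by
    rw [h1, rkE, rkE, endsE, endsE, List.flatMap_append, List.count_append]
    have : 1 ≤ (List.flatMap (fun e : V × V => [e.1, e.2]) [e]).count v := by
      rw [List.one_le_count_iff]
      rcases hv with rfl | rfl <;> simp
    omega
  omega

private theorem I4_rank_eq (E : List (V × V)) (v : V) (q q' : ℕ) (e e' : V × V)
    (hq : E[q]? = some e) (hq' : E[q']? = some e') (hv : v = e.1 ∨ v = e.2)
    (hv' : v = e'.1 ∨ v = e'.2) (h : rkE (E.take q) v = rkE (E.take q') v) : q = q' := by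
  rcases lt_trichotomy q q' with h1 | h1 | h1
  · exact absurd h (I4_rank E v q q' e hq hv h1).ne
  · exact h1
  · exact absurd h (I4_rank E v q' q e' hq' hv' h1).ne'

end

/-- the index of a vertex -/
private def I4_phi {V : Type} {N : ℕ} (x : V × LocI N) : Fin N := Sum.elim Prod.fst Prod.fst x.2

/-- the depth of a vertex -/
private def I4_dep {V : Type} {N : ℕ} (x : V × LocI N) : ℕ :=
  Sum.elim (fun z => 2 * z.2) (fun z => 2 * z.2 + 1) x.2

theorem p_I4 : S_GEN → S_E1 → S_I4 := by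
  intro hGEN hE1 V _ D N K h C g H col E hD hK hPat hcol hE
  have hne : ∀ τ, ∀ c ∈ H τ, (c 0).1 ≠ (c 1).1 := by
    intro τ c hc h1
    exact absurd (hPat.inj τ c hc 0 1 h1) (by decide)
  obtain ⟨hg, huniq⟩ := hE1 (Fin D × Fin D) 1 N g H hne hPat.girth
  have hmemc : ∀ (τ : Fin D × Fin D) (n : ℕ) (c : Fin 2 → Fin N × Fin 1), (H τ)[n]? = some c →
      c ∈ H τ := fun τ n c hc => List.mem_of_getElem? hc
  -- adjacency
  have hadj : ∀ x y, (gE (cloudE col (CLI N D K) (XLI K H) E)).Adj x y →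
      (I4_int x y ∨ I4_int y x) ∨ (I4_ext K H E x y ∨ I4_ext K H E y x) := by
    intro x y hxy
    rw [gE, SimpleGraph.fromRel_adj] at hxy
    rcases hxy.2 with h1 | h1
    · rcases I4_mem H col E x y h1 with h2 | h2
      · exact Or.inl (Or.inl h2)
      · exact Or.inr (Or.inl h2)
    · rcases I4_mem H col E y x h1 with h2 | h2
      · exact Or.inl (Or.inr h2)
      · exact Or.inr (Or.inr h2)
  have hint : ∀ x y : V × LocI N, I4_int x y → I4_phi x = I4_phi y ∧ x.1 = y.1 := by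
    rintro x y ⟨v, j, l, ⟨rfl, rfl⟩ | ⟨rfl, rfl⟩⟩
    · exact ⟨rfl, rfl⟩
    · exact ⟨rfl, rfl⟩
  have hext : ∀ x y : V × LocI N, I4_ext K H E x y → I4_phi x ≠ I4_phi y := by
    rintro x y ⟨q, e, τ, n, c, _, _, _, hc, rfl, rfl⟩
    exact hne τ c (hmemc τ n c hc)
  -- down neighbours
  have hdown : ∀ x y : V × LocI N, (I4_int x y ∨ I4_int y x) → I4_dep y ≤ I4_dep x →
      ∃ (v : V) (j : Fin N) (l : ℕ), (x = (v, sgI j l) ∧ y = (v, slI j l)) ∨
        (x = (v, slI j (l + 1)) ∧ y = (v, sgI j l)) := by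
    rintro x y (⟨v, j, l, ⟨rfl, rfl⟩ | ⟨rfl, rfl⟩⟩ | ⟨v, j, l, ⟨rfl, rfl⟩ | ⟨rfl, rfl⟩⟩) hd
    · exfalso
      simp only [I4_dep, Sum.elim_inl, Sum.elim_inr] at hd
      omega
    · exfalso
      simp only [I4_dep, Sum.elim_inl, Sum.elim_inr] at hd
      omega
    · exact ⟨v, j, l, Or.inl ⟨rfl, rfl⟩⟩
    · exact ⟨v, j, l, Or.inr ⟨rfl, rfl⟩⟩
  refine hGEN (Fin N) (V × LocI N) (V × Fin N) (eH H) _ I4_phi (fun x => (x.1, I4_phi x)) I4_dep g
    ?_ ?_ ?_ ?_ hg
  · -- edges between different fibres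
    intro x y hxy hphi
    rcases hadj x y hxy with (h1 | h1) | (h1 | h1)
    · exact absurd (hint x y h1).1 hphi
    · exact absurd (hint y x h1).1.symm hphi
    · obtain ⟨q, e, τ, n, c, _, _, _, hc, rfl, rfl⟩ := h1
      rw [eH, SimpleGraph.fromRel_adj]
      exact ⟨hphi, Or.inl ⟨τ, c, hmemc τ n c hc, rfl, rfl⟩⟩
    · obtain ⟨q, e, τ, n, c, _, _, _, hc, rfl, rfl⟩ := h1
      rw [eH, SimpleGraph.fromRel_adj]
      exact ⟨hphi, Or.inr ⟨τ, c, hmemc τ n c hc, rfl, rfl⟩⟩
  · intro x y hxy hphi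
    rcases hadj x y hxy with (h1 | h1) | (h1 | h1)
    · exact Prod.ext (hint x y h1).2 hphi
    · exact Prod.ext (hint y x h1).2.symm hphi
    · exact absurd hphi (hext x y h1)
    · exact absurd hphi.symm (hext y x h1)
  · intro x y z hxy hxz hpy hpz hdy hdz
    have h1 : I4_int x y ∨ I4_int y x := by
      rcases hadj x y hxy with h1 | (h1 | h1)
      · exact h1
      · exact absurd hpy.symm (hext x y h1)
      · exact absurd hpy (hext y x h1)
    have h2 : I4_int x z ∨ I4_int z x := by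
      rcases hadj x z hxz with h1 | (h1 | h1)
      · exact h1
      · exact absurd hpz.symm (hext x z h1)
      · exact absurd hpz (hext z x h1)
    obtain ⟨v, j, l, ⟨hx, hy⟩ | ⟨hx, hy⟩⟩ := hdown x y h1 hdy
    · obtain ⟨v', j', l', ⟨hx', hz⟩ | ⟨hx', hz⟩⟩ := hdown x z h2 hdz
      · rw [hx] at hx'
        simp only [Prod.mk.injEq, Sum.inr.injEq] at hx'
        obtain ⟨rfl, rfl, rfl⟩ := hx'
        rw [hy, hz]
      · rw [hx] at hx'
        simp only [Prod.mk.injEq, reduceCtorEq, and_false] at hx'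
    · obtain ⟨v', j', l', ⟨hx', hz⟩ | ⟨hx', hz⟩⟩ := hdown x z h2 hdz
      · rw [hx] at hx'
        simp only [Prod.mk.injEq, reduceCtorEq, and_false] at hx'
      · rw [hx] at hx'
        simp only [Prod.mk.injEq, Sum.inl.injEq, Nat.add_right_cancel_iff] at hx'
        obtain ⟨rfl, rfl, rfl⟩ := hx'
        rw [hy, hz]
  · intro x x' y y' hxy hxy' hpx hk hpy hne'
    have hvx : x.1 = x'.1 := (Prod.mk.inj hk).1
    have h1 : I4_ext K H E x y ∨ I4_ext K H E y x := by
      rcases hadj x y hxy with (h1 | h1) | h1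
      · exact absurd (hint x y h1).1.symm hne'
      · exact absurd (hint y x h1).1 hne'
      · exact h1
    have hne'' : I4_phi y' ≠ I4_phi x' := by rw [← hpy, ← hpx]; exact hne'
    have h2 : I4_ext K H E x' y' ∨ I4_ext K H E y' x' := by
      rcases hadj x' y' hxy' with (h1 | h1) | h1
      · exact absurd (hint x' y' h1).1.symm hne''
      · exact absurd (hint y' x' h1).1 hne''
      · exact h1
    rcases h1 with h1 | h1 <;> rcases h2 with h2 | h2
    · obtain ⟨q, e, τ, n, c, hq, hr1, hr2, hc, rfl, rfl⟩ := h1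
      obtain ⟨q', e', τ', n', c', hq', hr1', hr2', hc', rfl, rfl⟩ := h2
      obtain ⟨rfl, rfl⟩ := huniq τ τ' n n' c c' hc hc' (Or.inl ⟨hpx, hpy⟩)
      obtain rfl : c = c' := Option.some.inj (hc.symm.trans hc')
      have hv : e.1 = e'.1 := hvx
      have hqq : q = q' := I4_rank_eq E e.1 q q' e e' hq hq' (Or.inl rfl) (Or.inl hv)
        (by rw [hr1, hv, hr1'])
      subst hqq
      obtain rfl : e = e' := Option.some.inj (hq.symm.trans hq')
      exact ⟨rfl, rfl⟩
    · exfalso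
      obtain ⟨q, e, τ, n, c, hq, hr1, hr2, hc, rfl, rfl⟩ := h1
      obtain ⟨q', e', τ', n', c', hq', hr1', hr2', hc', rfl, rfl⟩ := h2
      obtain ⟨rfl, rfl⟩ := huniq τ τ' n n' c c' hc hc' (Or.inr ⟨hpx, hpy⟩)
      obtain rfl : c = c' := Option.some.inj (hc.symm.trans hc')
      exact hne τ c (hmemc τ n c hc) hpx
    · exfalso
      obtain ⟨q, e, τ, n, c, hq, hr1, hr2, hc, rfl, rfl⟩ := h1
      obtain ⟨q', e', τ', n', c', hq', hr1', hr2', hc', rfl, rfl⟩ := h2
      obtain ⟨rfl, rfl⟩ := huniq τ τ' n n' c c' hc hc' (Or.inr ⟨hpy, hpx⟩)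
      obtain rfl : c = c' := Option.some.inj (hc.symm.trans hc')
      exact hne τ c (hmemc τ n c hc) hpx.symm
    · obtain ⟨q, e, τ, n, c, hq, hr1, hr2, hc, rfl, rfl⟩ := h1
      obtain ⟨q', e', τ', n', c', hq', hr1', hr2', hc', rfl, rfl⟩ := h2
      obtain ⟨rfl, rfl⟩ := huniq τ τ' n n' c c' hc hc' (Or.inl ⟨hpy, hpx⟩)
      obtain rfl : c = c' := Option.some.inj (hc.symm.trans hc')
      have hv : e.2 = e'.2 := hvx
      have hqq : q = q' := I4_rank_eq E e.2 q q' e e' hq hq' (Or.inr rfl) (Or.inr hv)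
        (by rw [hr2, hv, hr2'])
      subst hqq
      obtain rfl : e = e' := Option.some.inj (hq.symm.trans hq')
      exact ⟨rfl, rfl⟩

end Pool.Agent.Lib.MP_87d05f_lc.HG
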