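import Mathlib
import Pool.Agent.Lib.MP_87d05f_lc.HG.Stm

set_option autoImplicit false

/-!
# Base hardness of the independence number in bounded degree

The reduction starts from 3-CNF formulas in which every variable occurs at most three times. The
vertices are the pairs `(q, a)`, `a < 3`, with a triangle for every clause and an edge between
contradictory literals of different clauses; short clauses repeat their first literal.
-/

namespace Pool.Agent.Lib.MP_87d05f_lc.HG

open Pool.Agent.Lib.MP_87d05f_lc Pool.Agent.PolyTime Turing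

/-- the literal of a vertex -/
def IB_lit (G : BF') (x : ℕ × ℕ) : Lit (List Bool) :=
  bif decide (x.2 < (G.getD x.1 []).length) then ltJ (G.getD x.1 []) x.2
  else ltJ (G.getD x.1 []) 0

/-- adjacency, in one direction -/
def IB_adj (G : BF') (x y : ℕ × ℕ) : Bool :=
  (decide (x.1 = y.1) && decide (x.2 < y.2)) ||
  (decide (x.1 < y.1) && (decide ((IB_lit G x).2 = (IB_lit G y).2) &&
    !(decide ((IB_lit G x).1 = (IB_lit G y).1))))

/-- the vertices -/
def IB_vs (n : ℕ) : List (ℕ × ℕ) := (List.range n).product (List.range 3)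

/-- the edges -/
def IB_ed (G : BF') : List ((ℕ × ℕ) × (ℕ × ℕ)) :=
  ((IB_vs G.length).product (IB_vs G.length)).filter (fun e => IB_adj G e.1 e.2)

/-- the name of a vertex -/
def IB_nm (x : ℕ × ℕ) : List Bool := nb (List.replicate x.1 false) x.2

/-- the number of a vertex -/
def IB_nu (x : ℕ × ℕ) : ℕ := unbits (IB_nm x)

theorem IB_bits_nu (x : ℕ × ℕ) : Nat.bits (IB_nu x) = IB_nm x := by
  obtain ⟨u, hu⟩ := nb_end (List.replicate x.1 false) x.2
  unfold IB_nu IB_nm
  rw [hu, bits_unbits]

theorem IB_nu_inj : Function.Injective IB_nu := by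
  intro x y h
  have h1 : IB_nm x = IB_nm y := by rw [← IB_bits_nu, ← IB_bits_nu, h]
  obtain ⟨h2, h3⟩ := nb_inj h1
  have h4 : x.1 = y.1 := by
    have := congrArg List.length h2
    simpa using this
  exact Prod.ext h4 h3

theorem IB_mem_prod {α β : Type} {l : List α} {m : List β} {x : α × β} :
    x ∈ l.product m ↔ x.1 ∈ l ∧ x.2 ∈ m := by
  rcases x with ⟨a, b⟩
  exact List.pair_mem_product

theorem IB_mem_vs {n : ℕ} {x : ℕ × ℕ} : x ∈ IB_vs n ↔ x.1 < n ∧ x.2 < 3 := by
  unfold IB_vs
  rw [IB_mem_prod, List.mem_range, List.mem_range]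

theorem IB_vs_nodup (n : ℕ) : (IB_vs n).Nodup := List.Nodup.product List.nodup_range
  List.nodup_range

theorem IB_vs_length (n : ℕ) : (IB_vs n).length = 3 * n := by
  have h : (IB_vs n).length = (List.range n).length * (List.range 3).length :=
    List.length_product _ _
  rw [h, List.length_range, List.length_range, Nat.mul_comm]

theorem IB_mem_ed {G : BF'} {e : (ℕ × ℕ) × (ℕ × ℕ)} : e ∈ IB_ed G ↔
    (e.1 ∈ IB_vs G.length ∧ e.2 ∈ IB_vs G.length) ∧ IB_adj G e.1 e.2 = true := by
  unfold IB_ed
  rw [List.mem_filter, IB_mem_prod]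

theorem IB_ed_nodup (G : BF') : (IB_ed G).Nodup :=
  (List.Nodup.product (IB_vs_nodup _) (IB_vs_nodup _)).filter _

theorem IB_adj_iff {G : BF'} {x y : ℕ × ℕ} : IB_adj G x y = true ↔
    (x.1 = y.1 ∧ x.2 < y.2) ∨ (x.1 < y.1 ∧ (IB_lit G x).2 = (IB_lit G y).2 ∧
      (IB_lit G x).1 ≠ (IB_lit G y).1) := by
  unfold IB_adj
  simp [Bool.or_eq_true, Bool.and_eq_true]

theorem IB_adj_ne {G : BF'} {x y : ℕ × ℕ} (h : IB_adj G x y = true) : x ≠ y := by
  rintro rfl
  rw [IB_adj_iff] at h
  omega

theorem IB_adj_asymm {G : BF'} {x y : ℕ × ℕ} (h : IB_adj G x y = true) :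
    ¬ IB_adj G y x = true := by
  intro h'
  rw [IB_adj_iff] at h h'
  omega

/-! ### The machine -/

theorem IB_lit_ptime {α : Type} [SCode α] {G : α → BF'} {x : α → ℕ × ℕ} (hG : PTime G)
    (hx : PTime x) : PTime (fun a => IB_lit (G a) (x a)) := by
  unfold IB_lit
  have hc : PTime (fun a => (G a).getD (x a).1 []) :=
    PTime.getD (PTime.fst.comp hx) hG (PTime.const _)
  have h2 : PTime (fun a => (x a).2) := PTime.snd.comp hx
  exact PTime.cond (PTime.nat_lt h2 (PTime.length hc)) (ltJ_ptime hc h2)
    (ltJ_ptime hc (PTime.const 0))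

theorem IB_adj_ptime {α : Type} [SCode α] {G : α → BF'} {x y : α → ℕ × ℕ} (hG : PTime G)
    (hx : PTime x) (hy : PTime y) : PTime (fun a => IB_adj (G a) (x a) (y a)) := by
  unfold IB_adj
  have hlx := IB_lit_ptime hG hx
  have hly := IB_lit_ptime hG hy
  have hx1 : PTime (fun a => (x a).1) := PTime.fst.comp hx
  have hx2 : PTime (fun a => (x a).2) := PTime.snd.comp hx
  have hy1 : PTime (fun a => (y a).1) := PTime.fst.comp hy
  have hy2 : PTime (fun a => (y a).2) := PTime.snd.comp hy
  refine PTime.or (PTime.and (PTime.nat_eq hx1 hy1) (PTime.nat_lt hx2 hy2))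
    (PTime.and (PTime.nat_lt hx1 hy1) (PTime.and ?_ (PTime.not ?_)))
  · exact PTime.eq (PTime.snd.comp hlx) (PTime.snd.comp hly)
  · exact PTime.eq (PTime.fst.comp hlx) (PTime.fst.comp hly)

theorem IB_vs_ptime {α : Type} [SCode α] {n : α → ℕ} (hn : PTime n) :
    PTime (fun a => IB_vs (n a)) := by
  unfold IB_vs
  exact PTime.product (PTime.range hn) (PTime.const (List.range 3))

theorem IB_ed_ptime {α : Type} [SCode α] {G : α → BF'} (hG : PTime G) :
    PTime (fun a => IB_ed (G a)) := by
  unfold IB_ed
  refine PTime.filter (p := fun a (e : (ℕ × ℕ) × (ℕ × ℕ)) => IB_adj (G a) e.1 e.2)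
    (PTime.product (IB_vs_ptime (PTime.length hG)) (IB_vs_ptime (PTime.length hG))) ?_
  exact IB_adj_ptime (hG.comp PTime.fst) (PTime.fst.comp PTime.snd) (PTime.snd.comp PTime.snd)

theorem IB_nm_ptime {α : Type} [SCode α] {x : α → ℕ × ℕ} (hx : PTime x) :
    PTime (fun a => IB_nm (x a)) := by
  unfold IB_nm
  exact nb_ptime (PTime.replicate (PTime.fst.comp hx) (PTime.const false)) (PTime.snd.comp hx)

/-- the edges in words -/
def IB_W (G : BF') : List (List (List Bool)) := (IB_ed G).map (fun e => [IB_nm e.1, IB_nm e.2])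

theorem IB_W_ptime {α : Type} [SCode α] {G : α → BF'} (hG : PTime G) :
    PTime (fun a => IB_W (G a)) := by
  unfold IB_W
  refine PTime.map (f := fun (_ : α) (e : (ℕ × ℕ) × (ℕ × ℕ)) => [IB_nm e.1, IB_nm e.2])
    (IB_ed_ptime hG) ?_
  exact PTime.cons (IB_nm_ptime (PTime.fst.comp PTime.snd))
    (PTime.cons (IB_nm_ptime (PTime.snd.comp PTime.snd)) (PTime.const []))

/-- the reduction on strings -/
def IB_F (x : List Bool) : List Bool :=
  encW ([List.replicate (parse x).length true] :: IB_W (parse x))

theorem IB_F_ptime : PTime IB_F := by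
  unfold IB_F
  exact encW_ptime (PTime.cons (PTime.cons (PTime.replicate (PTime.length parse_ptime)
    (PTime.const true)) (PTime.const [])) (IB_W_ptime parse_ptime))

/-- the edges in numbers -/
def IB_E (G : BF') : List (ℕ × ℕ) := mapE IB_nu (IB_ed G)

theorem IB_E_word (G : BF') : (IB_E G).map wordE = IB_W G := by
  unfold IB_E IB_W mapE wordE
  rw [List.map_map]
  refine List.map_congr_left fun e _ => ?_
  simp only [Function.comp, IB_bits_nu]

theorem IB_binF_length (F : List (List (Bool × ℕ))) : (binF F).length = F.length := by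
  unfold binF
  rw [List.length_map]

theorem IB_F_enc (F : List (List (Bool × ℕ))) :
    IB_F (encF F) = enCut (F.length, IB_E (binF F)) := by
  unfold IB_F enCut
  rw [parse_encF, IB_binF_length, IB_E_word]

/-! ### Degrees -/

theorem IB_countP_product {α β : Type} (l : List α) (m : List β) (p : α × β → Bool) :
    (l.product m).countP p = (l.map (fun a => m.countP (fun b => p (a, b)))).sum := by
  rw [show l.product m = l.flatMap (fun a => m.map (fun b => (a, b))) from rfl,
    List.countP_flatMap]
  congr 1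
  refine List.map_congr_left fun a _ => ?_
  simp only [Function.comp, List.countP_map]
  rfl

theorem IB_range_getD (G : BF') : (List.range G.length).map (fun q => G.getD q []) = G := by
  refine List.ext_getElem (by simp) fun i h1 h2 => ?_
  rw [List.getElem_map, List.getElem_range, List.getD_eq_getElem _ _ h2]

theorem IB_lit_mem {G : BF'} (h0 : [] ∉ G) {x : ℕ × ℕ} (hx : x.1 < G.length) :
    IB_lit G x ∈ G.getD x.1 [] := by
  obtain ⟨c, hc⟩ : ∃ c, c = G.getD x.1 [] := ⟨_, rfl⟩
  have hcG : c ∈ G := by
    rw [hc, List.getD_eq_getElem _ _ hx]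
    exact List.getElem_mem hx
  have hne : c ≠ [] := by
    rintro rfl
    exact h0 hcG
  have hpos : 0 < c.length := List.length_pos_iff.2 hne
  unfold IB_lit
  rw [← hc]
  by_cases h : x.2 < c.length
  · rw [decide_eq_true h, cond_true]
    unfold ltJ
    rw [List.getD_eq_getElem _ _ h]
    exact List.getElem_mem h
  · rw [decide_eq_false h, cond_false]
    unfold ltJ
    rw [List.getD_eq_getElem _ _ hpos]
    exact List.getElem_mem hpos

/-- the number of vertices with a given variable -/
theorem IB_count_var {G : BF'} (h0 : [] ∉ G) (w : List Bool) :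
    (IB_vs G.length).countP (fun y => decide ((IB_lit G y).2 = w)) ≤
      3 * (G.flatten.map (fun l => l.2)).count w := by
  unfold IB_vs
  rw [IB_countP_product]
  have h1 : (G.flatten.map (fun l => l.2)).count w =
      ((List.range G.length).map (fun q => ((G.getD q []).map (fun l => l.2)).count w)).sum := by
    have h2 : ((List.range G.length).map (fun q => ((G.getD q []).map (fun l => l.2)).count w)) =
        G.map (fun c => (c.map (fun l => l.2)).count w) := by
      conv_rhs => rw [← IB_range_getD G]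
      rw [List.map_map]
      rfl
    rw [h2, List.map_flatten, List.count_flatten, List.map_map]
    rfl
  rw [h1, ← List.sum_map_mul_left]
  refine List.sum_le_sum fun q hq => ?_
  rw [List.mem_range] at hq
  by_cases h : ∃ a, (IB_lit G (q, a)).2 = w
  · obtain ⟨a, ha⟩ := h
    have hm := IB_lit_mem h0 (x := (q, a)) hq
    have h3 : 0 < ((G.getD q []).map (fun l => l.2)).count w := by
      rw [List.count_pos_iff]
      exact List.mem_map.2 ⟨_, hm, ha⟩
    have h4 : (List.range 3).countP (fun b => decide ((IB_lit G (q, b)).2 = w)) ≤ 3 :=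
      List.countP_le_length.trans (by simp)
    omega
  · push Not at h
    have h4 : (List.range 3).countP (fun b => decide ((IB_lit G (q, b)).2 = w)) = 0 := by
      rw [List.countP_eq_zero]
      intro b _
      simp [h b]
    rw [h4]
    exact Nat.zero_le _

theorem IB_count_fst (n q : ℕ) :
    (IB_vs n).countP (fun y => decide (y.1 = q)) ≤ 3 := by
  have h1 : ((IB_vs n).filter (fun y => decide (y.1 = q))).length ≤
      ((List.range 3).map (fun a => (q, a))).length := by
    refine (List.Subperm.length_le (List.subperm_of_subset ((IB_vs_nodup n).filter _) ?_))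
    intro y hy
    rw [List.mem_filter, IB_mem_vs, decide_eq_true_eq] at hy
    rw [List.mem_map]
    exact ⟨y.2, List.mem_range.2 hy.1.2, by rw [← hy.2]⟩
  rw [List.countP_eq_length_filter]
  simpa using h1

theorem IB_countP_or {α : Type} (l : List α) (p q r : α → Bool)
    (h : ∀ x ∈ l, r x = true → p x = true ∨ q x = true) :
    l.countP r ≤ l.countP p + l.countP q := by
  induction l with
  | nil => simp
  | cons a l ih =>
    have h1 := ih (fun x hx => h x (List.mem_cons_of_mem _ hx))
    have h2 := h a List.mem_cons_self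
    rw [List.countP_cons, List.countP_cons, List.countP_cons]
    by_cases hr : r a = true
    · rcases h2 hr with hp | hq
      · simp only [hr, hp, if_true]
        split_ifs <;> omega
      · simp only [hr, hq, if_true]
        split_ifs <;> omega
    · have hr' : r a = false := by simpa using hr
      simp only [hr', Bool.false_eq_true, if_false]
      split_ifs <;> omega

theorem IB_deg_half {G : BF'} (h0 : [] ∉ G)
    (hocc : ∀ w, (G.flatten.map (fun l => l.2)).count w ≤ 3) (x : ℕ × ℕ)
    (r : ℕ × ℕ → Bool) (hr : ∀ y, r y = true → IB_adj G x y = true ∨ IB_adj G y x = true) :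
    (IB_vs G.length).countP r ≤ 12 := by
  have h1 := IB_countP_or (IB_vs G.length) (fun y => decide (y.1 = x.1))
    (fun y => decide ((IB_lit G y).2 = (IB_lit G x).2)) r (fun y _ hy => by
      simp only [decide_eq_true_eq]
      rcases hr y hy with h | h
      · rw [IB_adj_iff] at h
        rcases h with h | h
        · exact Or.inl h.1.symm
        · exact Or.inr h.2.1.symm
      · rw [IB_adj_iff] at h
        rcases h with h | h
        · exact Or.inl h.1
        · exact Or.inr h.2.1)
  have h2 := IB_count_fst G.length x.1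
  have h3 := IB_count_var h0 (IB_lit G x).2
  have h4 := hocc (IB_lit G x).2
  omega

theorem IB_sum_ite {α : Type} [DecidableEq α] (l : List α) (hl : l.Nodup) (x : α) (f : α → ℕ)
    (B : ℕ) (hf : f x ≤ B) : (l.map (fun a => if a = x then f a else 0)).sum ≤ B := by
  induction l with
  | nil => simp
  | cons a l ih =>
    rw [List.nodup_cons] at hl
    rw [List.map_cons, List.sum_cons]
    by_cases h : a = x
    · subst h
      have h1 : (l.map (fun b => if b = a then f b else 0)).sum = 0 := by
        rw [List.sum_eq_zero_iff]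
        intro m hm
        obtain ⟨b, hb, rfl⟩ := List.mem_map.1 hm
        rw [if_neg]
        rintro rfl
        exact hl.1 hb
      rw [if_pos rfl, h1]
      exact hf
    · rw [if_neg h, zero_add]
      exact ih hl.2

theorem IB_ends_count {V : Type} [DecidableEq V] (E : List (V × V)) (v : V) :
    (endsE E).countP (fun y => decide (y = v)) = E.countP (fun e => decide (e.1 = v)) +
      E.countP (fun e => decide (e.2 = v)) := by
  induction E with
  | nil => rfl
  | cons e E ih =>
    have h : endsE (e :: E) = e.1 :: e.2 :: endsE E := rfl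
    rw [h, List.countP_cons, List.countP_cons, ih, List.countP_cons, List.countP_cons]
    omega

theorem IB_deg {G : BF'} (h0 : [] ∉ G)
    (hocc : ∀ w, (G.flatten.map (fun l => l.2)).count w ≤ 3) (x : ℕ × ℕ) :
    (endsE (IB_ed G)).countP (fun y => decide (y = x)) ≤ 24 := by
  rw [IB_ends_count]
  have h1 : (IB_ed G).countP (fun e => decide (e.1 = x)) ≤ 12 := by
    unfold IB_ed
    rw [List.countP_filter, IB_countP_product]
    have h2 : ∀ a : ℕ × ℕ, (IB_vs G.length).countP (fun b => decide ((a, b).1 = x) &&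
        IB_adj G (a, b).1 (a, b).2) = if a = x then
          (IB_vs G.length).countP (fun b => IB_adj G a b) else 0 := by
      intro a
      by_cases h : a = x
      · simp [h]
      · simp [h]
    rw [List.map_congr_left (fun a _ => h2 a)]
    exact IB_sum_ite _ (IB_vs_nodup _) x (fun a => (IB_vs G.length).countP
      (fun b => IB_adj G a b)) 12 (IB_deg_half h0 hocc x _ (fun y hy => Or.inl hy))
  have h2 : (IB_ed G).countP (fun e => decide (e.2 = x)) ≤ 12 := by
    unfold IB_ed
    rw [List.countP_filter, IB_countP_product]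
    have h3 : ∀ a : ℕ × ℕ, (IB_vs G.length).countP (fun b => decide ((a, b).2 = x) &&
        IB_adj G (a, b).1 (a, b).2) ≤ if IB_adj G a x = true then 1 else 0 := by
      intro a
      have h4 : (IB_vs G.length).countP (fun b => decide ((a, b).2 = x) &&
        IB_adj G (a, b).1 (a, b).2) ≤ (IB_vs G.length).countP (fun b => decide (b = x)) := by
        refine List.countP_mono_left fun b _ hb => ?_
        rw [Bool.and_eq_true] at hb
        exact hb.1
      have h5 : (IB_vs G.length).countP (fun b => decide (b = x)) ≤ 1 := by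
        have := List.nodup_iff_count_le_one.1 (IB_vs_nodup G.length) x
        rw [List.count_eq_countP] at this
        refine le_trans (le_of_eq (List.countP_congr fun y _ => ?_)) this
        simp only [beq_iff_eq, decide_eq_true_eq]
      split_ifs with h
      · exact h4.trans h5
      · rw [Nat.le_zero, List.countP_eq_zero]
        intro b _ hb
        rw [Bool.and_eq_true, decide_eq_true_eq] at hb
        simp only at hb
        obtain ⟨rfl, hb⟩ := hb
        exact h hb
    refine (List.sum_le_sum fun a _ => h3 a).trans ?_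
    have h6 : ((IB_vs G.length).map (fun a => if IB_adj G a x = true then 1 else 0)).sum =
        (IB_vs G.length).countP (fun a => IB_adj G a x) := by
      generalize IB_vs G.length = l
      induction l with
      | nil => rfl
      | cons a l ih =>
        rw [List.map_cons, List.sum_cons, List.countP_cons, ih, Nat.add_comm]
    rw [h6]
    exact IB_deg_half h0 hocc x _ (fun y hy => Or.inr hy)
  omega

theorem IB_ends_map {V V' : Type} (ν : V → V') (E : List (V × V)) :
    endsE (mapE ν E) = (endsE E).map ν := by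
  unfold endsE mapE
  rw [List.flatMap_map, List.map_flatMap]
  rfl

theorem IB_simp {G : BF'} (h0 : [] ∉ G)
    (hocc : ∀ w, (G.flatten.map (fun l => l.2)).count w ≤ 3) : SimpD 24 (IB_E G) := by
  refine ⟨?_, ?_, ?_⟩
  · intro e he
    unfold IB_E mapE at he
    obtain ⟨e', he', rfl⟩ := List.mem_map.1 he
    exact fun h => IB_adj_ne (IB_mem_ed.1 he').2 (IB_nu_inj h)
  · unfold IB_E mapE
    rw [List.pairwise_map]
    refine List.Pairwise.imp_of_mem ?_ (IB_ed_nodup G)
    intro e f he hf hne
    refine ⟨fun h => hne ?_, fun h => ?_⟩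
    · rw [Prod.mk.injEq] at h
      exact Prod.ext (IB_nu_inj h.1) (IB_nu_inj h.2)
    · rw [Prod.mk.injEq] at h
      have h1 := IB_nu_inj h.1
      have h2 := IB_nu_inj h.2
      have h3 := (IB_mem_ed.1 he).2
      rw [h1, h2] at h3
      exact IB_adj_asymm (IB_mem_ed.1 hf).2 h3
  · intro v
    unfold IB_E
    rw [IB_ends_map]
    by_cases h : ∃ x, IB_nu x = v
    · obtain ⟨x, rfl⟩ := h
      refine le_trans (le_of_eq ?_) (IB_deg h0 hocc x)
      rw [List.count_eq_countP, List.countP_map]
      refine List.countP_congr fun y _ => ?_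
      simp only [Function.comp, beq_iff_eq, decide_eq_true_eq]
      exact IB_nu_inj.eq_iff
    · rw [List.count_eq_zero_of_not_mem]
      · exact Nat.zero_le _
      · intro hm
        obtain ⟨x, _, hx⟩ := List.mem_map.1 hm
        exact h ⟨x, hx⟩

theorem IB_nv (G : BF') : nvE (IB_E G) ≤ 3 * G.length := by
  unfold nvE
  have h : (endsE (IB_E G)).toFinset ⊆ ((IB_vs G.length).map IB_nu).toFinset := by
    intro v hv
    rw [List.mem_toFinset] at hv ⊢
    unfold IB_E at hv
    rw [IB_ends_map] at hv
    obtain ⟨x, hx, rfl⟩ := List.mem_map.1 hv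
    refine List.mem_map.2 ⟨x, ?_, rfl⟩
    unfold endsE at hx
    obtain ⟨e, he, hxe⟩ := List.mem_flatMap.1 hx
    have h1 := (IB_mem_ed.1 he).1
    simp only [List.mem_cons, List.not_mem_nil, or_false] at hxe
    rcases hxe with rfl | rfl
    · exact h1.1
    · exact h1.2
  refine (Finset.card_le_card h).trans ((List.toFinset_card_le _).trans ?_)
  rw [List.length_map, IB_vs_length]

/-! ### Independent sets -/

/-- all vertices are ends of edges -/
theorem IB_mem_ends {G : BF'} {x : ℕ × ℕ} (hx : x ∈ IB_vs G.length) :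
    IB_nu x ∈ endsE (IB_E G) := by
  unfold IB_E
  rw [IB_ends_map]
  refine List.mem_map.2 ⟨x, ?_, rfl⟩
  rw [IB_mem_vs] at hx
  unfold endsE
  rw [List.mem_flatMap]
  by_cases h : x.2 = 0
  · refine ⟨(x, (x.1, 1)), ?_, by simp⟩
    rw [IB_mem_ed, IB_mem_vs, IB_mem_vs, IB_adj_iff]
    exact ⟨⟨hx, hx.1, by norm_num⟩, Or.inl ⟨rfl, by simp only; omega⟩⟩
  · refine ⟨((x.1, 0), x), ?_, by simp⟩
    rw [IB_mem_ed, IB_mem_vs, IB_mem_vs, IB_adj_iff]
    exact ⟨⟨⟨hx.1, by norm_num⟩, hx⟩, Or.inl ⟨rfl, by simp only; omega⟩⟩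

theorem IB_yes {G : BF'} (h3 : ∀ c ∈ G, c.length ≤ 3) (A : List Bool → Bool)
    (hA : ∀ c ∈ G, ∃ l ∈ c, A l.2 = l.1) :
    ∃ a : ℕ → Bool, IndE a (IB_E G) ∧ G.length ≤ szE a (IB_E G) := by
  classical
  have h1 : ∀ q, ∃ a, q < G.length → a < 3 ∧ A (IB_lit G (q, a)).2 = (IB_lit G (q, a)).1 := by
    intro q
    by_cases hq : q < G.length
    · have hm : G.getD q [] ∈ G := by
        rw [List.getD_eq_getElem _ _ hq]
        exact List.getElem_mem hq
      obtain ⟨l, hl, hlA⟩ := hA _ hm
      obtain ⟨j, hj, rfl⟩ := List.getElem_of_mem hl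
      have h3' := h3 _ hm
      refine ⟨j, fun _ => ⟨by omega, ?_⟩⟩
      have h2 : IB_lit G (q, j) = (G.getD q [])[j] := by
        unfold IB_lit
        simp only
        rw [decide_eq_true hj, cond_true]
        unfold ltJ
        rw [List.getD_eq_getElem _ _ hj]
      rw [h2]
      exact hlA
    · exact ⟨0, fun h => absurd h hq⟩
  choose j hj using h1
  refine ⟨fun v => decide (∃ q, q < G.length ∧ IB_nu (q, j q) = v), ?_, ?_⟩
  · intro e he hab
    unfold IB_E mapE at he
    obtain ⟨e', he', rfl⟩ := List.mem_map.1 he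
    simp only [decide_eq_true_eq] at hab
    obtain ⟨⟨q, hq, h1⟩, ⟨q', hq', h2⟩⟩ := hab
    have e1 := IB_nu_inj h1
    have e2 := IB_nu_inj h2
    have h3 := (IB_mem_ed.1 he').2
    rw [← e1, ← e2, IB_adj_iff] at h3
    simp only at h3
    rcases h3 with ⟨h4, h5⟩ | ⟨_, h4, h5⟩
    · subst h4
      exact lt_irrefl _ h5
    · refine h5 ?_
      rw [← (hj q hq).2, ← (hj q' hq').2, h4]
  · unfold szE
    have h2 : ((Finset.range G.length).image (fun q => IB_nu (q, j q))) ⊆
        (endsE (IB_E G)).toFinset.filter (fun v =>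
          decide (∃ q, q < G.length ∧ IB_nu (q, j q) = v) = true) := by
      intro v hv
      obtain ⟨q, hq, rfl⟩ := Finset.mem_image.1 hv
      rw [Finset.mem_range] at hq
      rw [Finset.mem_filter, List.mem_toFinset, decide_eq_true_eq]
      exact ⟨IB_mem_ends (IB_mem_vs.2 ⟨hq, (hj q hq).1⟩), q, hq, rfl⟩
    have h4 : ((Finset.range G.length).image (fun q => IB_nu (q, j q))).card = G.length := by
      rw [Finset.card_image_of_injective, Finset.card_range]
      intro q q' h
      exact congrArg Prod.fst (IB_nu_inj h)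
    exact h4.symm.le.trans (Finset.card_le_card h2)

theorem IB_no {G : BF'} (h0 : [] ∉ G) (a : ℕ → Bool) (ha : IndE a (IB_E G)) :
    ∃ A : List Bool → Bool, szE a (IB_E G) + G.countP (falsB A) ≤ G.length := by
  classical
  -- independence in terms of vertices
  have hind : ∀ x ∈ IB_vs G.length, ∀ y ∈ IB_vs G.length, IB_adj G x y = true →
      a (IB_nu x) = true → a (IB_nu y) = true → False := by
    intro x hx y hy hxy hax hay
    refine ha (IB_nu x, IB_nu y) ?_ ⟨hax, hay⟩
    unfold IB_E mapE
    exact List.mem_map.2 ⟨(x, y), IB_mem_ed.2 ⟨⟨hx, hy⟩, hxy⟩, rfl⟩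
  -- at most one vertex in every clause
  have hone : ∀ x ∈ IB_vs G.length, ∀ y ∈ IB_vs G.length, x.1 = y.1 →
      a (IB_nu x) = true → a (IB_nu y) = true → x = y := by
    intro x hx y hy hxy hax hay
    rcases lt_trichotomy x.2 y.2 with h | h | h
    · exact (hind x hx y hy (IB_adj_iff.2 (Or.inl ⟨hxy, h⟩)) hax hay).elim
    · exact Prod.ext hxy h
    · exact (hind y hy x hx (IB_adj_iff.2 (Or.inl ⟨hxy.symm, h⟩)) hay hax).elim
  -- no contradictory literals
  have hcon : ∀ x ∈ IB_vs G.length, ∀ y ∈ IB_vs G.length,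
      a (IB_nu x) = true → a (IB_nu y) = true → (IB_lit G x).2 = (IB_lit G y).2 →
      (IB_lit G x).1 = (IB_lit G y).1 := by
    intro x hx y hy hax hay hv
    by_contra hs
    rcases lt_trichotomy x.1 y.1 with h | h | h
    · exact hind x hx y hy (IB_adj_iff.2 (Or.inr ⟨h, hv, hs⟩)) hax hay
    · exact hs (by rw [hone x hx y hy h hax hay])
    · exact hind y hy x hx (IB_adj_iff.2 (Or.inr ⟨h, hv.symm, fun e => hs e.symm⟩)) hay hax
  refine ⟨fun w => decide (∃ x ∈ IB_vs G.length, a (IB_nu x) = true ∧
    IB_lit G x = (true, w)), ?_⟩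
  obtain ⟨A, hA⟩ : ∃ A : List Bool → Bool, A = fun w => decide (∃ x ∈ IB_vs G.length,
    a (IB_nu x) = true ∧ IB_lit G x = (true, w)) := ⟨_, rfl⟩
  rw [← hA]
  have hval : ∀ x ∈ IB_vs G.length, a (IB_nu x) = true →
      A (IB_lit G x).2 = (IB_lit G x).1 := by
    intro x hx hax
    rw [hA]
    rcases hs : (IB_lit G x).1 with _ | _
    · rw [decide_eq_false_iff_not]
      rintro ⟨y, hy, hay, hyl⟩
      have h1 := hcon x hx y hy hax hay (by rw [hyl])
      rw [hs, hyl] at h1
      cases h1
    · rw [decide_eq_true_eq]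
      exact ⟨x, hx, hax, by rw [← hs]⟩
  obtain ⟨sel, hsel⟩ : ∃ sel : ℕ → Bool, ∀ q, sel q = true ↔ ∃ b, b < 3 ∧
      a (IB_nu (q, b)) = true := by
    refine ⟨fun q => (List.range 3).any (fun b => a (IB_nu (q, b))), fun q => ?_⟩
    simp only [List.any_eq_true, List.mem_range]
  have h1 : G.countP (falsB A) ≤ (List.range G.length).countP (fun q => !(sel q)) := by
    have h2 : G.countP (falsB A) =
        (List.range G.length).countP (fun q => falsB A (G.getD q [])) := by
      conv_lhs => rw [← IB_range_getD G]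
      rw [List.countP_map]
      rfl
    rw [h2]
    refine List.countP_mono_left fun q hq hf => ?_
    rw [List.mem_range] at hq
    rw [Bool.not_eq_true', ← Bool.not_eq_true, hsel]
    rintro ⟨b, hb, hab⟩
    have hm : (q, b) ∈ IB_vs G.length := IB_mem_vs.2 ⟨hq, hb⟩
    rw [falsB_iff] at hf
    exact hf _ (IB_lit_mem h0 (x := (q, b)) hq) (hval _ hm hab)
  have h2 : szE a (IB_E G) ≤ (List.range G.length).countP sel := by
    have hc : ∀ q, ∃ b, sel q = true → b < 3 ∧ a (IB_nu (q, b)) = true := by
      intro q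
      by_cases h : sel q = true
      · obtain ⟨b, hb⟩ := (hsel q).1 h
        exact ⟨b, fun _ => hb⟩
      · exact ⟨0, fun h' => absurd h' h⟩
    choose b hb using hc
    unfold szE
    have h3 : (endsE (IB_E G)).toFinset.filter (fun v => a v = true) ⊆
        (((List.range G.length).filter sel).map (fun q => IB_nu (q, b q))).toFinset := by
      intro v hv
      rw [Finset.mem_filter, List.mem_toFinset] at hv
      obtain ⟨hv, hav⟩ := hv
      unfold IB_E at hv
      rw [IB_ends_map] at hv
      obtain ⟨x, hx, rfl⟩ := List.mem_map.1 hv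
      have hxm : x ∈ IB_vs G.length := by
        unfold endsE at hx
        obtain ⟨e, he, hxe⟩ := List.mem_flatMap.1 hx
        have h1 := (IB_mem_ed.1 he).1
        simp only [List.mem_cons, List.not_mem_nil, or_false] at hxe
        rcases hxe with rfl | rfl
        · exact h1.1
        · exact h1.2
      have hx' := IB_mem_vs.1 hxm
      have hs : sel x.1 = true := (hsel _).2 ⟨x.2, hx'.2, hav⟩
      rw [List.mem_toFinset, List.mem_map]
      refine ⟨x.1, List.mem_filter.2 ⟨List.mem_range.2 hx'.1, hs⟩, ?_⟩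
      congr 1
      exact hone (x.1, b x.1) (IB_mem_vs.2 ⟨hx'.1, (hb _ hs).1⟩) x hxm rfl (hb _ hs).2 hav
    refine (Finset.card_le_card h3).trans ((List.toFinset_card_le _).trans ?_)
    rw [List.length_map, List.countP_eq_length_filter]
  have h3 := countP_not_add sel (List.range G.length)
  rw [List.length_range] at h3
  omega

/-! ### The transfer -/

theorem IB_fwd {p q b : ℕ} (hp : 0 < p) (hq : 0 < q) (hb : 0 < b)
    (hsep : GSep enCut (fun I => SimpD 24 I.2 ∧ nvE I.2 ≤ 3 * I.1) YI
      (NI ((p : ℚ) / (2 * q : ℕ))) nvCut (3 * b)) :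
    GSep encF V3 Y3 (N3 ((p : ℚ) / (q : ℕ))) List.length b := by
  have hh : PTime (fun x => mydiv (parse x).length b) :=
    mydiv_ptime (PTime.length parse_ptime) (PTime.const b)
  refine transfer IB_F_ptime hh (fun F _ => length_le_encF F) ?_ hsep
  rintro F ⟨hne, h3, h0, hocc⟩
  have hlen : (parse (encF F)).length = F.length := by
    rw [parse_encF, IB_binF_length]
  have hm : 0 < F.length := List.length_pos_iff.2 hne
  have hG0 : [] ∉ binF F := by
    intro h
    unfold binF at h
    obtain ⟨c, hc, hc'⟩ := List.mem_map.1 h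
    rw [List.map_eq_nil_iff] at hc'
    exact h0 (hc' ▸ hc)
  have hG3 : ∀ c ∈ binF F, c.length ≤ 3 := by
    intro c hc
    unfold binF at hc
    obtain ⟨c', hc', rfl⟩ := List.mem_map.1 hc
    rw [List.length_map]
    exact h3 c' hc'
  have hGo : ∀ w, ((binF F).flatten.map (fun l => l.2)).count w ≤ 3 := by
    intro w
    have h1 : (binF F).flatten.map (fun l => l.2) =
        (F.flatten.map (fun l => l.2)).map Nat.bits := by
      unfold binF
      rw [← List.map_flatten, List.map_map, List.map_map]
      rfl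
    rw [h1]
    by_cases h : ∃ v, Nat.bits v = w
    · obtain ⟨v, rfl⟩ := h
      rw [List.count_map_of_injective _ _ (fun x y hxy => by
        rw [← unbits_bits x, hxy, unbits_bits])]
      exact hocc v
    · rw [List.count_eq_zero_of_not_mem]
      · exact Nat.zero_le _
      · intro hm
        obtain ⟨x, _, hx⟩ := List.mem_map.1 hm
        exact h ⟨x, hx⟩
  have hnv : nvE (IB_E (binF F)) ≤ 3 * F.length := by
    have := IB_nv (binF F)
    rwa [IB_binF_length] at this
  refine ⟨(F.length, IB_E (binF F)), ⟨IB_simp hG0 hGo, hnv⟩, (IB_F_enc F).symm, ?_, ?_, ?_, ?_⟩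
  · rintro ⟨α, hα⟩
    obtain ⟨a, h1, h2⟩ := IB_yes hG3 (fun w => α (unbits w)) (by
      intro c hc
      unfold binF at hc
      obtain ⟨c', hc', rfl⟩ := List.mem_map.1 hc
      obtain ⟨l, hl, hl'⟩ := hα c' hc'
      refine ⟨(l.1, Nat.bits l.2), List.mem_map.2 ⟨l, hl, rfl⟩, ?_⟩
      simp only [unbits_bits]
      exact hl')
    rw [IB_binF_length] at h2
    exact ⟨a, h1, h2⟩
  · intro hN a ha
    simp only at ha ⊢
    obtain ⟨A, hA⟩ := IB_no hG0 a ha
    rw [IB_binF_length] at hA
    have hF : F.countP (falsB (fun v => A (Nat.bits v))) = (binF F).countP (falsB A) := by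
      unfold binF
      rw [List.countP_map]
      congr 1
      funext c
      simp only [Function.comp, falsB, List.any_map]
      rfl
    have h1 := hN (fun v => A (Nat.bits v))
    rw [frac_iff hq, hF] at h1
    rw [lt_frac_iff (by positivity)]
    have h2 : q * szE a (IB_E (binF F)) + q * (binF F).countP (falsB A) ≤ q * F.length := by
      rw [← Nat.mul_add]
      exact Nat.mul_le_mul_left _ hA
    have h4 : 0 < p * F.length := Nat.mul_pos hp hm
    have e1 : 2 * q * szE a (IB_E (binF F)) = 2 * (q * szE a (IB_E (binF F))) := by ring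
    have e3 : 2 * q * F.length = 2 * (q * F.length) := by ring
    rw [e1, e3]
    omega
  · rw [hlen, mydiv_eq hb]
    have h1 : nvCut (F.length, IB_E (binF F)) ≤ 3 * F.length := hnv
    have h2 := Nat.div_le_div_right (c := 3 * b) h1
    rwa [Nat.mul_div_mul_left _ _ (by norm_num)] at h2
  · rw [hlen, mydiv_eq hb]

theorem p_IB : S_R3 → S_IB := by
  intro _ h
  obtain ⟨p, q, b, hp, hpq, hb, h⟩ := sparse_of h
  have h1 : (0 : ℚ) < p := by exact_mod_cast hp
  have h2 : (0 : ℚ) < (2 * q : ℕ) := by
    have : 0 < 2 * q := by omega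
    exact_mod_cast this
  refine ⟨24, by norm_num, (p : ℚ) / (2 * q : ℕ), by positivity, ?_, 3 * b, by omega,
    fun hs => h (IB_fwd hp (by omega) hb hs)⟩
  rw [div_lt_one h2]
  have : p < 2 * q := by omega
  exact_mod_cast this

end Pool.Agent.Lib.MP_87d05f_lc.HG
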