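import Pool.Agent.Lib.MP_87d05f_lc.HG.Stm

set_option autoImplicit false

/-!
# MP_87d05f_lc, instances of large girth: without index cycles the index graph has large girth
-/

namespace Pool.Agent.Lib.MP_87d05f_lc.HG

open Pool.Agent.Lib.MP_87d05f_lc

/-- A cycle as a periodic sequence of vertices. -/
theorem IDX_periodic {V : Type} (G : SimpleGraph V) (x : V) (w : G.Walk x x) (hw : w.IsCycle) :
    ∃ u : ℕ → V, (∀ n, u (n + w.length) = u n) ∧ (∀ n, G.Adj (u n) (u (n + 1))) ∧
      ∀ n m, u n = u m → n % w.length = m % w.length := by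
  have hL : 3 ≤ w.length := hw.three_le_length
  refine ⟨fun n => w.getVert (n % w.length), fun n => ?_, fun n => ?_, fun n m h => ?_⟩
  · simp only [Nat.add_mod_right]
  · have h1 : n % w.length < w.length := Nat.mod_lt _ (by omega)
    have h2 := w.adj_getVert_succ h1
    have h3 : w.getVert ((n + 1) % w.length) = w.getVert (n % w.length + 1) := by
      by_cases h4 : n % w.length + 1 < w.length
      · rw [Nat.add_mod, Nat.mod_eq_of_lt (show 1 < w.length by omega), Nat.mod_eq_of_lt h4]
      · have h5 : n % w.length + 1 = w.length := by omega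
        rw [Nat.add_mod, Nat.mod_eq_of_lt (show 1 < w.length by omega), h5, Nat.mod_self,
          w.getVert_length, w.getVert_zero]
    simp only
    rw [h3]
    exact h2
  · have h1 : n % w.length < w.length := Nat.mod_lt _ (by omega)
    have h2 : m % w.length < w.length := Nat.mod_lt _ (by omega)
    exact hw.getVert_injOn' (by simp only [Set.mem_ofPred_eq]; omega)
      (by simp only [Set.mem_ofPred_eq]; omega) h

theorem IDX_adj {T : Type} {k W N : ℕ} (H : T → List (Fin k → Fin N × Fin W))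
    {x y : (T × ℕ) ⊕ Fin N} (h : (idxG H).Adj x y) :
    (∃ (q : T × ℕ) (j : Fin N) (c : Fin k → Fin N × Fin W) (a : Fin k),
      x = Sum.inl q ∧ y = Sum.inr j ∧ (H q.1)[q.2]? = some c ∧ (c a).1 = j) ∨
    (∃ (q : T × ℕ) (j : Fin N) (c : Fin k → Fin N × Fin W) (a : Fin k),
      y = Sum.inl q ∧ x = Sum.inr j ∧ (H q.1)[q.2]? = some c ∧ (c a).1 = j) := by
  rw [idxG, SimpleGraph.fromRel_adj] at h
  rcases h.2 with ⟨τ, n, i, c, a, h1, h2, h3, h4⟩ | ⟨τ, n, i, c, a, h1, h2, h3, h4⟩
  · exact Or.inl ⟨(τ, n), i, c, a, h1, h2, h3, h4⟩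
  · exact Or.inr ⟨(τ, n), i, c, a, h1, h2, h3, h4⟩

theorem IDX_side {T : Type} {k W N : ℕ} (H : T → List (Fin k → Fin N × Fin W))
    {x y : (T × ℕ) ⊕ Fin N} (h : (idxG H).Adj x y) : y.isLeft = !x.isLeft := by
  rcases IDX_adj H h with ⟨q, j, c, a, rfl, rfl, -, -⟩ | ⟨q, j, c, a, rfl, rfl, -, -⟩ <;> rfl

theorem p_IDX : S_IDX := by
  intro T k W N g H hno
  by_contra hg
  rw [not_lt] at hg
  have hac : ¬ (idxG H).IsAcyclic := by
    intro hac
    rw [SimpleGraph.egirth_eq_top.2 hac] at hg
    exact absurd hg (by simp)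
  obtain ⟨x, w, hw, hwl⟩ := SimpleGraph.exists_egirth_eq_length.2 hac
  rw [hwl] at hg
  have hLg : w.length ≤ g := by exact_mod_cast hg
  have hL3 : 3 ≤ w.length := hw.three_le_length
  obtain ⟨u, hu1, hu2, hu3⟩ := IDX_periodic _ x w hw
  set L := w.length with hLdef
  -- the sides alternate
  have hside : ∀ n, (u (n + 1)).isLeft = !(u n).isLeft := fun n => IDX_side H (hu2 n)
  have hside2 : ∀ n t, (u (n + 2 * t)).isLeft = (u n).isLeft := by
    intro n t
    induction t with
    | zero => rfl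
    | succ t ih =>
      rw [show n + 2 * (t + 1) = n + 2 * t + 1 + 1 by ring, hside, hside, Bool.not_not, ih]
  have hev : ∃ r, L = 2 * (r + 1) := by
    rcases Nat.even_or_odd' L with ⟨r, hr | hr⟩
    · exact ⟨r - 1, by omega⟩
    · exfalso
      have h1 := hu1 0
      have h2 := hside2 0 r
      have h3 := hside (0 + 2 * r)
      rw [h2] at h3
      have h4 : 0 + L = 0 + 2 * r + 1 := by omega
      rw [← h4, h1] at h3
      revert h3
      cases (u 0).isLeft <;> decide
  obtain ⟨r, hr⟩ := hev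
  -- start at an index
  obtain ⟨v, hv1, hv2, hv3, hv4⟩ : ∃ v : ℕ → (T × ℕ) ⊕ Fin N, (∀ n, v (n + L) = v n) ∧
      (∀ n, (idxG H).Adj (v n) (v (n + 1))) ∧ (∀ n m, v n = v m → n % L = m % L) ∧
      (v 0).isLeft = false := by
    cases h0 : (u 0).isLeft with
    | false => exact ⟨u, hu1, hu2, hu3, h0⟩
    | true =>
      refine ⟨fun n => u (n + 1), fun n => ?_, fun n => hu2 _, fun n m h => ?_, ?_⟩
      · simp only
        rw [show n + L + 1 = n + 1 + L by ring]
        exact hu1 _
      · have h1 := hu3 _ _ h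
        exact Nat.ModEq.add_right_cancel' 1 h1
      · simp only
        rw [hside, h0]
        rfl
  have hvs : ∀ n, (v (n + 1)).isLeft = !(v n).isLeft := fun n => IDX_side H (hv2 n)
  have hev0 : ∀ t, (v (2 * t)).isLeft = false := by
    intro t
    induction t with
    | zero => exact hv4
    | succ t ih =>
      rw [show 2 * (t + 1) = 2 * t + 1 + 1 by ring, hvs, hvs, Bool.not_not, ih]
  have hi : ∀ t, ∃ j : Fin N, v (2 * t) = Sum.inr j := by
    intro t
    have h := hev0 t
    cases hvt : v (2 * t) with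
    | inl q => rw [hvt] at h; exact absurd h (by simp)
    | inr j => exact ⟨j, rfl⟩
  have hp : ∀ t, ∃ q : T × ℕ, v (2 * t + 1) = Sum.inl q := by
    intro t
    have h := hvs (2 * t)
    rw [hev0 t] at h
    cases hvt : v (2 * t + 1) with
    | inl q => exact ⟨q, rfl⟩
    | inr j => rw [hvt] at h; exact absurd h (by simp)
  choose i hi using hi
  choose p hp using hp
  have hne : ∀ t, i t ≠ i (t + 1) := by
    intro t h
    have h1 : v (2 * t) = v (2 * t + 2) := by
      rw [hi t, show 2 * t + 2 = 2 * (t + 1) by ring, hi (t + 1), h]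
    have h2 := hv3 _ _ h1
    have h3 : (0 : ℕ) ≡ 2 [MOD L] := Nat.ModEq.add_left_cancel' (2 * t) h2
    have h4 : (0 : ℕ) % L = 2 % L := h3
    rw [Nat.zero_mod, Nat.mod_eq_of_lt (by omega)] at h4
    omega
  have hab : ∀ t, ∃ (a b : Fin k) (c : Fin k → Fin N × Fin W),
      (H (p t).1)[(p t).2]? = some c ∧ (c a).1 = i t ∧ (c b).1 = i (t + 1) := by
    intro t
    have h1 := hv2 (2 * t)
    have h2 := hv2 (2 * t + 1)
    rw [hi t, hp t] at h1
    rw [hp t, show 2 * t + 1 + 1 = 2 * (t + 1) by ring, hi (t + 1)] at h2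
    rcases IDX_adj H h1 with ⟨q, j, c, a, e1, -, -, -⟩ | ⟨q, j, c, a, e1, e2, e3, e4⟩
    · exact absurd e1 (by simp)
    · rcases IDX_adj H h2 with ⟨q', j', c', b, e1', e2', e3', e4'⟩ | ⟨q', j', c', b, e1', -, -, -⟩
      · have hq : p t = q := Sum.inl.inj e1
        have hq' : p t = q' := Sum.inl.inj e1'
        have hj : i t = j := Sum.inr.inj e2
        have hj' : i (t + 1) = j' := Sum.inr.inj e2'
        subst hq
        subst hj
        rw [← hq', e3] at e3'
        have hc : c = c' := Option.some.inj e3'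
        subst hc
        exact ⟨a, b, c, e3, e4, e4'.trans hj'.symm⟩
      · exact absurd e1' (by simp)
  choose a b c hc ha hb using hab
  have hper : i (r + 1) = i 0 := by
    have h1 := hv1 0
    rw [show 0 + L = 2 * (r + 1) by omega, hi (r + 1), show (0 : ℕ) = 2 * 0 from rfl, hi 0] at h1
    exact Sum.inr.inj h1
  refine hno r (by omega) (fun t => p t) (fun t => a t) (fun t => b t) (fun t => i t)
    ⟨fun t t' h => ?_, fun t h => ?_, fun t => ⟨c t, hc t, ha t, ?_⟩⟩
  · have h1 : v (2 * (t : ℕ) + 1) = v (2 * (t' : ℕ) + 1) := by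
      rw [hp, hp]
      exact congrArg Sum.inl h
    have h2 := hv3 _ _ h1
    have h3 := t.2
    have h4 := t'.2
    rw [Nat.mod_eq_of_lt (by omega), Nat.mod_eq_of_lt (by omega)] at h2
    exact Fin.ext (by omega)
  · apply hne t
    rw [← ha t, ← hb t]
    exact congrArg (fun z => (c t z).1) h
  · rw [hb t]
    simp only
    rw [Fin.val_add_one]
    split_ifs with h
    · rw [h, Fin.val_last, hper]
    · rfl

end Pool.Agent.Lib.MP_87d05f_lc.HG
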