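import Pool.Agent.Lib.MP_87d05f_lc.HG.Stm

set_option autoImplicit false

/-!
# MP_87d05f_lc, instances of large girth: the independence number
-/

namespace Pool.Agent.Lib.MP_87d05f_lc.HG

open Pool.Agent.Lib.MP_87d05f_lc Pool.Agent.PolyTime Turing

theorem IND_getD (w n : ℕ) (hn : n < 3) : [w, w, w].getD n 0 = w := by
  rcases n with _ | _ | _ | n
  · rfl
  · rfl
  · rfl
  · omega

theorem IND_thr {V : Type} [DecidableEq V] (col : V → ℕ) (w N : ℕ) (I : ℕ × List (V × V))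
    (hcol : ∀ v, col v < 3) : thrE col [w, w, w] N I = w * nvE I.2 + N * I.1 := by
  unfold thrE nvE
  have h1 : (ded (endsE I.2)).map (fun v => [w, w, w].getD (col v) 0) =
      (ded (endsE I.2)).map (fun _ => w) :=
    List.map_congr_left fun v _ => IND_getD w (col v) (hcol v)
  rw [h1, List.map_const', List.sum_replicate, smul_eq_mul, ded_length, Nat.mul_comm]

theorem IND_arith {ε₀ : ℚ} {h₁ N D K n t s s' : ℕ} (h0 : 0 < ε₀) (hh : 6 ≤ ε₀ * (h₁ : ℚ))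
    (hh1 : 0 < h₁) (hN : 0 < N) (hn : n ≤ 3 * t)
    (hs : ((s : ℕ) : ℚ) < (1 - ε₀) * (t : ℚ))
    (hs' : h₁ * s' ≤ h₁ * (N * (2 * D * K - 1) * n + N * s) + N * n) :
    ((s' : ℕ) : ℚ) < (1 - ε₀ / ((4 * (6 * D * K + 1) : ℕ) : ℚ)) *
      ((N * (2 * D * K - 1) * n + N * t : ℕ) : ℚ) := by
  have hN' : (0 : ℚ) < (N : ℚ) := by exact_mod_cast hN
  have hh1' : (0 : ℚ) < (h₁ : ℚ) := by exact_mod_cast hh1
  have hn' : (n : ℚ) ≤ 3 * (t : ℚ) := by exact_mod_cast hn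
  have ht0 : (0 : ℚ) ≤ (t : ℚ) := Nat.cast_nonneg t
  have hs2 : (h₁ : ℚ) * (s' : ℚ) ≤ (h₁ : ℚ) * (((N * (2 * D * K - 1) * n : ℕ) : ℚ) +
      (N : ℚ) * (s : ℚ)) + (N : ℚ) * (n : ℚ) := by exact_mod_cast hs'
  obtain ⟨w, hw⟩ : ∃ w : ℚ, w = ((N * (2 * D * K - 1) * n : ℕ) : ℚ) := ⟨_, rfl⟩
  rw [← hw] at hs2
  -- the upper bound for the threshold
  have hw2 : w ≤ (N : ℚ) * (t : ℚ) * (6 * (D : ℚ) * (K : ℚ)) := by
    have h1 : N * (2 * D * K - 1) * n ≤ N * (2 * D * K) * (3 * t) :=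
      Nat.mul_le_mul (Nat.mul_le_mul_left _ (by omega)) hn
    have h2 : ((N * (2 * D * K - 1) * n : ℕ) : ℚ) ≤ ((N * (2 * D * K) * (3 * t) : ℕ) : ℚ) := by
      exact_mod_cast h1
    rw [hw]
    refine h2.trans (le_of_eq ?_)
    push_cast
    ring
  have hM : (0 : ℚ) < ((4 * (6 * D * K + 1) : ℕ) : ℚ) := by
    have : 0 < 4 * (6 * D * K + 1) := by omega
    exact_mod_cast this
  have hMe : ((4 * (6 * D * K + 1) : ℕ) : ℚ) = 4 * (6 * (D : ℚ) * (K : ℚ) + 1) := by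
    push_cast
    ring
  have hthr : ((N * (2 * D * K - 1) * n + N * t : ℕ) : ℚ) = w + (N : ℚ) * (t : ℚ) := by
    rw [hw]
    push_cast
    ring
  rw [hthr]
  -- `ε t' ≤ ε₀ N t / 4`
  have h1 : ε₀ / ((4 * (6 * D * K + 1) : ℕ) : ℚ) * (w + (N : ℚ) * (t : ℚ)) ≤
      ε₀ * ((N : ℚ) * (t : ℚ)) / 4 := by
    rw [div_mul_eq_mul_div, div_le_iff₀ hM, hMe]
    have h2 : w + (N : ℚ) * (t : ℚ) ≤ (N : ℚ) * (t : ℚ) * (6 * (D : ℚ) * (K : ℚ) + 1) := by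
      linarith [hw2]
    have h3 := mul_le_mul_of_nonneg_left h2 h0.le
    refine h3.trans (le_of_eq ?_)
    ring
  -- the upper bound for `s'`
  have h4 : (N : ℚ) * (s : ℚ) < (N : ℚ) * ((1 - ε₀) * (t : ℚ)) := mul_lt_mul_of_pos_left hs hN'
  have h5 : (N : ℚ) * (n : ℚ) ≤ (N : ℚ) * (3 * (t : ℚ)) := mul_le_mul_of_nonneg_left hn' hN'.le
  have hNt : (0 : ℚ) ≤ (N : ℚ) * (t : ℚ) := mul_nonneg hN'.le ht0
  have h6 : (N : ℚ) * (3 * (t : ℚ)) ≤ (h₁ : ℚ) * (ε₀ * ((N : ℚ) * (t : ℚ)) / 2) := by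
    have h7 := mul_le_mul_of_nonneg_right hh hNt
    linarith
  have h8 : (h₁ : ℚ) * (s' : ℚ) < (h₁ : ℚ) * (w + (N : ℚ) * ((1 - ε₀) * (t : ℚ)) +
      ε₀ * ((N : ℚ) * (t : ℚ)) / 2) := by
    have h9 := mul_lt_mul_of_pos_left h4 hh1'
    have e1 : (h₁ : ℚ) * (w + (N : ℚ) * (s : ℚ)) = (h₁ : ℚ) * w + (h₁ : ℚ) * ((N : ℚ) * (s : ℚ)) := by
      ring
    have e2 : (h₁ : ℚ) * (w + (N : ℚ) * ((1 - ε₀) * (t : ℚ)) + ε₀ * ((N : ℚ) * (t : ℚ)) / 2) =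
        (h₁ : ℚ) * w + (h₁ : ℚ) * ((N : ℚ) * ((1 - ε₀) * (t : ℚ))) +
          (h₁ : ℚ) * (ε₀ * ((N : ℚ) * (t : ℚ)) / 2) := by
      ring
    rw [e1] at hs2
    rw [e2]
    linarith
  have h10 : (s' : ℚ) < w + (N : ℚ) * ((1 - ε₀) * (t : ℚ)) + ε₀ * ((N : ℚ) * (t : ℚ)) / 2 :=
    lt_of_mul_lt_mul_left h8 hh1'.le
  have h11 : 0 ≤ ε₀ * ((N : ℚ) * (t : ℚ)) := mul_nonneg h0.le hNt
  have e3 : (1 - ε₀ / ((4 * (6 * D * K + 1) : ℕ) : ℚ)) * (w + (N : ℚ) * (t : ℚ)) =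
      w + (N : ℚ) * (t : ℚ) - ε₀ / ((4 * (6 * D * K + 1) : ℕ) : ℚ) * (w + (N : ℚ) * (t : ℚ)) := by
    ring
  have e4 : w + (N : ℚ) * ((1 - ε₀) * (t : ℚ)) + ε₀ * ((N : ℚ) * (t : ℚ)) / 2 =
      w + (N : ℚ) * (t : ℚ) - ε₀ * ((N : ℚ) * (t : ℚ)) / 2 := by
    ring
  rw [e3]
  rw [e4] at h10
  linarith

theorem p_IND : S_PAT → S_RNG → S_INJ → S_GTR → S_IB → S_I1 → S_I2 → S_I3 → S_I4 → S_IND := by
  intro hPAT hRNG hINJ hGTR hIB hI1 hI2 hI3 hI4 hG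
  obtain ⟨D, hD, ε₀, h0, h01, b₀, hb₀, hno⟩ := hIB hG
  obtain ⟨h₁, hh₁⟩ : ∃ h₁ : ℕ, 6 / ε₀ ≤ (h₁ : ℚ) := ⟨_, Nat.le_ceil _⟩
  have hh : 6 ≤ ε₀ * (h₁ : ℚ) := by
    rw [div_le_iff₀ h0] at hh₁
    linarith
  have hh1 : 0 < h₁ := by
    rcases Nat.eq_zero_or_pos h₁ with h | h
    · rw [h, Nat.cast_zero, mul_zero] at hh
      norm_num at hh
    · exact h
  obtain ⟨C, K, hC, hK, hpat⟩ := hPAT 2 (h₁ ^ 2) (by positivity)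
  have hM : (0 : ℚ) < ((4 * (6 * D * K + 1) : ℕ) : ℚ) := by
    have : 0 < 4 * (6 * D * K + 1) := by omega
    exact_mod_cast this
  refine ⟨ε₀ / ((4 * (6 * D * K + 1) : ℕ) : ℚ), div_pos h0 hM, ?_, fun g => ?_⟩
  · rw [div_lt_one hM]
    refine h01.trans ?_
    have : 1 < 4 * (6 * D * K + 1) := by omega
    exact_mod_cast this
  obtain ⟨N, hN, H, hH⟩ := hpat (Fin D × Fin D) 1 (2 * g + 4) one_pos
  obtain ⟨B, hB, hmach⟩ := hGTR (LocI N) (CLI N D K) (XLI K H)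
    [N * (2 * D * K - 1), N * (2 * D * K - 1), N * (2 * D * K - 1)] N
  refine ⟨B * b₀, Nat.mul_pos hB hb₀, fun hsep => hno ?_⟩
  refine hmach _ _ _ _ _ _ b₀ hb₀ ?_ hsep
  rintro ⟨t, E⟩ ⟨hS, hnv⟩
  simp only at hS hnv ⊢
  have hcol : ∀ v : ℕ, colN v < 3 := fun v => Nat.mod_lt _ (by norm_num)
  obtain ⟨r1, r2, r3, r4, r5⟩ := hRNG (ℕ × LocI N) ℕ nuG (hINJ.2.2.1 (LocI N))
    (cloudE colN (CLI N D K) (XLI K H) E)
  have hthr : thrE colN [N * (2 * D * K - 1), N * (2 * D * K - 1), N * (2 * D * K - 1)] N (t, E) =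
      N * (2 * D * K - 1) * nvE E + N * t := IND_thr colN _ N (t, E) hcol
  rw [hthr]
  refine ⟨⟨?_, ?_⟩, ?_, ?_⟩
  · have h2 := r1 3 (hI3 ℕ D N K (h₁ ^ 2) C (2 * g + 4) H colN E hD hK hH hcol hS)
    exact h2
  · exact r2 g (hI4 ℕ D N K (h₁ ^ 2) C g H colN E hD hK hH hcol hS)
  · rintro ⟨a, ha, hta⟩
    obtain ⟨a', ha', hsz⟩ := hI1 ℕ D N K (h₁ ^ 2) C (2 * g + 4) H colN E a hD hK hH hcol hS ha
    obtain ⟨a'', ha''⟩ := r5 a'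
    have ha3 : (fun v => a'' (nuG v)) = a' := funext ha''
    obtain ⟨-, q2, q3⟩ := r4 a''
    rw [ha3] at q2 q3
    refine ⟨a'', q2.2 ha', ?_⟩
    simp only at hta ⊢
    rw [q3, hsz]
    have := Nat.mul_le_mul_left N hta
    omega
  · intro hN2 a'' ha''
    simp only at ha'' ⊢
    obtain ⟨-, q2, q3⟩ := r4 a''
    rw [q3]
    obtain ⟨a, ha, hle⟩ := hI2 ℕ D N K h₁ C (2 * g + 4) H colN E (fun v => a'' (nuG v)) hD hK hN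
      (by omega) hh1 hH hcol hS (q2.1 ha'')
    exact IND_arith h0 hh hh1 hN hnv (hN2 a ha) hle

end Pool.Agent.Lib.MP_87d05f_lc.HG
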