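import Pool.Agent.Lib.MP_87d05f_lc.HG.Stm

set_option autoImplicit false

/-!
# MP_87d05f_lc, instances of large girth: names are injective
-/

namespace Pool.Agent.Lib.MP_87d05f_lc.HG

open Pool.Agent.Lib.MP_87d05f_lc

theorem INJ_bits (w : List Bool) (t : ℕ) : Nat.bits (unbits (nb w t)) = nb w t := by
  obtain ⟨u, hu⟩ := nb_end w t
  rw [hu, bits_unbits]

theorem INJ_key {w w' : List Bool} {t t' : ℕ} (h : unbits (nb w t) = unbits (nb w' t')) :
    w = w' ∧ t = t' := by
  apply nb_inj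
  rw [← INJ_bits w t, ← INJ_bits w' t', h]

theorem INJ_col (w : List Bool) (t : ℕ) : colN (unbits (nb w t)) = t % 3 := by
  unfold colN
  rw [INJ_bits, unb_nb]

theorem p_INJ : S_INJ := by
  refine ⟨?_, ?_, ?_, ?_, ?_⟩
  · rintro N ⟨x, i⟩ ⟨y, j⟩ h
    obtain ⟨h1, h2⟩ := INJ_key h
    exact Prod.ext (bits_injective h1) (Fin.ext h2)
  · rintro ⟨x, i⟩ ⟨y, j⟩ h
    obtain ⟨h1, h2⟩ := INJ_key h
    exact Prod.ext (bits_injective h1) h2
  · rintro L _ ⟨x, i⟩ ⟨y, j⟩ h
    obtain ⟨h1, h2⟩ := INJ_key h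
    exact Prod.ext (bits_injective h1) (Encodable.encode_injective h2)
  · rintro (v | ⟨q, b⟩) (v' | ⟨q', b'⟩) h
    · obtain ⟨h1, _⟩ := INJ_key h
      rw [bits_injective h1]
    · obtain ⟨_, h2⟩ := INJ_key h
      cases b' <;> simp at h2
    · obtain ⟨_, h2⟩ := INJ_key h
      cases b <;> simp at h2
    · obtain ⟨h1, h2⟩ := INJ_key h
      have h3 : q = q' := by
        have := congrArg List.length h1
        simpa using this
      have h4 : b = b' := by
        cases b <;> cases b' <;> simp at h2 ⊢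
      rw [h3, h4]
  · rintro (v | ⟨q, b⟩)
    · exact INJ_col _ _
    · refine (INJ_col _ _).trans ?_
      cases b <;> rfl

end Pool.Agent.Lib.MP_87d05f_lc.HG
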