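import Pool.Agent.Lib.MP_87d05f_lc.HG.Stm

set_option autoImplicit false

namespace Pool.Agent.Lib.MP_87d05f_lc.HG

open Pool.Agent.Lib.MP_87d05f_lc Pool.Agent.PolyTime Turing Function

/-- the payoffs -/
def IR_phi : (i : Fin 2) → (Fin 2 → Fin 2) → ℕ := fun i x =>
  if i = 0 then (if x 0 = 1 then 1 else 0) else (if x 0 = 1 ∧ x 1 = 1 then 0 else 1)

/-- the constraints -/
def IR_con (i : Fin 2) (e : ℕ × ℕ) : Con (fun _ : Fin 2 => 2) := ⟨i, ![e.1, e.2]⟩

/-- the constraints of a graph -/
def IR_cons (E : List (ℕ × ℕ)) : List (Con (fun _ : Fin 2 => 2)) :=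
  (ded (endsE E)).map (fun v => IR_con 0 (v, v)) ++ E.map (IR_con 1)

theorem IR_word0 (e : ℕ × ℕ) : wordC (IR_con 0 e) = [] :: wordE e := by
  unfold wordC IR_con wordE
  simp

theorem IR_word1 (e : ℕ × ℕ) : wordC (IR_con 1 e) = [true] :: wordE e := by
  unfold wordC IR_con wordE
  simp

theorem IR_ded_map {α β : Type} [DecidableEq α] [DecidableEq β] (f : α → β) (hf : Injective f)
    (l : List α) : ded (l.map f) = (ded l).map f := by
  induction l with
  | nil => rfl
  | cons a l ih =>
    rw [List.map_cons, ded_cons, ded_cons, ih]
    by_cases h : a ∈ ded l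
    · have h' : f a ∈ (ded l).map f := List.mem_map_of_mem h
      simp only [h, h', decide_true, cond_true]
    · have h' : f a ∉ (ded l).map f := by
        rw [List.mem_map]
        rintro ⟨b, hb, hb'⟩
        exact h (hf hb' ▸ hb)
      simp only [h, h', decide_false, cond_false, List.map_cons]

theorem IR_flat (E : List (ℕ × ℕ)) : (E.map wordE).flatten = (endsE E).map Nat.bits := by
  induction E with
  | nil => rfl
  | cons e E ih =>
    rw [List.map_cons, List.flatten_cons, ih]
    unfold endsE
    rw [List.flatMap_cons, List.map_append]
    rfl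

theorem IR_countP {α : Type} [DecidableEq α] (l : List α) (p : α → Bool) :
    (ded l).countP p = (l.toFinset.filter (fun v => p v = true)).card := by
  rw [List.countP_eq_length_filter, ← List.toFinset_card_of_nodup ((nodup_ded l).filter p),
    List.toFinset_filter, ded_toFinset]

theorem IR_val (a : ℕ → Fin 2) (E : List (ℕ × ℕ)) :
    valC (ar := fun _ : Fin 2 => 2) IR_phi a (IR_cons E) =
      szE (fun v => decide (a v = 1)) E +
        E.countP (fun e => !(decide (a e.1 = 1) && decide (a e.2 = 1))) := by
  unfold valC IR_cons
  rw [List.map_append, List.sum_append]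
  congr 1
  · unfold szE
    rw [← IR_countP]
    induction ded (endsE E) with
    | nil => rfl
    | cons v l ih =>
      rw [List.map_cons, List.map_cons, List.sum_cons, ih, List.countP_cons, Nat.add_comm]
      congr 1
      by_cases h : a v = 1
      · simp [IR_phi, IR_con, h]
      · simp [IR_phi, IR_con, h]
  · induction E with
    | nil => rfl
    | cons e E ih =>
      rw [List.map_cons, List.map_cons, List.sum_cons, ih, List.countP_cons, Nat.add_comm]
      congr 1
      by_cases h : a e.1 = 1 <;> by_cases h' : a e.2 = 1 <;> simp [IR_phi, IR_con, h, h']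

theorem IR_len (E : List (ℕ × ℕ)) (S : Finset ℕ) :
    (E.flatMap (fun e => (if e.2 ∈ S then [e.1] else []) ++
      (if e.1 ∈ S then [e.2] else []))).length =
    ((endsE E).filter (fun v => decide (v ∈ S))).length := by
  induction E with
  | nil => rfl
  | cons e E ih =>
    unfold endsE at ih ⊢
    rw [List.flatMap_cons, List.flatMap_cons, List.filter_append]
    have key : ((if e.2 ∈ S then [e.1] else []) ++ (if e.1 ∈ S then [e.2] else [])).length =
        ([e.1, e.2].filter (fun v => decide (v ∈ S))).length := by
      by_cases h : e.1 ∈ S <;> by_cases h' : e.2 ∈ S <;> simp [h, h']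
    rw [List.length_append (as := [e.1, e.2].filter (fun v => decide (v ∈ S))), ← key, ← ih,
      List.length_append]

theorem IR_deg (l : List ℕ) (S : Finset ℕ) (h3 : ∀ v, l.count v ≤ 3) :
    (l.filter (fun v => decide (v ∈ S))).length ≤ 3 * S.card := by
  rw [← List.sum_toFinset_count_eq_length]
  calc _ ≤ ∑ v ∈ (l.filter (fun v => decide (v ∈ S))).toFinset, 3 :=
        Finset.sum_le_sum fun v _ =>
          le_trans (List.Sublist.count_le v List.filter_sublist) (h3 v)
    _ = (l.filter (fun v => decide (v ∈ S))).toFinset.card * 3 := by
        rw [Finset.sum_const, smul_eq_mul]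
    _ ≤ S.card * 3 := by
        refine Nat.mul_le_mul_right _ (Finset.card_le_card ?_)
        intro v hv
        rw [List.mem_toFinset, List.mem_filter] at hv
        simpa using hv.2
    _ = 3 * S.card := Nat.mul_comm _ _

theorem IR_max (E : List (ℕ × ℕ)) (h1 : ∀ e ∈ E, e.1 ≠ e.2) (h3 : ∀ v, (endsE E).count v ≤ 3) :
    ∃ a : ℕ → Bool, IndE a E ∧ nvE E ≤ 4 * szE a E := by
  classical
  obtain ⟨S, hS, hmax⟩ := Finset.exists_max_image
    ((endsE E).toFinset.powerset.filter (fun S => IndE (fun v => decide (v ∈ S)) E))
    Finset.card ⟨∅, by
      rw [Finset.mem_filter, Finset.mem_powerset]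
      refine ⟨Finset.empty_subset _, ?_⟩
      intro e _
      simp⟩
  rw [Finset.mem_filter, Finset.mem_powerset] at hS
  have hsz : szE (fun v => decide (v ∈ S)) E = S.card := by
    unfold szE
    congr 1
    ext v
    simp only [Finset.mem_filter, decide_eq_true_eq]
    exact ⟨fun h => h.2, fun h => ⟨hS.1 h, h⟩⟩
  refine ⟨fun v => decide (v ∈ S), hS.2, ?_⟩
  rw [hsz]
  have hsub : (endsE E).toFinset ⊆ S ∪ (E.flatMap (fun e => (if e.2 ∈ S then [e.1] else []) ++
      (if e.1 ∈ S then [e.2] else []))).toFinset := by
    intro v hv
    rw [Finset.mem_union]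
    by_cases hvS : v ∈ S
    · exact Or.inl hvS
    right
    rw [List.mem_toFinset, List.mem_flatMap]
    have hnot : ¬ IndE (fun w => decide (w ∈ insert v S)) E := by
      intro hI
      have := hmax (insert v S) (by
        rw [Finset.mem_filter, Finset.mem_powerset]
        exact ⟨Finset.insert_subset hv hS.1, hI⟩)
      rw [Finset.card_insert_of_notMem hvS] at this
      omega
    unfold IndE at hnot
    push Not at hnot
    obtain ⟨e, he, ha, hb⟩ := hnot
    rw [decide_eq_true_eq, Finset.mem_insert] at ha hb
    refine ⟨e, he, ?_⟩
    have hSe := hS.2 e he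
    simp only [decide_eq_true_eq] at hSe
    have hne := h1 e he
    rcases ha with ha | ha
    · rcases hb with hb | hb
      · exact absurd (ha.trans hb.symm) hne
      · simp [hb, ha]
    · rcases hb with hb | hb
      · simp [hb, ha]
      · exact absurd ⟨ha, hb⟩ hSe
  unfold nvE
  refine (Finset.card_le_card hsub).trans ((Finset.card_union_le _ _).trans ?_)
  have h4 : (E.flatMap (fun e => (if e.2 ∈ S then [e.1] else []) ++
      (if e.1 ∈ S then [e.2] else []))).toFinset.card ≤ 3 * S.card := by
    refine (List.toFinset_card_le _).trans ?_
    rw [IR_len]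
    exact IR_deg _ S h3
  omega

theorem IR_del (E : List (ℕ × ℕ)) (b : ℕ → Bool) : ∃ a : ℕ → Bool, IndE a E ∧
    szE b E + E.countP (fun e => !(b e.1 && b e.2)) ≤ szE a E + E.length := by
  classical
  obtain ⟨D, hD⟩ : ∃ D, D = ((E.filter (fun e => b e.1 && b e.2)).map Prod.fst).toFinset :=
    ⟨_, rfl⟩
  refine ⟨fun v => b v && decide (v ∉ D), ?_, ?_⟩
  · intro e he
    simp only [Bool.and_eq_true, decide_eq_true_eq]
    rintro ⟨⟨h1, h2⟩, h3, -⟩
    apply h2
    rw [hD, List.mem_toFinset, List.mem_map]
    exact ⟨e, List.mem_filter.2 ⟨he, by simp [h1, h3]⟩, rfl⟩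
  · have hc : D.card ≤ E.countP (fun e => b e.1 && b e.2) := by
      rw [hD]
      refine (List.toFinset_card_le _).trans ?_
      rw [List.length_map, List.countP_eq_length_filter]
    have hl : E.length = E.countP (fun e => b e.1 && b e.2) +
        E.countP (fun e => !(b e.1 && b e.2)) := by
      rw [List.length_eq_countP_add_countP (fun e : ℕ × ℕ => b e.1 && b e.2)]
      congr 1
      refine List.countP_congr fun e _ => ?_
      simp
    have hs : szE b E ≤ szE (fun v => b v && decide (v ∉ D)) E + D.card := by
      unfold szE
      refine le_trans (Finset.card_le_card ?_) (Finset.card_union_le _ _)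
      intro v hv
      rw [Finset.mem_filter] at hv
      rw [Finset.mem_union, Finset.mem_filter]
      by_cases h : v ∈ D
      · exact Or.inr h
      · exact Or.inl ⟨hv.1, by simp [hv.2, h]⟩
    omega

theorem p_IR : S_IR := by
  intro hnot p q b hp hpq hb
  have hq : 0 < q := by omega
  have hf : PTime (fun x => encW ([((parseW x).headD []).headD [] ++
      (parseW x).tail.map (fun _ => true)] ::
      ((ded (parseW x).tail.flatten).map (fun w => [[], w, w]) ++
        (parseW x).tail.map (fun c => [true] :: c)))) := by
    refine encW_ptime (PTime.cons (PTime.cons (PTime.append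
      (PTime.headD (PTime.headD parseW_ptime (PTime.const [])) (PTime.const []))
      (PTime.map (f := fun (_ : List Bool) (_ : List (List Bool)) => true)
        (PTime.tail parseW_ptime) (PTime.const true))) (PTime.const [])) (PTime.append ?_ ?_))
    · exact PTime.map (f := fun (_ : List Bool) (w : List Bool) => [[], w, w])
        (ded_ptime (PTime.flatten (PTime.tail parseW_ptime)))
        (PTime.cons (PTime.const []) (PTime.cons PTime.snd (PTime.cons PTime.snd
          (PTime.const []))))
    · exact PTime.map (f := fun (_ : List Bool) (c : List (List Bool)) => [true] :: c)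
        (PTime.tail parseW_ptime) (PTime.cons (PTime.const [true]) PTime.snd)
  have hh : PTime (fun x => mydiv ((ded (parseW x).tail.flatten).length +
      (parseW x).tail.length) (3 * b)) :=
    mydiv_ptime (PTime.add (PTime.length (ded_ptime (PTime.flatten (PTime.tail parseW_ptime))))
      (PTime.length (PTime.tail parseW_ptime))) (PTime.const (3 * b))
  have hs := max_rev (ar := fun _ : Fin 2 => 2) IR_phi (by norm_num) (sepK_of_not hnot)
    (p := p) (q := 9 * q) (b := 3 * b) hp (by omega) (by omega)
  refine transfer hf hh ?_ ?_ hs
  · intro I _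
    unfold enCut nvCut
    refine (List.toFinset_card_le _).trans ?_
    rw [length_ends]
    refine le_trans ?_ (encW_length _)
    have h1 : ∀ E : List (ℕ × ℕ), ((E.map wordE).map List.length).sum = 2 * E.length := by
      intro E
      induction E with
      | nil => rfl
      | cons e E ih =>
        rw [List.map_cons, List.map_cons, List.sum_cons, ih]
        unfold wordE
        simp only [List.length_cons, List.length_nil]
        omega
    rw [List.map_cons, List.sum_cons, h1]
    omega
  · rintro ⟨t, E⟩ hV
    have hx : parseW (enCut (t, E)) = [List.replicate t true] :: E.map wordE := by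
      unfold enCut
      rw [parseW_encW]
    have hded : ded (E.map wordE).flatten = (ded (endsE E)).map Nat.bits := by
      rw [IR_flat, IR_ded_map _ bits_injective]
    have hnv : nvE E = nvCut (t, E) := rfl
    have hnl : (ded (endsE E)).length = nvE E := ded_length _
    have hm := edges_le hV
    rw [← hnv] at hm
    simp only at hm
    have hlen : (IR_cons E).length = nvE E + E.length := by
      unfold IR_cons
      rw [List.length_append, List.length_map, List.length_map, hnl]
    have hl : mydiv ((ded (parseW (enCut (t, E))).tail.flatten).length +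
        (parseW (enCut (t, E))).tail.length) (3 * b) = (nvE E + E.length) / (3 * b) := by
      rw [hx, List.tail_cons, hded, List.length_map, List.length_map, hnl, mydiv_eq (by omega)]
    simp only [hl]
    refine ⟨(t + E.length, IR_cons E), trivial, ?_, ?_, ?_, ?_, ?_⟩
    · rw [hx]
      unfold enM
      rw [List.tail_cons, hded]
      simp only [List.headD_cons]
      have hA : ((ded (endsE E)).map (fun v => IR_con 0 (v, v))).map wordC =
          ((ded (endsE E)).map Nat.bits).map (fun w => [[], w, w]) := by
        rw [List.map_map, List.map_map]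
        refine List.map_congr_left fun v _ => ?_
        simp only [Function.comp, IR_word0]
        rfl
      have hB : (E.map (IR_con 1)).map wordC =
          (E.map wordE).map (fun c => [true] :: c) := by
        rw [List.map_map, List.map_map]
        refine List.map_congr_left fun e _ => ?_
        simp only [Function.comp, IR_word1]
      have hC : List.replicate (t + E.length) true =
          List.replicate t true ++ (E.map wordE).map (fun _ => true) := by
        rw [List.replicate_add, List.map_const', List.length_map]
      unfold IR_cons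
      rw [List.map_append, hA, hB, hC]
    · rintro ⟨a, hI, ha⟩
      refine ⟨fun v => if a v = true then 1 else 0, ?_⟩
      simp only at ha ⊢
      rw [IR_val]
      have h1 : (fun v => decide ((if a v = true then (1 : Fin 2) else 0) = 1)) = a := by
        funext v
        rcases a v with _ | _ <;> simp
      have h2 : E.countP (fun e => !(decide ((if a e.1 = true then (1 : Fin 2) else 0) = 1) &&
          decide ((if a e.2 = true then (1 : Fin 2) else 0) = 1))) = E.length := by
        rw [List.countP_eq_length]
        intro e he
        have := hI e he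
        by_cases h : a e.1 = true <;> by_cases h' : a e.2 = true <;> simp_all
      rw [h1, h2]
      exact Nat.add_le_add_right ha _
    · intro hN a
      simp only
      rw [IR_val, lt_frac_iff (by omega)]
      obtain ⟨a₁, hI₁, hle⟩ := IR_del E (fun v => decide (a v = 1))
      obtain ⟨a₀, hI₀, hn₀⟩ := IR_max E hV.1 hV.2.2
      have g1 := hN a₁ hI₁
      have g0 := hN a₀ hI₀
      rw [lt_frac_iff hq] at g1 g0
      simp only at g1 g0
      have hst : szE a₀ E ≤ t := by
        have : q * szE a₀ E < q * t := by omega
        exact (Nat.lt_of_mul_lt_mul_left this).le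
      have hm8 : E.length ≤ 8 * t := by omega
      have hpm := Nat.mul_le_mul_left p hm8
      have hqv := Nat.mul_le_mul_left (9 * q) hle
      nlinarith
    · simp only [hlen]
      exact le_rfl
    · have h2 : (nvE E + E.length) / (3 * b) ≤ (3 * nvE E) / (3 * b) :=
        Nat.div_le_div_right (by omega)
      rw [Nat.mul_div_mul_left _ _ (by norm_num)] at h2
      rw [← hnv]
      exact h2

end Pool.Agent.Lib.MP_87d05f_lc.HG
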