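import Pool.Agent.Lib.MP_87d05f_lc.HG.Stm

set_option autoImplicit false

/-!
# The girth of the lift
-/

namespace Pool.Agent.Lib.MP_87d05f_lc.HG

open Pool.Agent.Lib.MP_87d05f_lc

section LG

variable {s : ℕ} {ar : Fin s → ℕ} {V : Type} [DecidableEq V]

private lemma LG_rk_succ (F : List (CV ar V)) (q : ℕ) (c : CV ar V) (hc : F[q]? = some c) (v : V)
    (hv : v ∈ vsC c) : rkC (F.take q) v + 1 ≤ rkC (F.take (q + 1)) v := by
  unfold rkC
  rw [List.take_add_one, hc, Option.toList_some, List.flatMap_append, List.count_append,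
    List.flatMap_singleton]
  have := List.count_pos_iff.2 hv
  omega

private lemma LG_rk_mono (F : List (CV ar V)) (q q' : ℕ) (h : q ≤ q') (v : V) :
    rkC (F.take q) v ≤ rkC (F.take q') v := by
  obtain ⟨r, rfl⟩ := Nat.exists_eq_add_of_le h
  unfold rkC
  rw [List.take_add, List.flatMap_append, List.count_append]
  omega

private lemma LG_rk_lt (K : ℕ) (F : List (CV ar V)) (hF : occK K F) (q : ℕ) (c : CV ar V)
    (hc : F[q]? = some c) (v : V) (hv : v ∈ vsC c) : rkC (F.take q) v < K := by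
  have h1 := LG_rk_succ F q c hc v hv
  have h2 : q < F.length := by
    by_contra h
    push Not at h
    rw [List.getElem?_eq_none h] at hc
    exact nomatch hc
  have h3 := LG_rk_mono F (q + 1) F.length (by omega) v
  have h4 : rkC (F.take F.length) v ≤ K := by
    rw [List.take_length]
    exact hF v
  omega

private lemma LG_rk_inj (F : List (CV ar V)) (q q' : ℕ) (c c' : CV ar V) (hc : F[q]? = some c)
    (hc' : F[q']? = some c') (v : V) (hv : v ∈ vsC c) (hv' : v ∈ vsC c')
    (h : rkC (F.take q) v = rkC (F.take q') v) : q = q' := by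
  rcases lt_trichotomy q q' with h1 | h1 | h1
  · have h2 := LG_rk_succ F q c hc v hv
    have h3 := LG_rk_mono F (q + 1) q' h1 v
    omega
  · exact h1
  · have h2 := LG_rk_succ F q' c' hc' v hv'
    have h3 := LG_rk_mono F (q' + 1) q h1 v
    omega

variable {k K N : ℕ}

/-- elements of `liftT` -/
private lemma LG_mem (H : (Fin k → Fin (K + 1)) → List (Fin k → Fin N × Fin 1))
    (F : List (CV ar V)) (t : (CV ar V × ℕ) × ((Fin k → Fin N × Fin 1) × ℕ))
    (ht : t ∈ liftT H F) : F[t.1.2]? = some t.1.1 ∧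
      (H (tyC k K (F.take t.1.2) t.1.1))[t.2.2]? = some t.2.1 := by
  unfold liftT at ht
  obtain ⟨cq, h1, h2⟩ := List.mem_flatMap.1 ht
  obtain ⟨pn, h3, h4⟩ := List.mem_map.1 h2
  rw [← h4]
  exact ⟨List.mem_zipIdx_iff_getElem?.1 h1, List.mem_zipIdx_iff_getElem?.1 h3⟩

private lemma LG_nodup_zipIdx {α : Type} (l : List α) : l.zipIdx.Nodup :=
  List.Nodup.of_map Prod.snd (List.nodup_zipIdx_map_snd l)

private lemma LG_nodup (H : (Fin k → Fin (K + 1)) → List (Fin k → Fin N × Fin 1))
    (F : List (CV ar V)) : (liftT H F).Nodup := by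
  unfold liftT
  rw [List.nodup_flatMap]
  refine ⟨fun cq _ => ?_, ?_⟩
  · refine List.Nodup.map ?_ (LG_nodup_zipIdx _)
    intro a b hab
    exact (Prod.mk.inj hab).2
  · refine List.Pairwise.imp ?_ (LG_nodup_zipIdx F)
    intro a b hab
    rw [Function.onFun, List.disjoint_left]
    intro t h1 h2
    obtain ⟨p1, -, h3⟩ := List.mem_map.1 h1
    obtain ⟨p2, -, h4⟩ := List.mem_map.1 h2
    apply hab
    rw [← h4] at h3
    exact (Prod.mk.inj h3).1

/-- the place determines the index -/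
private lemma LG_place (H : (Fin k → Fin (K + 1)) → List (Fin k → Fin N × Fin 1))
    (F : List (CV ar V)) (m m' : ℕ) (t t' : (CV ar V × ℕ) × ((Fin k → Fin N × Fin 1) × ℕ))
    (ht : (liftT H F)[m]? = some t) (ht' : (liftT H F)[m']? = some t') (h1 : t.1.2 = t'.1.2)
    (h2 : t.2.2 = t'.2.2) : m = m' := by
  obtain ⟨h3, h4⟩ := LG_mem H F t (List.mem_of_getElem? ht)
  obtain ⟨h5, h6⟩ := LG_mem H F t' (List.mem_of_getElem? ht')
  have h7 : t.1.1 = t'.1.1 := by
    rw [h1, h5] at h3
    exact (Option.some.inj h3).symm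
  have h8 : t.2.1 = t'.2.1 := by
    rw [h1, h2, h7, h6] at h4
    exact (Option.some.inj h4).symm
  have h9 : t = t' := Prod.ext (Prod.ext h7 h1) (Prod.ext h8 h2)
  subst h9
  have hm : m < (liftT H F).length := by
    by_contra h
    push Not at h
    rw [List.getElem?_eq_none h] at ht
    exact nomatch ht
  exact (List.getElem?_inj hm (LG_nodup H F)).1 (ht.trans ht'.symm)

/-- elements of the lift -/
private lemma LG_lift (hk : ∀ i, ar i ≤ k)
    (H : (Fin k → Fin (K + 1)) → List (Fin k → Fin N × Fin 1))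
    (F : List (CV ar V)) (m : ℕ) (c : CV ar (V × Fin N)) (hc : (liftF hk H F)[m]? = some c)
    (x : V × Fin N) (hx : x ∈ vsC c) :
    ∃ t, (liftT H F)[m]? = some t ∧ ∃ a : Fin (ar t.1.1.1),
      x = (t.1.1.2 a, (t.2.1 (Fin.castLE (hk _) a)).1) := by
  unfold liftF at hc
  rw [List.getElem?_map, Option.map_eq_some_iff] at hc
  obtain ⟨t, h1, h2⟩ := hc
  refine ⟨t, h1, ?_⟩
  rw [← h2] at hx
  obtain ⟨a, ha⟩ := List.mem_ofFn.1 hx
  exact ⟨a, ha.symm⟩

/-- the map of the incidence graph of the lift to the index graph -/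
private def LG_phi (H : (Fin k → Fin (K + 1)) → List (Fin k → Fin N × Fin 1))
    (F : List (CV ar V)) : ℕ ⊕ (V × Fin N) → ((Fin k → Fin (K + 1)) × ℕ) ⊕ Fin N
  | Sum.inl m => Sum.inl (match (liftT H F)[m]? with
    | some t => (tyC k K (F.take t.1.2) t.1.1, t.2.2)
    | none => (fun _ => 0, 0))
  | Sum.inr x => Sum.inr x.2

private lemma LG_phi_inl (H : (Fin k → Fin (K + 1)) → List (Fin k → Fin N × Fin 1))
    (F : List (CV ar V)) (m : ℕ) (t : (CV ar V × ℕ) × ((Fin k → Fin N × Fin 1) × ℕ))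
    (ht : (liftT H F)[m]? = some t) :
    LG_phi H F (Sum.inl m) = Sum.inl (tyC k K (F.take t.1.2) t.1.1, t.2.2) := by
  simp only [LG_phi, ht]

private lemma LG_phi_inr (H : (Fin k → Fin (K + 1)) → List (Fin k → Fin N × Fin 1))
    (F : List (CV ar V)) (x : V × Fin N) : LG_phi H F (Sum.inr x) = Sum.inr x.2 := rfl

/-- adjacency in the incidence graph -/
private lemma LG_adj (hk : ∀ i, ar i ≤ k)
    (H : (Fin k → Fin (K + 1)) → List (Fin k → Fin N × Fin 1))
    (F : List (CV ar V)) (x y : ℕ ⊕ (V × Fin N)) (h : (incG vsC (liftF hk H F)).Adj x y) :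
    ∃ m v t, ((x = Sum.inl m ∧ y = Sum.inr v) ∨ (y = Sum.inl m ∧ x = Sum.inr v)) ∧
      (liftT H F)[m]? = some t ∧
      ∃ a : Fin (ar t.1.1.1), v = (t.1.1.2 a, (t.2.1 (Fin.castLE (hk _) a)).1) := by
  unfold incG at h
  rw [SimpleGraph.fromRel_adj] at h
  rcases h.2 with ⟨q, v, c, h1, h2, h3, h4⟩ | ⟨q, v, c, h1, h2, h3, h4⟩
  · obtain ⟨t, h5, a, h6⟩ := LG_lift hk H F q c h3 v h4
    exact ⟨q, v, t, Or.inl ⟨h1, h2⟩, h5, a, h6⟩
  · obtain ⟨t, h5, a, h6⟩ := LG_lift hk H F q c h3 v h4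
    exact ⟨q, v, t, Or.inr ⟨h1, h2⟩, h5, a, h6⟩

private lemma LG_idx (H : (Fin k → Fin (K + 1)) → List (Fin k → Fin N × Fin 1))
    (τ : Fin k → Fin (K + 1)) (n : ℕ) (i : Fin N) (c : Fin k → Fin N × Fin 1) (a : Fin k)
    (h1 : (H τ)[n]? = some c) (h2 : (c a).1 = i) :
    (idxG H).Adj (Sum.inl (τ, n)) (Sum.inr i) := by
  unfold idxG
  rw [SimpleGraph.fromRel_adj]
  exact ⟨Sum.inl_ne_inr, Or.inl ⟨τ, n, i, c, a, rfl, rfl, h1, h2⟩⟩

/-- HG LG. The girth of the lift. -/
theorem p_LG (hG : S_GEN) : S_LG := by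
  intro s k K N h C K' g ar V _ hk H F hP hF
  have hinj : ∀ t ∈ liftT H F, ∀ a b, (t.2.1 a).1 = (t.2.1 b).1 → a = b := by
    intro t ht
    exact hP.inj _ t.2.1 (List.mem_of_getElem? (LG_mem H F t ht).2)
  refine ⟨?_, ?_⟩
  · intro c hc
    unfold liftF at hc
    obtain ⟨t, ht, rfl⟩ := List.mem_map.1 hc
    unfold vsC
    rw [List.nodup_ofFn]
    intro a b hab
    have h1 := hinj t ht _ _ (Prod.mk.inj hab).2
    exact Fin.castLE_injective _ h1
  · refine hG _ _ _ (idxG H) _ (LG_phi H F) id (fun _ => 0) g ?_ ?_ ?_ ?_ hP.girth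
    · intro x y hxy _
      obtain ⟨m, v, t, hor, ht, a, ha⟩ := LG_adj hk H F x y hxy
      have h2 := (LG_mem H F t (List.mem_of_getElem? ht)).2
      have h3 : (idxG H).Adj (LG_phi H F (Sum.inl m)) (LG_phi H F (Sum.inr v)) := by
        rw [LG_phi_inl H F m t ht]
        refine LG_idx H _ _ _ t.2.1 (Fin.castLE (hk _) a) h2 ?_
        rw [ha]
      rcases hor with ⟨rfl, rfl⟩ | ⟨rfl, rfl⟩
      · exact h3
      · exact h3.symm
    · intro x y hxy h1
      obtain ⟨m, v, t, hor, ht, a, ha⟩ := LG_adj hk H F x y hxy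
      rcases hor with ⟨rfl, rfl⟩ | ⟨rfl, rfl⟩
      · rw [LG_phi_inl H F m t ht, LG_phi_inr] at h1
        exact nomatch h1
      · rw [LG_phi_inl H F m t ht, LG_phi_inr] at h1
        exact nomatch h1
    · intro x y z hxy _ h1 _
      obtain ⟨m, v, t, hor, ht, a, ha⟩ := LG_adj hk H F x y hxy
      rcases hor with ⟨rfl, rfl⟩ | ⟨rfl, rfl⟩
      · rw [LG_phi_inl H F m t ht, LG_phi_inr] at h1
        exact nomatch h1
      · rw [LG_phi_inl H F m t ht, LG_phi_inr] at h1
        exact nomatch h1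
    · intro x x' y y' hxy hxy' _ hxx h1 _
      have hxx' : x = x' := hxx
      subst hxx'
      refine ⟨rfl, ?_⟩
      obtain ⟨m, v, t, hor, ht, a, ha⟩ := LG_adj hk H F x y hxy
      obtain ⟨m', v', t', hor', ht', a', ha'⟩ := LG_adj hk H F x y' hxy'
      rcases hor with ⟨rfl, rfl⟩ | ⟨rfl, rfl⟩
      · rcases hor' with ⟨h2, rfl⟩ | ⟨rfl, h2⟩
        · have h3 : m = m' := Sum.inl.inj h2
          subst h3
          rw [ht] at ht'
          obtain rfl : t = t' := Option.some.inj ht'
          have h4 : v.2 = v'.2 := Sum.inr.inj h1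
          rw [ha, ha'] at h4
          have h5 := hinj t (List.mem_of_getElem? ht) _ _ h4
          have h6 : a = a' := Fin.castLE_injective _ h5
          rw [ha, ha', h6]
        · exact nomatch h2
      · rcases hor' with ⟨h2, rfl⟩ | ⟨rfl, h2⟩
        · exact nomatch h2
        · have h3 : v = v' := Sum.inr.inj h2
          subst h3
          rw [LG_phi_inl H F m t ht, LG_phi_inl H F m' t' ht'] at h1
          obtain ⟨h4, h5⟩ := Prod.mk.inj (Sum.inl.inj h1)
          obtain ⟨hc, hp⟩ := LG_mem H F t (List.mem_of_getElem? ht)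
          obtain ⟨hc', hp'⟩ := LG_mem H F t' (List.mem_of_getElem? ht')
          have h6 : t.2.1 = t'.2.1 := by
            rw [h4, h5, hp'] at hp
            exact (Option.some.inj hp).symm
          have h7 := ha.symm.trans ha'
          obtain ⟨h8, h9⟩ := Prod.mk.inj h7
          rw [h6] at h9
          have h10 := hinj t' (List.mem_of_getElem? ht') _ _ h9
          have h11 : (a : ℕ) = (a' : ℕ) := congrArg Fin.val h10
          have hv : v.1 ∈ vsC t.1.1 := by
            unfold vsC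
            rw [List.mem_ofFn]
            exact ⟨a, by rw [ha]⟩
          have hv' : v.1 ∈ vsC t'.1.1 := by
            unfold vsC
            rw [List.mem_ofFn]
            exact ⟨a', by rw [ha']⟩
          have hty : ∀ (u : (CV ar V × ℕ) × ((Fin k → Fin N × Fin 1) × ℕ))
              (b : Fin (ar u.1.1.1)), v.1 = u.1.1.2 b → F[u.1.2]? = some u.1.1 →
              ((tyC k K (F.take u.1.2) u.1.1 (Fin.castLE (hk _) b) : Fin (K + 1)) : ℕ) =
                rkC (F.take u.1.2) v.1 := by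
            intro u b hb hcu
            have hbv : v.1 ∈ vsC u.1.1 := by
              unfold vsC
              rw [List.mem_ofFn]
              exact ⟨b, hb.symm⟩
            have h12 := LG_rk_lt K F hF u.1.2 u.1.1 hcu v.1 hbv
            have h13 : ((Fin.castLE (hk u.1.1.1) b : Fin k) : ℕ) < ar u.1.1.1 := b.2
            unfold tyC
            rw [dif_pos h13]
            show min (rkC (F.take u.1.2) (u.1.1.2 b)) K = _
            rw [← hb]
            omega
          have h15 := hty t a (by rw [ha]) hc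
          have h16 := hty t' a' (by rw [ha']) hc'
          have h17 : rkC (F.take t.1.2) v.1 = rkC (F.take t'.1.2) v.1 := by
            rw [← h15, ← h16, h4, h10]
          have h18 : t.1.2 = t'.1.2 :=
            LG_rk_inj F t.1.2 t'.1.2 t.1.1 t'.1.1 hc hc' v.1 hv hv' h17
          rw [LG_place H F m m' t t' ht ht' h18 h5]

end LG

end Pool.Agent.Lib.MP_87d05f_lc.HG
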