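import Pool.Agent.Lib.MP_87d05f_lc.HG.Stm

set_option autoImplicit false

/-!
# MP_87d05f_lc, instances of large girth: soundness of the lift
-/

namespace Pool.Agent.Lib.MP_87d05f_lc.HG

open Pool.Agent.Lib.MP_87d05f_lc

/-- a value taken on at least the proportion `1 / d` of the indices -/
theorem LN_pigeon {N d : ℕ} (hd : 0 < d) (f : Fin N → Fin d) :
    ∃ x : Fin d, N ≤ d * (Finset.univ.filter (fun j => f j = x)).card := by
  by_contra hcon
  have hcon' : ∀ x : Fin d, d * (Finset.univ.filter (fun j => f j = x)).card < N := by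
    intro x
    by_contra hx
    exact hcon ⟨x, not_lt.1 hx⟩
  have hsum : (Finset.univ : Finset (Fin N)).card =
      ∑ x : Fin d, (Finset.univ.filter (fun j => f j = x)).card :=
    Finset.card_eq_sum_card_fiberwise (fun j _ => Finset.mem_coe.2 (Finset.mem_univ (f j)))
  rw [Finset.card_univ, Fintype.card_fin] at hsum
  have : Nonempty (Fin d) := ⟨⟨0, hd⟩⟩
  have h1 : ∑ x : Fin d, d * (Finset.univ.filter (fun j => f j = x)).card < ∑ _x : Fin d, N :=
    Finset.sum_lt_sum_of_nonempty Finset.univ_nonempty (fun x _ => hcon' x)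
  rw [← Finset.mul_sum, ← hsum, Finset.sum_const, Finset.card_univ, Fintype.card_fin,
    smul_eq_mul] at h1
  exact lt_irrefl _ h1

/-- counting as a sum -/
theorem LN_countP {α : Type} (q : α → Bool) (l : List α) :
    l.countP (fun x => !(q x)) = (l.map (fun x => if q x = false then 1 else 0)).sum := by
  induction l with
  | nil => rfl
  | cons x l ih =>
    rw [List.countP_cons, ih, List.map_cons, List.sum_cons, add_comm]
    cases q x <;> rfl

/-- the number of violated constraints of the lift, constraint by constraint -/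
theorem LN_fal {s d k K N : ℕ} {ar : Fin s → ℕ} {V : Type} [DecidableEq V]
    (hk : ∀ i, ar i ≤ k) (H : (Fin k → Fin (K + 1)) → List (Fin k → Fin N × Fin 1))
    (R : (i : Fin s) → (Fin (ar i) → Fin d) → Bool) (F : List (CV ar V))
    (a' : V × Fin N → Fin d) :
    falV R a' (liftF hk H F) = (F.zipIdx.map (fun cq =>
      (H (tyC k K (F.take cq.2) cq.1)).countP (fun p =>
        !(R cq.1.1 (fun j => a' (cq.1.2 j, (p (Fin.castLE (hk _) j)).1)))))).sum := by
  unfold falV liftF liftT
  rw [List.countP_map, List.countP_flatMap]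
  refine congrArg List.sum (List.map_congr_left ?_)
  intro cq _
  rw [Function.comp_apply, List.countP_map]
  have h1 : (H (tyC k K (F.take cq.2) cq.1)) =
      ((H (tyC k K (F.take cq.2) cq.1)).zipIdx).map Prod.fst := by
    simp
  conv_rhs => rw [h1]
  rw [List.countP_map]
  rfl

/-- one constraint -/
theorem LN_one {s d k K N C K' g : ℕ} {ar : Fin s → ℕ} {V : Type}
    (hk : ∀ i, ar i ≤ k) (H : (Fin k → Fin (K + 1)) → List (Fin k → Fin N × Fin 1))
    (R : (i : Fin s) → (Fin (ar i) → Fin d) → Bool)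
    (hd : 0 < d) (hN : 0 < N) (hP : Pat (2 * d ^ k) C K' g H) (a' : V × Fin N → Fin d)
    (a : V → Fin d)
    (ha : ∀ v, N ≤ d * (Finset.univ.filter (fun j : Fin N => a' (v, j) = a v)).card)
    (τ : Fin k → Fin (K + 1)) (c : CV ar V) (hc : R c.1 (fun j => a (c.2 j)) = false) :
    C * N ≤ 2 * d ^ k * (H τ).countP (fun p =>
        !(R c.1 (fun j => a' (c.2 j, (p (Fin.castLE (hk _) j)).1)))) := by
  classical
  let S : Fin k → Finset (Fin N × Fin 1) := fun b =>
    if hb : (b : ℕ) < ar c.1 then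
      Finset.univ.filter (fun y : Fin N × Fin 1 => a' (c.2 ⟨b, hb⟩, y.1) = a (c.2 ⟨b, hb⟩))
    else Finset.univ
  have hS : ∀ b, N ≤ d * (S b).card := by
    intro b
    by_cases hb : (b : ℕ) < ar c.1
    · have h1 : S b = Finset.univ.filter
          (fun y : Fin N × Fin 1 => a' (c.2 ⟨b, hb⟩, y.1) = a (c.2 ⟨b, hb⟩)) := dif_pos hb
      refine le_trans (ha (c.2 ⟨b, hb⟩)) (Nat.mul_le_mul_left d ?_)
      rw [h1]
      refine Finset.card_le_card_of_injOn (fun j => (j, (0 : Fin 1))) ?_ ?_
      · intro j hj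
        have hj' := (Finset.mem_filter.1 (Finset.mem_coe.1 hj)).2
        exact Finset.mem_coe.2 (Finset.mem_filter.2 ⟨Finset.mem_univ _, hj'⟩)
      · intro j _ j' _ h
        exact congrArg Prod.fst h
    · have h1 : S b = Finset.univ := dif_neg hb
      rw [h1, Finset.card_univ, Fintype.card_prod, Fintype.card_fin, Fintype.card_fin, mul_one]
      exact Nat.le_mul_of_pos_left N hd
  have hmix := hP.mix τ S
  have hcnt : (H τ).countP (fun p => decide (∀ b, p b ∈ S b)) ≤ (H τ).countP (fun p =>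
        !(R c.1 (fun j => a' (c.2 j, (p (Fin.castLE (hk _) j)).1)))) := by
    refine List.countP_mono_left ?_
    intro p _ hp
    have hp' : ∀ b, p b ∈ S b := of_decide_eq_true hp
    have h2 : (fun j => a' (c.2 j, (p (Fin.castLE (hk c.1) j)).1)) = fun j => a (c.2 j) := by
      funext j
      have h3 := hp' (Fin.castLE (hk c.1) j)
      have hb : ((Fin.castLE (hk c.1) j : Fin k) : ℕ) < ar c.1 := j.2
      have h4 : S (Fin.castLE (hk c.1) j) = Finset.univ.filter
          (fun y : Fin N × Fin 1 => a' (c.2 ⟨(Fin.castLE (hk c.1) j : Fin k), hb⟩, y.1) =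
            a (c.2 ⟨(Fin.castLE (hk c.1) j : Fin k), hb⟩)) := dif_pos hb
      rw [h4] at h3
      exact (Finset.mem_filter.1 h3).2
    rw [h2, hc]
    rfl
  have hdq : (0 : ℚ) < (d : ℚ) := by exact_mod_cast hd
  have hNq : (0 : ℚ) < (N : ℚ) := by exact_mod_cast hN
  have hprod : (1 / (d : ℚ)) ^ k ≤ ∏ b, (((S b).card : ℕ) : ℚ) / ((N * 1 : ℕ) : ℚ) := by
    have h5 : (1 / (d : ℚ)) ^ k = ∏ _b : Fin k, (1 / (d : ℚ)) := by
      rw [Finset.prod_const, Finset.card_univ, Fintype.card_fin]
    rw [h5]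
    refine Finset.prod_le_prod (fun b _ => by positivity) ?_
    intro b _
    rw [mul_one, div_le_div_iff₀ hdq hNq, one_mul]
    have h6 : (N : ℚ) ≤ (d : ℚ) * ((S b).card : ℚ) := by exact_mod_cast hS b
    linarith
  have hdk : (0 : ℚ) < (d : ℚ) ^ k := by positivity
  have h7 : ((C * (N * 1) : ℕ) : ℚ) * ((1 / (d : ℚ)) ^ k - 1 / ((2 * d ^ k : ℕ) : ℚ)) ≤
      (((H τ).countP (fun p => !(R c.1 (fun j => a' (c.2 j,
        (p (Fin.castLE (hk _) j)).1)))) : ℕ) : ℚ) := by
    refine le_trans ?_ (le_trans hmix (by exact_mod_cast hcnt))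
    refine mul_le_mul_of_nonneg_left ?_ (by positivity)
    exact sub_le_sub_right hprod _
  have h8 : ((1 / (d : ℚ)) ^ k - 1 / ((2 * d ^ k : ℕ) : ℚ)) = 1 / (2 * (d : ℚ) ^ k) := by
    push_cast
    rw [one_div_pow]
    field_simp
    norm_num
  rw [h8, mul_one, mul_one_div, div_le_iff₀ (by positivity)] at h7
  have h9 : ((C * N : ℕ) : ℚ) ≤ ((2 * d ^ k * (H τ).countP (fun p =>
        !(R c.1 (fun j => a' (c.2 j, (p (Fin.castLE (hk _) j)).1)))) : ℕ) : ℚ) := by
    refine le_trans h7 (le_of_eq ?_)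
    push_cast
    ring
  exact_mod_cast h9

theorem p_LN : S_LN := by
  intro s d k K N C K' g ar V _ hk H R F hd hN hP a'
  choose a ha using fun v => LN_pigeon hd (fun j : Fin N => a' (v, j))
  refine ⟨a, ?_⟩
  rw [LN_fal hk H R F a']
  have hF : falV R a F = (F.zipIdx.map (fun cq =>
      if R cq.1.1 (fun j => a (cq.1.2 j)) = false then 1 else 0)).sum := by
    unfold falV
    have h1 : F = F.zipIdx.map Prod.fst := by simp
    conv_lhs => rw [h1]
    rw [List.countP_map]
    exact LN_countP _ _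
  rw [hF, ← List.sum_map_mul_left, ← List.sum_map_mul_left]
  refine List.sum_le_sum ?_
  intro cq _
  by_cases hc : R cq.1.1 (fun j => a (cq.1.2 j)) = false
  · rw [if_pos hc, mul_one]
    exact LN_one hk H R hd hN hP a' a ha _ cq.1 hc
  · rw [if_neg hc, mul_zero]
    exact Nat.zero_le _

end Pool.Agent.Lib.MP_87d05f_lc.HG
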