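import Pool.Agent.Lib.MP_87d05f_lc.HG.Stm

set_option autoImplicit false

/-!
# MP_87d05f_lc, instances of large girth: size and occurrences of the lift
-/

namespace Pool.Agent.Lib.MP_87d05f_lc.HG

open Pool.Agent.Lib.MP_87d05f_lc

/-- counting in a table -/
theorem LO_countP {α : Type} (q : α → Prop) [DecidablePred q] (l : List α) :
    l.countP (fun x => decide (q x)) = (l.map (fun x => if q x then 1 else 0)).sum := by
  induction l with
  | nil => rfl
  | cons x l ih =>
    rw [List.countP_cons, ih, List.map_cons, List.sum_cons, add_comm]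
    by_cases h : q x
    · simp [h]
    · simp [h]

/-- counting in a table -/
theorem LO_ofFn {α : Type} [BEq α] [LawfulBEq α] [DecidableEq α] {n : ℕ} (f : Fin n → α) (x : α) :
    (List.ofFn f).count x = ∑ a : Fin n, if f a = x then 1 else 0 := by
  induction n with
  | zero => simp
  | succ n ih =>
    rw [List.ofFn_succ, List.count_cons, ih, Fin.sum_univ_succ, add_comm]
    congr 1
    by_cases h : f 0 = x
    · simp [h]
    · simp [h]

/-- counting does not depend on the test of equality -/
theorem LO_eq {α : Type} (I J : BEq α) (hI : @LawfulBEq α I) (hJ : @LawfulBEq α J) (x : α)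
    (l : List α) : @List.count α I x l = @List.count α J x l := by
  have h : I = J := by
    cases I with
    | mk f =>
      cases J with
      | mk g =>
        congr 1
        funext a b
        have h1 := @beq_iff_eq α ⟨f⟩ hI a b
        have h2 := @beq_iff_eq α ⟨g⟩ hJ a b
        exact Bool.eq_iff_iff.2 (h1.trans h2.symm)
  rw [h]

/-- a sum over a list of sums over a finite type -/
theorem LO_swap {α : Type} {n : ℕ} (f : α → Fin n → ℕ) (l : List α) :
    (l.map (fun x => ∑ a, f x a)).sum = ∑ a, (l.map (fun x => f x a)).sum := by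
  induction l with
  | nil => simp
  | cons x l ih =>
    simp only [List.map_cons, List.sum_cons]
    rw [ih, ← Finset.sum_add_distrib]

/-- the occurrences of a copy of a variable in the copies of a constraint -/
theorem LO_one {s k K N h C K' g : ℕ} {ar : Fin s → ℕ} {V : Type} [DecidableEq V]
    (hk : ∀ i, ar i ≤ k) (H : (Fin k → Fin (K + 1)) → List (Fin k → Fin N × Fin 1))
    (hP : Pat h C K' g H) (τ : Fin k → Fin (K + 1)) (c : CV ar V) (v : V) (j : Fin N) :
    ((H τ).map (fun p => (List.ofFn (fun a : Fin (ar c.1) =>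
      (c.2 a, (p (Fin.castLE (hk _) a)).1))).count (v, j))).sum ≤ K' * (vsC c).count v := by
  have h1 : ∀ p : Fin k → Fin N × Fin 1, (List.ofFn (fun a : Fin (ar c.1) =>
      (c.2 a, (p (Fin.castLE (hk _) a)).1))).count (v, j) =
      ∑ a : Fin (ar c.1), if (c.2 a, (p (Fin.castLE (hk _) a)).1) = (v, j) then 1 else 0 :=
    fun p => LO_ofFn _ _
  rw [List.map_congr_left (fun p _ => h1 p), LO_swap, vsC, LO_ofFn, Finset.mul_sum]
  refine Finset.sum_le_sum ?_
  intro a _
  by_cases hv : c.2 a = v
  · rw [if_pos hv, mul_one]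
    refine le_trans (le_of_eq ?_) (hP.deg τ (Fin.castLE (hk _) a) (j, 0))
    rw [LO_countP]
    refine congrArg List.sum (List.map_congr_left ?_)
    intro p _
    have h2 : ((c.2 a, (p (Fin.castLE (hk _) a)).1) = (v, j)) ↔
        (p (Fin.castLE (hk _) a) = (j, 0)) := by
      rw [Prod.ext_iff, Prod.ext_iff]
      constructor
      · rintro ⟨_, h3⟩
        exact ⟨h3, Subsingleton.elim _ _⟩
      · rintro ⟨h3, _⟩
        exact ⟨hv, h3⟩
    by_cases h3 : p (Fin.castLE (hk _) a) = (j, 0)
    · rw [if_pos h3, if_pos (h2.2 h3)]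
    · rw [if_neg h3, if_neg (fun h4 => h3 (h2.1 h4))]
  · rw [if_neg hv, mul_zero]
    refine le_of_eq ?_
    refine List.sum_eq_zero ?_
    intro y hy
    obtain ⟨p, _, rfl⟩ := List.mem_map.1 hy
    exact if_neg (fun h4 => hv (congrArg Prod.fst h4))

/-- the lists of the pattern are not empty -/
theorem LO_ne {k K N h C K' g : ℕ}
    (H : (Fin k → Fin (K + 1)) → List (Fin k → Fin N × Fin 1))
    (hh : 2 ≤ h) (hC : 0 < C) (hN : 0 < N)
    (hP : Pat h C K' g H) (τ : Fin k → Fin (K + 1)) : H τ ≠ [] := by
  intro hnil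
  have hmix := hP.mix τ (fun _ => Finset.univ)
  rw [hnil] at hmix
  have hNq : (0 : ℚ) < (N : ℚ) := by exact_mod_cast hN
  have hCq : (0 : ℚ) < (C : ℚ) := by exact_mod_cast hC
  have hhq : (2 : ℚ) ≤ (h : ℚ) := by exact_mod_cast hh
  have h1 : (∏ _a : Fin k, (((Finset.univ : Finset (Fin N × Fin 1)).card : ℕ) : ℚ) /
      ((N * 1 : ℕ) : ℚ)) = 1 := by
    refine Finset.prod_eq_one ?_
    intro a _
    rw [Finset.card_univ, Fintype.card_prod, Fintype.card_fin, Fintype.card_fin]
    refine div_self ?_
    rw [mul_one]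
    exact ne_of_gt hNq
  rw [h1] at hmix
  have h2 : (1 : ℚ) / (h : ℚ) ≤ 1 / 2 := one_div_le_one_div_of_le (by norm_num) hhq
  have h3 : (0 : ℚ) < ((C * (N * 1) : ℕ) : ℚ) * (1 - 1 / (h : ℚ)) := by
    refine mul_pos ?_ (by linarith)
    push_cast
    positivity
  have h4 : (((([] : List (Fin k → Fin N × Fin 1)).countP
      (fun p => decide (∀ a, p a ∈ (Finset.univ : Finset (Fin N × Fin 1))))) : ℕ) : ℚ) = 0 := by
    simp
  rw [h4] at hmix
  exact absurd hmix (not_le.2 h3)

theorem p_LO : S_LO := by
  intro s k K N h C K' g ar V _ hk H F hh hC hN hP hF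
  refine ⟨?_, ?_, ?_⟩
  · rintro ⟨v, j⟩
    refine le_trans (le_of_eq (LO_eq _ instBEqProd inferInstance inferInstance (v, j) _)) ?_
    have h1 : ((liftF hk H F).flatMap vsC).count (v, j) =
        (F.zipIdx.map (fun cq => ((H (tyC k K (F.take cq.2) cq.1)).map (fun p =>
          (List.ofFn (fun a : Fin (ar cq.1.1) =>
            (cq.1.2 a, (p (Fin.castLE (hk _) a)).1))).count (v, j))).sum)).sum := by
      unfold liftF liftT
      rw [List.map_flatMap, List.flatMap_assoc, List.count_flatMap]
      refine congrArg List.sum (List.map_congr_left ?_)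
      intro cq _
      rw [Function.comp_apply, List.map_map, List.count_flatMap, List.map_map]
      conv_rhs => rw [← List.zipIdx_map_fst 0 (H (tyC k K (F.take cq.2) cq.1))]
      rw [List.map_map]
      rfl
    rw [h1]
    refine le_trans (List.sum_le_sum
      (fun cq _ => LO_one hk H hP (tyC k K (F.take cq.2) cq.1) cq.1 v j)) ?_
    have h2 : (F.zipIdx.map (fun cq => K' * (vsC cq.1).count v)).sum =
        K' * (F.flatMap vsC).count v := by
      rw [List.count_flatMap, ← List.sum_map_mul_left]
      conv_rhs => rw [← List.zipIdx_map_fst 0 F]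
      rw [List.map_map]
      rfl
    rw [h2, mul_comm K K']
    exact Nat.mul_le_mul_left K' (hF v)
  · have h1 : (liftF hk H F).length =
        (F.zipIdx.map (fun cq => (H (tyC k K (F.take cq.2) cq.1)).length)).sum := by
      unfold liftF liftT
      rw [List.length_map, List.length_flatMap]
      refine congrArg List.sum (List.map_congr_left ?_)
      intro cq _
      rw [List.length_map, List.length_zipIdx]
    rw [h1]
    have h2 : ∀ y ∈ F.zipIdx.map (fun cq => (H (tyC k K (F.take cq.2) cq.1)).length),
        y ≤ C * N := by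
      intro y hy
      obtain ⟨cq, _, rfl⟩ := List.mem_map.1 hy
      have h3 := hP.len (tyC k K (F.take cq.2) cq.1)
      rwa [mul_one] at h3
    refine le_trans (List.sum_le_card_nsmul _ _ h2) (le_of_eq ?_)
    rw [List.length_map, List.length_zipIdx, smul_eq_mul, mul_comm]
  · intro hne hnil
    cases F with
    | nil => exact hne rfl
    | cons c F =>
      have h1 := LO_ne H hh hC hN hP (tyC k K [] c)
      obtain ⟨p, P, hp⟩ := List.exists_cons_of_ne_nil h1
      have h2 : (liftF hk H (c :: F)).length = 0 := by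
        rw [hnil]
        rfl
      unfold liftF liftT at h2
      rw [List.length_map, List.length_flatMap, List.zipIdx_cons, List.map_cons,
        List.sum_cons] at h2
      have h3 := (Nat.add_eq_zero_iff.1 h2).1
      rw [List.length_map, List.length_zipIdx] at h3
      have h4 : (H (tyC k K [] c)).length = 0 := h3
      rw [hp] at h4
      exact Nat.succ_ne_zero _ h4

end Pool.Agent.Lib.MP_87d05f_lc.HG
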