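import Pool.Agent.Lib.MP_87d05f_lc.HG.Stm

set_option autoImplicit false

/-!
# MP_87d05f_lc, HighGirth: the lift is computed in polynomial time
-/

namespace Pool.Agent.Lib.MP_87d05f_lc.HG

open Pool.Agent.Lib.MP_87d05f_lc Pool.Agent.PolyTime Turing

private theorem LTR_count_ptime {α : Type} [SCode α] {w : α → List Bool}
    {l : α → List (List Bool)} (hw : PTime w) (hl : PTime l) :
    PTime (fun a => (l a).count (w a)) := by
  have h : PTime (fun a => ((l a).filter (fun u => decide (u = w a))).length) :=
    PTime.length (PTime.filter (p := fun a (u : List Bool) => decide (u = w a)) hl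
      (PTime.eq PTime.snd (hw.comp PTime.fst)))
  refine h.of_eq fun a => ?_
  rw [List.count_eq_length_filter]
  congr 1
  refine List.filter_congr fun u _ => ?_
  by_cases hu : u = w a <;> simp [hu]

/-- the key of a constraint in the table of the types -/
def LTR_key (k K : ℕ) (P : List (List (List Bool))) (c : List (List Bool)) : List ℕ :=
  (List.range k).map (fun a => bif decide (a < c.tail.length) then
    (bif decide ((P.flatMap List.tail).count (c.tail.getD a []) ≤ K) then
      (P.flatMap List.tail).count (c.tail.getD a []) else K) else 0)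

/-- the words of the copies of a constraint -/
def LTR_blk (tab : List (List ℕ × List (List ℕ))) (key : List ℕ) (c : List (List Bool)) :
    List (List (List Bool)) :=
  (((tab.find? (fun e => decide (e.1 = key))).map Prod.snd).getD []).map (fun t =>
    c.headD [] :: c.tail.zipIdx.map (fun wa => nb wa.1 (t.getD wa.2 0)))

/-- the words of the lift -/
def LTR_W (k K : ℕ) (tab : List (List ℕ × List (List ℕ))) (G : List (List (List Bool))) :
    List (List (List Bool)) :=
  G.zipIdx.flatMap (fun cq => LTR_blk tab (LTR_key k K (G.take cq.2) cq.1) cq.1)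

private theorem LTR_key_ptime (k K : ℕ) {α : Type} [SCode α] {P : α → List (List (List Bool))}
    {c : α → List (List Bool)} (hP : PTime P) (hc : PTime c) :
    PTime (fun a => LTR_key k K (P a) (c a)) := by
  unfold LTR_key
  refine PTime.map (l := fun _ : α => List.range k) (f := fun a (i : ℕ) =>
    bif decide (i < (c a).tail.length) then
    (bif decide (((P a).flatMap List.tail).count ((c a).tail.getD i []) ≤ K) then
      ((P a).flatMap List.tail).count ((c a).tail.getD i []) else K) else 0) (PTime.const _) ?_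
  have hP' : PTime (fun p : α × ℕ => P p.1) := hP.comp PTime.fst
  have hc' : PTime (fun p : α × ℕ => (c p.1).tail) := PTime.tail (hc.comp PTime.fst)
  have hf : PTime (fun p : α × ℕ => (P p.1).flatMap List.tail) :=
    PTime.flatMap (f := fun (_ : α × ℕ) (u : List (List Bool)) => u.tail) hP'
      (PTime.tail PTime.snd)
  have hn : PTime (fun p : α × ℕ => ((P p.1).flatMap List.tail).count
      ((c p.1).tail.getD p.2 [])) :=
    LTR_count_ptime (PTime.getD PTime.snd hc' (PTime.const [])) hf
  exact PTime.cond (PTime.nat_lt PTime.snd (PTime.length hc'))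
    (PTime.cond (PTime.nat_le hn (PTime.const K)) hn (PTime.const K)) (PTime.const 0)

private theorem LTR_W_ptime (k K : ℕ) (tab : List (List ℕ × List (List ℕ))) {α : Type}
    [SCode α] {G : α → List (List (List Bool))} (hG : PTime G) :
    PTime (fun a => LTR_W k K tab (G a)) := by
  unfold LTR_W
  refine PTime.flatMap (l := fun a => (G a).zipIdx) (f := fun a (cq : List (List Bool) × ℕ) =>
    LTR_blk tab (LTR_key k K ((G a).take cq.2) cq.1) cq.1) (PTime.zipIdx hG) ?_
  have hc : PTime (fun p : α × (List (List Bool) × ℕ) => p.2.1) := PTime.fst.comp PTime.snd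
  have hq : PTime (fun p : α × (List (List Bool) × ℕ) => p.2.2) := PTime.snd.comp PTime.snd
  have hk : PTime (fun p : α × (List (List Bool) × ℕ) =>
      LTR_key k K ((G p.1).take p.2.2) p.2.1) :=
    LTR_key_ptime k K (PTime.take hq (hG.comp PTime.fst)) hc
  have hlk : PTime (fun p : α × (List (List Bool) × ℕ) =>
      ((tab.find? (fun e => decide (e.1 = LTR_key k K ((G p.1).take p.2.2) p.2.1))).map
        Prod.snd).getD []) := by
    have h1 := PTime.find? (l := fun _ : α × (List (List Bool) × ℕ) => tab)
      (p := fun p e => decide (e.1 = LTR_key k K ((G p.1).take p.2.2) p.2.1)) (PTime.const tab)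
      (PTime.eq (PTime.fst.comp PTime.snd) (hk.comp PTime.fst))
    refine (PTime.option_casesOn (g := fun _ => ([] : List (List ℕ)))
      (h := fun _ v => v.2) h1 (PTime.const []) (PTime.snd.comp PTime.snd)).of_eq fun p => ?_
    cases List.find? (fun e => decide (e.1 = LTR_key k K ((G p.1).take p.2.2) p.2.1)) tab <;> rfl
  unfold LTR_blk
  refine PTime.map (f := fun (p : α × (List (List Bool) × ℕ)) (t : List ℕ) =>
    p.2.1.headD [] :: p.2.1.tail.zipIdx.map (fun wa => nb wa.1 (t.getD wa.2 0))) hlk ?_
  refine PTime.cons (PTime.headD (hc.comp PTime.fst) (PTime.const [])) ?_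
  refine PTime.map (f := fun (p : (α × (List (List Bool) × ℕ)) × List ℕ)
    (wa : List Bool × ℕ) => nb wa.1 (p.2.getD wa.2 0))
    (PTime.zipIdx (PTime.tail (hc.comp PTime.fst))) ?_
  exact nb_ptime (PTime.fst.comp PTime.snd) (PTime.getD (PTime.snd.comp PTime.snd)
    (PTime.snd.comp PTime.fst) (PTime.const 0))

/-- lookup in a table with an injective key -/
private theorem LTR_lookup {T β γ : Type} [DecidableEq β] {key : T → β} {val : T → γ}
    (hinj : Function.Injective key) {l : List T} {t : T} (ht : t ∈ l) :
    (((l.map (fun u => (key u, val u))).find? (fun e => decide (e.1 = key t))).map Prod.snd) =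
      some (val t) := by
  induction l with
  | nil => simp at ht
  | cons u l ih =>
    rw [List.map_cons, List.find?_cons]
    by_cases h : key u = key t
    · have := hinj h
      subst this
      simp
    · simp only [h, decide_false]
      refine ih ?_
      rcases List.mem_cons.1 ht with rfl | h2
      · exact absurd rfl h
      · exact h2

section lift

variable {s : ℕ} {ar : Fin s → ℕ}

/-- the table of the patterns -/
noncomputable def LTR_tab {k K N : ℕ} (H : (Fin k → Fin (K + 1)) → List (Fin k → Fin N × Fin 1)) :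
    List (List ℕ × List (List ℕ)) :=
  (Finset.univ : Finset (Fin k → Fin (K + 1))).toList.map (fun τ =>
    (List.ofFn (fun a => (τ a : ℕ)), (H τ).map (fun p => List.ofFn (fun a => ((p a).1 : ℕ)))))

private theorem LTR_tab_eq {k K N : ℕ}
    (H : (Fin k → Fin (K + 1)) → List (Fin k → Fin N × Fin 1)) (τ : Fin k → Fin (K + 1)) :
    (((LTR_tab H).find? (fun e => decide (e.1 = List.ofFn (fun a => (τ a : ℕ))))).map
      Prod.snd) = some ((H τ).map (fun p => List.ofFn (fun a => ((p a).1 : ℕ)))) := by
  unfold LTR_tab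
  refine LTR_lookup (key := fun τ : Fin k → Fin (K + 1) => List.ofFn (fun a => (τ a : ℕ)))
    (val := fun τ => (H τ).map (fun p => List.ofFn (fun a => ((p a).1 : ℕ)))) ?_
    (Finset.mem_toList.2 (Finset.mem_univ τ))
  intro τ τ' h
  funext a
  have h1 := List.ofFn_injective h
  exact Fin.ext (congrFun h1 a)

private theorem LTR_rank (P : List (Con ar)) (v : ℕ) :
    (((P.map wordC).flatMap List.tail).count (Nat.bits v)) = rkC (V := ℕ) (ar := ar) P v := by
  rw [vars_wordC]
  unfold rkC vsC
  exact List.count_map_of_injective _ _ bits_injective _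

private theorem LTR_key_eq {k K : ℕ} (P : List (Con ar)) (c : Con ar) :
    LTR_key k K (P.map wordC) (wordC c) =
      List.ofFn (fun a => (tyC (V := ℕ) k K P c a : ℕ)) := by
  unfold LTR_key
  rw [List.ofFn_eq_map, ← List.map_coe_finRange_eq_range, List.map_map]
  refine List.map_congr_left fun a _ => ?_
  have hlen : (wordC c).tail.length = ar c.1 := by
    unfold wordC
    simp
  simp only [Function.comp]
  unfold tyC
  by_cases h : (a : ℕ) < ar c.1
  · have h1 := getD_wordC c ⟨(a : ℕ), h⟩
    simp only at h1
    rw [hlen]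
    simp only [h, decide_true, cond_true, dite_true]
    rw [h1, LTR_rank]
    by_cases h2 : rkC (V := ℕ) (ar := ar) P (c.2 ⟨(a : ℕ), h⟩) ≤ K
    · simp only [h2, decide_true, cond_true]
      exact (Nat.min_eq_left h2).symm
    · simp only [h2, decide_false, cond_false]
      exact (Nat.min_eq_right (by omega)).symm
  · rw [hlen]
    simp only [h, decide_false, cond_false, dite_false]
    rfl

/-- the words of a copy of a constraint -/
private theorem LTR_word {k N : ℕ} (hk : ∀ i, ar i ≤ k) (c : Con ar)
    (p : Fin k → Fin N × Fin 1) :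
    wordC (mapC nuL (⟨c.1, fun a => (c.2 a, (p (Fin.castLE (hk _) a)).1)⟩ :
      CV ar (ℕ × Fin N))) =
    (wordC c).headD [] :: (wordC c).tail.zipIdx.map (fun wa =>
      nb wa.1 ((List.ofFn (fun a => ((p a).1 : ℕ))).getD wa.2 0)) := by
  have h1 : (wordC c).headD [] = Nat.bits (c.1 : ℕ) := rfl
  have h2 : (wordC c).tail = (List.ofFn c.2).map Nat.bits := rfl
  rw [h1, h2]
  have h3 : wordC (mapC nuL (⟨c.1, fun a => (c.2 a, (p (Fin.castLE (hk _) a)).1)⟩ :
      CV ar (ℕ × Fin N))) = Nat.bits (c.1 : ℕ) :: (List.ofFn (fun a =>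
        nuL (c.2 a, (p (Fin.castLE (hk _) a)).1))).map Nat.bits := rfl
  rw [h3]
  congr 1
  apply List.ext_getElem
  · simp
  · intro n hn1 hn2
    simp only [List.getElem_map, List.getElem_ofFn, List.getElem_zipIdx, List.length_map,
      List.length_ofFn, Nat.zero_add] at hn1 hn2 ⊢
    unfold nuL
    obtain ⟨u, hu⟩ := nb_end (Nat.bits (c.2 ⟨n, hn1⟩))
      (((p (Fin.castLE (hk _) ⟨n, hn1⟩)).1 : Fin N) : ℕ)
    simp only
    rw [hu, bits_unbits, ← hu]
    congr 1
    have hnk : n < k := lt_of_lt_of_le hn1 (hk _)
    rw [List.getD_eq_getElem _ _ (by rw [List.length_ofFn]; exact hnk), List.getElem_ofFn]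
    rfl

private theorem LTR_lift_word {k K N : ℕ} (hk : ∀ i, ar i ≤ k)
    (H : (Fin k → Fin (K + 1)) → List (Fin k → Fin N × Fin 1)) (F : List (Con ar)) :
    LTR_W k K (LTR_tab H) (F.map wordC) =
      ((liftF (V := ℕ) hk H F).map (mapC nuL)).map wordC := by
  unfold LTR_W liftF liftT
  rw [List.map_map, List.map_map, List.map_flatMap]
  have h1 : (F.map wordC).zipIdx = F.zipIdx.map (fun cq => (wordC cq.1, cq.2)) := by
    rw [List.zipIdx_map]
    rfl
  rw [h1, List.flatMap_map]
  refine List.flatMap_congr fun cq _ => ?_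
  simp only
  unfold LTR_blk
  rw [← List.map_take, LTR_key_eq, LTR_tab_eq]
  simp only [Option.getD_some, List.map_map]
  have h2 : ∀ (l : List (Fin k → Fin N × Fin 1)) (g : (Fin k → Fin N × Fin 1) →
      List (List Bool)), l.map g = l.zipIdx.map (fun pn => g pn.1) := by
    intro l g
    conv_lhs => rw [← List.zipIdx_map_fst 0 l]
    rw [List.map_map]
    rfl
  rw [h2]
  refine List.map_congr_left fun pn _ => ?_
  simp only [Function.comp]
  exact (LTR_word hk cq.1 pn.1).symm

private theorem LTR_len {k K N : ℕ} (hk : ∀ i, ar i ≤ k)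
    (H : (Fin k → Fin (K + 1)) → List (Fin k → Fin N × Fin 1)) (B : ℕ)
    (hB : ∀ τ, (H τ).length ≤ B) (F : List (Con ar)) :
    (liftF (V := ℕ) hk H F).length ≤ B * F.length := by
  unfold liftF liftT
  rw [List.length_map, List.length_flatMap]
  refine (List.sum_le_card_nsmul _ B ?_).trans ?_
  · intro x hx
    obtain ⟨cq, _, rfl⟩ := List.mem_map.1 hx
    rw [List.length_map, List.length_zipIdx]
    exact hB _
  · rw [List.length_map, List.length_zipIdx, smul_eq_mul, Nat.mul_comm]

end lift

theorem p_LTR : S_LTR := by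
  intro s k K N ar hk H
  obtain ⟨B, hB⟩ : ∃ B : ℕ, B = 1 + ∑ τ, (H τ).length := ⟨_, rfl⟩
  have hB0 : 0 < B := by omega
  have hBle : ∀ τ, (H τ).length ≤ B := by
    intro τ
    have := Finset.single_le_sum (f := fun τ => (H τ).length) (fun _ _ => Nat.zero_le _)
      (Finset.mem_univ τ)
    omega
  refine ⟨B, hB0, fun V₁ Y₁ N₁ V₂ Y₂ N₂ b hb hred hsep => ?_⟩
  have hf : PTime (fun x : List Bool => encW (LTR_W k K (LTR_tab H) (parseW x))) :=
    encW_ptime (LTR_W_ptime k K (LTR_tab H) parseW_ptime)
  have hh : PTime (fun x => mydiv (parseW x).length b) :=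
    mydiv_ptime (PTime.length parseW_ptime) (PTime.const b)
  refine transfer hf hh (fun F _ => length_le_code F) ?_ hsep
  intro F hF
  obtain ⟨h1, h2, h3⟩ := hred F hF
  have hx : parseW (codeC F) = F.map wordC := by
    rw [codeC_eq, parseW_encW]
  refine ⟨(liftF hk H F).map (mapC nuL), h1, ?_, h2, h3, ?_, ?_⟩
  · rw [hx, LTR_lift_word hk, codeC_eq]
  · simp only [hx, List.length_map]
    rw [mydiv_eq hb]
    have h4 := Nat.div_le_div_right (c := B * b) (LTR_len hk H B hBle F)
    rwa [Nat.mul_div_mul_left _ _ hB0] at h4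
  · simp only [hx, List.length_map]
    rw [mydiv_eq hb]

end Pool.Agent.Lib.MP_87d05f_lc.HG
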