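import Mathlib
import Pool.Agent.Lib.MP_87d05f_lc.HG.Stm

set_option autoImplicit false

namespace Pool.Agent.Lib.MP_87d05f_lc.HG

open Pool.Agent.Lib.MP_87d05f_lc

private theorem LY_zip {C : Type} {F : List C} {cq : C × ℕ} (h : cq ∈ F.zipIdx) : cq.1 ∈ F := by
  have h1 := List.mem_zipIdx_iff_getElem?.1 h
  exact List.mem_of_getElem? h1

theorem p_LY : S_LY := by
  intro s d k K N ar V _ hk H R F a hF c hc
  unfold liftF at hc
  obtain ⟨t, ht, rfl⟩ := List.mem_map.1 hc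
  unfold liftT at ht
  obtain ⟨cq, hcq, ht2⟩ := List.mem_flatMap.1 ht
  obtain ⟨pn, _, rfl⟩ := List.mem_map.1 ht2
  exact hF cq.1 (LY_zip hcq)

theorem p_CY : S_CY := by
  intro K V _ F a hF c hc
  unfold cnf3 at hc
  rcases List.mem_append.1 hc with hc | hc
  · unfold main3 at hc
    obtain ⟨cq, hcq, rfl⟩ := List.mem_map.1 hc
    have h1 := hF cq.1 (LY_zip hcq)
    unfold R3 at h1
    obtain ⟨i, hi⟩ := of_decide_eq_true h1
    refine ⟨_, (List.mem_ofFn).2 ⟨i, rfl⟩, ?_⟩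
    exact hi
  · unfold chain3 at hc
    obtain ⟨v, _, hc⟩ := List.mem_flatMap.1 hc
    obtain ⟨t, _, rfl⟩ := List.mem_map.1 hc
    by_cases hv : a v = 1
    · refine ⟨(true, (v, t + 1)), by simp, ?_⟩
      exact decide_eq_true hv
    · refine ⟨(false, (v, t)), by simp, ?_⟩
      exact decide_eq_false hv

end Pool.Agent.Lib.MP_87d05f_lc.HG
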