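import Pool.Agent.Lib.MP_87d05f_lc.HG.Stm
import Mathlib

set_option autoImplicit false

/-!
# MP_87d05f_lc, project HighGirth, piece MIX: most tables have the product property
-/

namespace Pool.Agent.Lib.MP_87d05f_lc.HG

private theorem MIX_union {A B : Type} [Fintype A] [Fintype B] (p : A → B → Prop) :
    Nat.card {b // ∃ a, p a b} ≤ ∑ a, Nat.card {b // p a b} := by
  classical
  have e : ∀ (q : B → Prop) [DecidablePred q],
      Nat.card {b // q b} = (Finset.univ.filter q).card := by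
    intro q _
    rw [Nat.card_eq_fintype_card, Fintype.card_subtype]
  rw [e, Finset.sum_congr rfl (fun a _ => e (p a))]
  refine le_trans (Finset.card_le_card ?_) Finset.card_biUnion_le
  intro b hb
  rw [Finset.mem_filter] at hb
  obtain ⟨_, a, ha⟩ := hb
  rw [Finset.mem_biUnion]
  exact ⟨a, Finset.mem_univ a, Finset.mem_filter.2 ⟨Finset.mem_univ b, ha⟩⟩

private theorem MIX_one (mgf : S_MGF) (k h R : ℕ) (hh : 0 < h)
    (X : Type) [Fintype X] [DecidableEq X] [Nonempty X] (S : Fin k → Finset X) :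
    ((Nat.card {ω : Fin R → (Fin k → X) //
      (((Finset.univ.filter (fun p => ∀ a, ω p a ∈ S a)).card : ℕ) : ℚ) < ((R : ℕ) : ℚ) *
        ((∏ a, (((S a).card : ℕ) : ℚ) / ((Fintype.card X : ℕ) : ℚ)) - 1 / (h : ℚ))} : ℕ) : ℝ) ≤
    ((Fintype.card X : ℝ) ^ k) ^ R * Real.exp (-((1 / (h : ℝ)) ^ 2 * R / 4)) := by
  have hh' : (0 : ℝ) < h := by exact_mod_cast hh
  have hη : (0 : ℝ) < 1 / (h : ℝ) := by positivity
  have hη1 : 1 / (h : ℝ) ≤ 1 := by
    rw [div_le_one hh']
    exact_mod_cast hh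
  have hm := mgf (Fin k → X) (Fintype.piFinset S) R (1 / (h : ℝ)) hη hη1
  have hY : (Fintype.card (Fin k → X) : ℝ) = (Fintype.card X : ℝ) ^ k := by
    rw [Fintype.card_fun, Fintype.card_fin]
    push_cast
    rfl
  rw [hY] at hm
  refine le_trans (le_of_eq ?_) hm
  congr 1
  refine Nat.card_congr (Equiv.subtypeEquivRight ?_)
  intro ω
  have e1 : (Finset.univ.filter (fun p => ω p ∈ Fintype.piFinset S)) =
      (Finset.univ.filter (fun p => ∀ a, ω p a ∈ S a)) := by
    refine Finset.filter_congr ?_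
    intro p _
    exact Fintype.mem_piFinset
  have e2 : (∏ a, (((S a).card : ℕ) : ℝ) / ((Fintype.card X : ℕ) : ℝ)) =
      ((Fintype.piFinset S).card : ℝ) / (Fintype.card X : ℝ) ^ k := by
    rw [Finset.prod_div_distrib, Finset.prod_const, Finset.card_univ, Fintype.card_fin,
      Fintype.card_piFinset]
    push_cast
    rfl
  rw [e1, ← e2, ← Rat.cast_lt (K := ℝ)]
  push_cast
  rfl

theorem p_MIX (mgf : S_MGF) : S_MIX := by
  intro k h C hh hC X _ _ _
  classical
  have hh' : (0 : ℝ) < h := by exact_mod_cast hh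
  have hN1 : 1 ≤ Fintype.card X := Fintype.card_pos
  have h1 := MIX_union (fun (S : Fin k → Finset X)
    (ω : Fin (C * Fintype.card X) → (Fin k → X)) =>
      (((Finset.univ.filter (fun p => ∀ a, ω p a ∈ S a)).card : ℕ) : ℚ) <
      ((C * Fintype.card X : ℕ) : ℚ) *
        ((∏ a, (((S a).card : ℕ) : ℚ) / ((Fintype.card X : ℕ) : ℚ)) - 1 / (h : ℚ)))
  have h2 := fun S : Fin k → Finset X => MIX_one mgf k h (C * Fintype.card X) hh X S
  have h3 : (∑ S : Fin k → Finset X, (Nat.card {ω : Fin (C * Fintype.card X) → (Fin k → X) //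
      (((Finset.univ.filter (fun p => ∀ a, ω p a ∈ S a)).card : ℕ) : ℚ) <
      ((C * Fintype.card X : ℕ) : ℚ) *
        ((∏ a, (((S a).card : ℕ) : ℚ) / ((Fintype.card X : ℕ) : ℚ)) - 1 / (h : ℚ))} : ℝ)) ≤
      ((2 : ℝ) ^ Fintype.card X) ^ k * (((Fintype.card X : ℝ) ^ k) ^ (C * Fintype.card X) *
        Real.exp (-((1 / (h : ℝ)) ^ 2 * (C * Fintype.card X : ℕ) / 4))) := by
    refine le_trans (Finset.sum_le_sum fun S _ => h2 S) ?_
    rw [Finset.sum_const, Finset.card_univ, Fintype.card_fun, Fintype.card_fin,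
      Fintype.card_finset, nsmul_eq_mul]
    push_cast
    exact le_rfl
  have hexp : 8 * ((2 : ℝ) ^ Fintype.card X) ^ k *
      Real.exp (-((1 / (h : ℝ)) ^ 2 * (C * Fintype.card X : ℕ) / 4)) ≤ 1 := by
    have hC' : 4 * ((k : ℝ) + 3) * (h : ℝ) ^ 2 ≤ C := by exact_mod_cast hC
    have a1 : ((k : ℝ) + 3) * Fintype.card X ≤
        (1 / (h : ℝ)) ^ 2 * (C * Fintype.card X : ℕ) / 4 := by
      have b1 : (k : ℝ) + 3 ≤ (1 / (h : ℝ)) ^ 2 * C / 4 := by
        rw [one_div, inv_pow, inv_mul_eq_div, div_div, le_div_iff₀ (by positivity)]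
        linarith
      have b2 := mul_le_mul_of_nonneg_right b1 (Nat.cast_nonneg (α := ℝ) (Fintype.card X))
      push_cast
      calc ((k : ℝ) + 3) * Fintype.card X ≤ (1 / (h : ℝ)) ^ 2 * C / 4 * Fintype.card X := b2
        _ = (1 / (h : ℝ)) ^ 2 * (C * Fintype.card X) / 4 := by ring
    have a2 : Real.exp (-((1 / (h : ℝ)) ^ 2 * (C * Fintype.card X : ℕ) / 4)) ≤
        Real.exp (-(((k : ℝ) + 3) * Fintype.card X)) :=
      Real.exp_le_exp.2 (neg_le_neg a1)
    have a3 : (8 : ℝ) * ((2 : ℝ) ^ Fintype.card X) ^ k ≤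
        Real.exp (((k : ℝ) + 3) * Fintype.card X) := by
      have c1 : (8 : ℝ) ≤ (2 : ℝ) ^ (3 * Fintype.card X) := by
        calc (8 : ℝ) = (2 : ℝ) ^ (3 * 1) := by norm_num
          _ ≤ (2 : ℝ) ^ (3 * Fintype.card X) :=
            pow_le_pow_right₀ (by norm_num) (Nat.mul_le_mul_left 3 hN1)
      have c2 : (2 : ℝ) ≤ Real.exp 1 := by
        have := Real.add_one_le_exp (1 : ℝ)
        linarith
      calc (8 : ℝ) * ((2 : ℝ) ^ Fintype.card X) ^ k
          ≤ (2 : ℝ) ^ (3 * Fintype.card X) * ((2 : ℝ) ^ Fintype.card X) ^ k :=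
            mul_le_mul_of_nonneg_right c1 (by positivity)
        _ = (2 : ℝ) ^ ((k + 3) * Fintype.card X) := by
            rw [← pow_mul, ← pow_add]
            congr 1
            ring
        _ ≤ (Real.exp 1) ^ ((k + 3) * Fintype.card X) :=
            pow_le_pow_left₀ (by norm_num) c2 _
        _ = Real.exp (((k : ℝ) + 3) * Fintype.card X) := by
            rw [← Real.exp_nat_mul, mul_one]
            push_cast
            rfl
    calc 8 * ((2 : ℝ) ^ Fintype.card X) ^ k *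
        Real.exp (-((1 / (h : ℝ)) ^ 2 * (C * Fintype.card X : ℕ) / 4))
        ≤ Real.exp (((k : ℝ) + 3) * Fintype.card X) *
          Real.exp (-(((k : ℝ) + 3) * Fintype.card X)) :=
          mul_le_mul a3 a2 (Real.exp_pos _).le (Real.exp_pos _).le
      _ = 1 := by rw [← Real.exp_add, add_neg_cancel, Real.exp_zero]
  have hcard : (Nat.card (Fin (C * Fintype.card X) → (Fin k → X)) : ℝ) =
      ((Fintype.card X : ℝ) ^ k) ^ (C * Fintype.card X) := by
    rw [Nat.card_eq_fintype_card, Fintype.card_fun, Fintype.card_fun, Fintype.card_fin,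
      Fintype.card_fin]
    push_cast
    rfl
  have hfin : ((8 * Nat.card {ω : Fin (C * Fintype.card X) → (Fin k → X) //
      ∃ S : Fin k → Finset X,
      (((Finset.univ.filter (fun p => ∀ a, ω p a ∈ S a)).card : ℕ) : ℚ) <
      ((C * Fintype.card X : ℕ) : ℚ) *
        ((∏ a, (((S a).card : ℕ) : ℚ) / ((Fintype.card X : ℕ) : ℚ)) - 1 / (h : ℚ))} : ℕ) : ℝ) ≤
      (Nat.card (Fin (C * Fintype.card X) → (Fin k → X)) : ℝ) := by
    rw [hcard]
    rw [Nat.cast_mul, Nat.cast_ofNat]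
    have h4 := (Nat.cast_le (α := ℝ)).2 h1
    rw [Nat.cast_sum] at h4
    have h5 := h4.trans h3
    calc (8 : ℝ) * _ ≤ 8 * (((2 : ℝ) ^ Fintype.card X) ^ k * (((Fintype.card X : ℝ) ^ k) ^
          (C * Fintype.card X) *
        Real.exp (-((1 / (h : ℝ)) ^ 2 * (C * Fintype.card X : ℕ) / 4)))) :=
          mul_le_mul_of_nonneg_left h5 (by norm_num)
      _ = (8 * ((2 : ℝ) ^ Fintype.card X) ^ k *
          Real.exp (-((1 / (h : ℝ)) ^ 2 * (C * Fintype.card X : ℕ) / 4))) *
            ((Fintype.card X : ℝ) ^ k) ^ (C * Fintype.card X) := by ring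
      _ ≤ 1 * ((Fintype.card X : ℝ) ^ k) ^ (C * Fintype.card X) :=
          mul_le_mul_of_nonneg_right hexp (by positivity)
      _ = _ := one_mul _
  exact_mod_cast hfin

end Pool.Agent.Lib.MP_87d05f_lc.HG
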