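import Pool.Agent.Lib.MP_87d05f_lc.HG.Stm

set_option autoImplicit false

/-!
# MP_87d05f_lc, instances of large girth: patterns exist
-/

namespace Pool.Agent.Lib.MP_87d05f_lc.HG

open Pool.Agent.Lib.MP_87d05f_lc

/-- a family of good tables with few index cycles exists, by averaging -/
theorem PAT_avg {T Ω : Type} [Fintype T] [DecidableEq T] [Fintype Ω] [Nonempty Ω]
    (G : Finset Ω) (hG : Fintype.card Ω ≤ 2 * G.card) (f : (T → Ω) → ℕ) (A : ℕ)
    (hf : ∑ ω : T → Ω, f ω ≤ A * Fintype.card (T → Ω)) :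
    ∃ ω : T → Ω, (∀ τ, ω τ ∈ G) ∧ f ω ≤ 2 ^ (Fintype.card T) * A := by
  by_contra hcon
  push Not at hcon
  have hcard : Fintype.card (T → Ω) = Fintype.card Ω ^ Fintype.card T := Fintype.card_fun
  have hpos : 0 < Fintype.card Ω := Fintype.card_pos
  have hGpos : 0 < G.card := by omega
  have h1 : (2 ^ (Fintype.card T) * A + 1) * G.card ^ Fintype.card T ≤ ∑ ω : T → Ω, f ω := by
    have h2 : ∑ ω ∈ Fintype.piFinset (fun _ : T => G), (2 ^ (Fintype.card T) * A + 1) ≤
        ∑ ω ∈ Fintype.piFinset (fun _ : T => G), f ω := by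
      apply Finset.sum_le_sum
      intro ω hω
      rw [Fintype.mem_piFinset] at hω
      have := hcon ω hω
      omega
    have h3 : ∑ ω ∈ Fintype.piFinset (fun _ : T => G), f ω ≤ ∑ ω : T → Ω, f ω :=
      Finset.sum_le_sum_of_subset (Finset.subset_univ _)
    have h4 : ∑ ω ∈ Fintype.piFinset (fun _ : T => G), (2 ^ (Fintype.card T) * A + 1) =
        (2 ^ (Fintype.card T) * A + 1) * G.card ^ Fintype.card T := by
      rw [Finset.sum_const, Fintype.card_piFinset, Finset.prod_const, Finset.card_univ, smul_eq_mul,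
        Nat.mul_comm]
    rw [← h4]
    exact h2.trans h3
  have h5 : Fintype.card Ω ^ Fintype.card T ≤ 2 ^ Fintype.card T * G.card ^ Fintype.card T := by
    rw [← Nat.mul_pow]
    exact Nat.pow_le_pow_left hG _
  have h6 : 0 < G.card ^ Fintype.card T := Nat.pow_pos hGpos
  have h7 : A * Fintype.card Ω ^ Fintype.card T ≤
      A * (2 ^ Fintype.card T * G.card ^ Fintype.card T) := Nat.mul_le_mul_left _ h5
  have h8 : (2 ^ (Fintype.card T) * A + 1) * G.card ^ Fintype.card T =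
      A * (2 ^ Fintype.card T * G.card ^ Fintype.card T) + G.card ^ Fintype.card T := by ring
  rw [hcard] at hf
  omega

theorem PAT_countP {R : ℕ} (p : Fin R → Prop) [DecidablePred p] :
    (List.finRange R).countP (fun n => decide (p n)) = (Finset.univ.filter p).card := by
  rw [List.countP_eq_length_filter]
  rw [Finset.card_def, Finset.filter_val, Fin.univ_def, Multiset.filter_coe, Multiset.coe_card]

/-- the number of the index cycles of size `r` -/
noncomputable def PAT_cnt {T : Type} [Fintype T] {k W N R : ℕ} (r : ℕ)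
    (ω : T → Fin R → Fin k → Fin N × Fin W) : ℕ :=
  Nat.card {y : (Fin (r + 1) → T × Fin R) × (Fin (r + 1) → Fin k) × (Fin (r + 1) → Fin k) ×
    (Fin (r + 1) → Fin N) // CfgW ω y.1 y.2.1 y.2.2.1 y.2.2.2}

theorem PAT_sum_cnt {T : Type} [Fintype T] [DecidableEq T] {k W N R : ℕ} (r : ℕ) :
    ∑ ω : T → Fin R → Fin k → Fin N × Fin W, PAT_cnt r ω =
      Nat.card {x : (T → Fin R → Fin k → Fin N × Fin W) × (Fin (r + 1) → T × Fin R) ×
        (Fin (r + 1) → Fin k) × (Fin (r + 1) → Fin k) × (Fin (r + 1) → Fin N) //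
          CfgW x.1 x.2.1 x.2.2.1 x.2.2.2.1 x.2.2.2.2} := by
  classical
  unfold PAT_cnt
  have h1 : ∀ ω : T → Fin R → Fin k → Fin N × Fin W,
      Nat.card {y : (Fin (r + 1) → T × Fin R) × (Fin (r + 1) → Fin k) × (Fin (r + 1) → Fin k) ×
        (Fin (r + 1) → Fin N) // CfgW ω y.1 y.2.1 y.2.2.1 y.2.2.2} =
      ∑ y : (Fin (r + 1) → T × Fin R) × (Fin (r + 1) → Fin k) × (Fin (r + 1) → Fin k) ×
        (Fin (r + 1) → Fin N), if CfgW ω y.1 y.2.1 y.2.2.1 y.2.2.2 then 1 else 0 := by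
    intro ω
    rw [Nat.card_eq_fintype_card, Fintype.card_subtype, Finset.card_filter]
  rw [Finset.sum_congr rfl (fun ω _ => h1 ω)]
  rw [Nat.card_eq_fintype_card, Fintype.card_subtype, Finset.card_filter, Fintype.sum_prod_type]

/-- the places of one table in index cycles -/
def PAT_B1 {T : Type} {k W N R : ℕ} (g : ℕ) (ω : T → Fin R → Fin k → Fin N × Fin W) (τ : T)
    (n : Fin R) : Prop :=
  ∃ r : ℕ, r < g + 1 ∧ ∃ (p : Fin (r + 1) → T × Fin R) (a b : Fin (r + 1) → Fin k)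
    (i : Fin (r + 1) → Fin N), CfgW ω p a b i ∧ ∃ t, p t = (τ, n)

theorem PAT_B1_card {T : Type} [Fintype T] [DecidableEq T] {k W N R : ℕ} (g : ℕ)
    (ω : T → Fin R → Fin k → Fin N × Fin W) (τ : T) [DecidablePred (PAT_B1 g ω τ)] :
    (Finset.univ.filter (PAT_B1 g ω τ)).card ≤
      ∑ r ∈ Finset.range (g + 1), (r + 1) * PAT_cnt r ω := by
  classical
  have h1 : Finset.univ.filter (PAT_B1 g ω τ) ⊆ (Finset.range (g + 1)).biUnion (fun r =>
      ((Finset.univ.filter (fun y : (Fin (r + 1) → T × Fin R) × (Fin (r + 1) → Fin k) ×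
        (Fin (r + 1) → Fin k) × (Fin (r + 1) → Fin N) => CfgW ω y.1 y.2.1 y.2.2.1 y.2.2.2)) ×ˢ
        (Finset.univ : Finset (Fin (r + 1)))).image (fun yt => (yt.1.1 yt.2).2)) := by
    intro n hn
    rw [Finset.mem_filter] at hn
    obtain ⟨r, hr, p, a, b, i, hc, t, ht⟩ := hn.2
    rw [Finset.mem_biUnion]
    refine ⟨r, Finset.mem_range.2 hr, ?_⟩
    rw [Finset.mem_image]
    refine ⟨((p, a, b, i), t), ?_, ?_⟩
    · rw [Finset.mem_product]
      exact ⟨Finset.mem_filter.2 ⟨Finset.mem_univ _, hc⟩, Finset.mem_univ _⟩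
    · show (p t).2 = n
      rw [ht]
  refine (Finset.card_le_card h1).trans (Finset.card_biUnion_le.trans ?_)
  apply Finset.sum_le_sum
  intro r _
  refine Finset.card_image_le.trans ?_
  rw [Finset.card_product, Finset.card_univ, Fintype.card_fin, Nat.mul_comm]
  unfold PAT_cnt
  rw [Nat.card_eq_fintype_card, Fintype.card_subtype]

/-- the lists of a family of tables, without the bad places -/
noncomputable def PAT_H {T : Type} {k W N R : ℕ} (ω : T → Fin R → Fin k → Fin N × Fin W)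
    (B : T → Finset (Fin R)) (τ : T) : List (Fin k → Fin N × Fin W) :=
  ((List.finRange R).filter (fun n => decide (n ∉ B τ))).map (ω τ)

theorem PAT_H_countP {T : Type} {k W N R : ℕ} (ω : T → Fin R → Fin k → Fin N × Fin W)
    (B : T → Finset (Fin R)) (τ : T) (q : (Fin k → Fin N × Fin W) → Prop) [DecidablePred q] :
    (PAT_H ω B τ).countP (fun c => decide (q c)) =
      (Finset.univ.filter (fun n => q (ω τ n) ∧ n ∉ B τ)).card := by
  unfold PAT_H
  rw [List.countP_map, List.countP_filter, ← PAT_countP]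
  congr 1
  funext n
  simp only [Function.comp_apply, Bool.decide_and]

theorem PAT_H_get {T : Type} {k W N R : ℕ} (ω : T → Fin R → Fin k → Fin N × Fin W)
    (B : T → Finset (Fin R)) (τ : T) (m : ℕ) (c : Fin k → Fin N × Fin W)
    (h : (PAT_H ω B τ)[m]? = some c) :
    ∃ n : Fin R, ((List.finRange R).filter (fun n => decide (n ∉ B τ)))[m]? = some n ∧
      n ∉ B τ ∧ ω τ n = c := by
  unfold PAT_H at h
  rw [List.getElem?_map, Option.map_eq_some_iff] at h
  obtain ⟨n, hn, hc⟩ := h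
  refine ⟨n, hn, ?_, hc⟩
  have := List.mem_of_getElem? hn
  rw [List.mem_filter] at this
  exact of_decide_eq_true this.2

/-- no index cycles in the lists -/
theorem PAT_H_cfg {T : Type} {k W N R g : ℕ} (ω : T → Fin R → Fin k → Fin N × Fin W)
    (B : T → Finset (Fin R)) (hB : ∀ τ n, PAT_B1 g ω τ n → n ∈ B τ) (r : ℕ) (hr : r < g + 1)
    (p : Fin (r + 1) → T × ℕ) (a b : Fin (r + 1) → Fin k) (i : Fin (r + 1) → Fin N) :
    ¬ CfgH (PAT_H ω B) p a b i := by
  rintro ⟨hinj, hab, hc⟩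
  have h1 : ∀ t, ∃ n : Fin R, ((List.finRange R).filter (fun n => decide (n ∉ B (p t).1)))[(p t).2]?
      = some n ∧ n ∉ B (p t).1 ∧ (ω (p t).1 n (a t)).1 = i t ∧
        (ω (p t).1 n (b t)).1 = i (t + 1) := by
    intro t
    obtain ⟨c, hc1, hc2, hc3⟩ := hc t
    obtain ⟨n, hn1, hn2, hn3⟩ := PAT_H_get ω B _ _ _ hc1
    exact ⟨n, hn1, hn2, by rw [hn3]; exact hc2, by rw [hn3]; exact hc3⟩
  choose n hn1 hn2 hn3 hn4 using h1
  have hcfg : CfgW ω (fun t => ((p t).1, n t)) a b i := by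
    refine ⟨?_, hab, fun t => ⟨hn3 t, hn4 t⟩⟩
    intro t t' htt
    have e1 : (p t).1 = (p t').1 := (Prod.mk.inj htt).1
    have e2 : n t = n t' := (Prod.mk.inj htt).2
    apply hinj
    have h2 := hn1 t
    have h3 := hn1 t'
    rw [← e1, ← e2] at h3
    have hnd : ((List.finRange R).filter (fun n => decide (n ∉ B (p t).1))).Nodup :=
      (List.nodup_finRange R).filter _
    have h4 : (p t).2 = (p t').2 := by
      obtain ⟨hl, he⟩ := List.getElem?_eq_some_iff.1 h2
      obtain ⟨hl', he'⟩ := List.getElem?_eq_some_iff.1 h3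
      exact (List.Nodup.getElem_inj_iff hnd).1 (he.trans he'.symm)
    exact Prod.ext e1 h4
  exact hn2 0 (hB _ _ ⟨r, hr, _, a, b, i, hcfg, 0, rfl⟩)

theorem p_PAT : S_MIX → S_DEG → S_CFG → S_IDX → S_PAT := by
  intro hMIX hDEG hCFG hIDX k h hh
  obtain ⟨K, hK, hdeg⟩ := hDEG k (4 * (k + 3) * (2 * h) ^ 2) (4 * h) (by omega)
  have hmix := hMIX k (2 * h) (4 * (k + 3) * (2 * h) ^ 2) (by omega) le_rfl
  have hC2 : 2 ≤ 4 * (k + 3) * (2 * h) ^ 2 := by
    have h1 : 1 ≤ (2 * h) ^ 2 := Nat.one_le_pow _ _ (by omega)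
    nlinarith
  revert hdeg hmix hC2
  generalize 4 * (k + 3) * (2 * h) ^ 2 = C
  intro hdeg hmix hC2
  refine ⟨C, K, hC2, hK, ?_⟩
  intro T _ W g hW
  classical
  letI : Fintype T := Fintype.ofFinite T
  obtain ⟨A, hA⟩ : ∃ A : ℕ, A = ∑ r ∈ Finset.range (g + 1),
      (r + 1) * (Fintype.card T * C * W * k ^ 2) ^ (r + 1) := ⟨_, rfl⟩
  obtain ⟨N, hN⟩ : ∃ N : ℕ, N = 4 * h * (2 ^ Fintype.card T * A) + 1 := ⟨_, rfl⟩
  have hN0 : 0 < N := by omega
  refine ⟨N, hN0, ?_⟩
  haveI : Nonempty (Fin N × Fin W) := ⟨(⟨0, hN0⟩, ⟨0, hW⟩)⟩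
  have hX : Fintype.card (Fin N × Fin W) = N * W := by
    rw [Fintype.card_prod, Fintype.card_fin, Fintype.card_fin]
  have hm := hmix (Fin N × Fin W)
  have hd := hdeg (Fin N × Fin W)
  rw [hX] at hm hd
  obtain ⟨R, hR⟩ : ∃ R : ℕ, R = C * (N * W) := ⟨_, rfl⟩
  rw [← hR] at hm hd
  -- the good tables
  obtain ⟨G, hG⟩ : ∃ G : Finset (Fin R → (Fin k → Fin N × Fin W)), G = Finset.univ.filter
      (fun ω => (¬ ∃ S : Fin k → Finset (Fin N × Fin W),
        (((Finset.univ.filter (fun p => ∀ a, ω p a ∈ S a)).card : ℕ) : ℚ) <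
        (R : ℚ) * ((∏ a, (((S a).card : ℕ) : ℚ) / ((N * W : ℕ) : ℚ)) - 1 / ((2 * h : ℕ) : ℚ))) ∧
        ¬ (R < 4 * h * (Finset.univ.filter (fun p => ∃ a,
          K < (Finset.univ.filter (fun p' => ω p' a = ω p a)).card)).card)) := ⟨_, rfl⟩
  have hGc : Fintype.card (Fin R → (Fin k → Fin N × Fin W)) ≤ 2 * G.card := by
    rw [Nat.card_eq_fintype_card, Nat.card_eq_fintype_card, Fintype.card_subtype] at hm hd
    have hsub : (Finset.univ : Finset (Fin R → (Fin k → Fin N × Fin W))) ⊆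
        G ∪ (Finset.univ.filter
          (fun ω => (∃ S : Fin k → Finset (Fin N × Fin W),
            (((Finset.univ.filter (fun p => ∀ a, ω p a ∈ S a)).card : ℕ) : ℚ) <
            (R : ℚ) * ((∏ a, (((S a).card : ℕ) : ℚ) / ((N * W : ℕ) : ℚ)) -
              1 / ((2 * h : ℕ) : ℚ)))) ∪
          Finset.univ.filter (fun ω => (R < 4 * h * (Finset.univ.filter (fun p => ∃ a,
          K < (Finset.univ.filter (fun p' => ω p' a = ω p a)).card)).card))) := by
      intro ω _
      rw [Finset.mem_union, Finset.mem_union, hG, Finset.mem_filter, Finset.mem_filter,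
        Finset.mem_filter]
      by_cases h1 : ∃ S : Fin k → Finset (Fin N × Fin W),
            (((Finset.univ.filter (fun p => ∀ a, ω p a ∈ S a)).card : ℕ) : ℚ) <
            (R : ℚ) * ((∏ a, (((S a).card : ℕ) : ℚ) / ((N * W : ℕ) : ℚ)) -
              1 / ((2 * h : ℕ) : ℚ))
      · exact Or.inr (Or.inl ⟨Finset.mem_univ _, h1⟩)
      · by_cases h2 : R < 4 * h * (Finset.univ.filter (fun p => ∃ a,
          K < (Finset.univ.filter (fun p' => ω p' a = ω p a)).card)).card
        · exact Or.inr (Or.inr ⟨Finset.mem_univ _, h2⟩)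
        · exact Or.inl ⟨Finset.mem_univ _, h1, h2⟩
    have hc := (Finset.card_le_card hsub).trans ((Finset.card_union_le _ _).trans
      (Nat.add_le_add_left (Finset.card_union_le _ _) _))
    rw [Finset.card_univ] at hc
    omega
  -- few index cycles
  have hf : ∑ ω : T → (Fin R → (Fin k → Fin N × Fin W)),
      ∑ r ∈ Finset.range (g + 1), (r + 1) * PAT_cnt r ω ≤
        A * Fintype.card (T → (Fin R → (Fin k → Fin N × Fin W))) := by
    rw [Finset.sum_comm, hA, Finset.sum_mul]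
    apply Finset.sum_le_sum
    intro r _
    rw [← Finset.mul_sum, PAT_sum_cnt, Nat.mul_assoc]
    apply Nat.mul_le_mul_left
    have h1 := hCFG T k W N R r hN0 hW
    have e1 : (Fintype.card T * R * k ^ 2) ^ (r + 1) =
        N ^ (r + 1) * (Fintype.card T * C * W * k ^ 2) ^ (r + 1) := by
      rw [← Nat.mul_pow, hR]
      congr 1
      ring
    rw [e1, Nat.mul_assoc, Nat.card_eq_fintype_card (α := T → _)] at h1
    exact Nat.le_of_mul_le_mul_left h1 (Nat.pow_pos hN0)
  obtain ⟨ω, hω, hfω⟩ := PAT_avg G hGc _ A hf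
  -- the bad places
  obtain ⟨B, hB⟩ : ∃ B : T → Finset (Fin R), B = fun τ => Finset.univ.filter (PAT_B1 g ω τ) ∪
      Finset.univ.filter (fun p => ∃ a,
          K < (Finset.univ.filter (fun p' => ω τ p' a = ω τ p a)).card) := ⟨_, rfl⟩
  have hB1 : ∀ τ n, PAT_B1 g ω τ n → n ∈ B τ := by
    intro τ n hn
    rw [hB]
    exact Finset.mem_union_left _ (Finset.mem_filter.2 ⟨Finset.mem_univ _, hn⟩)
  have hB2 : ∀ τ n, (∃ a, K < (Finset.univ.filter (fun p' => ω τ p' a = ω τ n a)).card) →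
      n ∈ B τ := by
    intro τ n hn
    rw [hB]
    exact Finset.mem_union_right _ (Finset.mem_filter.2 ⟨Finset.mem_univ _, hn⟩)
  have hBc : ∀ τ, 2 * h * (B τ).card ≤ R := by
    intro τ
    have h1 : (B τ).card ≤ (Finset.univ.filter (PAT_B1 g ω τ)).card +
      (Finset.univ.filter (fun p => ∃ a,
          K < (Finset.univ.filter (fun p' => ω τ p' a = ω τ p a)).card)).card := by
      rw [hB]
      exact Finset.card_union_le _ _
    have h2 := (PAT_B1_card g ω τ).trans hfω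
    have h3 := hω τ
    rw [hG, Finset.mem_filter] at h3
    have h4 := h3.2.2
    have h5 : 4 * h * (2 ^ Fintype.card T * A) ≤ R := by
      have : N * 1 ≤ R := by
        rw [hR]
        calc N * 1 ≤ N * W := Nat.mul_le_mul_left _ hW
          _ = 1 * (N * W) := (Nat.one_mul _).symm
          _ ≤ C * (N * W) := Nat.mul_le_mul_right _ (by omega)
      omega
    have h6 : 4 * h * (Finset.univ.filter (PAT_B1 g ω τ)).card ≤
        4 * h * (2 ^ Fintype.card T * A) := Nat.mul_le_mul_left _ h2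
    have h7 : 4 * h * (B τ).card ≤ 4 * h * ((Finset.univ.filter (PAT_B1 g ω τ)).card +
      (Finset.univ.filter (fun p => ∃ a,
          K < (Finset.univ.filter (fun p' => ω τ p' a = ω τ p a)).card)).card) :=
      Nat.mul_le_mul_left _ h1
    rw [Nat.mul_add] at h7
    have e2 : 4 * h * (B τ).card = 2 * (2 * h * (B τ).card) := by ring
    omega
  refine ⟨PAT_H ω B, ?_, ?_, ?_, ?_, ?_⟩
  · intro τ
    unfold PAT_H
    rw [List.length_map, ← hR]
    exact (List.length_filter_le _ _).trans (le_of_eq List.length_finRange)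
  · intro τ S
    have h3 := hω τ
    rw [hG, Finset.mem_filter] at h3
    have h4 := h3.2.1
    push Not at h4
    have h5 := h4 S
    rw [PAT_H_countP ω B τ (fun p => ∀ a, p a ∈ S a), ← hR]
    have h6 : (Finset.univ.filter (fun n => ∀ a, ω τ n a ∈ S a)).card ≤
        (Finset.univ.filter (fun n => (∀ a, ω τ n a ∈ S a) ∧ n ∉ B τ)).card + (B τ).card := by
      refine (Finset.card_le_card ?_).trans (Finset.card_union_le _ _)
      intro n hn
      rw [Finset.mem_union, Finset.mem_filter]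
      by_cases hnB : n ∈ B τ
      · exact Or.inr hnB
      · exact Or.inl ⟨Finset.mem_univ _, (Finset.mem_filter.1 hn).2, hnB⟩
    have h7 : (((Finset.univ.filter (fun n => ∀ a, ω τ n a ∈ S a)).card : ℕ) : ℚ) ≤
        (((Finset.univ.filter (fun n => (∀ a, ω τ n a ∈ S a) ∧ n ∉ B τ)).card : ℕ) : ℚ) +
          (((B τ).card : ℕ) : ℚ) := by
      exact_mod_cast h6
    have h8 : (2 : ℚ) * (h : ℚ) * (((B τ).card : ℕ) : ℚ) ≤ (R : ℚ) := by
      exact_mod_cast hBc τ
    have hh' : (0 : ℚ) < (h : ℚ) := by exact_mod_cast hh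
    have h9 : (((B τ).card : ℕ) : ℚ) ≤ (R : ℚ) * (1 / ((2 * h : ℕ) : ℚ)) := by
      rw [Nat.cast_mul, Nat.cast_ofNat, mul_one_div, le_div_iff₀ (by positivity)]
      linarith
    have e3 : (R : ℚ) * ((∏ a, (((S a).card : ℕ) : ℚ) / ((N * W : ℕ) : ℚ)) - 1 / (h : ℚ)) =
        (R : ℚ) * ((∏ a, (((S a).card : ℕ) : ℚ) / ((N * W : ℕ) : ℚ)) -
          1 / ((2 * h : ℕ) : ℚ)) - (R : ℚ) * (1 / ((2 * h : ℕ) : ℚ)) := by
      have e4 : ((2 * h : ℕ) : ℚ) = 2 * (h : ℚ) := by push_cast; ring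
      have e5 : 1 / (h : ℚ) = 1 / (2 * (h : ℚ)) + 1 / (2 * (h : ℚ)) := by
        field_simp
        norm_num
      rw [e4, e5]
      ring
    rw [e3]
    linarith
  · intro τ a x
    rw [PAT_H_countP ω B τ (fun p => p a = x)]
    by_cases hne : ∃ n, ω τ n a = x ∧ n ∉ B τ
    · obtain ⟨n, hn, hnB⟩ := hne
      have h1 : ¬ (K < (Finset.univ.filter (fun p' => ω τ p' a = ω τ n a)).card) :=
        fun hcon => hnB (hB2 τ n ⟨a, hcon⟩)
      refine (Finset.card_le_card ?_).trans (not_lt.1 h1)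
      intro m hm
      rw [Finset.mem_filter] at hm ⊢
      exact ⟨hm.1, by rw [hn]; exact hm.2.1⟩
    · push Not at hne
      have : Finset.univ.filter (fun n => ω τ n a = x ∧ n ∉ B τ) = ∅ := by
        apply Finset.filter_false_of_mem
        rintro n - ⟨h1, h2⟩
        exact h2 (hne n h1)
      rw [this]
      simp
  · intro τ c hc a b hab
    by_contra hne
    unfold PAT_H at hc
    rw [List.mem_map] at hc
    obtain ⟨n, hn, rfl⟩ := hc
    rw [List.mem_filter] at hn
    have hnB : n ∉ B τ := of_decide_eq_true hn.2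
    apply hnB
    apply hB1
    refine ⟨0, by omega, fun _ => (τ, n), fun _ => a, fun _ => b, fun _ => (ω τ n a).1, ?_, 0, rfl⟩
    refine ⟨fun t t' _ => Subsingleton.elim (α := Fin 1) t t', fun _ => hne, fun t => ⟨rfl, ?_⟩⟩
    exact hab.symm
  · apply hIDX
    intro r hr p a b i
    exact PAT_H_cfg ω B hB1 r (by omega) p a b i

end Pool.Agent.Lib.MP_87d05f_lc.HG
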