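import Pool.Agent.Lib.MP_87d05f_lc.HG.Stm

set_option autoImplicit false

/-!
# MP_87d05f_lc, instances of large girth: the language of exact 3-clauses is hard
-/

namespace Pool.Agent.Lib.MP_87d05f_lc.HG

open Pool.Agent.Lib.MP_87d05f_lc

theorem R3_not {n : ℕ} (f : (Fin n → Fin 2) → Fin 2) (i : Fin 8) (t : Fin n → Fin 3 → Fin 2)
    (h1 : ∀ k, R3 i (t k) = true) (h2 : R3 i (fun j => f (fun k => t k j)) = false) :
    ¬ IsPol R3 f := fun h => by
  have h3 := h i t h1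
  rw [h2] at h3
  exact Bool.false_ne_true h3

theorem p_R3 : S_R3 := by
  refine minHom_boolean ?_ ?_ ?_ ?_ ?_ ?_
  · exact R3_not _ 7 ![![1, 1, 1]] (by decide) (by decide)
  · exact R3_not _ 0 ![![0, 0, 0]] (by decide) (by decide)
  · exact R3_not _ 7 ![![1, 0, 0], ![0, 1, 1]] (by decide) (by decide)
  · exact R3_not _ 0 ![![1, 0, 0], ![0, 1, 1]] (by decide) (by decide)
  · exact R3_not _ 7 ![![1, 0, 0], ![0, 1, 0], ![0, 0, 1]] (by decide) (by decide)
  · exact R3_not _ 7 ![![1, 1, 0], ![1, 0, 1], ![0, 1, 1]] (by decide) (by decide)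

end Pool.Agent.Lib.MP_87d05f_lc.HG
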