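import Pool.Agent.Lib.MP_87d05f_lc.HG.Stm

set_option autoImplicit false

namespace Pool.Agent.Lib.MP_87d05f_lc.HG

open Pool.Agent.Lib.MP_87d05f_lc

theorem RNC_gen (h : S_GEN) {V V' : Type} [Nonempty V] (ν : V → V') (hν : Function.Injective ν)
    (G : SimpleGraph V) (G' : SimpleGraph V')
    (hadj : ∀ x y, G'.Adj x y → ∃ a b, x = ν a ∧ y = ν b ∧ G.Adj a b) (g : ℕ)
    (hg : (g : ℕ∞) < G.egirth) : (g : ℕ∞) < G'.egirth := by
  have hinv : ∀ a, Function.invFun ν (ν a) = a := Function.leftInverse_invFun hν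
  have hne : ∀ x y, G'.Adj x y → Function.invFun ν x ≠ Function.invFun ν y := by
    intro x y hxy
    obtain ⟨a, b, rfl, rfl, hab⟩ := hadj x y hxy
    rw [hinv, hinv]; exact hab.ne
  refine h V V' V' G G' (Function.invFun ν) id (fun _ => 0) g ?_ ?_ ?_ ?_ hg
  · intro x y hxy _
    obtain ⟨a, b, rfl, rfl, hab⟩ := hadj x y hxy
    rw [hinv, hinv]; exact hab
  · intro x y hxy he
    exact absurd he (hne x y hxy)
  · intro x y z hxy _ he _ _ _
    exact absurd he.symm (hne x y hxy)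
  · intro x x' y y' hxy hxy' _ hx he _
    refine ⟨hx, ?_⟩
    obtain ⟨a, b, rfl, rfl, hab⟩ := hadj x y hxy
    obtain ⟨a', b', rfl, rfl, hab'⟩ := hadj x' y' hxy'
    rw [hinv, hinv] at he
    rw [he]

theorem RNC_inc {C C' V V' : Type} (vs : C → List V) (vs' : C' → List V') (m : C → C')
    (ν : V → V') (hm : ∀ c, vs' (m c) = (vs c).map ν) (F : List C) (x y : ℕ ⊕ V')
    (hxy : (incG vs' (F.map m)).Adj x y) :
    ∃ a b, x = Sum.map id ν a ∧ y = Sum.map id ν b ∧ (incG vs F).Adj a b := by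
  unfold incG at hxy ⊢
  simp only [SimpleGraph.fromRel_adj] at hxy ⊢
  obtain ⟨hne, h | h⟩ := hxy
  · obtain ⟨q, v', c', rfl, rfl, hc, hv⟩ := h
    rw [List.getElem?_map, Option.map_eq_some_iff] at hc
    obtain ⟨c, hc, rfl⟩ := hc
    rw [hm, List.mem_map] at hv
    obtain ⟨v, hv, rfl⟩ := hv
    exact ⟨Sum.inl q, Sum.inr v, rfl, rfl, by simp, Or.inl ⟨q, v, c, rfl, rfl, hc, hv⟩⟩
  · obtain ⟨q, v', c', rfl, rfl, hc, hv⟩ := h
    rw [List.getElem?_map, Option.map_eq_some_iff] at hc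
    obtain ⟨c, hc, rfl⟩ := hc
    rw [hm, List.mem_map] at hv
    obtain ⟨v, hv, rfl⟩ := hv
    exact ⟨Sum.inr v, Sum.inl q, rfl, rfl, by simp, Or.inr ⟨q, v, c, rfl, rfl, hc, hv⟩⟩

theorem RNC_hgi (h : S_GEN) {C C' V V' : Type} (vs : C → List V) (vs' : C' → List V') (m : C → C')
    (ν : V → V') (hν : Function.Injective ν) (hm : ∀ c, vs' (m c) = (vs c).map ν) (F : List C)
    (g : ℕ) (hF : HGI vs g F) : HGI vs' g (F.map m) := by
  refine ⟨?_, ?_⟩
  · intro c' hc'
    obtain ⟨c, hc, rfl⟩ := List.mem_map.1 hc'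
    rw [hm]
    exact (hF.1 c hc).map hν
  · haveI : Nonempty (ℕ ⊕ V) := ⟨Sum.inl 0⟩
    exact RNC_gen h (Sum.map id ν) (Function.Injective.sumMap Function.injective_id hν) _ _
      (RNC_inc vs vs' m ν hm F) g hF.2

theorem p_RNC : S_GEN → S_RNC := by
  intro h
  refine ⟨?_, ?_⟩
  · intro s ar V V' _ _ ν hν F
    have hvs : ∀ c : CV ar V, vsC (mapC ν c) = (vsC c).map ν := by
      intro c
      unfold vsC mapC
      rw [List.map_ofFn]
      rfl
    refine ⟨?_, ?_, ?_⟩
    · intro K hK v'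
      have hfl : (F.map (mapC ν)).flatMap vsC = (F.flatMap vsC).map ν := by
        rw [List.flatMap_map, List.map_flatMap]
        exact congrArg (fun f => List.flatMap f F) (funext hvs)
      rw [hfl]
      by_cases hv : ∃ v, ν v = v'
      · obtain ⟨v, rfl⟩ := hv
        rw [List.count_map_of_injective _ _ hν]
        exact hK v
      · have : List.count v' ((F.flatMap vsC).map ν) = 0 := by
          apply List.count_eq_zero_of_not_mem
          intro hmem
          obtain ⟨v, -, hv'⟩ := List.mem_map.1 hmem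
          exact hv ⟨v, hv'⟩
        rw [this]
        exact Nat.zero_le _
    · intro g hF
      exact RNC_hgi h vsC vsC (mapC ν) ν hν hvs F g hF
    · intro d a hd
      haveI : Nonempty (Fin d) := ⟨⟨0, hd⟩⟩
      exact ⟨Function.extend ν a (fun _ => ⟨0, hd⟩), fun v => hν.extend_apply a _ v⟩
  · intro V V' ν hν F g hF
    refine RNC_hgi h vsL vsL (mapL ν) ν hν ?_ F g hF
    intro c
    unfold vsL mapL
    rw [List.map_map, List.map_map]
    rfl

end Pool.Agent.Lib.MP_87d05f_lc.HG
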