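import Pool.Agent.Lib.MP_87d05f_lc.HG.P_MGF
import Pool.Agent.Lib.MP_87d05f_lc.HG.P_MIX
import Pool.Agent.Lib.MP_87d05f_lc.HG.P_DEG
import Pool.Agent.Lib.MP_87d05f_lc.HG.P_CFG
import Pool.Agent.Lib.MP_87d05f_lc.HG.P_IDX
import Pool.Agent.Lib.MP_87d05f_lc.HG.P_PAT
import Pool.Agent.Lib.MP_87d05f_lc.HG.P_GIR
import Pool.Agent.Lib.MP_87d05f_lc.HG.P_GEN
import Pool.Agent.Lib.MP_87d05f_lc.HG.P_E1
import Pool.Agent.Lib.MP_87d05f_lc.HG.P_RNG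
import Pool.Agent.Lib.MP_87d05f_lc.HG.P_RNC
import Pool.Agent.Lib.MP_87d05f_lc.HG.P_INJ
import Pool.Agent.Lib.MP_87d05f_lc.HG.P_LY
import Pool.Agent.Lib.MP_87d05f_lc.HG.P_LN
import Pool.Agent.Lib.MP_87d05f_lc.HG.P_LO
import Pool.Agent.Lib.MP_87d05f_lc.HG.P_LG
import Pool.Agent.Lib.MP_87d05f_lc.HG.P_CSP
import Pool.Agent.Lib.MP_87d05f_lc.HG.P_R3
import Pool.Agent.Lib.MP_87d05f_lc.HG.P_CN
import Pool.Agent.Lib.MP_87d05f_lc.HG.P_CO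
import Pool.Agent.Lib.MP_87d05f_lc.HG.P_CG
import Pool.Agent.Lib.MP_87d05f_lc.HG.P_CNF
import Pool.Agent.Lib.MP_87d05f_lc.HG.P_IB
import Pool.Agent.Lib.MP_87d05f_lc.HG.P_I1
import Pool.Agent.Lib.MP_87d05f_lc.HG.P_I2
import Pool.Agent.Lib.MP_87d05f_lc.HG.P_I3
import Pool.Agent.Lib.MP_87d05f_lc.HG.P_I4
import Pool.Agent.Lib.MP_87d05f_lc.HG.P_IND
import Pool.Agent.Lib.MP_87d05f_lc.HG.P_IR
import Pool.Agent.Lib.MP_87d05f_lc.HG.P_SUB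
import Pool.Agent.Lib.MP_87d05f_lc.HG.P_A1
import Pool.Agent.Lib.MP_87d05f_lc.HG.P_A2
import Pool.Agent.Lib.MP_87d05f_lc.HG.P_A3
import Pool.Agent.Lib.MP_87d05f_lc.HG.P_A4
import Pool.Agent.Lib.MP_87d05f_lc.HG.P_A5
import Pool.Agent.Lib.MP_87d05f_lc.HG.P_CUT
import Pool.Agent.Lib.MP_87d05f_lc.HG.P_CF
import Pool.Agent.Lib.MP_87d05f_lc.HG.P_LTR
import Pool.Agent.Lib.MP_87d05f_lc.HG.P_CTR
import Pool.Agent.Lib.MP_87d05f_lc.HG.P_GTR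

set_option autoImplicit false

/-!
# MP_87d05f_lc, instances of large girth: assembly
-/

namespace Pool.Agent.Lib.MP_87d05f_lc.HG

theorem m_GEN : S_GEN := p_GEN p_GIR

theorem m_E1 : S_E1 := p_E1 p_GIR

theorem m_RNG : S_RNG := p_RNG m_GEN

theorem m_RNC : S_RNC := p_RNC m_GEN

theorem m_LG : S_LG := p_LG m_GEN

theorem m_PAT : S_PAT := p_PAT (p_MIX p_MGF) p_DEG p_CFG p_IDX

theorem m_CSP : S_CSP := p_CSP m_PAT m_RNC p_INJ p_LY p_LN p_LO m_LG p_LTR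

theorem m_CNF : S_CNF :=
  p_CNF m_CSP p_R3 m_RNG m_RNC p_INJ p_CY p_CN p_CO (p_CG m_GEN) p_CTR

theorem m_IND : S_IND :=
  p_IND m_PAT m_RNG p_INJ p_GTR (p_IB p_R3) p_I1 p_I2 p_I3 (p_I4 m_GEN m_E1)

theorem m_CUT : S_CUT :=
  p_CUT m_PAT m_RNG p_INJ p_GTR (p_SUB m_RNG p_INJ) p_A1 (p_A3 p_A2) p_A4 (p_A5 m_GEN)

end Pool.Agent.Lib.MP_87d05f_lc.HG
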