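import Pool.Agent.Lib.MP_87d05f_lc.HG.Stm

set_option autoImplicit false

/-!
# MP_87d05f_lc, instances of large girth: size and occurrences of the formula
-/

namespace Pool.Agent.Lib.MP_87d05f_lc.HG

open Pool.Agent.PolyTime Function Turing

section CO

variable {V : Type} [DecidableEq V]

theorem CO_chain_eq (K : ℕ) (F : List (CV ar3 V)) : chain3 K F =
    (List.product (ded (F.flatMap vsC)) (List.range (6 * K - 1))).map
      (fun p => [(false, p), (true, (p.1, p.2 + 1))]) := by
  unfold chain3 List.product
  rw [List.map_flatMap]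
  refine List.flatMap_congr fun v _ => ?_
  rw [List.map_map]
  rfl

omit [DecidableEq V] in
theorem CO_flatten (l : List (V × ℕ)) :
    ((l.map (fun p => [(false, p), (true, (p.1, p.2 + 1))])).flatten.map Prod.snd).Perm
      (l ++ l.map (fun p => (p.1, p.2 + 1))) := by
  induction l with
  | nil => exact List.Perm.refl _
  | cons p l ih =>
    rw [List.map_cons, List.flatten_cons, List.map_append, List.map_cons, List.map_cons,
      List.map_nil, List.map_cons, List.cons_append, List.cons_append, List.nil_append,
      List.cons_append]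
    refine List.Perm.cons _ ?_
    refine (List.Perm.cons _ ih).trans ?_
    exact List.perm_middle.symm

theorem CO_chain_count [BEq (V × ℕ)] [LawfulBEq (V × ℕ)] (K : ℕ) (F : List (CV ar3 V))
    (x : V × ℕ) : ((chain3 K F).flatten.map Prod.snd).count x ≤ 2 := by
  rw [CO_chain_eq, (CO_flatten _).count_eq, List.count_append]
  have h1 : (List.product (ded (F.flatMap vsC)) (List.range (6 * K - 1))).Nodup :=
    (nodup_ded _).product List.nodup_range
  have h2 := h1.map (f := fun p : V × ℕ => (p.1, p.2 + 1)) (by
    rintro ⟨a, b⟩ ⟨c, d⟩ h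
    rw [Prod.mk.injEq] at h
    rw [Prod.mk.injEq]
    exact ⟨h.1, by omega⟩)
  have h3 := List.nodup_iff_count_le_one.1 h1 x
  have h4 := List.nodup_iff_count_le_one.1 h2 x
  omega

/-- the slots of a constraint after the constraints `P` -/
def CO_sl (K : ℕ) (P : List (CV ar3 V)) (c : CV ar3 V) : List (V × ℕ) :=
  List.ofFn (fun a : Fin 3 => (c.2 a, slot3 K P c a))

theorem CO_main_snoc (K : ℕ) (F : List (CV ar3 V)) (c : CV ar3 V) :
    (main3 K (F ++ [c])).flatten.map Prod.snd =
      (main3 K F).flatten.map Prod.snd ++ CO_sl K F c := by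
  have h1 : main3 K (F ++ [c]) = main3 K F ++ [List.ofFn (fun a : Fin 3 =>
      (sgn3 c a, (c.2 a, slot3 K F c a)))] := by
    unfold main3
    rw [List.zipIdx_append, List.map_append]
    congr 1
    · refine List.map_congr_left fun cq hcq => ?_
      have h2 := List.mem_zipIdx_iff_getElem?.1 hcq
      have h3 : cq.2 < F.length := (List.getElem?_eq_some_iff.1 h2).1
      rw [List.take_append_of_le_length h3.le]
    · simp only [List.zipIdx_cons, List.zipIdx_nil, List.map_cons, List.map_nil, Nat.zero_add,
        List.take_left]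
  rw [h1, List.flatten_append, List.map_append]
  congr 1

theorem CO_mod {K r t : ℕ} (c : CV ar3 V) (a : Fin 3) (P : List (CV ar3 V))
    (hr : rkC P (c.2 a) = r) (hrK : r < K) (ht : slot3 K P c a = t) : t % K = r := by
  rw [← ht]
  unfold slot3
  rw [hr]
  have h1 : (bif sgn3 c a then 0 else 3 * K) + (a : ℕ) * K + r =
      r + K * ((bif sgn3 c a then 0 else 3) + (a : ℕ)) := by
    rcases sgn3 c a with _ | _
    · simp only [cond_false]
      ring
    · simp only [cond_true]
      ring
  rw [h1, Nat.add_mul_mod_self_left, Nat.mod_eq_of_lt hrK]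

theorem CO_main (K : ℕ) (F : List (CV ar3 V)) : occK K F → (∀ c ∈ F, (vsC c).Nodup) →
    ((main3 K F).flatten.map Prod.snd).Nodup ∧
      ∀ x ∈ (main3 K F).flatten.map Prod.snd, x.2 % K < rkC F x.1 := by
  induction F using List.reverseRecOn with
  | nil =>
    intro _ _
    refine ⟨?_, ?_⟩
    · unfold main3
      simp
    · intro x hx
      unfold main3 at hx
      simp at hx
  | append_singleton F c ih =>
    intro hocc hnd
    have hrk : ∀ v, rkC (F ++ [c]) v = rkC F v + (vsC c).count v := by
      intro v
      unfold rkC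
      rw [List.flatMap_append, List.count_append]
      congr 2
    have hocc' : occK K F := by
      intro v
      have h1 := hocc v
      have h2 := hrk v
      unfold rkC at h2
      omega
    obtain ⟨i1, i2⟩ := ih hocc' (fun d hd => hnd d (List.mem_append_left _ hd))
    have hc : (vsC c).Nodup := hnd c (List.mem_append_right _ List.mem_cons_self)
    have hmem : ∀ a : Fin 3, c.2 a ∈ vsC c := by
      intro a
      unfold vsC
      rw [List.mem_ofFn]
      exact ⟨a, rfl⟩
    have hcnt : ∀ a : Fin 3, rkC F (c.2 a) < K ∧ rkC F (c.2 a) < rkC (F ++ [c]) (c.2 a) := by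
      intro a
      have h1 := hocc (c.2 a)
      have h2 := hrk (c.2 a)
      have h3 : 0 < (vsC c).count (c.2 a) := List.count_pos_iff.2 (hmem a)
      have h4 : rkC (F ++ [c]) (c.2 a) ≤ K := h1
      omega
    have hsl : ∀ x ∈ CO_sl K F c, ∃ a : Fin 3, x.1 = c.2 a ∧ x.2 % K = rkC F x.1 := by
      intro x hx
      unfold CO_sl at hx
      rw [List.mem_ofFn] at hx
      obtain ⟨a, rfl⟩ := hx
      exact ⟨a, rfl, CO_mod c a F rfl (hcnt a).1 rfl⟩
    rw [CO_main_snoc]
    refine ⟨?_, ?_⟩
    · rw [List.nodup_append]
      refine ⟨i1, ?_, ?_⟩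
      · unfold CO_sl
        rw [List.nodup_ofFn]
        intro a b hab
        have h1 : c.2 a = c.2 b := congrArg Prod.fst hab
        unfold vsC at hc
        rw [List.nodup_ofFn] at hc
        exact hc h1
      · intro x hx y hy hxy
        obtain ⟨a, _, h2⟩ := hsl y hy
        have h3 := i2 x hx
        rw [hxy, h2] at h3
        exact lt_irrefl _ h3
    · intro x hx
      rcases List.mem_append.1 hx with hx | hx
      · have h1 := i2 x hx
        rw [hrk]
        omega
      · obtain ⟨a, h1, h2⟩ := hsl x hx
        rw [h2, h1]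
        exact (hcnt a).2

omit [DecidableEq V] in
theorem CO_length_vs (F : List (CV ar3 V)) : (F.flatMap vsC).length = 3 * F.length := by
  induction F with
  | nil => rfl
  | cons c F ih =>
    rw [List.flatMap_cons, List.length_append, ih, List.length_cons]
    unfold vsC
    rw [List.length_ofFn]
    have h : ar3 c.1 = 3 := rfl
    rw [h]
    omega

end CO

theorem p_CO : S_CO := by
  intro K V _ F
  have hmain : (main3 K F).length = F.length := by
    unfold main3
    rw [List.length_map, List.length_zipIdx]
  have hm3 : ∀ c ∈ main3 K F, c.length = 3 := by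
    intro c hc
    unfold main3 at hc
    obtain ⟨cq, _, rfl⟩ := List.mem_map.1 hc
    rw [List.length_ofFn]
  have hc2 : ∀ c ∈ chain3 K F, c.length = 2 := by
    intro c hc
    rw [CO_chain_eq] at hc
    obtain ⟨p, _, rfl⟩ := List.mem_map.1 hc
    rfl
  have hlen : ∀ c ∈ cnf3 K F, 2 ≤ c.length ∧ c.length ≤ 3 := by
    intro c hc
    rcases List.mem_append.1 hc with hc | hc
    · rw [hm3 c hc]
      omega
    · rw [hc2 c hc]
      omega
  refine ⟨?_, ?_, fun c hc => (hlen c hc).2, ?_, ?_⟩
  · unfold cnf3
    have h0 : (List.product (ded (F.flatMap vsC)) (List.range (6 * K - 1))).length =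
        (ded (F.flatMap vsC)).length * (List.range (6 * K - 1)).length :=
      List.length_product _ _
    rw [List.length_append, hmain, CO_chain_eq, List.length_map, h0, List.length_range]
    have h1 : (ded (F.flatMap vsC)).length ≤ 3 * F.length := by
      rw [ded_length, ← CO_length_vs]
      exact List.toFinset_card_le _
    have h2 : (ded (F.flatMap vsC)).length * (6 * K - 1) ≤ 3 * F.length * (6 * K) :=
      Nat.mul_le_mul h1 (by omega)
    have h3 : (18 * K + 1) * F.length = F.length + 3 * F.length * (6 * K) := by ring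
    rw [h3]
    omega
  · intro hF h
    unfold cnf3 at h
    have h1 := (List.append_eq_nil_iff.1 h).1
    rw [← List.length_eq_zero_iff, hmain, List.length_eq_zero_iff] at h1
    exact hF h1
  · intro h
    have := (hlen [] h).1
    simp at this
  · intro hocc hnd x
    obtain ⟨h1, _⟩ := CO_main K F hocc hnd
    have h2 := List.nodup_iff_count_le_one.1 h1 x
    have h3 := CO_chain_count K F x
    unfold cnf3
    rw [List.flatten_append, List.map_append, List.count_append]
    omega

end Pool.Agent.Lib.MP_87d05f_lc.HG
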