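import Pool.Agent.Lib.MP_87d05f_lc.HG.Stm

set_option autoImplicit false

/-!
# MP_87d05f_lc, HighGirth: graphs of clouds are computed in polynomial time
-/

namespace Pool.Agent.Lib.MP_87d05f_lc.HG

open Pool.Agent.Lib.MP_87d05f_lc Pool.Agent.PolyTime Turing

private theorem GTR_count_ptime {α : Type} [SCode α] {w : α → List Bool}
    {l : α → List (List Bool)} (hw : PTime w) (hl : PTime l) :
    PTime (fun a => (l a).count (w a)) := by
  have h : PTime (fun a => ((l a).filter (fun u => decide (u = w a))).length) :=
    PTime.length (PTime.filter (p := fun a (u : List Bool) => decide (u = w a)) hl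
      (PTime.eq PTime.snd (hw.comp PTime.fst)))
  refine h.of_eq fun a => ?_
  rw [List.count_eq_length_filter]
  congr 1
  refine List.filter_congr fun u _ => ?_
  by_cases hu : u = w a <;> simp [hu]

private theorem GTR_ded_map {α β : Type} [DecidableEq α] [DecidableEq β] {f : α → β}
    (hf : Function.Injective f) (l : List α) : ded (l.map f) = (ded l).map f := by
  induction l with
  | nil => rfl
  | cons a l ih =>
    rw [List.map_cons, ded_cons, ded_cons, ih]
    have h : (f a ∈ (ded l).map f) ↔ a ∈ ded l := by
      rw [List.mem_map]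
      constructor
      · rintro ⟨b, hb, hba⟩
        rwa [← hf hba]
      · exact fun h => ⟨a, h, rfl⟩
    by_cases ha : a ∈ ded l
    · have hb := h.2 ha
      simp only [ha, hb, decide_true, cond_true]
    · have hb : ¬ (f a ∈ (ded l).map f) := fun hb => ha (h.1 hb)
      simp only [ha, hb, decide_false, cond_false, List.map_cons]

/-- the number of leading ones -/
private theorem GTR_take_ptime : PTime (fun x : List Bool => (x.takeWhile id).length) := by
  have h : PTime (fun x : List Bool =>
      x.foldr (fun (b : Bool) (n : ℕ) => bif b then n + 1 else 0) 0) := by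
    refine PTime.foldr (f := fun (_ : List Bool) (b : Bool) (n : ℕ) => bif b then n + 1 else 0)
      PTime.id (PTime.const 0) ?_ (Polynomial.C 2) ?_
    · exact PTime.cond (PTime.fst.comp PTime.snd) (PTime.succ (PTime.snd.comp PTime.snd))
        (PTime.const 0)
    · intro a n b _
      rcases b with _ | _ <;> simp only [cond_true, cond_false, sz_nat, Polynomial.eval_C] <;>
        omega
  refine h.of_eq fun x => ?_
  induction x with
  | nil => rfl
  | cons b x ih =>
    rcases b with _ | _
    · rfl
    · rw [List.foldr_cons, ih, List.takeWhile_cons]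
      simp

/-- the colour of a word -/
def GTR_col (w : List Bool) : ℕ := (w.takeWhile id).length - 3 * mydiv (w.takeWhile id).length 3

private theorem GTR_col_eq (v : ℕ) : GTR_col (Nat.bits v) = colN v := by
  unfold GTR_col colN unb
  simp only
  rw [mydiv_eq (by norm_num)]
  omega

private theorem GTR_col_ptime {α : Type} [SCode α] {w : α → List Bool} (hw : PTime w) :
    PTime (fun a => GTR_col (w a)) := by
  unfold GTR_col
  have h := GTR_take_ptime.comp hw
  exact PTime.sub h (PTime.mul (PTime.const 3) (mydiv_ptime h (PTime.const 3)))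

/-- the words of the edges inside the clouds -/
def GTR_int (CN : List (List (ℕ × ℕ))) (G : List (List (List Bool))) :
    List (List (List Bool)) :=
  (ded G.flatten).flatMap (fun w => (CN.getD (GTR_col w) []).map (fun z =>
    [nb w z.1, nb w z.2]))

/-- the words of the edges between the clouds -/
def GTR_ext (XN : List (List (List (ℕ × ℕ)))) (G : List (List (List Bool))) :
    List (List (List Bool)) :=
  G.zipIdx.flatMap (fun eq => ((XN.getD ((G.take eq.2).flatten.count (eq.1.getD 0 [])) []).getD
    ((G.take eq.2).flatten.count (eq.1.getD 1 [])) []).map (fun z =>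
      [nb (eq.1.getD 0 []) z.1, nb (eq.1.getD 1 []) z.2]))

/-- the threshold, in unary -/
def GTR_thr (wt : List ℕ) (N : ℕ) (t : ℕ) (G : List (List (List Bool))) : List Bool :=
  (ded G.flatten).flatMap (fun w => List.replicate (wt.getD (GTR_col w) 0) true) ++
    List.replicate (N * t) true

private theorem GTR_int_ptime (CN : List (List (ℕ × ℕ))) {α : Type} [SCode α]
    {G : α → List (List (List Bool))} (hG : PTime G) : PTime (fun a => GTR_int CN (G a)) := by
  unfold GTR_int
  refine PTime.flatMap (l := fun a => ded (G a).flatten) (f := fun (_ : α) (w : List Bool) =>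
    (CN.getD (GTR_col w) []).map (fun z => [nb w z.1, nb w z.2]))
    (ded_ptime (PTime.flatten hG)) ?_
  refine PTime.map (l := fun p : α × List Bool => CN.getD (GTR_col p.2) [])
    (f := fun (p : α × List Bool) (z : ℕ × ℕ) => [nb p.2 z.1, nb p.2 z.2])
    (PTime.getD (GTR_col_ptime PTime.snd) (PTime.const CN) (PTime.const [])) ?_
  have hw : PTime (fun p : (α × List Bool) × (ℕ × ℕ) => p.1.2) := PTime.snd.comp PTime.fst
  exact PTime.cons (nb_ptime hw (PTime.fst.comp PTime.snd))
    (PTime.cons (nb_ptime hw (PTime.snd.comp PTime.snd)) (PTime.const []))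

private theorem GTR_ext_ptime (XN : List (List (List (ℕ × ℕ)))) {α : Type} [SCode α]
    {G : α → List (List (List Bool))} (hG : PTime G) : PTime (fun a => GTR_ext XN (G a)) := by
  unfold GTR_ext
  refine PTime.flatMap (l := fun a => (G a).zipIdx) (f := fun a (eq : List (List Bool) × ℕ) =>
    ((XN.getD (((G a).take eq.2).flatten.count (eq.1.getD 0 [])) []).getD
    (((G a).take eq.2).flatten.count (eq.1.getD 1 [])) []).map (fun z =>
      [nb (eq.1.getD 0 []) z.1, nb (eq.1.getD 1 []) z.2])) (PTime.zipIdx hG) ?_
  have h0 : PTime (fun p : α × (List (List Bool) × ℕ) => p.2.1.getD 0 []) :=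
    PTime.getD (PTime.const 0) (PTime.fst.comp PTime.snd) (PTime.const [])
  have h1 : PTime (fun p : α × (List (List Bool) × ℕ) => p.2.1.getD 1 []) :=
    PTime.getD (PTime.const 1) (PTime.fst.comp PTime.snd) (PTime.const [])
  have hP : PTime (fun p : α × (List (List Bool) × ℕ) => ((G p.1).take p.2.2).flatten) :=
    PTime.flatten (PTime.take (PTime.snd.comp PTime.snd) (hG.comp PTime.fst))
  refine PTime.map (l := fun p : α × (List (List Bool) × ℕ) =>
    (XN.getD (((G p.1).take p.2.2).flatten.count (p.2.1.getD 0 [])) []).getD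
      (((G p.1).take p.2.2).flatten.count (p.2.1.getD 1 [])) [])
    (f := fun (p : α × (List (List Bool) × ℕ)) (z : ℕ × ℕ) =>
      [nb (p.2.1.getD 0 []) z.1, nb (p.2.1.getD 1 []) z.2]) ?_ ?_
  · exact PTime.getD (GTR_count_ptime h1 hP) (PTime.getD (GTR_count_ptime h0 hP)
      (PTime.const XN) (PTime.const [])) (PTime.const [])
  · exact PTime.cons (nb_ptime (h0.comp PTime.fst) (PTime.fst.comp PTime.snd))
      (PTime.cons (nb_ptime (h1.comp PTime.fst) (PTime.snd.comp PTime.snd)) (PTime.const []))

private theorem GTR_thr_ptime (wt : List ℕ) (N : ℕ) {α : Type} [SCode α] {t : α → ℕ}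
    {G : α → List (List (List Bool))} (ht : PTime t) (hG : PTime G) :
    PTime (fun a => GTR_thr wt N (t a) (G a)) := by
  unfold GTR_thr
  refine PTime.append ?_ (PTime.replicate (PTime.mul (PTime.const N) ht) (PTime.const true))
  refine PTime.flatMap (l := fun a => ded (G a).flatten) (f := fun (_ : α) (w : List Bool) =>
    List.replicate (wt.getD (GTR_col w) 0) true) (ded_ptime (PTime.flatten hG)) ?_
  exact PTime.replicate (PTime.getD (GTR_col_ptime PTime.snd) (PTime.const wt) (PTime.const 0))
    (PTime.const true)

private theorem GTR_ends (E : List (ℕ × ℕ)) : (E.map wordE).flatten = (endsE E).map Nat.bits := by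
  unfold endsE
  induction E with
  | nil => rfl
  | cons e E ih =>
    rw [List.map_cons, List.flatten_cons, ih, List.flatMap_cons, List.map_append]
    rfl

section cloud

variable {L : Type} [Encodable L]

/-- the tables with numbers -/
def GTR_CN (CL : List (List (L × L))) : List (List (ℕ × ℕ)) :=
  CL.map (fun l => l.map (fun z => (Encodable.encode z.1, Encodable.encode z.2)))

/-- the tables with numbers -/
def GTR_XN (XL : List (List (List (L × L)))) : List (List (List (ℕ × ℕ))) :=
  XL.map (fun l => GTR_CN l)

private theorem GTR_CN_getD (CL : List (List (L × L))) (n : ℕ) :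
    (GTR_CN CL).getD n [] = (CL.getD n []).map (fun z =>
      (Encodable.encode z.1, Encodable.encode z.2)) := by
  unfold GTR_CN
  rw [List.getD_eq_getElem?_getD, List.getD_eq_getElem?_getD, List.getElem?_map]
  cases CL[n]? <;> rfl

private theorem GTR_XN_getD (XL : List (List (List (L × L)))) (n : ℕ) :
    (GTR_XN XL).getD n [] = GTR_CN (XL.getD n []) := by
  unfold GTR_XN
  rw [List.getD_eq_getElem?_getD, List.getD_eq_getElem?_getD, List.getElem?_map]
  cases XL[n]? <;> rfl

private theorem GTR_bits (v : ℕ) (l : L) :
    Nat.bits (nuG (v, l)) = nb (Nat.bits v) (Encodable.encode l) := by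
  unfold nuG
  simp only
  obtain ⟨u, hu⟩ := nb_end (Nat.bits v) (Encodable.encode l)
  rw [hu, bits_unbits]

private theorem GTR_int_eq (CL : List (List (L × L))) (E : List (ℕ × ℕ)) :
    (mapE nuG (intE colN CL E)).map wordE = GTR_int (GTR_CN CL) (E.map wordE) := by
  unfold mapE intE GTR_int
  rw [GTR_ends, GTR_ded_map bits_injective, List.map_map, List.map_flatMap, List.flatMap_map]
  refine List.flatMap_congr fun v _ => ?_
  rw [GTR_col_eq, GTR_CN_getD, List.map_map, List.map_map]
  refine List.map_congr_left fun z _ => ?_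
  simp only [Function.comp, wordE, GTR_bits]

private theorem GTR_rank (P : List (ℕ × ℕ)) (v : ℕ) :
    (P.map wordE).flatten.count (Nat.bits v) = rkE P v := by
  rw [GTR_ends]
  unfold rkE
  exact List.count_map_of_injective _ _ bits_injective _

private theorem GTR_ext_eq (XL : List (List (List (L × L)))) (E : List (ℕ × ℕ)) :
    (mapE nuG (extE XL E)).map wordE = GTR_ext (GTR_XN XL) (E.map wordE) := by
  unfold mapE extE GTR_ext
  have h1 : (E.map wordE).zipIdx = E.zipIdx.map (fun eq => (wordE eq.1, eq.2)) := by
    rw [List.zipIdx_map]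
    rfl
  rw [h1, List.flatMap_map, List.map_map, List.map_flatMap]
  refine List.flatMap_congr fun eq _ => ?_
  simp only
  have h2 : (wordE eq.1).getD 0 [] = Nat.bits eq.1.1 := rfl
  have h3 : (wordE eq.1).getD 1 [] = Nat.bits eq.1.2 := rfl
  rw [h2, h3, ← List.map_take, GTR_rank, GTR_rank, GTR_XN_getD, GTR_CN_getD, List.map_map,
    List.map_map]
  refine List.map_congr_left fun z _ => ?_
  simp only [Function.comp, wordE, GTR_bits]

private theorem GTR_thr_eq (wt : List ℕ) (N t : ℕ) (E : List (ℕ × ℕ)) :
    GTR_thr wt N t (E.map wordE) = List.replicate (thrE colN wt N (t, E)) true := by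
  unfold GTR_thr thrE
  simp only
  rw [List.replicate_add]
  congr 1
  rw [GTR_ends, GTR_ded_map bits_injective, List.flatMap_map]
  have h : ∀ l : List ℕ, l.flatMap (fun v => List.replicate (wt.getD (GTR_col (Nat.bits v)) 0)
      true) = List.replicate ((l.map (fun v => wt.getD (colN v) 0)).sum) true := by
    intro l
    induction l with
    | nil => rfl
    | cons v l ih =>
      rw [List.flatMap_cons, ih, GTR_col_eq, List.map_cons, List.sum_cons, List.replicate_add]
  exact h _

/-- the elements of the tables -/
def GTR_el (CL : List (List (L × L))) (XL : List (List (List (L × L)))) : List L :=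
  endsE CL.flatten ++ endsE XL.flatten.flatten

private theorem GTR_getD_mem {β : Type} {l : List (List β)} {n : ℕ} {z : β}
    (h : z ∈ l.getD n []) : z ∈ l.flatten := by
  rcases Nat.lt_or_ge n l.length with h1 | h1
  · rw [List.getD_eq_getElem _ _ h1] at h
    exact List.mem_flatten.2 ⟨_, List.getElem_mem h1, h⟩
  · rw [List.getD_eq_default _ _ h1] at h
    simp at h

private theorem GTR_mem_ends {V : Type} {E : List (V × V)} {v : V} :
    v ∈ endsE E ↔ ∃ e ∈ E, v = e.1 ∨ v = e.2 := by
  unfold endsE
  rw [List.mem_flatMap]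
  simp

private theorem GTR_cloud_mem {CL : List (List (L × L))} {XL : List (List (List (L × L)))}
    {E : List (ℕ × ℕ)} {x : ℕ × L} (hx : x ∈ endsE (cloudE colN CL XL E)) :
    x.1 ∈ endsE E ∧ x.2 ∈ GTR_el CL XL := by
  obtain ⟨e, he, hxe⟩ := GTR_mem_ends.1 hx
  unfold cloudE at he
  rcases List.mem_append.1 he with he | he
  · unfold intE at he
    obtain ⟨v, hv, hz0⟩ := List.mem_flatMap.1 he
    obtain ⟨z, hz, rfl⟩ := List.mem_map.1 hz0
    have hz' := GTR_getD_mem hz
    have hv' := mem_ded.1 hv
    rcases hxe with rfl | rfl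
    · exact ⟨hv', List.mem_append_left _ (GTR_mem_ends.2 ⟨z, hz', Or.inl rfl⟩)⟩
    · exact ⟨hv', List.mem_append_left _ (GTR_mem_ends.2 ⟨z, hz', Or.inr rfl⟩)⟩
  · unfold extE at he
    obtain ⟨eq, heq, hz0⟩ := List.mem_flatMap.1 he
    obtain ⟨z, hz, rfl⟩ := List.mem_map.1 hz0
    have h1 := GTR_getD_mem hz
    have h2 : z ∈ XL.flatten.flatten := by
      obtain ⟨l, hl, hzl⟩ := List.mem_flatten.1 h1
      exact List.mem_flatten.2 ⟨l, GTR_getD_mem hl, hzl⟩
    have heE : eq.1 ∈ E := by
      have := List.mem_zipIdx_iff_getElem?.1 heq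
      exact List.mem_of_getElem? this
    rcases hxe with rfl | rfl
    · exact ⟨GTR_mem_ends.2 ⟨_, heE, Or.inl rfl⟩,
        List.mem_append_right _ (GTR_mem_ends.2 ⟨z, h2, Or.inl rfl⟩)⟩
    · exact ⟨GTR_mem_ends.2 ⟨_, heE, Or.inr rfl⟩,
        List.mem_append_right _ (GTR_mem_ends.2 ⟨z, h2, Or.inr rfl⟩)⟩

private theorem GTR_nv (CL : List (List (L × L))) (XL : List (List (List (L × L))))
    (E : List (ℕ × ℕ)) (t t' : ℕ) :
    nvCut (t', mapE nuG (cloudE colN CL XL E)) ≤
      (1 + (GTR_el CL XL).length) * nvCut (t, E) := by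
  classical
  unfold nvCut
  simp only
  have h1 : ((mapE nuG (cloudE colN CL XL E)).flatMap (fun e => [e.1, e.2])) =
      (endsE (cloudE colN CL XL E)).map nuG := by
    unfold mapE endsE
    rw [List.flatMap_map, List.map_flatMap]
    rfl
  rw [h1]
  have h2 : ((endsE (cloudE colN CL XL E)).map nuG).toFinset ⊆
      ((endsE E).toFinset ×ˢ (GTR_el CL XL).toFinset).image nuG := by
    intro v hv
    rw [List.mem_toFinset, List.mem_map] at hv
    obtain ⟨x, hx, rfl⟩ := hv
    obtain ⟨h3, h4⟩ := GTR_cloud_mem hx
    exact Finset.mem_image.2 ⟨x, Finset.mem_product.2 ⟨List.mem_toFinset.2 h3,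
      List.mem_toFinset.2 h4⟩, rfl⟩
  refine (Finset.card_le_card h2).trans (Finset.card_image_le.trans ?_)
  rw [Finset.card_product, Nat.mul_comm]
  refine Nat.mul_le_mul ?_ le_rfl
  exact (List.toFinset_card_le _).trans (Nat.le_add_left _ _)

end cloud

theorem p_GTR : S_GTR := by
  intro L _ CL XL wt N
  refine ⟨1 + (GTR_el CL XL).length, by omega, fun V₁ Y₁ N₁ V₂ Y₂ N₂ b hb hred hsep => ?_⟩
  have ht : PTime (fun x : List Bool => (((parseW x).headD []).headD []).length) :=
    PTime.length (PTime.headD (PTime.headD parseW_ptime (PTime.const [])) (PTime.const []))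
  have hG : PTime (fun x : List Bool => (parseW x).tail) := PTime.tail parseW_ptime
  have hf : PTime (fun x : List Bool => encW (
      [GTR_thr wt N (((parseW x).headD []).headD []).length (parseW x).tail] ::
      (GTR_int (GTR_CN CL) (parseW x).tail ++ GTR_ext (GTR_XN XL) (parseW x).tail))) :=
    encW_ptime (PTime.cons (PTime.cons (GTR_thr_ptime wt N ht hG) (PTime.const []))
      (PTime.append (GTR_int_ptime _ hG) (GTR_ext_ptime _ hG)))
  have hh : PTime (fun x => mydiv (ded (parseW x).tail.flatten).length b) :=
    mydiv_ptime (PTime.length (ded_ptime (PTime.flatten hG))) (PTime.const b)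
  have hx : ∀ (t : ℕ) (E : List (ℕ × ℕ)),
      parseW (enCut (t, E)) = [List.replicate t true] :: E.map wordE := by
    intro t E
    unfold enCut
    rw [parseW_encW]
  refine transfer hf hh ?_ ?_ hsep
  · rintro ⟨t, E⟩ _
    have hlen : 2 * E.length ≤ (enCut (t, E)).length := by
      unfold enCut
      refine le_trans ?_ (encW_length _)
      have h1 : ∀ E : List (ℕ × ℕ), ((E.map wordE).map List.length).sum = 2 * E.length := by
        intro E
        induction E with
        | nil => rfl
        | cons e E ih =>
          rw [List.map_cons, List.map_cons, List.sum_cons, ih]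
          unfold wordE
          simp only [List.length_cons, List.length_nil]
          omega
      rw [List.map_cons, List.sum_cons, h1]
      dsimp only
      omega
    refine le_trans ?_ hlen
    unfold nvCut
    refine (List.toFinset_card_le _).trans ?_
    rw [length_ends]
  · rintro ⟨t, E⟩ hV
    obtain ⟨h1, h2, h3⟩ := hred (t, E) hV
    have hn : mydiv (ded (parseW (enCut (t, E))).tail.flatten).length b = nvCut (t, E) / b := by
      rw [hx, List.tail_cons, nvCut_eq E t, mydiv_eq hb]
    refine ⟨_, h1, ?_, h2, h3, ?_, ?_⟩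
    · rw [hx]
      simp only [List.headD_cons, List.tail_cons, List.length_replicate]
      rw [GTR_thr_eq, ← GTR_int_eq, ← GTR_ext_eq]
      unfold enCut
      simp only
      congr 2
      unfold cloudE mapE
      rw [List.map_append, List.map_append]
    · simp only [hn]
      have h4 := Nat.div_le_div_right (c := (1 + (GTR_el CL XL).length) * b)
        (GTR_nv CL XL E t (thrE colN wt N (t, E)))
      rwa [Nat.mul_div_mul_left _ _ (by omega)] at h4
    · simp only [hn]
      exact le_rfl

end Pool.Agent.Lib.MP_87d05f_lc.HG
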