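import Pool.Agent.Lib.MP_87d05f_lc.HG.Stm

set_option autoImplicit false

/-!
# MP_87d05f_lc, instances of large girth: Chernoff's bound by counting
-/

namespace Pool.Agent.Lib.MP_87d05f_lc.HG

theorem p_MGF : S_MGF := by
  classical
  intro Y _ _ _ G R η hη hη1
  set N : ℝ := (Fintype.card Y : ℝ) with hN
  have hN0 : 0 < N := by
    rw [hN]; exact_mod_cast Fintype.card_pos
  set P : ℝ := (G.card : ℝ) / N with hP
  have hPN : P * N = (G.card : ℝ) := div_mul_cancel₀ _ hN0.ne'
  have hGN : (G.card : ℝ) ≤ N := by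
    rw [hN]; exact_mod_cast Finset.card_le_univ G
  have hP0 : 0 ≤ P := div_nonneg (Nat.cast_nonneg _) hN0.le
  have hP1 : P ≤ 1 := (div_le_one hN0).2 hGN
  set z : ℝ := Real.exp (-(η / 2)) with hz
  have hz0 : 0 < z := Real.exp_pos _
  have hz1 : η / 2 - (η / 2) ^ 2 ≤ 1 - z := by
    have h := Real.abs_exp_sub_one_sub_id_le (x := -(η / 2)) (by
      rw [abs_neg, abs_of_pos (by linarith)]; linarith)
    have h2 := (abs_le.1 h).2
    rw [hz]
    nlinarith
  set cnt : (Fin R → Y) → ℕ := fun ω => (Finset.univ.filter (fun p => ω p ∈ G)).card with hcnt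
  set A : Finset (Fin R → Y) := Finset.univ.filter (fun ω => (cnt ω : ℝ) < (R : ℝ) * (P - η))
    with hA
  have hcard : (Nat.card {ω : Fin R → Y // (((Finset.univ.filter (fun p => ω p ∈ G)).card : ℕ) : ℝ)
      < (R : ℝ) * ((G.card : ℝ) / (Fintype.card Y : ℝ) - η)}) = A.card := by
    rw [Nat.card_eq_fintype_card, Fintype.card_subtype]
  rw [hcard]
  have hprod : ∀ ω : Fin R → Y, ∏ p, (if ω p ∈ G then z else 1) =
      Real.exp (-(η / 2) * (cnt ω : ℝ)) := by
    intro ω
    rw [Finset.prod_ite, Finset.prod_const, Finset.prod_const_one, mul_one, hz, ← Real.exp_nat_mul]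
    congr 1
    rw [hcnt]
    ring
  have hsum : ∑ ω : Fin R → Y, Real.exp (-(η / 2) * (cnt ω : ℝ)) =
      (N * (1 - P * (1 - z))) ^ R := by
    have h1 := Fintype.sum_pow (fun y : Y => if y ∈ G then z else (1 : ℝ)) R
    have h2 : ∑ y : Y, (if y ∈ G then z else (1 : ℝ)) = N * (1 - P * (1 - z)) := by
      have h3 : ∀ y : Y, (if y ∈ G then z else (1 : ℝ)) = 1 - (if y ∈ G then 1 - z else 0) := by
        intro y
        split_ifs <;> ring
      rw [Finset.sum_congr rfl fun y _ => h3 y, Finset.sum_sub_distrib, Finset.sum_ite_mem,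
        Finset.univ_inter, Finset.sum_const, Finset.sum_const, Finset.card_univ, nsmul_eq_mul,
        nsmul_eq_mul, ← hN, ← hPN]
      ring
    rw [← h2, h1]
    exact Finset.sum_congr rfl fun ω _ => (hprod ω).symm
  have hle1 : (A.card : ℝ) * Real.exp (-(η / 2) * ((R : ℝ) * (P - η))) ≤
      (N * (1 - P * (1 - z))) ^ R := by
    rw [← hsum, ← nsmul_eq_mul, ← Finset.sum_const]
    refine (Finset.sum_le_sum fun ω hω => ?_).trans
      (Finset.sum_le_sum_of_subset_of_nonneg (Finset.subset_univ A) fun ω _ _ =>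
        (Real.exp_pos _).le)
    rw [hA, Finset.mem_filter] at hω
    apply Real.exp_le_exp.2
    have := hω.2
    nlinarith
  have hle2 : (N * (1 - P * (1 - z))) ^ R ≤ N ^ R * Real.exp (-(R : ℝ) * (P * (1 - z))) := by
    have h1 : 1 - P * (1 - z) ≤ Real.exp (-(P * (1 - z))) := by
      have := Real.add_one_le_exp (-(P * (1 - z)))
      linarith
    have h0 : 0 ≤ 1 - P * (1 - z) := by nlinarith
    rw [mul_pow]
    refine mul_le_mul_of_nonneg_left ?_ (pow_nonneg hN0.le _)
    refine (pow_le_pow_left₀ h0 h1 R).trans (le_of_eq ?_)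
    rw [← Real.exp_nat_mul]
    congr 1
    ring
  have hle3 : (A.card : ℝ) ≤ N ^ R * Real.exp (-(R : ℝ) * (P * (1 - z))) *
      Real.exp ((η / 2) * ((R : ℝ) * (P - η))) := by
    have h1 := hle1.trans hle2
    have h2 : (A.card : ℝ) = (A.card : ℝ) * Real.exp (-(η / 2) * ((R : ℝ) * (P - η))) *
        Real.exp ((η / 2) * ((R : ℝ) * (P - η))) := by
      rw [mul_assoc, ← Real.exp_add]
      have : -(η / 2) * ((R : ℝ) * (P - η)) + (η / 2) * ((R : ℝ) * (P - η)) = 0 := by ring
      rw [this, Real.exp_zero, mul_one]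
    rw [h2]
    exact mul_le_mul_of_nonneg_right h1 (Real.exp_pos _).le
  refine hle3.trans ?_
  rw [mul_assoc, ← Real.exp_add]
  refine mul_le_mul_of_nonneg_left ?_ (pow_nonneg hN0.le _)
  apply Real.exp_le_exp.2
  have hR : (0 : ℝ) ≤ (R : ℝ) := Nat.cast_nonneg _
  have h1 : P * (η / 2 - (η / 2) ^ 2) ≤ P * (1 - z) := mul_le_mul_of_nonneg_left hz1 hP0
  have h2 : -(P * (1 - z)) + (η / 2) * (P - η) ≤ -(η ^ 2 / 4) := by nlinarith
  have h3 := mul_le_mul_of_nonneg_left h2 hR
  nlinarith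

end Pool.Agent.Lib.MP_87d05f_lc.HG
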