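import Pool.Agent.Lib.MP_87d05f_lc.HG.Stm

set_option autoImplicit false

namespace Pool.Agent.Lib.MP_87d05f_lc.HG

open Pool.Agent.Lib.MP_87d05f_lc

section

variable {V V' : Type}

theorem RNG_toFinset [DecidableEq V] [DecidableEq V'] (ν : V → V') (l : List V) :
    (l.map ν).toFinset = l.toFinset.image ν := by
  ext x
  simp only [List.mem_toFinset, List.mem_map, Finset.mem_image]

theorem RNG_ends (ν : V → V') (E : List (V × V)) : endsE (mapE ν E) = (endsE E).map ν := by
  unfold endsE mapE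
  induction E with
  | nil => rfl
  | cons e E ih =>
    simp only [List.map_cons, List.flatMap_cons, ih, List.map_append, List.map_nil]

theorem RNG_mem (ν : V → V') (E : List (V × V)) (p : V' × V') :
    p ∈ mapE ν E ↔ ∃ u v, (u, v) ∈ E ∧ ν u = p.1 ∧ ν v = p.2 := by
  unfold mapE
  rw [List.mem_map]
  constructor
  · rintro ⟨⟨u, v⟩, h, rfl⟩
    exact ⟨u, v, h, rfl, rfl⟩
  · rintro ⟨u, v, h, h1, h2⟩
    refine ⟨(u, v), h, ?_⟩
    rw [h1, h2]

theorem RNG_adj (ν : V → V') (hν : Function.Injective ν) (E : List (V × V)) (x y : V') :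
    (gE (mapE ν E)).Adj x y ↔ ∃ u v, ν u = x ∧ ν v = y ∧ (gE E).Adj u v := by
  unfold gE
  simp only [SimpleGraph.fromRel_adj, RNG_mem]
  constructor
  · rintro ⟨hne, ⟨u, v, h, h1, h2⟩ | ⟨u, v, h, h1, h2⟩⟩
    · refine ⟨u, v, h1, h2, ?_, Or.inl h⟩
      rintro rfl
      exact hne (h1.symm.trans h2)
    · refine ⟨v, u, h2, h1, ?_, Or.inr h⟩
      rintro rfl
      exact hne (h2.symm.trans h1)
  · rintro ⟨u, v, rfl, rfl, hne, h | h⟩
    · exact ⟨fun h1 => hne (hν h1), Or.inl ⟨u, v, h, rfl, rfl⟩⟩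
    · exact ⟨fun h1 => hne (hν h1), Or.inr ⟨v, u, h, rfl, rfl⟩⟩

end

theorem p_RNG : S_GEN → S_RNG := by
  intro hgen V V' _ _ ν hν E
  refine ⟨?_, ?_, ?_, ?_, ?_⟩
  · rintro D ⟨h1, h2, h3⟩
    refine ⟨?_, ?_, ?_⟩
    · rintro ⟨x, y⟩ he hxy
      obtain ⟨u, v, huv, rfl, rfl⟩ := (RNG_mem ν E _).1 he
      exact h1 _ huv (hν hxy)
    · unfold mapE
      rw [List.pairwise_map]
      refine h2.imp ?_
      rintro ⟨a, b⟩ ⟨c, d⟩ ⟨h4, h5⟩
      refine ⟨fun h => h4 ?_, fun h => h5 ?_⟩
      · rw [Prod.mk.injEq] at h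
        exact Prod.ext (hν h.1) (hν h.2)
      · rw [Prod.mk.injEq] at h
        exact Prod.ext (hν h.1) (hν h.2)
    · intro v'
      rw [RNG_ends]
      by_cases hv : ∃ v, ν v = v'
      · obtain ⟨v, rfl⟩ := hv
        rw [List.count_map_of_injective _ _ hν]
        exact h3 v
      · rw [List.count_eq_zero.2]
        · exact Nat.zero_le _
        · intro hm
          obtain ⟨v, _, hv'⟩ := List.mem_map.1 hm
          exact hv ⟨v, hv'⟩
  · intro g hg
    rcases isEmpty_or_nonempty V with hV | hV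
    · have hE : E = [] := by
        cases E with
        | nil => rfl
        | cons e E => exact (hV.false e.1).elim
      subst hE
      have hbot : gE (mapE ν ([] : List (V × V))) = ⊥ := by
        ext x y
        rw [RNG_adj ν hν]
        constructor
        · rintro ⟨u, _⟩
          exact (hV.false u).elim
        · intro h
          exact absurd h (by simp)
      rw [hbot, SimpleGraph.egirth_bot]
      exact WithTop.coe_lt_top g
    · have hinv : ∀ u, Function.invFun ν (ν u) = u := Function.leftInverse_invFun hν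
      refine hgen V V' V' (gE E) (gE (mapE ν E)) (Function.invFun ν) id (fun _ => 0) g
        ?_ ?_ ?_ ?_ hg
      · intro x y hxy _
        obtain ⟨u, v, rfl, rfl, huv⟩ := (RNG_adj ν hν E x y).1 hxy
        rw [hinv, hinv]
        exact huv
      · intro x y hxy h
        obtain ⟨u, v, rfl, rfl, huv⟩ := (RNG_adj ν hν E x y).1 hxy
        rw [hinv, hinv] at h
        rw [h]
      · intro x y z hxy _ h _ _ _
        obtain ⟨u, v, rfl, rfl, huv⟩ := (RNG_adj ν hν E x y).1 hxy
        rw [hinv, hinv] at h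
        exact absurd h.symm huv.ne
      · intro x x' y y' hxy hxy' _ hk hy _
        obtain ⟨u, v, rfl, rfl, huv⟩ := (RNG_adj ν hν E x y).1 hxy
        obtain ⟨u', v', rfl, rfl, huv'⟩ := (RNG_adj ν hν E x' y').1 hxy'
        rw [hinv, hinv] at hy
        exact ⟨hk, by rw [hy]⟩
  · unfold nvE
    rw [RNG_ends, RNG_toFinset, Finset.card_image_of_injective _ hν]
  · intro a'
    refine ⟨?_, ?_, ?_⟩
    · unfold mapE
      rw [List.countP_map]
      rfl
    · unfold IndE
      constructor
      · intro h e he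
        exact h (ν e.1, ν e.2) ((RNG_mem ν E _).2 ⟨e.1, e.2, he, rfl, rfl⟩)
      · rintro h ⟨x, y⟩ he
        obtain ⟨u, v, huv, rfl, rfl⟩ := (RNG_mem ν E _).1 he
        exact h (u, v) huv
    · unfold szE
      rw [RNG_ends, RNG_toFinset, Finset.filter_image, Finset.card_image_of_injective _ hν]
  · intro a
    exact ⟨Function.extend ν a (fun _ => false), fun v => hν.extend_apply _ _ _⟩

end Pool.Agent.Lib.MP_87d05f_lc.HG
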