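import Pool.Agent.Lib.MP_87d05f_lc.HG.Stm

set_option autoImplicit false

/-!
# MP_87d05f_lc, instances of large girth: the piece SUB (subdividing every edge twice)
-/

namespace Pool.Agent.Lib.MP_87d05f_lc.HG

open Pool.Agent.Lib.MP_87d05f_lc Pool.Agent.PolyTime Turing

attribute [-instance] Sum.instBEq

/-! ### The subdivided graph -/

/-- the subdivided graph, with numbers from `n` on -/
def SUB_s (n : ℕ) (E : List (ℕ × ℕ)) : List (SubV × SubV) :=
  (E.zipIdx n).flatMap (fun eq => [(Sum.inl eq.1.1, Sum.inr (eq.2, false)),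
    (Sum.inr (eq.2, false), Sum.inr (eq.2, true)), (Sum.inr (eq.2, true), Sum.inl eq.1.2)])

theorem SUB_s_cons (n : ℕ) (e : ℕ × ℕ) (E : List (ℕ × ℕ)) :
    SUB_s n (e :: E) = (Sum.inl e.1, Sum.inr (n, false)) ::
      (Sum.inr (n, false), Sum.inr (n, true)) :: (Sum.inr (n, true), Sum.inl e.2) ::
        SUB_s (n + 1) E := by
  unfold SUB_s
  rw [List.zipIdx_cons, List.flatMap_cons]
  rfl

theorem SUB_s_zero (E : List (ℕ × ℕ)) : subE E = SUB_s 0 E := rfl

/-- the number of an edge of the subdivided graph -/
def SUB_t (f : SubV × SubV) : ℕ :=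
  match f.1 with
  | Sum.inr qc => qc.1
  | Sum.inl _ => (match f.2 with
    | Sum.inr qc => qc.1
    | Sum.inl _ => 0)

theorem SUB_s_tag (E : List (ℕ × ℕ)) : ∀ n, ∀ f ∈ SUB_s n E,
    n ≤ SUB_t f ∧ n ≤ SUB_t (f.2, f.1) ∧ f.1 ≠ f.2 := by
  induction E with
  | nil => intro n f hf; simp [SUB_s] at hf
  | cons e E ih =>
    intro n f hf
    rw [SUB_s_cons] at hf
    simp only [List.mem_cons] at hf
    rcases hf with rfl | rfl | rfl | hf
    · exact ⟨le_refl n, le_refl n, by simp⟩
    · exact ⟨le_refl n, le_refl n, by simp⟩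
    · exact ⟨le_refl n, le_refl n, by simp⟩
    · obtain ⟨h1, h2, h3⟩ := ih (n + 1) f hf
      exact ⟨by omega, by omega, h3⟩

theorem SUB_s_pw (E : List (ℕ × ℕ)) : ∀ n,
    (SUB_s n E).Pairwise (fun e f => e ≠ f ∧ e ≠ (f.2, f.1)) := by
  induction E with
  | nil => intro n; simp [SUB_s]
  | cons e E ih =>
    intro n
    have key : ∀ x : SubV × SubV, SUB_t x = n → ∀ f ∈ SUB_s (n + 1) E,
        x ≠ f ∧ x ≠ (f.2, f.1) := by
      intro x hx f hf
      obtain ⟨h1, h2, -⟩ := SUB_s_tag E (n + 1) f hf
      constructor
      · rintro rfl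
        omega
      · intro h
        rw [h] at hx
        omega
    rw [SUB_s_cons, List.pairwise_cons, List.pairwise_cons, List.pairwise_cons]
    refine ⟨?_, ?_, ?_, ih (n + 1)⟩
    · intro f hf
      simp only [List.mem_cons] at hf
      rcases hf with rfl | rfl | hf
      · simp
      · simp
      · exact key _ rfl f hf
    · intro f hf
      simp only [List.mem_cons] at hf
      rcases hf with rfl | hf
      · simp
      · exact key _ rfl f hf
    · intro f hf
      exact key _ rfl f hf

theorem SUB_ends_cons {V : Type} (x : V × V) (l : List (V × V)) :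
    endsE (x :: l) = x.1 :: x.2 :: endsE l := rfl

theorem SUB_cntl (u : ℕ) (E : List (ℕ × ℕ)) : ∀ n,
    (endsE (SUB_s n E)).count (Sum.inl u) = (endsE E).count u := by
  induction E with
  | nil => intro n; rfl
  | cons e E ih =>
    intro n
    rw [SUB_s_cons]
    simp only [SUB_ends_cons, List.count_cons, ih (n + 1)]
    simp

theorem SUB_cntr (q : ℕ) (c : Bool) (E : List (ℕ × ℕ)) : ∀ n,
    (endsE (SUB_s n E)).count (Sum.inr (q, c)) ≤ 2 ∧
      (q < n → (endsE (SUB_s n E)).count (Sum.inr (q, c)) = 0) := by
  induction E with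
  | nil => intro n; simp [SUB_s, endsE]
  | cons e E ih =>
    intro n
    obtain ⟨h1, h2⟩ := ih (n + 1)
    rw [SUB_s_cons]
    simp only [SUB_ends_cons, List.count_cons]
    rcases lt_trichotomy q n with h | h | h
    · have h3 : n ≠ q := by omega
      have h4 := h2 (by omega)
      simp [h3, h4]
    · subst h
      have h4 := h2 (by omega)
      rw [h4]
      cases c <;> simp
    · have h3 : n ≠ q := by omega
      constructor
      · simp [h3, h1]
      · intro h5
        omega

theorem SUB_simp {E : List (ℕ × ℕ)} (h : SimpD 3 E) : SimpD 3 (subE E) := by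
  rw [SUB_s_zero]
  refine ⟨fun f hf => (SUB_s_tag E 0 f hf).2.2, SUB_s_pw E 0, ?_⟩
  rintro (u | ⟨q, c⟩)
  · rw [SUB_cntl]
    exact h.2.2 u
  · exact (SUB_cntr q c E 0).1.trans (by norm_num)

theorem SUB_mem_ends (E : List (ℕ × ℕ)) : ∀ n, ∀ x ∈ endsE (SUB_s n E),
    (∃ u ∈ endsE E, x = Sum.inl u) ∨ (∃ q c, q < n + E.length ∧ x = Sum.inr (q, c)) := by
  induction E with
  | nil => intro n x hx; simp [SUB_s, endsE] at hx
  | cons e E ih =>
    intro n x hx
    rw [SUB_s_cons] at hx
    simp only [SUB_ends_cons, List.mem_cons] at hx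
    rw [SUB_ends_cons, List.length_cons]
    rcases hx with rfl | rfl | rfl | rfl | rfl | rfl | hx
    · exact Or.inl ⟨e.1, by simp, rfl⟩
    · exact Or.inr ⟨n, false, by omega, rfl⟩
    · exact Or.inr ⟨n, false, by omega, rfl⟩
    · exact Or.inr ⟨n, true, by omega, rfl⟩
    · exact Or.inr ⟨n, true, by omega, rfl⟩
    · exact Or.inl ⟨e.2, by simp, rfl⟩
    · rcases ih (n + 1) x hx with ⟨u, hu, rfl⟩ | ⟨q, c, hq, rfl⟩
      · exact Or.inl ⟨u, by simp [hu], rfl⟩
      · exact Or.inr ⟨q, c, by omega, rfl⟩

theorem SUB_nv (E : List (ℕ × ℕ)) : nvE (subE E) ≤ nvE E + 2 * E.length := by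
  unfold nvE
  have h : (endsE (subE E)).toFinset ⊆ (endsE E).toFinset.image Sum.inl ∪
      ((Finset.range E.length) ×ˢ (Finset.univ : Finset Bool)).image Sum.inr := by
    intro x hx
    rw [List.mem_toFinset, SUB_s_zero] at hx
    rw [Finset.mem_union, Finset.mem_image, Finset.mem_image]
    rcases SUB_mem_ends E 0 x hx with ⟨u, hu, rfl⟩ | ⟨q, c, hq, rfl⟩
    · exact Or.inl ⟨u, List.mem_toFinset.2 hu, rfl⟩
    · refine Or.inr ⟨(q, c), ?_, rfl⟩
      rw [Finset.mem_product]
      exact ⟨Finset.mem_range.2 (by simpa using hq), Finset.mem_univ _⟩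
  refine (Finset.card_le_card h).trans ((Finset.card_union_le _ _).trans ?_)
  have h1 := Finset.card_image_le (s := (endsE E).toFinset) (f := (Sum.inl : ℕ → SubV))
  have h2 := Finset.card_image_le (s := (Finset.range E.length) ×ˢ (Finset.univ : Finset Bool))
    (f := (Sum.inr : ℕ × Bool → SubV))
  rw [Finset.card_product, Finset.card_range, Finset.card_univ, Fintype.card_bool] at h2
  omega

/-! ### Cuts -/

theorem SUB_x (a : SubV → Bool) (u v n : ℕ) :
    (if cutE a (Sum.inr (n, true), Sum.inl v) = true then 1 else 0) +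
      (if cutE a (Sum.inr (n, false), Sum.inr (n, true)) = true then 1 else 0) +
      (if cutE a (Sum.inl u, Sum.inr (n, false)) = true then 1 else 0) ≤
      2 + (if cutE (fun v => a (Sum.inl v)) (u, v) = true then 1 else 0) := by
  rcases Bool.eq_false_or_eq_true (a (Sum.inl u)) with h1 | h1 <;>
    rcases Bool.eq_false_or_eq_true (a (Sum.inl v)) with h2 | h2 <;>
    rcases Bool.eq_false_or_eq_true (a (Sum.inr (n, false))) with h3 | h3 <;>
    rcases Bool.eq_false_or_eq_true (a (Sum.inr (n, true))) with h4 | h4 <;>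
    simp [cutE, h1, h2, h3, h4]

theorem SUB_cut_le (a : SubV → Bool) (E : List (ℕ × ℕ)) : ∀ n,
    (SUB_s n E).countP (cutE a) ≤ 2 * E.length + E.countP (cutE (fun v => a (Sum.inl v))) := by
  induction E with
  | nil => intro n; simp [SUB_s]
  | cons e E ih =>
    intro n
    have h := ih (n + 1)
    have h2 := SUB_x a e.1 e.2 n
    rw [SUB_s_cons]
    simp only [List.countP_cons, List.length_cons]
    simp only [Prod.mk.eta] at h2
    omega

theorem SUB_y (a : ℕ → Bool) (w : ℕ → Bool) (u v n : ℕ) (h : w n = a u) :
    (if cutE (Sum.elim a (fun qc : ℕ × Bool => bif qc.2 then w qc.1 else !(w qc.1)))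
      ((Sum.inr (n, true) : SubV), Sum.inl v) = true then 1 else 0) +
      (if cutE (Sum.elim a (fun qc : ℕ × Bool => bif qc.2 then w qc.1 else !(w qc.1)))
      ((Sum.inr (n, false) : SubV), Sum.inr (n, true)) = true then 1 else 0) +
      (if cutE (Sum.elim a (fun qc : ℕ × Bool => bif qc.2 then w qc.1 else !(w qc.1)))
      ((Sum.inl u : SubV), Sum.inr (n, false)) = true then 1 else 0) =
      2 + (if cutE a (u, v) = true then 1 else 0) := by
  rcases Bool.eq_false_or_eq_true (a u) with h1 | h1 <;>
    rcases Bool.eq_false_or_eq_true (a v) with h2 | h2 <;>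
    simp [cutE, h, h1, h2]

theorem SUB_cut_eq (a : ℕ → Bool) (w : ℕ → Bool) (E : List (ℕ × ℕ)) : ∀ n,
    (∀ i e, E[i]? = some e → w (n + i) = a e.1) →
    (SUB_s n E).countP (cutE (Sum.elim a (fun qc => bif qc.2 then w qc.1 else !(w qc.1)))) =
      2 * E.length + E.countP (cutE a) := by
  induction E with
  | nil => intro n _; simp [SUB_s]
  | cons e E ih =>
    intro n hw
    have h := ih (n + 1) (fun i e' he => by
      rw [show n + 1 + i = n + (i + 1) by omega]
      exact hw (i + 1) e' (by simpa using he))
    have h0 : w n = a e.1 := hw 0 e (by simp)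
    have h2 := SUB_y a w e.1 e.2 n h0
    rw [SUB_s_cons]
    simp only [List.countP_cons, List.length_cons, h]
    simp only [Prod.mk.eta] at h2
    omega

theorem SUB_pair (l : List (ℕ × ℕ)) (p q : ℕ × ℕ → Bool) (h : ∀ e ∈ l, p e = !(q e)) :
    l.countP p + l.countP q = l.length := by
  induction l with
  | nil => rfl
  | cons e l ih =>
    have h1 := ih (fun e' he' => h e' (List.mem_cons_of_mem _ he'))
    have h2 := h e List.mem_cons_self
    rw [List.countP_cons, List.countP_cons, List.length_cons, h2]
    rcases q e with _ | _ <;> simp <;> omega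

theorem SUB_half' (n : ℕ) : ∀ E : List (ℕ × ℕ), (∀ e ∈ E, e.1 ≠ e.2) →
    (∀ e ∈ E, e.1 < n ∧ e.2 < n) → ∃ a : ℕ → Bool, E.length ≤ 2 * E.countP (cutE a) := by
  induction n with
  | zero =>
    intro E _ h
    rcases E with _ | ⟨e, E⟩
    · exact ⟨fun _ => false, by simp⟩
    · have := (h e List.mem_cons_self).1
      omega
  | succ n ih =>
    intro E hne hlt
    obtain ⟨P, hP⟩ : ∃ P : ℕ × ℕ → Bool, P = fun e => decide (e.1 = n ∨ e.2 = n) := ⟨_, rfl⟩
    obtain ⟨a, ha⟩ := ih (E.filter (fun e => !(P e)))
      (fun e he => hne e (List.mem_of_mem_filter he)) (fun e he => by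
        have h1 := hlt e (List.mem_of_mem_filter he)
        have h2 := (List.mem_filter.1 he).2
        rw [hP] at h2
        simp only [Bool.not_eq_true', decide_eq_false_iff_not, not_or] at h2
        omega)
    have hrest : ∀ b : Bool, (E.filter (fun e => !(P e))).countP
        (cutE (Function.update a n b)) = (E.filter (fun e => !(P e))).countP (cutE a) := by
      intro b
      refine List.countP_congr fun e he => ?_
      have h2 := (List.mem_filter.1 he).2
      rw [hP] at h2
      simp only [Bool.not_eq_true', decide_eq_false_iff_not, not_or] at h2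
      unfold cutE
      rw [Function.update_of_ne h2.1, Function.update_of_ne h2.2]
    have hpair := SUB_pair (E.filter P) (cutE (Function.update a n true))
      (cutE (Function.update a n false)) (fun e he => by
        have h1 := hne e (List.mem_of_mem_filter he)
        have h2 := (List.mem_filter.1 he).2
        rw [hP] at h2
        simp only [decide_eq_true_eq] at h2
        unfold cutE
        rcases h2 with h2 | h2
        · have h3 : e.2 ≠ n := fun h => h1 (h2.trans h.symm)
          rw [h2, Function.update_self, Function.update_self, Function.update_of_ne h3,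
            Function.update_of_ne h3]
          rcases a e.2 with _ | _ <;> rfl
        · have h3 : e.1 ≠ n := fun h => h1 (h.trans h2.symm)
          rw [h2, Function.update_self, Function.update_self, Function.update_of_ne h3,
            Function.update_of_ne h3]
          rcases a e.1 with _ | _ <;> rfl)
    have hlen : E.length = (E.filter P).length + (E.filter (fun e => !(P e))).length := by
      rw [← List.countP_eq_length_filter, ← List.countP_eq_length_filter]
      have := List.length_eq_countP_add_countP (p := P) (l := E)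
      simpa using this
    have hcnt : ∀ b : Bool, E.countP (cutE (Function.update a n b)) =
        (E.filter P).countP (cutE (Function.update a n b)) +
          (E.filter (fun e => !(P e))).countP (cutE a) := by
      intro b
      rw [← hrest b]
      exact List.countP_eq_countP_filter_add E (cutE (Function.update a n b)) P
    rcases Nat.lt_or_ge ((E.filter P).countP (cutE (Function.update a n true)))
      ((E.filter P).countP (cutE (Function.update a n false))) with h | h
    · refine ⟨Function.update a n false, ?_⟩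
      rw [hcnt, hlen]
      omega
    · refine ⟨Function.update a n true, ?_⟩
      rw [hcnt, hlen]
      omega

theorem SUB_half (E : List (ℕ × ℕ)) (h : ∀ e ∈ E, e.1 ≠ e.2) :
    ∃ a : ℕ → Bool, E.length ≤ 2 * E.countP (cutE a) := by
  refine SUB_half' ((E.flatMap (fun e => [e.1, e.2])).sum + 1) E h fun e he => ?_
  have h1 : e.1 ∈ E.flatMap (fun e => [e.1, e.2]) :=
    List.mem_flatMap.2 ⟨e, he, by simp⟩
  have h2 : e.2 ∈ E.flatMap (fun e => [e.1, e.2]) :=
    List.mem_flatMap.2 ⟨e, he, by simp⟩
  have h3 := List.single_le_sum (by simp) _ h1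
  have h4 := List.single_le_sum (by simp) _ h2
  omega

/-! ### The machine -/

/-- the subdivided graph in words -/
def SUB_W (G : List (List (List Bool))) : List (List (List Bool)) :=
  G.zipIdx.flatMap (fun p => [[nb (p.1.headD []) 0, nb (List.replicate p.2 false) 1],
    [nb (List.replicate p.2 false) 1, nb (List.replicate p.2 false) 2],
    [nb (List.replicate p.2 false) 2, nb (p.1.tail.headD []) 0]])

theorem SUB_W_ptime {α : Type} [SCode α] {G : α → List (List (List Bool))} (hG : PTime G) :
    PTime (fun a => SUB_W (G a)) := by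
  unfold SUB_W
  have h1 : PTime (fun z : α × (List (List Bool) × ℕ) => z.2.1) := PTime.fst.comp PTime.snd
  have h2 : PTime (fun z : α × (List (List Bool) × ℕ) => z.2.2) := PTime.snd.comp PTime.snd
  have hq : PTime (fun z : α × (List (List Bool) × ℕ) => List.replicate z.2.2 false) :=
    PTime.replicate h2 (PTime.const false)
  have hu : PTime (fun z : α × (List (List Bool) × ℕ) => nb (z.2.1.headD []) 0) :=
    nb_ptime (PTime.headD h1 (PTime.const [])) (PTime.const 0)
  have hv : PTime (fun z : α × (List (List Bool) × ℕ) => nb (z.2.1.tail.headD []) 0) :=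
    nb_ptime (PTime.headD (PTime.tail h1) (PTime.const [])) (PTime.const 0)
  have hf : PTime (fun z : α × (List (List Bool) × ℕ) => nb (List.replicate z.2.2 false) 1) :=
    nb_ptime hq (PTime.const 1)
  have ht : PTime (fun z : α × (List (List Bool) × ℕ) => nb (List.replicate z.2.2 false) 2) :=
    nb_ptime hq (PTime.const 2)
  have hn : PTime (fun _ : α × (List (List Bool) × ℕ) => ([] : List (List Bool))) :=
    PTime.const []
  have hn' : PTime (fun _ : α × (List (List Bool) × ℕ) => ([] : List (List (List Bool)))) :=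
    PTime.const []
  exact PTime.flatMap (l := fun a => (G a).zipIdx)
    (f := fun _ (p : List (List Bool) × ℕ) =>
      [[nb (p.1.headD []) 0, nb (List.replicate p.2 false) 1],
      [nb (List.replicate p.2 false) 1, nb (List.replicate p.2 false) 2],
      [nb (List.replicate p.2 false) 2, nb (p.1.tail.headD []) 0]]) (PTime.zipIdx hG)
    (PTime.cons (PTime.cons hu (PTime.cons hf hn))
      (PTime.cons (PTime.cons hf (PTime.cons ht hn))
        (PTime.cons (PTime.cons ht (PTime.cons hv hn)) hn')))

theorem SUB_bits_l (v : ℕ) : Nat.bits (nuS (Sum.inl v)) = nb (Nat.bits v) 0 := by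
  obtain ⟨u, hu⟩ := nb_end (Nat.bits v) 0
  unfold nuS
  rw [Sum.elim_inl, hu, bits_unbits]

theorem SUB_bits_r (q : ℕ) (c : Bool) : Nat.bits (nuS (Sum.inr (q, c))) =
    nb (List.replicate q false) (bif c then 2 else 1) := by
  obtain ⟨u, hu⟩ := nb_end (List.replicate q false) (bif c then 2 else 1)
  unfold nuS
  rw [Sum.elim_inr]
  simp only
  rw [hu, bits_unbits]

theorem SUB_word (E : List (ℕ × ℕ)) :
    (mapE nuS (subE E)).map wordE = SUB_W (E.map wordE) := by
  unfold mapE subE SUB_W
  rw [List.map_map, List.map_flatMap, List.zipIdx_map, List.flatMap_map]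
  refine List.flatMap_congr fun p _ => ?_
  simp only [List.map_cons, List.map_nil, Function.comp, Prod.map_fst, Prod.map_snd, id_eq]
  unfold wordE
  simp only [SUB_bits_l, SUB_bits_r, cond_true, cond_false, List.headD_cons, List.tail_cons]

theorem SUB_parse (t : ℕ) (E : List (ℕ × ℕ)) :
    parseW (enCut (t, E)) = [List.replicate t true] :: E.map wordE := by
  unfold enCut
  rw [parseW_encW]

theorem SUB_len (t : ℕ) (E : List (ℕ × ℕ)) : 2 * E.length ≤ (enCut (t, E)).length := by
  unfold enCut
  refine le_trans ?_ (encW_length _)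
  have h1 : ∀ E : List (ℕ × ℕ), ((E.map wordE).map List.length).sum = 2 * E.length := by
    intro E
    induction E with
    | nil => rfl
    | cons e E ih =>
      rw [List.map_cons, List.map_cons, List.sum_cons, ih]
      unfold wordE
      simp only [List.length_cons, List.length_nil]
      omega
  rw [List.map_cons, List.sum_cons, h1]
  dsimp only
  omega

theorem SUB_deg {E : List (ℕ × ℕ)} (h : SimpD 3 E) : 2 * E.length ≤ 3 * nvE E := by
  have h1 : (endsE E).length = 2 * E.length := length_ends E
  rw [← h1]
  unfold nvE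
  rw [← List.sum_toFinset_count_eq_length, Nat.mul_comm, ← smul_eq_mul]
  exact Finset.sum_le_card_nsmul _ _ _ fun v _ => h.2.2 v

theorem p_SUB : S_RNG → S_INJ → S_SUB := by
  intro hrng hinj p q b hp hpq hb hsep
  have hq : 0 < q := by omega
  have hS : Function.Injective nuS := hinj.2.2.2.1
  have hcol := hinj.2.2.2.2
  have hf : PTime (fun x => encW ([List.replicate (thI x + 2 * (parseW x).tail.length) true] ::
      SUB_W (parseW x).tail)) :=
    encW_ptime (PTime.cons (PTime.cons (PTime.replicate (PTime.add thI_ptime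
      (PTime.mul (PTime.const 2) (PTime.length (PTime.tail parseW_ptime)))) (PTime.const true))
      (PTime.const [])) (SUB_W_ptime (PTime.tail parseW_ptime)))
  have hh : PTime (fun x => mydiv (ded (parseW x).tail.flatten).length b) :=
    mydiv_ptime (PTime.length (ded_ptime (PTime.flatten (PTime.tail parseW_ptime))))
      (PTime.const b)
  refine transfer hf hh ?_ ?_ hsep
  · rintro ⟨t, E⟩ _
    refine le_trans ?_ (SUB_len t E)
    unfold nvCut
    refine (List.toFinset_card_le _).trans ?_
    rw [length_ends]
  · rintro ⟨t, E⟩ hV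
    have hV' : SimpD 3 E := hV
    obtain ⟨r1, -, r3, r4, r5⟩ := hrng SubV ℕ nuS hS (subE E)
    have hth : thI (enCut (t, E)) = t := by
      unfold thI
      rw [SUB_parse]
      simp
    have hmu : (ded (parseW (enCut (t, E))).tail.flatten).length = nvCut (t, E) := by
      rw [SUB_parse, List.tail_cons, nvCut_eq E t]
    refine ⟨(t + 2 * E.length, mapE nuS (subE E)), ⟨r1 3 (SUB_simp hV'), ?_⟩, ?_, ?_, ?_, ?_, ?_⟩
    · intro e he
      obtain ⟨e', he', rfl⟩ := List.mem_map.1 he
      simp only [hcol]
      unfold subE at he'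
      obtain ⟨eq, -, he'⟩ := List.mem_flatMap.1 he'
      simp only [List.mem_cons, List.not_mem_nil, or_false] at he'
      rcases he' with rfl | rfl | rfl <;> simp
    · rw [hth, SUB_parse, List.tail_cons, List.length_map, ← SUB_word]
      rfl
    · rintro ⟨a, ha⟩
      simp only at ha
      obtain ⟨a', ha'⟩ := r5 (Sum.elim a (fun qc =>
        bif qc.2 then a (E.getD qc.1 (0, 0)).1 else !(a (E.getD qc.1 (0, 0)).1)))
      refine ⟨a', ?_⟩
      simp only
      rw [(r4 a').1, show (fun v => a' (nuS v)) = (Sum.elim a (fun qc =>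
        bif qc.2 then a (E.getD qc.1 (0, 0)).1 else !(a (E.getD qc.1 (0, 0)).1))) from
          funext ha', SUB_s_zero,
        SUB_cut_eq a (fun i => a (E.getD i (0, 0)).1) E 0 (fun i e he => by
          simp only [Nat.zero_add]
          rw [List.getD_eq_getElem?_getD, he]
          rfl)]
      omega
    · intro hN a'
      simp only
      rw [(r4 a').1, lt_frac_iff (by omega)]
      have h1 := SUB_cut_le (fun v => a' (nuS v)) E 0
      rw [← SUB_s_zero] at h1
      have h2 := hN (fun v => a' (nuS (Sum.inl v)))
      rw [lt_frac_iff hq] at h2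
      obtain ⟨a₀, ha₀⟩ := SUB_half E hV'.1
      have h3 := hN a₀
      rw [lt_frac_iff hq] at h3
      simp only at h2 h3
      have h4 : E.countP (cutE a₀) < t := by
        by_contra h
        have := Nat.mul_le_mul_left q (not_lt.1 h)
        omega
      have h5 : E.length ≤ 2 * t := by omega
      have h6 := Nat.mul_le_mul_left p h5
      have h7 := Nat.mul_le_mul_left (5 * q) h1
      have e1 : 5 * q * (2 * E.length + E.countP (cutE (fun v => a' (nuS (Sum.inl v))))) =
          5 * q * (2 * E.length) + 5 * (q * E.countP (cutE (fun v => a' (nuS (Sum.inl v))))) := by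
        ring
      have e2 : p * (t + 2 * E.length) = p * t + 2 * (p * E.length) := by ring
      have e3 : 5 * q * (t + 2 * E.length) = 5 * (q * t) + 5 * q * (2 * E.length) := by ring
      have e4 : p * (2 * t) = 2 * (p * t) := by ring
      rw [e1] at h7
      rw [e2, e3]
      rw [e4] at h6
      omega
    · rw [hmu, mydiv_eq hb]
      have h1 : nvCut (t + 2 * E.length, mapE nuS (subE E)) ≤ 4 * nvCut (t, E) := by
        have h2 : nvE (mapE nuS (subE E)) ≤ 4 * nvE E := by
          rw [r3]
          have h3 := SUB_nv E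
          have h4 := SUB_deg hV'
          omega
        exact h2
      have h2 := Nat.div_le_div_right (c := 4 * b) h1
      rwa [Nat.mul_div_mul_left _ _ (by norm_num)] at h2
    · rw [hmu, mydiv_eq hb]

end Pool.Agent.Lib.MP_87d05f_lc.HG
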